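import Mathlib

set_option autoImplicit false

/-!
Basic geometry of the hypercube: vertices, edges, faces.
-/

namespace Pool.Agent.Q2F

variable {d : ℕ}

/-- vertices -/
abbrev Vx (d : ℕ) := Fin d → Bool

/-- edges: `(x, i)` with `x i = false` -/
abbrev Edge (d : ℕ) := {p : (Fin d → Bool) × Fin d // p.1 p.2 = false}

/-- flip a coordinate -/
def fl (x : Vx d) (i : Fin d) : Vx d := Function.update x i (!x i)

/-- the edge at `x` in direction `i` -/
def ed (x : Vx d) (i : Fin d) : Edge d := ⟨(Function.update x i false, i), by simp⟩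

theorem fl_apply (x : Vx d) (i j : Fin d) : fl x i j = if j = i then !x j else x j := by
  unfold fl
  by_cases h : j = i
  · subst h; simp
  · simp [h]

@[simp] theorem fl_fl (x : Vx d) (i : Fin d) : fl (fl x i) i = x := by
  funext j
  simp only [fl_apply]
  split_ifs <;> simp

theorem fl_comm (x : Vx d) (i j : Fin d) : fl (fl x i) j = fl (fl x j) i := by
  funext k
  simp only [fl_apply]
  split_ifs <;> simp

theorem fl_ne (x : Vx d) (i : Fin d) : fl x i ≠ x := by
  intro h
  have := congrFun h i
  simp [fl_apply] at this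

theorem ne_fl (x : Vx d) (i : Fin d) : x ≠ fl x i := (fl_ne x i).symm

theorem fl_inj {x y : Vx d} {i : Fin d} (h : fl x i = fl y i) : x = y := by
  have := congrArg (fun z => fl z i) h
  simpa using this

theorem fl_left_inj {x : Vx d} {i j : Fin d} : fl x i = fl x j ↔ i = j := by
  constructor
  · intro h
    have := congrFun h i
    simp only [fl_apply, if_true] at this
    by_contra hij
    simp [hij] at this
  · rintro rfl; rfl

/-- parity of a vertex -/
def par (x : Vx d) : ZMod 2 := ∑ i, if x i then 1 else 0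

theorem par_fl (x : Vx d) (i : Fin d) : par (fl x i) = par x + 1 := by
  unfold par
  rw [← Finset.add_sum_erase _ _ (Finset.mem_univ i), ← Finset.add_sum_erase _ _ (Finset.mem_univ i)]
  have h1 : ∑ j ∈ Finset.univ.erase i, (if fl x i j then (1 : ZMod 2) else 0)
      = ∑ j ∈ Finset.univ.erase i, (if x j then (1 : ZMod 2) else 0) := by
    apply Finset.sum_congr rfl
    intro j hj
    have : j ≠ i := (Finset.mem_erase.mp hj).1
    simp [fl_apply, this]
  rw [h1]
  have h2 : (if fl x i i then (1 : ZMod 2) else 0) = (if x i then 1 else 0) + 1 := by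
    simp only [fl_apply, if_true]
    cases x i
    · simp
    · simp; decide
  rw [h2]; ring

theorem par_ne (x : Vx d) (i : Fin d) : par (fl x i) ≠ par x := by
  rw [par_fl]
  generalize par x = a
  revert a
  decide

theorem fl_fl_apply_left {x : Vx d} {a b : Fin d} (hab : a ≠ b) :
    fl (fl x a) b a = !x a := by
  simp [fl_apply, hab]

theorem fl_fl_eq {x : Vx d} {a b c e : Fin d} (hab : a ≠ b) (h : fl (fl x a) b = fl (fl x c) e) :
    (a = c ∧ b = e) ∨ (a = e ∧ b = c) := by
  have hce : c ≠ e := by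
    rintro rfl
    rw [fl_fl] at h
    have := congrFun h a
    rw [fl_fl_apply_left hab] at this
    simp at this
  have ha : a = c ∨ a = e := by
    by_contra hcon
    push Not at hcon
    have := congrFun h a
    rw [fl_fl_apply_left hab] at this
    simp [fl_apply, hcon.1, hcon.2] at this
  have hb : b = c ∨ b = e := by
    by_contra hcon
    push Not at hcon
    have := congrFun h b
    rw [fl_comm, fl_fl_apply_left hab.symm] at this
    simp [fl_apply, hcon.1, hcon.2] at this
  rcases ha with rfl | rfl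
  · rcases hb with rfl | rfl
    · exact absurd rfl hab
    · exact Or.inl ⟨rfl, rfl⟩
  · rcases hb with rfl | rfl
    · exact Or.inr ⟨rfl, rfl⟩
    · exact absurd rfl hab

theorem ed_fl (x : Vx d) (i : Fin d) : ed (fl x i) i = ed x i := by
  unfold ed
  apply Subtype.ext
  simp only [Prod.mk.injEq, and_true]
  funext j
  by_cases h : j = i
  · subst h; simp
  · simp [h, fl_apply]

theorem ed_eq_iff {x y : Vx d} {i j : Fin d} :
    ed x i = ed y j ↔ i = j ∧ (x = y ∨ x = fl y i) := by
  constructor
  · intro h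
    unfold ed at h
    have h' := congrArg Subtype.val h
    simp only [Prod.mk.injEq] at h'
    obtain ⟨h1, rfl⟩ := h'
    refine ⟨rfl, ?_⟩
    have key : ∀ k, k ≠ i → x k = y k := by
      intro k hk
      have := congrFun h1 k
      simpa [hk] using this
    by_cases hx : x i = y i
    · left
      funext k
      by_cases hk : k = i
      · subst hk; exact hx
      · exact key k hk
    · right
      funext k
      by_cases hk : k = i
      · subst hk
        simp only [fl_apply, if_true]
        cases hxk : x k <;> cases hyk : y k <;> simp_all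
      · simp [fl_apply, hk, key k hk]
  · rintro ⟨rfl, h | h⟩
    · rw [h]
    · rw [h, ed_fl]

/-- direction of an edge -/
def dir (e : Edge d) : Fin d := e.1.2

/-- base point of an edge -/
def bs (e : Edge d) : Vx d := e.1.1

@[simp] theorem dir_ed (x : Vx d) (i : Fin d) : dir (ed x i) = i := rfl

theorem ed_bs (e : Edge d) : ed (bs e) (dir e) = e := by
  obtain ⟨⟨x, i⟩, h⟩ := e
  unfold ed bs dir
  apply Subtype.ext
  simp only [Prod.mk.injEq, and_true] at h ⊢
  funext j
  by_cases hj : j = i
  · subst hj; simp [h]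
  · simp [hj]

theorem exists_ed (e : Edge d) : ∃ x i, e = ed x i := ⟨bs e, dir e, (ed_bs e).symm⟩

theorem bs_ed (x : Vx d) (i : Fin d) : bs (ed x i) = x ∨ bs (ed x i) = fl x i := by
  have h := ed_bs (ed x i)
  rw [dir_ed] at h
  exact (ed_eq_iff.mp h).2

/-- the three other edges of the face spanned by `e` and direction `r` -/
def nb (e : Edge d) (r : Fin d) : Finset (Edge d) :=
  {ed (bs e) r, ed (fl (bs e) (dir e)) r, ed (fl (bs e) r) (dir e)}

theorem nb_ed (x : Vx d) (p r : Fin d) :
    nb (ed x p) r = {ed x r, ed (fl x p) r, ed (fl x r) p} := by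
  unfold nb
  rw [dir_ed]
  rcases bs_ed x p with h | h
  · rw [h]
  · rw [h, fl_fl, fl_comm x p r, ed_fl]
    ext f
    simp only [Finset.mem_insert, Finset.mem_singleton]
    tauto

theorem mem_nb_ed {x : Vx d} {p r : Fin d} {f : Edge d} :
    f ∈ nb (ed x p) r ↔ f = ed x r ∨ f = ed (fl x p) r ∨ f = ed (fl x r) p := by
  rw [nb_ed]; simp

theorem not_mem_nb {e : Edge d} {r : Fin d} (hr : r ≠ dir e) : e ∉ nb e r := by
  obtain ⟨x, p, rfl⟩ := exists_ed e
  rw [dir_ed] at hr
  rw [mem_nb_ed]
  rintro (h | h | h)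
  · exact hr (ed_eq_iff.mp h).1.symm
  · exact hr (ed_eq_iff.mp h).1.symm
  · obtain ⟨_, h | h⟩ := ed_eq_iff.mp h
    · exact ne_fl x r h
    · rw [eq_comm, fl_comm] at h
      have h2 : fl x p = fl x r := by
        have := congrArg (fun z => fl z r) h
        simpa using this
      exact hr (fl_left_inj.mp h2).symm

theorem card_nb {e : Edge d} {r : Fin d} (hr : r ≠ dir e) : (nb e r).card = 3 := by
  obtain ⟨x, p, rfl⟩ := exists_ed e
  rw [dir_ed] at hr
  rw [nb_ed]
  have h1 : ed x r ≠ ed (fl x p) r := by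
    intro h
    obtain ⟨_, h | h⟩ := ed_eq_iff.mp h
    · exact ne_fl x p h
    · have h2 : fl x r = fl x p := by
        have := congrArg (fun z => fl z r) h
        simpa using this
      exact hr (fl_left_inj.mp h2)
  have h2 : ed x r ≠ ed (fl x r) p := fun h => hr (ed_eq_iff.mp h).1
  have h3 : ed (fl x p) r ≠ ed (fl x r) p := fun h => hr (ed_eq_iff.mp h).1
  rw [Finset.card_eq_three]
  exact ⟨_, _, _, h1, h2, h3, rfl⟩

/-- two co-facial edges determine the direction -/
theorem nb_disjoint {e : Edge d} {r s : Fin d} (hr : r ≠ dir e) (hs : s ≠ dir e) (hrs : r ≠ s) :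
    Disjoint (nb e r) (nb e s) := by
  obtain ⟨x, p, rfl⟩ := exists_ed e
  rw [dir_ed] at hr hs
  rw [Finset.disjoint_left]
  intro f hf hf'
  rw [mem_nb_ed] at hf hf'
  rcases hf with rfl | rfl | rfl <;> rcases hf' with h | h | h
  · exact hrs (ed_eq_iff.mp h).1
  · exact hrs (ed_eq_iff.mp h).1
  · exact hr (ed_eq_iff.mp h).1
  · exact hrs (ed_eq_iff.mp h).1
  · exact hrs (ed_eq_iff.mp h).1
  · exact hr (ed_eq_iff.mp h).1
  · exact hs (ed_eq_iff.mp h).1.symm
  · exact hs (ed_eq_iff.mp h).1.symm
  · obtain ⟨_, h | h⟩ := ed_eq_iff.mp h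
    · exact hrs (fl_left_inj.mp h)
    · rcases eq_or_ne s p with h' | h'
      · exact hs h'
      · have hpar := congrArg par h
        rw [par_fl, par_fl, par_fl] at hpar
        generalize par x = a at hpar
        revert a
        decide

/-- the face relation is symmetric -/
theorem nb_symm {e f : Edge d} {r : Fin d} (hr : r ≠ dir e) (hf : f ∈ nb e r) :
    ∃ s, s ≠ dir f ∧ e ∈ nb f s ∧ (nb f s).erase e = (nb e r).erase f := by
  obtain ⟨x, p, rfl⟩ := exists_ed e
  rw [dir_ed] at hr
  have key : ∀ (a b c g : Edge d), a ≠ b → a ≠ c → b ≠ c → g ≠ a → g ≠ b → g ≠ c →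
      ({a, b, c} : Finset (Edge d)).erase a = {b, c} ∧
      ({a, b, c} : Finset (Edge d)).erase b = {a, c} ∧
      ({a, b, c} : Finset (Edge d)).erase c = {a, b} := by
    intro a b c g h1 h2 h3 _ _ _
    refine ⟨?_, ?_, ?_⟩
    · ext f; simp only [Finset.mem_erase, Finset.mem_insert, Finset.mem_singleton]
      constructor
      · rintro ⟨h, h' | h' | h'⟩ <;> simp_all
      · rintro (rfl | rfl) <;> simp_all [eq_comm]
    · ext f; simp only [Finset.mem_erase, Finset.mem_insert, Finset.mem_singleton]
      constructor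
      · rintro ⟨h, h' | h' | h'⟩ <;> simp_all
      · rintro (rfl | rfl) <;> simp_all [eq_comm]
    · ext f; simp only [Finset.mem_erase, Finset.mem_insert, Finset.mem_singleton]
      constructor
      · rintro ⟨h, h' | h' | h'⟩ <;> simp_all
      · rintro (rfl | rfl) <;> simp_all [eq_comm]
  have hcard := card_nb (e := ed x p) (r := r) hr
  have hnm := not_mem_nb (e := ed x p) (r := r) hr
  rw [nb_ed] at hcard hnm
  obtain ⟨h1, h2, h3⟩ : ed x r ≠ ed (fl x p) r ∧ ed x r ≠ ed (fl x r) p ∧
      ed (fl x p) r ≠ ed (fl x r) p := by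
    refine ⟨?_, ?_, ?_⟩ <;> intro h <;> rw [h] at hcard <;>
      · have := Finset.card_le_two (a := ed (fl x p) r) (b := ed (fl x r) p)
        have := Finset.card_le_two (a := ed x r) (b := ed (fl x r) p)
        have := Finset.card_le_two (a := ed (fl x r) p) (b := ed (fl x r) p)
        simp at hcard
        omega
  simp only [Finset.mem_insert, Finset.mem_singleton, not_or] at hnm
  obtain ⟨n1, n2, n3⟩ := hnm
  rw [mem_nb_ed] at hf
  obtain ⟨k1, k2, k3⟩ := key _ _ _ _ h1 h2 h3 n1 n2 n3
  rcases hf with rfl | rfl | rfl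
  · -- f = ed x r, s = p
    refine ⟨p, by rw [dir_ed]; exact hr.symm, ?_, ?_⟩
    · rw [mem_nb_ed]; left; rfl
    · rw [nb_ed x p r, k1, nb_ed x r p]
      obtain ⟨k, _, _⟩ := key (ed x p) (ed (fl x r) p) (ed (fl x p) r) (ed x r) n3 n2
        (Ne.symm h3) (Ne.symm n1) h2 h1
      rw [k, Finset.pair_comm]
  · refine ⟨p, by rw [dir_ed]; exact hr.symm, ?_, ?_⟩
    · rw [mem_nb_ed]; left; rw [ed_fl]
    · rw [nb_ed x p r, k2, nb_ed (fl x p) r p, fl_fl, ed_fl, fl_comm, ed_fl]
      obtain ⟨k, _, _⟩ := key (ed x p) (ed (fl x r) p) (ed x r) (ed (fl x p) r) n3 n1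
        (Ne.symm h2) (Ne.symm n2) h3 h1.symm
      rw [k, Finset.pair_comm]
  · refine ⟨r, by rw [dir_ed]; exact hr, ?_, ?_⟩
    · rw [mem_nb_ed]; right; right; rw [fl_fl]
    · rw [nb_ed x p r, k3, nb_ed (fl x r) p r, fl_fl, ed_fl, fl_comm, ed_fl]
      obtain ⟨_, _, k⟩ := key (ed x r) (ed (fl x p) r) (ed x p) (ed (fl x r) p) h1 (Ne.symm n1)
        (Ne.symm n2) (Ne.symm h2) (Ne.symm h3) (Ne.symm n3)
      exact k

end Pool.Agent.Q2F
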