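import Mathlib

set_option autoImplicit false

/-!
Uniform random orders of a finite set, by recursion on histories.
-/

namespace Pool.Agent.Q2F

open Finset

variable {E : Type} [Fintype E] [DecidableEq E]

/-- unborn elements -/
def rest (l : List E) : Finset E := univ.filter (fun g => g ∉ l)

theorem mem_rest {l : List E} {g : E} : g ∈ rest l ↔ g ∉ l := by simp [rest]

theorem card_rest {l : List E} (hl : l.Nodup) : (rest l).card = Fintype.card E - l.length := by
  have h1 : rest l = (l.toFinset)ᶜ := by
    ext g; simp [rest]
  rw [h1, card_compl, List.toFinset_card_of_nodup hl]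

theorem card_rest_pos {l : List E} (hl : l.Nodup) (h : l.length < Fintype.card E) :
    0 < (rest l).card := by
  rw [card_rest hl]; omega

theorem nodup_append {l : List E} {g : E} (hl : l.Nodup) (hg : g ∈ rest l) : (l ++ [g]).Nodup := by
  rw [mem_rest] at hg
  rw [List.nodup_append]
  refine ⟨hl, by simp, ?_⟩
  intro a ha b hb
  rw [List.mem_singleton] at hb
  subst hb
  rintro rfl
  exact hg ha

/-- average over the next element -/
noncomputable def av (l : List E) (F : E → ℝ) : ℝ := (∑ g ∈ rest l, F g) / (rest l).card

theorem av_mono {l : List E} {F G : E → ℝ} (h : ∀ g ∈ rest l, F g ≤ G g) : av l F ≤ av l G := by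
  unfold av
  exact div_le_div_of_nonneg_right (sum_le_sum h) (Nat.cast_nonneg _)

theorem av_congr {l : List E} {F G : E → ℝ} (h : ∀ g ∈ rest l, F g = G g) : av l F = av l G := by
  unfold av
  rw [sum_congr rfl h]

theorem av_const {l : List E} (h : 0 < (rest l).card) (c : ℝ) : av l (fun _ => c) = c := by
  unfold av
  rw [sum_const, nsmul_eq_mul]
  have : ((rest l).card : ℝ) ≠ 0 := by exact_mod_cast h.ne'
  field_simp

theorem av_add (l : List E) (F G : E → ℝ) : av l (fun g => F g + G g) = av l F + av l G := by
  unfold av
  rw [sum_add_distrib, add_div]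

theorem av_mul_left (l : List E) (c : ℝ) (F : E → ℝ) : av l (fun g => c * F g) = c * av l F := by
  unfold av
  rw [← mul_sum, mul_div_assoc]

theorem av_nonneg {l : List E} {F : E → ℝ} (h : ∀ g ∈ rest l, 0 ≤ F g) : 0 ≤ av l F := by
  unfold av
  exact div_nonneg (sum_nonneg h) (Nat.cast_nonneg _)

theorem av_sum {ι : Type*} (l : List E) (s : Finset ι) (F : ι → E → ℝ) :
    av l (fun g => ∑ i ∈ s, F i g) = ∑ i ∈ s, av l (F i) := by
  unfold av
  rw [sum_comm, sum_div]

/-- expectation of `F` after `n` more steps from the history `l` -/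
noncomputable def Ex (F : List E → ℝ) : ℕ → List E → ℝ
  | 0, l => F l
  | n + 1, l => av l (fun g => Ex F n (l ++ [g]))

@[simp] theorem Ex_zero (F : List E → ℝ) (l : List E) : Ex F 0 l = F l := rfl

theorem Ex_succ (F : List E → ℝ) (n : ℕ) (l : List E) :
    Ex F (n + 1) l = av l (fun g => Ex F n (l ++ [g])) := rfl

theorem Ex_mono {F G : List E → ℝ} {n : ℕ} {l : List E} (hl : l.Nodup)
    (h : ∀ m : List E, m.length = n → (l ++ m).Nodup → F (l ++ m) ≤ G (l ++ m)) :
    Ex F n l ≤ Ex G n l := by
  induction n generalizing l with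
  | zero => simpa using h [] rfl (by simpa using hl)
  | succ n ih =>
    rw [Ex_succ, Ex_succ]
    apply av_mono
    intro g hg
    apply ih (nodup_append hl hg)
    intro m hm hnd
    have := h (g :: m) (by simp [hm]) (by simpa using hnd)
    simpa using this

theorem Ex_congr {F G : List E → ℝ} {n : ℕ} {l : List E} (hl : l.Nodup)
    (h : ∀ m : List E, m.length = n → (l ++ m).Nodup → F (l ++ m) = G (l ++ m)) :
    Ex F n l = Ex G n l :=
  le_antisymm (Ex_mono hl fun m h1 h2 => (h m h1 h2).le) (Ex_mono hl fun m h1 h2 => (h m h1 h2).ge)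

theorem Ex_const {n : ℕ} {l : List E} (hl : l.Nodup) (h : l.length + n ≤ Fintype.card E) (c : ℝ) :
    Ex (fun _ => c) n l = c := by
  induction n generalizing l with
  | zero => rfl
  | succ n ih =>
    rw [Ex_succ]
    have h1 : av l (fun g => Ex (fun _ => c) n (l ++ [g])) = av l (fun _ => c) := by
      apply av_congr
      intro g hg
      exact ih (nodup_append hl hg) (by simp; omega)
    rw [h1, av_const (card_rest_pos hl (by omega))]

theorem Ex_add (F G : List E → ℝ) (n : ℕ) (l : List E) :
    Ex (fun l => F l + G l) n l = Ex F n l + Ex G n l := by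
  induction n generalizing l with
  | zero => rfl
  | succ n ih =>
    rw [Ex_succ, Ex_succ, Ex_succ, ← av_add]
    apply av_congr
    intro g _
    exact ih _

theorem Ex_mul_left (c : ℝ) (F : List E → ℝ) (n : ℕ) (l : List E) :
    Ex (fun l => c * F l) n l = c * Ex F n l := by
  induction n generalizing l with
  | zero => rfl
  | succ n ih =>
    rw [Ex_succ, Ex_succ, ← av_mul_left]
    apply av_congr
    intro g _
    exact ih _

theorem Ex_sum {ι : Type*} (s : Finset ι) (F : ι → List E → ℝ) (n : ℕ) (l : List E) :
    Ex (fun l => ∑ i ∈ s, F i l) n l = ∑ i ∈ s, Ex (F i) n l := by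
  induction n generalizing l with
  | zero => rfl
  | succ n ih =>
    rw [Ex_succ]
    simp only [Ex_succ]
    rw [← av_sum]
    apply av_congr
    intro g _
    exact ih _

theorem Ex_nonneg {F : List E → ℝ} {n : ℕ} {l : List E} (hl : l.Nodup)
    (h : ∀ m : List E, m.length = n → (l ++ m).Nodup → 0 ≤ F (l ++ m)) : 0 ≤ Ex F n l := by
  induction n generalizing l with
  | zero => simpa using h [] rfl (by simpa using hl)
  | succ n ih =>
    rw [Ex_succ]
    apply av_nonneg
    intro g hg
    apply ih (nodup_append hl hg)
    intro m hm hnd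
    have := h (g :: m) (by simp [hm]) (by simpa using hnd)
    simpa using this

theorem Ex_tower (F : List E → ℝ) (n k : ℕ) (l : List E) :
    Ex F (n + k) l = Ex (fun l' => Ex F k l') n l := by
  induction n generalizing l with
  | zero => simp
  | succ n ih =>
    rw [show n + 1 + k = (n + k) + 1 by ring, Ex_succ, Ex_succ]
    apply av_congr
    intro g _
    exact ih _

/-- functionals of an initial part -/
theorem Ex_take (G : List E → ℝ) (n k : ℕ) {l : List E} (hl : l.Nodup)
    (h : l.length + n + k ≤ Fintype.card E) :
    Ex (fun ω => G (ω.take (l.length + n))) (n + k) l = Ex G n l := by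
  rw [Ex_tower]
  apply Ex_congr hl
  intro m hm hnd
  have h1 : Ex (fun ω => G (ω.take (l.length + n))) k (l ++ m) =
      Ex (fun _ => G (l ++ m)) k (l ++ m) := by
    apply Ex_congr hnd
    intro m' hm' _
    rw [List.take_append_of_le_length (by simp [hm]), List.take_of_length_le (by simp [hm])]
  rw [h1, Ex_const hnd (by simp [hm]; omega)]

/-- supermartingale inequality -/
theorem Ex_super {W : List E → ℝ} {c : ℝ} (hc : 0 ≤ c) {n : ℕ} {l : List E} (hl : l.Nodup)
    (h : ∀ m : List E, m.length < n → (l ++ m).Nodup →
      av (l ++ m) (fun g => W (l ++ m ++ [g])) ≤ c * W (l ++ m)) :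
    Ex W n l ≤ c ^ n * W l := by
  induction n generalizing l with
  | zero => simp
  | succ n ih =>
    rw [Ex_succ]
    have h1 : av l (fun g => Ex W n (l ++ [g])) ≤ av l (fun g => c ^ n * W (l ++ [g])) := by
      apply av_mono
      intro g hg
      apply ih (nodup_append hl hg)
      intro m hm hnd
      have := h (g :: m) (by simp; omega) (by simpa using hnd)
      simpa using this
    refine h1.trans ?_
    rw [av_mul_left, pow_succ, mul_assoc]
    apply mul_le_mul_of_nonneg_left _ (pow_nonneg hc n)
    simpa using h [] (by simp) (by simpa using hl)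

/-- probability of an event of the full random order -/
noncomputable def Pr (A : List E → Prop) : ℝ :=
  open Classical in Ex (fun ω => if A ω then 1 else 0) (Fintype.card E) []

theorem Pr_nonneg (A : List E → Prop) : 0 ≤ Pr A := by
  classical
  unfold Pr
  apply Ex_nonneg List.nodup_nil
  intro m _ _
  split <;> norm_num

theorem Pr_mono {A B : List E → Prop}
    (h : ∀ ω : List E, ω.Nodup → ω.length = Fintype.card E → A ω → B ω) : Pr A ≤ Pr B := by
  classical
  unfold Pr
  apply Ex_mono List.nodup_nil
  intro m hm hnd
  simp only [List.nil_append] at hnd ⊢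
  by_cases hA : A m
  · rw [if_pos hA, if_pos (h m hnd hm hA)]
  · rw [if_neg hA]; split <;> norm_num

theorem Pr_le_one (A : List E → Prop) : Pr A ≤ 1 := by
  classical
  unfold Pr
  have h1 : Ex (fun _ => (1 : ℝ)) (Fintype.card E) ([] : List E) = 1 :=
    Ex_const List.nodup_nil (by simp) 1
  refine le_trans (Ex_mono List.nodup_nil (G := fun _ => (1 : ℝ)) ?_) h1.le
  intro m _ _
  split <;> norm_num

theorem Pr_true : Pr (fun _ : List E => True) = 1 := by
  unfold Pr
  simp only [if_true]
  exact Ex_const List.nodup_nil (by simp) 1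

theorem Pr_or_le (A B : List E → Prop) : Pr (fun ω => A ω ∨ B ω) ≤ Pr A + Pr B := by
  classical
  unfold Pr
  rw [← Ex_add]
  apply Ex_mono List.nodup_nil
  intro m _ _
  simp only [List.nil_append]
  by_cases hA : A m <;> by_cases hB : B m <;> simp [hA, hB]

theorem Pr_compl (A : List E → Prop) : Pr (fun ω => ¬ A ω) = 1 - Pr A := by
  classical
  have h : Pr (fun ω => ¬ A ω) + Pr A = 1 := by
    unfold Pr
    rw [← Ex_add]
    have h1 : Ex (fun _ => (1 : ℝ)) (Fintype.card E) ([] : List E) = 1 :=
      Ex_const List.nodup_nil (by simp) 1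
    refine Eq.trans ?_ h1
    apply Ex_congr List.nodup_nil
    intro m _ _
    simp only [List.nil_append]
    by_cases hA : A m <;> simp [hA]
  linarith

theorem Pr_biUnion_le {ι : Type*} (s : Finset ι) (A : ι → List E → Prop) :
    Pr (fun ω => ∃ i ∈ s, A i ω) ≤ ∑ i ∈ s, Pr (A i) := by
  classical
  unfold Pr
  rw [← Ex_sum]
  apply Ex_mono List.nodup_nil
  intro m _ _
  by_cases h : ∃ i ∈ s, A i ([] ++ m)
  · rw [if_pos h]
    obtain ⟨i, hi, hA⟩ := h
    have : (if A i ([] ++ m) then (1 : ℝ) else 0) ≤
        ∑ i ∈ s, (if A i ([] ++ m) then (1 : ℝ) else 0) :=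
      single_le_sum (f := fun i => if A i ([] ++ m) then (1 : ℝ) else 0)
        (fun i _ => by split <;> norm_num) hi
    rw [if_pos hA] at this
    exact this
  · rw [if_neg h]
    apply sum_nonneg
    intro i _
    split <;> norm_num

/-- Markov's inequality -/
theorem Pr_markov {F : List E → ℝ} {K : ℝ} (hK : 0 < K)
    (hF : ∀ ω : List E, ω.Nodup → ω.length = Fintype.card E → 0 ≤ F ω) :
    Pr (fun ω => K ≤ F ω) ≤ Ex F (Fintype.card E) [] / K := by
  classical
  unfold Pr
  rw [le_div_iff₀ hK, mul_comm, ← Ex_mul_left]
  apply Ex_mono List.nodup_nil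
  intro m hm hnd
  simp only [List.nil_append] at hnd ⊢
  split
  · simpa
  · simpa using hF m hnd hm

/-- conditioning on the history at time `n` -/
theorem Pr_le_of_forall {A : List E → Prop} {n : ℕ} (hn : n ≤ Fintype.card E) {β : ℝ}
    (h : ∀ l : List E, l.Nodup → l.length = n →
      (open Classical in Ex (fun ω => if A ω then 1 else 0) (Fintype.card E - n) l) ≤ β) :
    Pr A ≤ β := by
  classical
  unfold Pr
  have h1 : Fintype.card E = n + (Fintype.card E - n) := by omega
  rw [h1, Ex_tower]
  have h2 : Ex (fun _ => β) n ([] : List E) = β := Ex_const List.nodup_nil (by simpa using hn) β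
  rw [← h2]
  apply Ex_mono List.nodup_nil
  intro m hm hnd
  simp only [List.nil_append] at hnd ⊢
  convert h m hnd hm using 2

/-- the probability that a given finite set is born among the first `n` -/
theorem Ex_births (A : Finset E) (n : ℕ) {l : List E} (hl : l.Nodup)
    (h : l.length + n ≤ Fintype.card E) :
    Ex (fun ω => if A ⊆ ω.toFinset then (1 : ℝ) else 0) n l ≤
      ((n.descFactorial (A \ l.toFinset).card : ℕ) : ℝ) /
        (((Fintype.card E - l.length).descFactorial (A \ l.toFinset).card : ℕ) : ℝ) := by
  induction n generalizing l with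
  | zero =>
    rw [Ex_zero]
    by_cases hA : A ⊆ l.toFinset
    · rw [if_pos hA, sdiff_eq_empty_iff_subset.mpr hA]
      simp
    · rw [if_neg hA]
      positivity
  | succ n ih =>
    set M := Fintype.card E - l.length with hM
    set B := A \ l.toFinset with hB
    set a := B.card with ha
    have hMpos : 0 < M := by omega
    have hcardrest : (rest l).card = M := card_rest hl
    rw [Ex_succ]
    by_cases ha0 : a = 0
    · rw [ha0]
      simp only [Nat.descFactorial_zero, Nat.cast_one, div_one]
      have : av l (fun g => Ex (fun ω => if A ⊆ ω.toFinset then (1 : ℝ) else 0) n (l ++ [g])) ≤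
          av l (fun _ => 1) := by
        apply av_mono
        intro g hg
        have hc := Ex_const (nodup_append hl hg) (n := n) (by simp; omega) (1 : ℝ)
        refine le_trans (Ex_mono (nodup_append hl hg) (G := fun _ => (1 : ℝ)) ?_) hc.le
        intro m _ _
        split <;> norm_num
      rwa [av_const (by omega)] at this
    · have haM : B ⊆ rest l := by
        intro g hg
        rw [mem_rest]
        have := (mem_sdiff.mp hg).2
        simpa using this
      have haM' : a ≤ M := by rw [← hcardrest]; exact card_le_card haM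
      obtain ⟨a', ha'⟩ : ∃ a', a = a' + 1 := ⟨a - 1, by omega⟩
      have haB : B.card = a' + 1 := by omega
      have haM'' : a' + 1 ≤ M := by omega
      rw [ha']
      -- bound each term
      have key : ∀ g ∈ rest l,
          Ex (fun ω => if A ⊆ ω.toFinset then (1 : ℝ) else 0) n (l ++ [g]) ≤
          if g ∈ B then ((n.descFactorial a' : ℕ) : ℝ) / (((M - 1).descFactorial a' : ℕ) : ℝ)
          else ((n.descFactorial (a' + 1) : ℕ) : ℝ) / (((M - 1).descFactorial (a' + 1) : ℕ) : ℝ) := by
        intro g hg
        have h1 := ih (nodup_append hl hg) (by simp; omega)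
        have h2 : Fintype.card E - (l ++ [g]).length = M - 1 := by simp; omega
        rw [h2] at h1
        have h3 : A \ (l ++ [g]).toFinset = B.erase g := by
          ext x
          simp only [hB, List.toFinset_append, mem_sdiff, mem_union, mem_erase,
            List.toFinset_cons, List.toFinset_nil, mem_insert]
          simp
          tauto
        rw [h3] at h1
        split
        · rename_i hgB
          rw [card_erase_of_mem hgB] at h1
          have : B.card - 1 = a' := by omega
          rwa [this] at h1
        · rename_i hgB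
          rw [erase_eq_of_notMem hgB] at h1
          rwa [haB] at h1
      refine (av_mono key).trans ?_
      unfold av
      rw [hcardrest, sum_ite, sum_const, sum_const]
      have hf1 : (rest l).filter (fun g => g ∈ B) = B := by
        ext g
        simp only [mem_filter]
        exact ⟨fun h => h.2, fun h => ⟨haM h, h⟩⟩
      have hf2 : ((rest l).filter (fun g => g ∉ B)).card = M - (a' + 1) := by
        have : (rest l).filter (fun g => g ∉ B) = rest l \ B := by
          ext g; simp
        rw [this, card_sdiff_of_subset haM, hcardrest, haB]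
      rw [hf1, hf2, haB]
      simp only [nsmul_eq_mul]
      -- algebra
      have hM1 : M = (M - 1) + 1 := by omega
      have e1 : (M.descFactorial (a' + 1) : ℕ) = M * (M - 1).descFactorial a' := by
        conv_lhs => rw [hM1]
        rw [Nat.succ_descFactorial_succ, ← hM1]
      have e2 : ((M - 1).descFactorial (a' + 1) : ℕ) = (M - 1 - a') * (M - 1).descFactorial a' :=
        Nat.descFactorial_succ _ _
      have e3 : ((n + 1).descFactorial (a' + 1) : ℕ) = (n + 1) * n.descFactorial a' :=
        Nat.succ_descFactorial_succ _ _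
      have e4 : (n.descFactorial (a' + 1) : ℕ) = (n - a') * n.descFactorial a' :=
        Nat.descFactorial_succ _ _
      have hD : 0 < (M - 1).descFactorial a' := Nat.descFactorial_pos.mpr (by omega)
      rw [e1, e2, e3, e4]
      push_cast
      have hDr : (0 : ℝ) < ((M - 1).descFactorial a' : ℝ) := by exact_mod_cast hD
      have hMr : (0 : ℝ) < (M : ℝ) := by exact_mod_cast hMpos
      have hkey2 : ((M - (a' + 1) : ℕ) : ℝ) *
          (((n - a' : ℕ) : ℝ) * (n.descFactorial a' : ℝ) /
            (((M - 1 - a' : ℕ) : ℝ) * ((M - 1).descFactorial a' : ℝ))) ≤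
          ((n - a' : ℕ) : ℝ) * (n.descFactorial a' : ℝ) / ((M - 1).descFactorial a' : ℝ) := by
        have : M - (a' + 1) = M - 1 - a' := by omega
        rw [this]
        by_cases hz : M - 1 - a' = 0
        · rw [hz]; simp
          positivity
        · have : (0 : ℝ) < ((M - 1 - a' : ℕ) : ℝ) := by
            exact_mod_cast Nat.pos_of_ne_zero hz
          apply le_of_eq
          field_simp
      have hkey3 : ((n - a' : ℕ) : ℝ) * (n.descFactorial a' : ℝ) =
          ((n : ℝ) - a') * (n.descFactorial a' : ℝ) := by
        by_cases hna : a' ≤ n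
        · rw [Nat.cast_sub hna]
        · have : n.descFactorial a' = 0 := Nat.descFactorial_eq_zero_iff_lt.mpr (by omega)
          rw [this]; simp
      rw [div_le_div_iff₀ hMr (by positivity)]
      have hsum : ((a' : ℝ) + 1) * ((n.descFactorial a' : ℝ) / ((M - 1).descFactorial a' : ℝ)) +
          ((M - (a' + 1) : ℕ) : ℝ) *
          (((n - a' : ℕ) : ℝ) * (n.descFactorial a' : ℝ) /
            (((M - 1 - a' : ℕ) : ℝ) * ((M - 1).descFactorial a' : ℝ))) ≤
          ((n : ℝ) + 1) * (n.descFactorial a' : ℝ) / ((M - 1).descFactorial a' : ℝ) := by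
        have h5 := hkey2
        rw [hkey3] at h5
        rw [hkey3]
        have : ((n : ℝ) + 1) * (n.descFactorial a' : ℝ) / ((M - 1).descFactorial a' : ℝ) =
          ((a' : ℝ) + 1) * ((n.descFactorial a' : ℝ) / ((M - 1).descFactorial a' : ℝ)) +
          ((n : ℝ) - a') * (n.descFactorial a' : ℝ) / ((M - 1).descFactorial a' : ℝ) := by
          field_simp
          ring
        rw [this]
        linarith
      calc _ ≤ (((n : ℝ) + 1) * (n.descFactorial a' : ℝ) / ((M - 1).descFactorial a' : ℝ)) *
            ((M : ℝ) * ((M - 1).descFactorial a' : ℝ)) := by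
            apply mul_le_mul_of_nonneg_right _ (by positivity)
            exact hsum
        _ = (((n : ℝ) + 1) * (n.descFactorial a' : ℝ)) * (M : ℝ) := by
            field_simp

end Pool.Agent.Q2F
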