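import Mathlib
import Pool.Agent.MP_9431a4_pr.Prob

set_option autoImplicit false

/-!
A Freedman-type inequality for functionals of a uniformly random order.
-/

namespace Pool.Agent.Q2F

open Finset Classical

variable {E : Type} [Fintype E] [DecidableEq E]

/-- compensated sum between times `a` and `b` -/
noncomputable def comp (f D : List E → ℝ) (ω : List E) (a b : ℕ) : ℝ :=
  f (ω.take b) - f (ω.take a) - ∑ i ∈ Ico a b, D (ω.take i)

/-- conditional drift over live continuations -/
noncomputable def drift (f : List E → ℝ) (live : List E → Prop) (l : List E) : ℝ :=
  av l (fun g => if live (l ++ [g]) then f (l ++ [g]) - f l else 0)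

/-- the bad event of the concentration inequality -/
def DevEv (f : List E → ℝ) (live good : List E → Prop) (K : ℝ) (a n : ℕ) (ω : List E) : Prop :=
  ∃ b, a ≤ b ∧ b ≤ a + n ∧ (∀ i, a < i → i ≤ b → live (ω.take i)) ∧
    (∀ i, a ≤ i → i < b → good (ω.take i)) ∧ K ≤ comp f (drift f live) ω a b

theorem mart_conc {f : List E → ℝ} {live good : List E → Prop} {L ρ lam : ℝ}
    (hρ : 0 ≤ ρ) (hL : 0 ≤ L) (hlam0 : 0 ≤ lam) (hlam : lam * L ≤ 1)
    (hjump : ∀ l : List E, l.Nodup → good l → ∀ g ∈ rest l, live (l ++ [g]) →
      |f (l ++ [g]) - f l| ≤ L)
    (hvar : ∀ l : List E, l.Nodup → good l →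
      av l (fun g => if live (l ++ [g]) then |f (l ++ [g]) - f l| else 0) ≤ ρ)
    (n : ℕ) (l : List E) (hl : l.Nodup) (h : l.length + n ≤ Fintype.card E) (K : ℝ) :
    Ex (fun ω => if DevEv f live good K l.length n ω then 1 else 0) n l ≤
      Real.exp (-lam * K + n * (lam ^ 2 * L * ρ)) := by
  induction n generalizing l K with
  | zero =>
    rw [Ex_zero]
    by_cases hK : K ≤ 0
    · have : (1 : ℝ) ≤ Real.exp (-lam * K + ((0 : ℕ) : ℝ) * (lam ^ 2 * L * ρ)) := by
        apply Real.one_le_exp
        simp only [Nat.cast_zero, zero_mul, add_zero]
        nlinarith
      refine le_trans ?_ this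
      split <;> norm_num
    · rw [if_neg]
      · positivity
      · rintro ⟨b, hb1, hb2, _, _, hK'⟩
        have : b = l.length := by omega
        subst this
        apply hK
        simpa [comp] using hK'
  | succ n ih =>
    have hnn : (0 : ℝ) ≤ lam ^ 2 * L * ρ := by positivity
    by_cases hK : K ≤ 0
    · have h1 : (1 : ℝ) ≤ Real.exp (-lam * K + ((n + 1 : ℕ) : ℝ) * (lam ^ 2 * L * ρ)) := by
        apply Real.one_le_exp
        have : (0 : ℝ) ≤ ((n + 1 : ℕ) : ℝ) * (lam ^ 2 * L * ρ) := by positivity
        nlinarith
      refine le_trans ?_ h1
      have hc := Ex_const hl (n := n + 1) h (1 : ℝ)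
      refine le_trans (Ex_mono hl (G := fun _ => (1 : ℝ)) ?_) hc.le
      intro m _ _
      split <;> norm_num
    · have hpos : 0 < (rest l).card := card_rest_pos hl (by omega)
      by_cases hg : good l
      swap
      · have h0 : Ex (fun ω => if DevEv f live good K l.length (n + 1) ω then (1 : ℝ) else 0) (n + 1) l
            = Ex (fun _ => 0) (n + 1) l := by
          apply Ex_congr hl
          intro m hm hnd
          rw [if_neg]
          rintro ⟨b, hb1, hb2, _, hgood, hK'⟩
          rcases Nat.eq_or_lt_of_le hb1 with hb | hb
          · subst hb
            apply hK
            simpa [comp] using hK'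
          · have := hgood l.length le_rfl hb
            rw [List.take_append_of_le_length le_rfl, List.take_length] at this
            exact hg this
        rw [h0, Ex_const hl h]
        positivity
      · set D := drift f live l with hD
        -- pointwise bound
        have key : ∀ g ∈ rest l,
            Ex (fun ω => if DevEv f live good K l.length (n + 1) ω then (1 : ℝ) else 0) n (l ++ [g]) ≤
            Real.exp (-lam * K + n * (lam ^ 2 * L * ρ) - lam * D) *
              (if live (l ++ [g]) then 1 + lam * (f (l ++ [g]) - f l) +
                lam ^ 2 * L * |f (l ++ [g]) - f l| else 0) := by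
          intro g hgr
          have hnd' := nodup_append hl hgr
          by_cases hlive : live (l ++ [g])
          · rw [if_pos hlive]
            have h1 := ih (l ++ [g]) hnd' (by simp; omega) (K - (f (l ++ [g]) - f l - D))
            have h2 : Ex (fun ω => if DevEv f live good K l.length (n + 1) ω then (1 : ℝ) else 0) n
                (l ++ [g]) ≤
                Ex (fun ω => if DevEv f live good (K - (f (l ++ [g]) - f l - D))
                  (l ++ [g]).length n ω then (1 : ℝ) else 0) n (l ++ [g]) := by
              apply Ex_mono hnd'
              intro m hm hndm
              by_cases hE : DevEv f live good K l.length (n + 1) (l ++ [g] ++ m)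
              · rw [if_pos hE, if_pos]
                obtain ⟨b, hb1, hb2, hlv, hgood, hK'⟩ := hE
                rcases Nat.eq_or_lt_of_le hb1 with hb | hb
                · subst hb
                  exfalso
                  apply hK
                  simpa [comp] using hK'
                · refine ⟨b, by simp; omega, by simp; omega, ?_, ?_, ?_⟩
                  · intro i hi1 hi2
                    exact hlv i (by simp at hi1; omega) hi2
                  · intro i hi1 hi2
                    exact hgood i (by simp at hi1; omega) hi2
                  · unfold comp at hK' ⊢
                    rw [sum_eq_sum_Ico_succ_bot hb] at hK'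
                    have e1 : (l ++ [g] ++ m).take l.length = l := by
                      rw [List.append_assoc, List.take_append_of_le_length le_rfl, List.take_length]
                    have e2 : (l ++ [g] ++ m).take (l ++ [g]).length = l ++ [g] := by
                      rw [List.take_append_of_le_length le_rfl, List.take_length]
                    rw [e1] at hK'
                    rw [e2]
                    have e3 : (l ++ [g]).length = l.length + 1 := by simp
                    rw [e3]
                    rw [← hD] at hK'
                    linarith
              · rw [if_neg hE]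
                split <;> norm_num
            refine h2.trans (h1.trans ?_)
            have hj := hjump l hl hg g hgr hlive
            set Δ := f (l ++ [g]) - f l with hΔ
            have e : -lam * (K - (Δ - D)) + (n : ℝ) * (lam ^ 2 * L * ρ) =
              (-lam * K + n * (lam ^ 2 * L * ρ) - lam * D) + lam * Δ := by ring
            rw [e, Real.exp_add]
            apply mul_le_mul_of_nonneg_left _ (Real.exp_pos _).le
            have habs : |lam * Δ| ≤ 1 := by
              rw [abs_mul, abs_of_nonneg hlam0]
              calc lam * |Δ| ≤ lam * L := mul_le_mul_of_nonneg_left hj hlam0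
                _ ≤ 1 := hlam
            have h3 := Real.abs_exp_sub_one_sub_id_le habs
            have h4 : Real.exp (lam * Δ) ≤ 1 + lam * Δ + (lam * Δ) ^ 2 := by
              have := (abs_le.mp h3).2
              linarith
            refine h4.trans ?_
            have h5 : (lam * Δ) ^ 2 ≤ lam ^ 2 * L * |Δ| := by
              have : (lam * Δ) ^ 2 = lam ^ 2 * (|Δ| * |Δ|) := by
                rw [abs_mul_abs_self]; ring
              rw [this, mul_assoc]
              apply mul_le_mul_of_nonneg_left _ (by positivity)
              exact mul_le_mul_of_nonneg_right hj (abs_nonneg _)
            linarith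
          · rw [if_neg hlive, mul_zero]
            have h0 : Ex (fun ω => if DevEv f live good K l.length (n + 1) ω then (1 : ℝ) else 0) n
                (l ++ [g]) = Ex (fun _ => 0) n (l ++ [g]) := by
              apply Ex_congr hnd'
              intro m hm hnd
              rw [if_neg]
              rintro ⟨b, hb1, hb2, hlv, hgood, hK'⟩
              rcases Nat.eq_or_lt_of_le hb1 with hb | hb
              · subst hb
                apply hK
                simpa [comp] using hK'
              · have := hlv (l.length + 1) (by omega) hb
                have e2 : (l ++ [g] ++ m).take (l.length + 1) = l ++ [g] := by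
                  have : l.length + 1 = (l ++ [g]).length := by simp
                  rw [this, List.take_append_of_le_length le_rfl, List.take_length]
                rw [e2] at this
                exact hlive this
            rw [h0, Ex_const hnd' (by simp; omega)]
        rw [Ex_succ]
        refine (av_mono key).trans ?_
        rw [av_mul_left]
        have h6 : av l (fun g => if live (l ++ [g]) then 1 + lam * (f (l ++ [g]) - f l) +
                lam ^ 2 * L * |f (l ++ [g]) - f l| else 0) ≤
            1 + lam * D + lam ^ 2 * L * ρ := by
          have h7 : av l (fun g => if live (l ++ [g]) then 1 + lam * (f (l ++ [g]) - f l) +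
                lam ^ 2 * L * |f (l ++ [g]) - f l| else 0) ≤
              av l (fun g => (1 + lam * (if live (l ++ [g]) then f (l ++ [g]) - f l else 0)) +
                (lam ^ 2 * L) * (if live (l ++ [g]) then |f (l ++ [g]) - f l| else 0)) := by
            apply av_mono
            intro g _
            by_cases hlive : live (l ++ [g])
            · simp only [if_pos hlive]; exact le_rfl
            · simp only [if_neg hlive]; norm_num
          refine h7.trans ?_
          rw [av_add, av_add, av_const hpos, av_mul_left, av_mul_left]
          have := hvar l hl hg
          have h8 : (lam ^ 2 * L) * av l (fun g => if live (l ++ [g]) then |f (l ++ [g]) - f l| else 0)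
              ≤ (lam ^ 2 * L) * ρ := mul_le_mul_of_nonneg_left this (by positivity)
          have h9 : D = av l (fun g => if live (l ++ [g]) then f (l ++ [g]) - f l else 0) := rfl
          rw [← h9]
          linarith
        calc _ ≤ Real.exp (-lam * K + n * (lam ^ 2 * L * ρ) - lam * D) *
              (1 + lam * D + lam ^ 2 * L * ρ) :=
              mul_le_mul_of_nonneg_left h6 (Real.exp_pos _).le
          _ ≤ Real.exp (-lam * K + n * (lam ^ 2 * L * ρ) - lam * D) *
              Real.exp (lam * D + lam ^ 2 * L * ρ) := by
              apply mul_le_mul_of_nonneg_left _ (Real.exp_pos _).le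
              have := Real.add_one_le_exp (lam * D + lam ^ 2 * L * ρ)
              linarith
          _ = Real.exp (-lam * K + ((n + 1 : ℕ) : ℝ) * (lam ^ 2 * L * ρ)) := by
              rw [← Real.exp_add]
              congr 1
              push_cast
              ring

end Pool.Agent.Q2F
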