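import Mathlib
import Pool.Agent.MP_9431a4_pr.Basic

set_option autoImplicit false

/-!
The process on histories (lists of born edges), and the exact one-step formulas.
-/

namespace Pool.Agent.Q2F

open Finset Classical

variable {d : ℕ}

/-- `g` is closed by the set `S` of accepted edges -/
def Closed (S : Finset (Edge d)) (g : Edge d) : Prop := ∃ r, r ≠ dir g ∧ nb g r ⊆ S

theorem Closed.mono {S S' : Finset (Edge d)} {g : Edge d} (h : Closed S g) (hS : S ⊆ S') :
    Closed S' g := by
  obtain ⟨r, hr, h⟩ := h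
  exact ⟨r, hr, h.trans hS⟩

/-- one step of the greedy process -/
noncomputable def accStep (S : Finset (Edge d)) (g : Edge d) : Finset (Edge d) :=
  if Closed S g then S else insert g S

/-- accepted set after the history `l` -/
noncomputable def acc (l : List (Edge d)) : Finset (Edge d) := l.foldl accStep ∅

@[simp] theorem acc_nil : acc ([] : List (Edge d)) = ∅ := rfl

theorem acc_append (l : List (Edge d)) (g : Edge d) : acc (l ++ [g]) = accStep (acc l) g := by
  simp [acc, List.foldl_append]

theorem subset_accStep (S : Finset (Edge d)) (g : Edge d) : S ⊆ accStep S g := by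
  unfold accStep
  split
  · exact Subset.rfl
  · exact subset_insert _ _

theorem acc_subset_append (l m : List (Edge d)) : acc l ⊆ acc (l ++ m) := by
  induction m using List.reverseRecOn with
  | nil => simp
  | append_singleton m g ih =>
    rw [← List.append_assoc, acc_append]
    exact ih.trans (subset_accStep _ _)

theorem acc_subset (l : List (Edge d)) : ∀ e ∈ acc l, e ∈ l := by
  induction l using List.reverseRecOn with
  | nil => simp
  | append_singleton l g ih =>
    intro e he
    rw [acc_append] at he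
    unfold accStep at he
    split at he
    · exact List.mem_append_left _ (ih e he)
    · rcases mem_insert.mp he with rfl | he
      · simp
      · exact List.mem_append_left _ (ih e he)

/-- open edges: unborn and not closed -/
noncomputable def opn (l : List (Edge d)) : Finset (Edge d) :=
  univ.filter (fun e => e ∉ l ∧ ¬ Closed (acc l) e)

theorem mem_opn {l : List (Edge d)} {e : Edge d} : e ∈ opn l ↔ e ∉ l ∧ ¬ Closed (acc l) e := by
  simp [opn]

theorem disj_acc_opn (l : List (Edge d)) : Disjoint (acc l) (opn l) := by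
  rw [Finset.disjoint_left]
  intro e he he'
  exact (mem_opn.mp he').1 (acc_subset l e he)

theorem opn_append_subset (l m : List (Edge d)) : opn (l ++ m) ⊆ opn l := by
  intro e he
  rw [mem_opn] at he ⊢
  refine ⟨fun h => he.1 (List.mem_append_left _ h), fun h => he.2 (h.mono (acc_subset_append l m))⟩

/-- the open edges which get closed when `g` is accepted -/
noncomputable def gam (S O : Finset (Edge d)) (g : Edge d) : Finset (Edge d) :=
  O.filter (fun f => ∃ r, r ≠ dir g ∧ f ∈ nb g r ∧ (nb g r).erase f ⊆ S)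

theorem mem_gam {S O : Finset (Edge d)} {g f : Edge d} :
    f ∈ gam S O g ↔ f ∈ O ∧ ∃ r, r ≠ dir g ∧ f ∈ nb g r ∧ (nb g r).erase f ⊆ S := by
  simp [gam]

theorem gam_subset {S O : Finset (Edge d)} {g : Edge d} : gam S O g ⊆ O := filter_subset _ _

theorem gam_symm {S O : Finset (Edge d)} {g f : Edge d} (hg : g ∈ O) (h : f ∈ gam S O g) :
    g ∈ gam S O f := by
  rw [mem_gam] at h ⊢
  obtain ⟨hf, r, hr, hfr, hs⟩ := h
  obtain ⟨s, hs1, hs2, hs3⟩ := nb_symm hr hfr
  exact ⟨hg, s, hs1, hs2, hs3 ▸ hs⟩

theorem ne_of_mem_gam {S O : Finset (Edge d)} {g f : Edge d} (h : f ∈ gam S O g) : f ≠ g := by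
  obtain ⟨_, r, hr, hfr, _⟩ := mem_gam.mp h
  rintro rfl
  exact not_mem_nb hr hfr

theorem closed_insert_iff {S : Finset (Edge d)} {g e : Edge d} :
    Closed (insert g S) e ↔ Closed S e ∨
      ∃ r, r ≠ dir e ∧ g ∈ nb e r ∧ (nb e r).erase g ⊆ S := by
  constructor
  · rintro ⟨r, hr, h⟩
    by_cases hg : g ∈ nb e r
    · right
      refine ⟨r, hr, hg, ?_⟩
      intro f hf
      have := h (mem_of_mem_erase hf)
      rcases mem_insert.mp this with h' | h'
      · exact absurd h' (ne_of_mem_erase hf)
      · exact h'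
    · left
      refine ⟨r, hr, ?_⟩
      intro f hf
      rcases mem_insert.mp (h hf) with h' | h'
      · exact absurd (h' ▸ hf) hg
      · exact h'
  · rintro (h | ⟨r, hr, hg, h⟩)
    · exact h.mono (subset_insert _ _)
    · refine ⟨r, hr, ?_⟩
      intro f hf
      by_cases hfg : f = g
      · rw [hfg]; exact mem_insert_self _ _
      · exact mem_insert_of_mem (h (mem_erase.mpr ⟨hfg, hf⟩))

/-- a step with a non-open edge changes nothing -/
theorem step_closed {l : List (Edge d)} {g : Edge d} (hg : g ∉ l) (hgo : g ∉ opn l) :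
    acc (l ++ [g]) = acc l ∧ opn (l ++ [g]) = opn l := by
  have hc : Closed (acc l) g := by
    by_contra h
    exact hgo (mem_opn.mpr ⟨hg, h⟩)
  have h1 : acc (l ++ [g]) = acc l := by rw [acc_append, accStep, if_pos hc]
  refine ⟨h1, ?_⟩
  ext e
  rw [mem_opn, mem_opn, h1]
  constructor
  · rintro ⟨h2, h3⟩
    exact ⟨fun h => h2 (List.mem_append_left _ h), h3⟩
  · rintro ⟨h2, h3⟩
    refine ⟨?_, h3⟩
    intro h
    rcases List.mem_append.mp h with h | h
    · exact h2 h
    · rw [List.mem_singleton] at h
      subst h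
      exact h3 hc

/-- a step with an open edge -/
theorem step_open {l : List (Edge d)} {g : Edge d} (hgo : g ∈ opn l) :
    acc (l ++ [g]) = insert g (acc l) ∧
      opn (l ++ [g]) = (opn l).filter (fun e => e ≠ g ∧ e ∉ gam (acc l) (opn l) g) := by
  have hc : ¬ Closed (acc l) g := (mem_opn.mp hgo).2
  have h1 : acc (l ++ [g]) = insert g (acc l) := by rw [acc_append, accStep, if_neg hc]
  refine ⟨h1, ?_⟩
  ext e
  rw [mem_opn, h1, closed_insert_iff, mem_filter]
  constructor
  · rintro ⟨h2, h3⟩
    push Not at h3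
    have heo : e ∈ opn l := mem_opn.mpr ⟨fun h => h2 (List.mem_append_left _ h), h3.1⟩
    refine ⟨heo, ?_, ?_⟩
    · rintro rfl
      exact h2 (by simp)
    · intro h
      obtain ⟨_, r, hr, hgr, hs⟩ := mem_gam.mp (gam_symm hgo h)
      exact h3.2 r hr hgr hs
  · rintro ⟨heo, hne, hng⟩
    obtain ⟨h2, h3⟩ := mem_opn.mp heo
    refine ⟨?_, ?_⟩
    · intro h
      rcases List.mem_append.mp h with h | h
      · exact h2 h
      · rw [List.mem_singleton] at h
        exact hne h
    · rintro (h | ⟨r, hr, hgr, hs⟩)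
      · exact h3 h
      · exact hng (gam_symm heo (mem_gam.mpr ⟨hgo, r, hr, hgr, hs⟩))

/-- type of a cell: all its edges are accepted or open, exactly `k` accepted -/
def Ty (S O : Finset (Edge d)) (A : Finset (Edge d)) (k : ℕ) : Prop :=
  A ⊆ S ∪ O ∧ (A ∩ S).card = k

theorem ty_step {l : List (Edge d)} {g : Edge d} (hgo : g ∈ opn l) (A : Finset (Edge d)) (k : ℕ) :
    Ty (acc (l ++ [g])) (opn (l ++ [g])) A k ↔
      (A ⊆ acc l ∪ opn l ∧ Disjoint A (gam (acc l) (opn l) g) ∧
        (A ∩ acc l).card + (if g ∈ A then 1 else 0) = k) := by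
  obtain ⟨h1, h2⟩ := step_open hgo
  have hgS : g ∉ acc l := fun h => Finset.disjoint_left.mp (disj_acc_opn l) h hgo
  unfold Ty
  rw [h1, h2]
  have hU : insert g (acc l) ∪ (opn l).filter (fun e => e ≠ g ∧ e ∉ gam (acc l) (opn l) g) =
      (acc l ∪ opn l) \ gam (acc l) (opn l) g := by
    ext e
    simp only [mem_union, mem_insert, mem_filter, mem_sdiff]
    constructor
    · rintro ((rfl | h) | ⟨h3, h4, h5⟩)
      · exact ⟨Or.inr hgo, fun h => ne_of_mem_gam h rfl⟩
      · exact ⟨Or.inl h, fun h' => Finset.disjoint_left.mp (disj_acc_opn l) h (gam_subset h')⟩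
      · exact ⟨Or.inr h3, h5⟩
    · rintro ⟨h3 | h3, h4⟩
      · exact Or.inl (Or.inr h3)
      · by_cases he : e = g
        · exact Or.inl (Or.inl he)
        · exact Or.inr ⟨h3, he, h4⟩
  rw [hU]
  have hcard : (A ∩ insert g (acc l)).card = (A ∩ acc l).card + (if g ∈ A then 1 else 0) := by
    by_cases hgA : g ∈ A
    · rw [if_pos hgA, inter_insert_of_mem hgA, card_insert_of_notMem]
      intro h
      exact hgS (mem_inter.mp h).2
    · rw [if_neg hgA, inter_insert_of_notMem hgA, add_zero]
  rw [hcard, subset_sdiff, and_assoc]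

/-- the counting functional of a family of cells -/
noncomputable def cnt {ι : Type} (I : Finset ι) (V : ι → Finset (Edge d)) (S O : Finset (Edge d))
    (k : ℕ) : ℕ := (I.filter (fun r => Ty S O (V r) k)).card

end Pool.Agent.Q2F
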