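import Mathlib
import Pool.Agent.MP_9431a4_pr.Proc
import Pool.Agent.MP_9431a4_pr.MC

set_option autoImplicit false

/-!
Families of cells: drift and jump bounds.
-/

namespace Pool.Agent.Q2F

open Finset Classical

variable {d : ℕ} {ι : Type}

/-- the number of cells of type `k` -/
noncomputable def Xf (I : Finset ι) (V : ι → Finset (Edge d)) (k : ℕ) (l : List (Edge d)) : ℝ :=
  (cnt I V (acc l) (opn l) k : ℝ)

/-- conflict neighbourhood -/
noncomputable def Gm (l : List (Edge d)) (f : Edge d) : Finset (Edge d) := gam (acc l) (opn l) f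

/-- cells which become of type `k` -/
noncomputable def gn (I : Finset ι) (V : ι → Finset (Edge d)) (k : ℕ) (l : List (Edge d))
    (g : Edge d) : Finset ι :=
  I.filter (fun r => Ty (acc (l ++ [g])) (opn (l ++ [g])) (V r) k ∧ ¬ Ty (acc l) (opn l) (V r) k)

/-- cells which stop being of type `k` -/
noncomputable def ls (I : Finset ι) (V : ι → Finset (Edge d)) (k : ℕ) (l : List (Edge d))
    (g : Edge d) : Finset ι :=
  I.filter (fun r => ¬ Ty (acc (l ++ [g])) (opn (l ++ [g])) (V r) k ∧ Ty (acc l) (opn l) (V r) k)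

theorem X_diff (I : Finset ι) (V : ι → Finset (Edge d)) (k : ℕ) (l : List (Edge d)) (g : Edge d) :
    Xf I V k (l ++ [g]) - Xf I V k l = ((gn I V k l g).card : ℝ) - ((ls I V k l g).card : ℝ) := by
  unfold Xf cnt gn ls
  rw [card_filter, card_filter, card_filter, card_filter]
  push_cast
  rw [← sum_sub_distrib, ← sum_sub_distrib]
  apply sum_congr rfl
  intro r _
  by_cases h1 : Ty (acc (l ++ [g])) (opn (l ++ [g])) (V r) k <;>
    by_cases h2 : Ty (acc l) (opn l) (V r) k <;> simp [h1, h2]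

theorem mem_gn {I : Finset ι} {V : ι → Finset (Edge d)} {k : ℕ} {l : List (Edge d)} {g : Edge d}
    (hg : g ∈ opn l) {r : ι} :
    r ∈ gn I V k l g ↔ r ∈ I ∧ g ∈ V r ∧ Disjoint (V r) (Gm l g) ∧
      V r ⊆ acc l ∪ opn l ∧ (V r ∩ acc l).card + 1 = k := by
  unfold gn Gm
  rw [mem_filter, ty_step hg]
  unfold Ty
  constructor
  · rintro ⟨h1, ⟨h2, h3, h4⟩, h5⟩
    by_cases h : g ∈ V r
    · rw [if_pos h] at h4
      exact ⟨h1, h, h3, h2, h4⟩
    · rw [if_neg h, add_zero] at h4
      exact absurd ⟨h2, h4⟩ h5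
  · rintro ⟨h1, h2, h3, h4, h5⟩
    refine ⟨h1, ⟨h4, h3, ?_⟩, ?_⟩
    · rw [if_pos h2, h5]
    · rintro ⟨_, h6⟩
      omega

theorem mem_ls {I : Finset ι} {V : ι → Finset (Edge d)} {k : ℕ} {l : List (Edge d)} {g : Edge d}
    (hg : g ∈ opn l) {r : ι} :
    r ∈ ls I V k l g ↔ r ∈ I ∧ Ty (acc l) (opn l) (V r) k ∧
      (g ∈ V r ∨ ¬ Disjoint (V r) (Gm l g)) := by
  unfold ls Gm
  rw [mem_filter, ty_step hg]
  constructor
  · rintro ⟨h1, h2, h3⟩
    refine ⟨h1, h3, ?_⟩
    by_contra hcon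
    push Not at hcon
    apply h2
    obtain ⟨h4, h5⟩ := h3
    refine ⟨h4, hcon.2, ?_⟩
    rw [if_neg hcon.1, add_zero, h5]
  · rintro ⟨h1, h2, h3⟩
    refine ⟨h1, ?_, h2⟩
    rintro ⟨h4, h5, h6⟩
    rcases h3 with h3 | h3
    · rw [if_pos h3] at h6
      have := h2.2
      omega
    · exact h3 h5

/-- nothing changes when the new edge is not open -/
theorem X_diff_closed {I : Finset ι} {V : ι → Finset (Edge d)} {k : ℕ} {l : List (Edge d)}
    {g : Edge d} (hg : g ∈ rest l) (hgo : g ∉ opn l) : Xf I V k (l ++ [g]) - Xf I V k l = 0 := by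
  obtain ⟨h1, h2⟩ := step_closed (mem_rest.mp hg) hgo
  unfold Xf
  rw [h1, h2, sub_self]

theorem opn_subset_rest (l : List (Edge d)) : opn l ⊆ rest l := by
  intro g hg
  exact mem_rest.mpr (mem_opn.mp hg).1

/-- the total number of losses, counted with multiplicity -/
theorem sum_ls_le (I : Finset ι) (V : ι → Finset (Edge d)) (k : ℕ) (l : List (Edge d)) :
    ∑ g ∈ opn l, ((ls I V k l g).card : ℝ) ≤
      ∑ r ∈ I.filter (fun r => Ty (acc l) (opn l) (V r) k),
        (((V r ∩ opn l).card : ℝ) + ∑ f ∈ V r ∩ opn l, ((Gm l f).card : ℝ)) := by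
  have h1 : ∑ g ∈ opn l, ((ls I V k l g).card : ℝ) =
      ∑ r ∈ I.filter (fun r => Ty (acc l) (opn l) (V r) k),
        (((opn l).filter (fun g => g ∈ V r ∨ ¬ Disjoint (V r) (Gm l g))).card : ℝ) := by
    have : ∀ g ∈ opn l, ((ls I V k l g).card : ℝ) =
        ∑ r ∈ I.filter (fun r => Ty (acc l) (opn l) (V r) k),
          (if (g ∈ V r ∨ ¬ Disjoint (V r) (Gm l g)) then (1 : ℝ) else 0) := by
      intro g hg
      rw [← sum_filter, sum_const, nsmul_eq_mul, mul_one]
      congr 2
      ext r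
      rw [mem_ls hg, mem_filter, mem_filter]
      tauto
    rw [sum_congr rfl this, sum_comm]
    apply sum_congr rfl
    intro r _
    rw [← sum_filter, sum_const, nsmul_eq_mul, mul_one]
  rw [h1]
  apply sum_le_sum
  intro r _
  have h2 : (opn l).filter (fun g => g ∈ V r ∨ ¬ Disjoint (V r) (Gm l g)) ⊆
      (V r ∩ opn l) ∪ (V r ∩ opn l).biUnion (fun f => Gm l f) := by
    intro g hg
    obtain ⟨hgo, hg2⟩ := mem_filter.mp hg
    rw [mem_union]
    rcases hg2 with hg2 | hg2
    · left; exact mem_inter.mpr ⟨hg2, hgo⟩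
    · right
      rw [Finset.not_disjoint_iff] at hg2
      obtain ⟨f, hf1, hf2⟩ := hg2
      rw [mem_biUnion]
      exact ⟨f, mem_inter.mpr ⟨hf1, gam_subset hf2⟩, gam_symm hgo hf2⟩
  have h3 := card_le_card h2
  have h4 := h3.trans (card_union_le _ _)
  have h5 : ((V r ∩ opn l).biUnion (fun f => Gm l f)).card ≤ ∑ f ∈ V r ∩ opn l, (Gm l f).card :=
    card_biUnion_le
  have h6 := h4.trans (Nat.add_le_add_left h5 _)
  exact_mod_cast h6

/-- total number of gains -/
theorem sum_gn_le (I : Finset ι) (V : ι → Finset (Edge d)) (k : ℕ) (l : List (Edge d)) :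
    ∑ g ∈ opn l, ((gn I V (k + 1) l g).card : ℝ) ≤
      ∑ r ∈ I.filter (fun r => Ty (acc l) (opn l) (V r) k), ((V r ∩ opn l).card : ℝ) := by
  have h1 : ∑ g ∈ opn l, ((gn I V (k + 1) l g).card : ℝ) =
      ∑ r ∈ I.filter (fun r => Ty (acc l) (opn l) (V r) k),
        (((opn l).filter (fun g => g ∈ V r ∧ Disjoint (V r) (Gm l g))).card : ℝ) := by
    have : ∀ g ∈ opn l, ((gn I V (k + 1) l g).card : ℝ) =
        ∑ r ∈ I.filter (fun r => Ty (acc l) (opn l) (V r) k),
          (if (g ∈ V r ∧ Disjoint (V r) (Gm l g)) then (1 : ℝ) else 0) := by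
      intro g hg
      rw [← sum_filter, sum_const, nsmul_eq_mul, mul_one]
      congr 2
      ext r
      rw [mem_gn hg, mem_filter, mem_filter]
      unfold Ty
      constructor
      · rintro ⟨h1, h2, h3, h4, h5⟩
        exact ⟨⟨h1, h4, by omega⟩, h2, h3⟩
      · rintro ⟨⟨h1, h4, h5⟩, h2, h3⟩
        exact ⟨h1, h2, h3, h4, by omega⟩
    rw [sum_congr rfl this, sum_comm]
    apply sum_congr rfl
    intro r _
    rw [← sum_filter, sum_const, nsmul_eq_mul, mul_one]
  rw [h1]
  apply sum_le_sum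
  intro r _
  have h2 : (opn l).filter (fun g => g ∈ V r ∧ Disjoint (V r) (Gm l g)) ⊆ V r ∩ opn l := by
    intro g hg
    obtain ⟨hgo, hg2, _⟩ := mem_filter.mp hg
    exact mem_inter.mpr ⟨hg2, hgo⟩
  exact_mod_cast card_le_card h2

theorem gn_zero (I : Finset ι) (V : ι → Finset (Edge d)) {l : List (Edge d)} {g : Edge d}
    (hg : g ∈ opn l) : gn I V 0 l g = ∅ := by
  ext r
  rw [mem_gn hg]
  simp

/-- number of open edges in a cell of given type -/
theorem card_inter_opn {A : Finset (Edge d)} {l : List (Edge d)} {k v : ℕ} (hA : A.card = v)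
    (h : Ty (acc l) (opn l) A k) : (A ∩ opn l).card = v - k := by
  obtain ⟨h1, h2⟩ := h
  have h3 : A = (A ∩ acc l) ∪ (A ∩ opn l) := by
    rw [← inter_union_distrib_left]
    exact (inter_eq_left.mpr h1).symm
  have h4 : Disjoint (A ∩ acc l) (A ∩ opn l) :=
    (disj_acc_opn l).mono inter_subset_right inter_subset_right
  have h5 := card_union_of_disjoint h4
  rw [← h3] at h5
  omega

/-- gain term of the drift -/
noncomputable def gt (I : Finset ι) (V : ι → Finset (Edge d)) (v : ℕ) (l : List (Edge d)) : ℕ → ℝ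
  | 0 => 0
  | k + 1 => ((v : ℝ) - k) * Xf I V k l

theorem gt_zero (I : Finset ι) (V : ι → Finset (Edge d)) (v : ℕ) (l : List (Edge d)) :
    gt I V v l 0 = 0 := rfl

theorem gt_succ (I : Finset ι) (V : ι → Finset (Edge d)) (v k : ℕ) (l : List (Edge d)) :
    gt I V v l (k + 1) = ((v : ℝ) - k) * Xf I V k l := rfl

/-- loss term of the drift -/
noncomputable def lt (I : Finset ι) (V : ι → Finset (Edge d)) (k : ℕ) (l : List (Edge d)) : ℝ :=
  ∑ r ∈ I.filter (fun r => Ty (acc l) (opn l) (V r) k), ∑ f ∈ V r ∩ opn l, ((Gm l f).card : ℝ)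

theorem Xf_eq_sum (I : Finset ι) (V : ι → Finset (Edge d)) (k : ℕ) (l : List (Edge d)) :
    Xf I V k l = ∑ _r ∈ I.filter (fun r => Ty (acc l) (opn l) (V r) k), (1 : ℝ) := by
  unfold Xf cnt
  simp

theorem Xf_nonneg (I : Finset ι) (V : ι → Finset (Edge d)) (k : ℕ) (l : List (Edge d)) :
    0 ≤ Xf I V k l := by
  unfold Xf
  positivity

theorem lt_nonneg (I : Finset ι) (V : ι → Finset (Edge d)) (k : ℕ) (l : List (Edge d)) :
    0 ≤ lt I V k l := by
  unfold lt
  positivity

theorem gt_nonneg {I : Finset ι} {V : ι → Finset (Edge d)} {v k : ℕ} {l : List (Edge d)}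
    (hk : k ≤ v + 1) : 0 ≤ gt I V v l k := by
  cases k with
  | zero => exact le_rfl
  | succ k =>
    rw [gt_succ]
    apply mul_nonneg _ (Xf_nonneg _ _ _ _)
    have : (k : ℝ) ≤ v := by exact_mod_cast Nat.le_of_succ_le_succ hk
    linarith

/-- total gains over all open edges -/
theorem sum_gn_le' {I : Finset ι} {V : ι → Finset (Edge d)} {v : ℕ} {k : ℕ} {l : List (Edge d)}
    (hV : ∀ r ∈ I, (V r).card = v) (hk : k ≤ v + 1) :
    ∑ g ∈ opn l, ((gn I V k l g).card : ℝ) ≤ gt I V v l k := by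
  cases k with
  | zero =>
    have : ∑ g ∈ opn l, ((gn I V 0 l g).card : ℝ) = 0 := by
      apply sum_eq_zero
      intro g hg
      rw [gn_zero I V hg]; simp
    rw [this]; exact le_rfl
  | succ k =>
    refine (sum_gn_le I V k l).trans ?_
    rw [gt_succ, Xf_eq_sum, mul_sum, mul_one]
    apply le_of_eq
    apply sum_congr rfl
    intro r hr
    obtain ⟨hr1, hr2⟩ := mem_filter.mp hr
    rw [card_inter_opn (hV r hr1) hr2, Nat.cast_sub (by omega)]

/-- total losses over all open edges -/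
theorem sum_ls_le' {I : Finset ι} {V : ι → Finset (Edge d)} {v : ℕ} {k : ℕ} {l : List (Edge d)}
    (hV : ∀ r ∈ I, (V r).card = v) :
    ∑ g ∈ opn l, ((ls I V k l g).card : ℝ) ≤ v * Xf I V k l + lt I V k l := by
  refine (sum_ls_le I V k l).trans ?_
  unfold lt
  rw [Xf_eq_sum, mul_sum, mul_one, ← sum_add_distrib]
  apply sum_le_sum
  intro r hr
  obtain ⟨hr1, hr2⟩ := mem_filter.mp hr
  have : ((V r ∩ opn l).card : ℝ) ≤ v := by
    rw [← hV r hr1]
    exact_mod_cast card_le_card inter_subset_left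
  linarith

/-- Bonferroni -/
theorem bonf {α β : Type} [DecidableEq α] [DecidableEq β] (A : Finset α) (G : α → Finset β) (Z : Finset β) (c : ℕ)
    (h1 : ∀ f ∈ A, ∀ f' ∈ A, f ≠ f' → (G f ∩ G f').card ≤ c) (h2 : ∀ f ∈ A, (G f ∩ Z).card ≤ c) :
    ∑ f ∈ A, (G f).card ≤ (A.biUnion G \ Z).card + A.card * A.card * c := by
  induction A using Finset.induction_on with
  | empty => simp
  | insert a A ha ih =>
    have ih' := ih (fun f hf f' hf' h => h1 f (mem_insert_of_mem hf) f' (mem_insert_of_mem hf') h)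
      (fun f hf => h2 f (mem_insert_of_mem hf))
    rw [sum_insert ha, biUnion_insert, card_insert_of_notMem ha]
    have h3 : (G a ∪ A.biUnion G) \ Z = (A.biUnion G \ Z) ∪ (G a \ (Z ∪ A.biUnion G)) := by
      ext x
      simp only [mem_sdiff, mem_union]
      tauto
    have h4 : Disjoint (A.biUnion G \ Z) (G a \ (Z ∪ A.biUnion G)) := by
      rw [Finset.disjoint_left]
      intro x hx hx'
      simp only [mem_sdiff, mem_union] at hx hx'
      tauto
    rw [h3, card_union_of_disjoint h4]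
    have h5 : (G a).card ≤ (G a \ (Z ∪ A.biUnion G)).card + (G a ∩ (Z ∪ A.biUnion G)).card := by
      rw [Finset.card_sdiff_add_card_inter]
    have h6 : (G a ∩ (Z ∪ A.biUnion G)).card ≤ c + A.card * c := by
      have : G a ∩ (Z ∪ A.biUnion G) ⊆ (G a ∩ Z) ∪ A.biUnion (fun f => G a ∩ G f) := by
        intro x hx
        simp only [mem_inter, mem_union, mem_biUnion] at hx ⊢
        obtain ⟨hx1, hx2 | ⟨f, hf, hx2⟩⟩ := hx
        · left; exact ⟨hx1, hx2⟩
        · right; exact ⟨f, hf, hx1, hx2⟩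
      refine (card_le_card this).trans ((card_union_le _ _).trans ?_)
      apply Nat.add_le_add (h2 a (mem_insert_self _ _))
      refine card_biUnion_le.trans ?_
      refine (Finset.sum_le_card_nsmul A _ c ?_).trans (by simp)
      intro f hf
      apply h1 a (mem_insert_self _ _) f (mem_insert_of_mem hf)
      rintro rfl
      exact ha hf
    nlinarith

/-- the drift formula -/
theorem drift_main {I : Finset ι} {V : ι → Finset (Edge d)} {v k : ℕ} {l : List (Edge d)}
    {live : List (Edge d) → Prop} (hV : ∀ r ∈ I, (V r).card = v) (hk : k ≤ v)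
    (hpos : 0 < (rest l).card)
    (hsep : ∀ j, k = j + 1 → ∀ r ∈ I, Ty (acc l) (opn l) (V r) j → ∀ g ∈ V r ∩ opn l,
      Disjoint (V r) (Gm l g) ∧ live (l ++ [g]))
    (c : ℕ) (hov1 : ∀ r ∈ I, Ty (acc l) (opn l) (V r) k → ∀ f ∈ V r ∩ opn l, ∀ f' ∈ V r ∩ opn l,
      f ≠ f' → (Gm l f ∩ Gm l f').card ≤ c)
    (hov2 : ∀ r ∈ I, Ty (acc l) (opn l) (V r) k → ∀ f ∈ V r ∩ opn l,
      (Gm l f ∩ (opn l).filter (fun g => ¬ live (l ++ [g]))).card ≤ c) :
    |((rest l).card : ℝ) * drift (Xf I V k) live l - (gt I V v l k - lt I V k l)| ≤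
      (v + v * v * c) * Xf I V k l := by
  -- rewrite the drift as a sum over live open edges
  set Lv := (opn l).filter (fun g => live (l ++ [g])) with hLv
  set Z := (opn l).filter (fun g => ¬ live (l ++ [g])) with hZ
  have hd : ((rest l).card : ℝ) * drift (Xf I V k) live l =
      ∑ g ∈ Lv, (((gn I V k l g).card : ℝ) - ((ls I V k l g).card : ℝ)) := by
    unfold drift av
    have hne : ((rest l).card : ℝ) ≠ 0 := by exact_mod_cast hpos.ne'
    rw [mul_div_cancel₀ _ hne]
    have h1 : ∑ g ∈ rest l, (if live (l ++ [g]) then Xf I V k (l ++ [g]) - Xf I V k l else 0) =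
        ∑ g ∈ opn l, (if live (l ++ [g]) then Xf I V k (l ++ [g]) - Xf I V k l else 0) := by
      symm
      apply sum_subset (opn_subset_rest l)
      intro g hg hgo
      rw [X_diff_closed hg hgo]
      split <;> rfl
    rw [h1, ← sum_filter]
    apply sum_congr rfl
    intro g _
    exact X_diff I V k l g
  rw [hd, sum_sub_distrib]
  have hLvsub : Lv ⊆ opn l := filter_subset _ _
  -- upper bound for gains and losses
  have hg1 : ∑ g ∈ Lv, ((gn I V k l g).card : ℝ) ≤ gt I V v l k :=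
    (sum_le_sum_of_subset_of_nonneg hLvsub (fun _ _ _ => Nat.cast_nonneg _)).trans
      (sum_gn_le' hV (by omega))
  have hl1 : ∑ g ∈ Lv, ((ls I V k l g).card : ℝ) ≤ v * Xf I V k l + lt I V k l :=
    (sum_le_sum_of_subset_of_nonneg hLvsub (fun _ _ _ => Nat.cast_nonneg _)).trans
      (sum_ls_le' hV)
  -- lower bound for gains
  have hg2 : gt I V v l k ≤ ∑ g ∈ Lv, ((gn I V k l g).card : ℝ) := by
    cases k with
    | zero =>
      rw [gt_zero]
      exact sum_nonneg (fun _ _ => Nat.cast_nonneg _)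
    | succ k =>
      have h1 : ∑ g ∈ Lv, ((gn I V (k + 1) l g).card : ℝ) =
          ∑ r ∈ I.filter (fun r => Ty (acc l) (opn l) (V r) k),
            ((Lv.filter (fun g => g ∈ V r ∧ Disjoint (V r) (Gm l g))).card : ℝ) := by
        have : ∀ g ∈ Lv, ((gn I V (k + 1) l g).card : ℝ) =
            ∑ r ∈ I.filter (fun r => Ty (acc l) (opn l) (V r) k),
              (if (g ∈ V r ∧ Disjoint (V r) (Gm l g)) then (1 : ℝ) else 0) := by
          intro g hg
          rw [← sum_filter, sum_const, nsmul_eq_mul, mul_one]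
          congr 2
          ext r
          rw [mem_gn (hLvsub hg), mem_filter, mem_filter]
          unfold Ty
          constructor
          · rintro ⟨h1, h2, h3, h4, h5⟩
            exact ⟨⟨h1, h4, by omega⟩, h2, h3⟩
          · rintro ⟨⟨h1, h4, h5⟩, h2, h3⟩
            exact ⟨h1, h2, h3, h4, by omega⟩
        rw [sum_congr rfl this, sum_comm]
        apply sum_congr rfl
        intro r _
        rw [← sum_filter, sum_const, nsmul_eq_mul, mul_one]
      rw [h1, gt_succ, Xf_eq_sum, mul_sum, mul_one]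
      apply sum_le_sum
      intro r hr
      obtain ⟨hr1, hr2⟩ := mem_filter.mp hr
      have h2 : V r ∩ opn l ⊆ Lv.filter (fun g => g ∈ V r ∧ Disjoint (V r) (Gm l g)) := by
        intro g hg
        obtain ⟨h3, h4⟩ := hsep k rfl r hr1 hr2 g hg
        rw [mem_filter, hLv, mem_filter]
        exact ⟨⟨(mem_inter.mp hg).2, h4⟩, (mem_inter.mp hg).1, h3⟩
      have h3 := card_le_card h2
      rw [card_inter_opn (hV r hr1) hr2] at h3
      have h4 : ((v - k : ℕ) : ℝ) ≤
          ((Lv.filter (fun g => g ∈ V r ∧ Disjoint (V r) (Gm l g))).card : ℝ) := by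
        exact_mod_cast h3
      rw [Nat.cast_sub (by omega)] at h4
      exact h4
  -- lower bound for losses
  have hl2 : lt I V k l ≤ ∑ g ∈ Lv, ((ls I V k l g).card : ℝ) + v * v * c * Xf I V k l := by
    have h1 : ∑ g ∈ Lv, ((ls I V k l g).card : ℝ) =
        ∑ r ∈ I.filter (fun r => Ty (acc l) (opn l) (V r) k),
          ((Lv.filter (fun g => g ∈ V r ∨ ¬ Disjoint (V r) (Gm l g))).card : ℝ) := by
      have : ∀ g ∈ Lv, ((ls I V k l g).card : ℝ) =
          ∑ r ∈ I.filter (fun r => Ty (acc l) (opn l) (V r) k),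
            (if (g ∈ V r ∨ ¬ Disjoint (V r) (Gm l g)) then (1 : ℝ) else 0) := by
        intro g hg
        rw [← sum_filter, sum_const, nsmul_eq_mul, mul_one]
        congr 2
        ext r
        rw [mem_ls (hLvsub hg), mem_filter, mem_filter]
        tauto
      rw [sum_congr rfl this, sum_comm]
      apply sum_congr rfl
      intro r _
      rw [← sum_filter, sum_const, nsmul_eq_mul, mul_one]
    rw [h1]
    unfold lt
    rw [Xf_eq_sum, mul_sum, mul_one, ← sum_add_distrib]
    apply sum_le_sum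
    intro r hr
    obtain ⟨hr1, hr2⟩ := mem_filter.mp hr
    have h2 := bonf (V r ∩ opn l) (Gm l) Z c (fun f hf f' hf' hne => hov1 r hr1 hr2 f hf f' hf' hne)
      (fun f hf => hov2 r hr1 hr2 f hf)
    have h3 : ((V r ∩ opn l).biUnion (Gm l)) \ Z ⊆
        Lv.filter (fun g => g ∈ V r ∨ ¬ Disjoint (V r) (Gm l g)) := by
      intro g hg
      obtain ⟨hg1, hg2⟩ := mem_sdiff.mp hg
      obtain ⟨f, hf, hgf⟩ := mem_biUnion.mp hg1
      have hgo : g ∈ opn l := gam_subset hgf
      have hlive : live (l ++ [g]) := by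
        by_contra h
        exact hg2 (mem_filter.mpr ⟨hgo, h⟩)
      rw [mem_filter, hLv, mem_filter]
      refine ⟨⟨hgo, hlive⟩, Or.inr ?_⟩
      rw [Finset.not_disjoint_iff]
      exact ⟨f, (mem_inter.mp hf).1, gam_symm (mem_inter.mp hf).2 hgf⟩
    have h4 := card_le_card h3
    have h5 : (V r ∩ opn l).card ≤ v := by
      rw [← hV r hr1]
      exact card_le_card inter_subset_left
    have h6 : (V r ∩ opn l).card * (V r ∩ opn l).card * c ≤ v * v * c :=
      Nat.mul_le_mul_right _ (Nat.mul_le_mul h5 h5)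
    have h7 : ∑ f ∈ V r ∩ opn l, (Gm l f).card ≤
        (Lv.filter (fun g => g ∈ V r ∨ ¬ Disjoint (V r) (Gm l g))).card + v * v * c := by
      omega
    exact_mod_cast h7
  have hX := Xf_nonneg I V k l
  have hv : (0 : ℝ) ≤ v * Xf I V k l := by positivity
  have hv2 : (0 : ℝ) ≤ v * v * c * Xf I V k l := by positivity
  rw [abs_le, add_mul]
  constructor
  · linarith
  · linarith

/-- the variance bound -/
theorem var_main {I : Finset ι} {V : ι → Finset (Edge d)} {v k : ℕ} {l : List (Edge d)}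
    {live : List (Edge d) → Prop} (hV : ∀ r ∈ I, (V r).card = v) (hk : k ≤ v) :
    av l (fun g => if live (l ++ [g]) then |Xf I V k (l ++ [g]) - Xf I V k l| else 0) ≤
      (gt I V v l k + (v * Xf I V k l + lt I V k l)) / (rest l).card := by
  unfold av
  apply div_le_div_of_nonneg_right _ (Nat.cast_nonneg _)
  have h1 : ∑ g ∈ rest l, (if live (l ++ [g]) then |Xf I V k (l ++ [g]) - Xf I V k l| else 0) ≤
      ∑ g ∈ opn l, (((gn I V k l g).card : ℝ) + ((ls I V k l g).card : ℝ)) := by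
    have h2 : ∑ g ∈ opn l, (if live (l ++ [g]) then |Xf I V k (l ++ [g]) - Xf I V k l| else 0) =
        ∑ g ∈ rest l, (if live (l ++ [g]) then |Xf I V k (l ++ [g]) - Xf I V k l| else 0) := by
      apply sum_subset (opn_subset_rest l)
      intro g hg hgo
      rw [X_diff_closed hg hgo, abs_zero]
      split <;> rfl
    rw [← h2]
    apply sum_le_sum
    intro g _
    split
    · rw [X_diff]
      refine (abs_sub _ _).trans ?_
      rw [Nat.abs_cast, Nat.abs_cast]
    · positivity
  refine h1.trans ?_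
  rw [sum_add_distrib]
  exact add_le_add (sum_gn_le' hV (by omega)) (sum_ls_le' hV)

/-- the jump bound -/
theorem jump_main {I : Finset ι} {V : ι → Finset (Edge d)} {k : ℕ} {l : List (Edge d)}
    {g : Edge d} (hg : g ∈ rest l)
    (hdisj : ∀ r ∈ I, ∀ s ∈ I, r ≠ s → Disjoint (V r) (V s)) (c : ℕ)
    (hc : g ∈ opn l → ((I.filter (fun r => Ty (acc l) (opn l) (V r) k ∧
      ¬ Disjoint (V r) (Gm l g))).card ≤ c)) :
    |Xf I V k (l ++ [g]) - Xf I V k l| ≤ c + 1 := by
  by_cases hgo : g ∈ opn l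
  swap
  · rw [X_diff_closed hg hgo, abs_zero]
    positivity
  rw [X_diff]
  have hone : (I.filter (fun r => g ∈ V r)).card ≤ 1 := by
    rw [card_le_one]
    intro r hr s hs
    obtain ⟨hr1, hr2⟩ := mem_filter.mp hr
    obtain ⟨hs1, hs2⟩ := mem_filter.mp hs
    by_contra hne
    exact Finset.disjoint_left.mp (hdisj r hr1 s hs1 hne) hr2 hs2
  have h1 : (gn I V k l g).card ≤ 1 := by
    refine (card_le_card ?_).trans hone
    intro r hr
    rw [mem_gn hgo] at hr
    exact mem_filter.mpr ⟨hr.1, hr.2.1⟩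
  have h2 : (ls I V k l g).card ≤ c + 1 := by
    have : ls I V k l g ⊆ I.filter (fun r => Ty (acc l) (opn l) (V r) k ∧
      ¬ Disjoint (V r) (Gm l g)) ∪ I.filter (fun r => g ∈ V r) := by
      intro r hr
      rw [mem_ls hgo] at hr
      obtain ⟨h3, h4, h5⟩ := hr
      rw [mem_union, mem_filter, mem_filter]
      rcases h5 with h5 | h5
      · right; exact ⟨h3, h5⟩
      · left; exact ⟨h3, h4, h5⟩
    have h6 := (card_le_card this).trans (card_union_le _ _)
    have := hc hgo
    omega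
  have h3 : ((gn I V k l g).card : ℝ) ≤ 1 := by exact_mod_cast h1
  have h4 : ((ls I V k l g).card : ℝ) ≤ c + 1 := by exact_mod_cast h2
  have h5 : (0 : ℝ) ≤ ((gn I V k l g).card : ℝ) := Nat.cast_nonneg _
  have h6 : (0 : ℝ) ≤ ((ls I V k l g).card : ℝ) := Nat.cast_nonneg _
  rw [abs_le]
  constructor <;> linarith [(Nat.cast_nonneg c : (0 : ℝ) ≤ (c : ℝ))]

end Pool.Agent.Q2F
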