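import Mathlib
import Pool.Agent.MP_9431a4_pr.Basic

set_option autoImplicit false

/-!
Geometry of faces: exceptional directions.
-/

namespace Pool.Agent.Q2F

open Finset Classical

variable {d : ℕ}

noncomputable def S1 (a b : Vx d) : Finset (Fin d) := univ.filter (fun r => a = fl b r)

noncomputable def S2 (a b : Vx d) : Finset (Fin d) := univ.filter (fun r => ∃ s, fl a r = fl b s)

theorem card_S1 (a b : Vx d) : (S1 a b).card ≤ 1 := by
  rw [card_le_one]
  intro r hr s hs
  simp only [S1, mem_filter, mem_univ, true_and] at hr hs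
  rw [hr] at hs
  exact fl_left_inj.mp hs

theorem mem_S1 {a b : Vx d} {r : Fin d} : r ∈ S1 a b ↔ a = fl b r := by simp [S1]

theorem mem_S2 {a b : Vx d} {r : Fin d} : r ∈ S2 a b ↔ ∃ s, fl a r = fl b s := by simp [S2]

theorem card_S2 {a b : Vx d} (h : a ≠ b) : (S2 a b).card ≤ 2 := by
  by_cases hne : (S2 a b) = ∅
  · rw [hne]; simp
  obtain ⟨r, hr⟩ := Finset.nonempty_iff_ne_empty.mpr hne
  obtain ⟨s, hs⟩ := mem_S2.mp hr
  have hrs : r ≠ s := by
    rintro rfl
    exact h (fl_inj hs)
  have hb : b = fl (fl a r) s := by rw [hs, fl_fl]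
  have hsub : S2 a b ⊆ {r, s} := by
    intro r' hr'
    obtain ⟨s', hs'⟩ := mem_S2.mp hr'
    have hb' : b = fl (fl a r') s' := by rw [hs', fl_fl]
    rw [hb] at hb'
    rw [mem_insert, mem_singleton]
    rcases fl_fl_eq hrs hb' with ⟨h1, _⟩ | ⟨h1, h2⟩
    · left; exact h1.symm
    · right; exact h2.symm
  exact (card_le_card hsub).trans card_le_two

/-- cofacial edges -/
def Cof (g f : Edge d) : Prop := ∃ s, s ≠ dir g ∧ f ∈ nb g s

/-- exceptional directions -/
noncomputable def Exc (x : Vx d) (p : Fin d) (g : Edge d) : Finset (Fin d) :=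
  univ.filter (fun r => r ≠ p ∧ ∃ f ∈ nb (ed x p) r, Cof g f ∧
    ¬ (∃ z, (z = x ∨ z = fl x p) ∧ g = ed z (dir g) ∧ f = ed z r))

theorem card_Exc {x : Vx d} {p : Fin d} {g : Edge d} (hg : g ≠ ed x p) :
    (Exc x p g).card ≤ 13 := by
  obtain ⟨y, q, rfl⟩ := exists_ed g
  have hsub : Exc x p (ed y q) ⊆ S1 x y ∪ (S1 x (fl y q) ∪ (S1 (fl x p) y ∪
      (S1 (fl x p) (fl y q) ∪ ({q} ∪ (S1 y x ∪ (S1 (fl y q) x ∪ (S1 (fl y p) x ∪
      (S1 (fl (fl y q) p) x ∪ ((if x = y then ∅ else S2 x y) ∪
        (if x = fl y p then ∅ else S2 x (fl y p))))))))))) := by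
    intro r hr
    simp only [Exc, mem_filter, mem_univ, true_and] at hr
    obtain ⟨hrp, f, hf, ⟨s, hs, hf'⟩, hz⟩ := hr
    rw [dir_ed] at hs hz
    rw [mem_nb_ed] at hf hf'
    simp only [mem_union, mem_singleton, mem_S1]
    rcases hf with rfl | rfl | rfl <;> rcases hf' with h | h | h
    · -- ed x r = ed y s
      obtain ⟨rfl, h | h⟩ := ed_eq_iff.mp h
      · exact absurd ⟨x, Or.inl rfl, by rw [h], rfl⟩ hz
      · left; exact h
    · obtain ⟨rfl, h | h⟩ := ed_eq_iff.mp h
      · exact absurd ⟨x, Or.inl rfl, by rw [h, ed_fl], rfl⟩ hz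
      · right; left; exact h
    · obtain ⟨rfl, h⟩ := ed_eq_iff.mp h
      right; right; right; right; left; rfl
    · obtain ⟨rfl, h | h⟩ := ed_eq_iff.mp h
      · exact absurd ⟨fl x p, Or.inr rfl, by rw [h], rfl⟩ hz
      · right; right; left; exact h
    · obtain ⟨rfl, h | h⟩ := ed_eq_iff.mp h
      · exact absurd ⟨fl x p, Or.inr rfl, by rw [h, ed_fl], rfl⟩ hz
      · right; right; right; left; exact h
    · obtain ⟨rfl, h⟩ := ed_eq_iff.mp h
      right; right; right; right; left; rfl
    · obtain ⟨rfl, h | h⟩ := ed_eq_iff.mp h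
      · right; right; right; right; right; left; exact h.symm
      · right; right; right; right; right; right; right; left; exact h.symm
    · obtain ⟨rfl, h | h⟩ := ed_eq_iff.mp h
      · right; right; right; right; right; right; left; exact h.symm
      · right; right; right; right; right; right; right; right; left; exact h.symm
    · obtain ⟨rfl, h | h⟩ := ed_eq_iff.mp h
      · right; right; right; right; right; right; right; right; right; left
        rw [if_neg]
        · rw [mem_S2]; exact ⟨s, h⟩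
        · rintro rfl; exact hg rfl
      · right; right; right; right; right; right; right; right; right; right
        rw [if_neg]
        · rw [mem_S2]
          refine ⟨s, ?_⟩
          rw [h, fl_comm]
        · rintro rfl
          exact hg (ed_fl _ _).symm
  have e1 : ((if x = y then ∅ else S2 x y) : Finset (Fin d)).card ≤ 2 := by
    split
    · simp
    · rename_i h; exact card_S2 h
  have e2 : ((if x = fl y p then ∅ else S2 x (fl y p)) : Finset (Fin d)).card ≤ 2 := by
    split
    · simp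
    · rename_i h; exact card_S2 h
  refine (card_le_card hsub).trans ?_
  have hu : ∀ (A B : Finset (Fin d)) (a b : ℕ), A.card ≤ a → B.card ≤ b → (A ∪ B).card ≤ a + b :=
    fun A B a b h1 h2 => (card_union_le A B).trans (Nat.add_le_add h1 h2)
  have h0 := hu _ _ _ _ (card_S1 x y) (hu _ _ _ _ (card_S1 x (fl y q)) (hu _ _ _ _ (card_S1 (fl x p) y)
    (hu _ _ _ _ (card_S1 (fl x p) (fl y q)) (hu _ _ _ _ (card_singleton q).le
    (hu _ _ _ _ (card_S1 y x) (hu _ _ _ _ (card_S1 (fl y q) x) (hu _ _ _ _ (card_S1 (fl y p) x)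
    (hu _ _ _ _ (card_S1 (fl (fl y q) p) x) (hu _ _ _ _ e1 e2)))))))))
  exact h0

end Pool.Agent.Q2F
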