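import Mathlib
import Pool.Agent.MP_9431a4_pr.Fam
import Pool.Agent.MP_9431a4_pr.Geo

set_option autoImplicit false

/-!
Conflict neighbourhoods: stars, overlaps, and the cell families used in the proof.
-/

namespace Pool.Agent.Q2F

open Finset Classical

variable {d : ℕ}

/-- codegree -/
noncomputable def cod0s (R : Finset (Edge d)) (z : Vx d) (q : Fin d) : Finset (Fin d) :=
  (univ.erase q).filter (fun r => ed (fl z q) r ∈ R ∧ ed (fl z r) q ∈ R)

/-- triple codegree -/
noncomputable def cod1s (R : Finset (Edge d)) (z : Vx d) (q p : Fin d) : Finset (Fin d) :=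
  ((univ.erase q).erase p).filter (fun r => ed (fl z q) r ∈ R ∧ ed (fl z r) q ∈ R ∧
    (ed (fl z p) r ∈ R ∨ ed (fl z r) p ∈ R))

theorem cof_of_mem_Gm {l : List (Edge d)} {g f : Edge d} (h : f ∈ Gm l g) : Cof g f := by
  obtain ⟨_, r, hr, hf, _⟩ := mem_gam.mp h
  exact ⟨r, hr, hf⟩

/-- conflicts inside a star -/
theorem star_mem {l : List (Edge d)} {z : Vx d} {q r : Fin d} (h : ed z r ∈ Gm l (ed z q)) :
    r ≠ q ∧ ed (fl z q) r ∈ acc l ∧ ed (fl z r) q ∈ acc l := by
  obtain ⟨_, s, hs, hf, he⟩ := mem_gam.mp h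
  rw [dir_ed] at hs
  have hrs : r = s := by
    rw [mem_nb_ed] at hf
    rcases hf with h | h | h
    · exact (ed_eq_iff.mp h).1
    · exact (ed_eq_iff.mp h).1
    · exfalso
      obtain ⟨rfl, h | h⟩ := ed_eq_iff.mp h
      · exact ne_fl z s h
      · have := congrArg (fun x => fl x r) h
        simp only [fl_fl] at this
        exact hs (fl_left_inj.mp this).symm
  subst hrs
  have h1 : ed z r ≠ ed (fl z q) r := by
    intro h
    obtain ⟨_, h | h⟩ := ed_eq_iff.mp h
    · exact ne_fl z q h
    · have := congrArg (fun x => fl x r) h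
      simp only [fl_fl] at this
      exact hs (fl_left_inj.mp this)
  have h2 : ed z r ≠ ed (fl z r) q := fun h => hs (ed_eq_iff.mp h).1
  refine ⟨hs, he ?_, he ?_⟩
  · rw [mem_erase, mem_nb_ed]
    exact ⟨h1.symm, Or.inr (Or.inl rfl)⟩
  · rw [mem_erase, mem_nb_ed]
    exact ⟨h2.symm, Or.inr (Or.inr rfl)⟩

/-- the e-family -/
noncomputable def Ie (e : Edge d) : Finset (Fin d) := univ.erase (dir e)

theorem mem_Ie {e : Edge d} {r : Fin d} : r ∈ Ie e ↔ r ≠ dir e := by simp [Ie]

theorem card_Gm {l : List (Edge d)} (f : Edge d) :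
    ((Gm l f).card : ℝ) = Xf (Ie f) (nb f) 2 l := by
  unfold Xf cnt
  congr 1
  -- bijection
  have key : ∀ h ∈ Gm l f, ∃ r, r ∈ (Ie f).filter (fun r => Ty (acc l) (opn l) (nb f r) 2) ∧
      h ∈ nb f r := by
    intro h hh
    obtain ⟨ho, r, hr, hf, he⟩ := mem_gam.mp hh
    refine ⟨r, ?_, hf⟩
    rw [mem_filter, mem_Ie]
    refine ⟨hr, ?_, ?_⟩
    · intro x hx
      by_cases hxh : x = h
      · subst hxh; exact mem_union_right _ ho
      · exact mem_union_left _ (he (mem_erase.mpr ⟨hxh, hx⟩))
    · have h1 : nb f r ∩ acc l = (nb f r).erase h := by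
        ext x
        rw [mem_inter, mem_erase]
        constructor
        · rintro ⟨h1, h2⟩
          refine ⟨?_, h1⟩
          rintro rfl
          exact Finset.disjoint_left.mp (disj_acc_opn l) h2 ho
        · rintro ⟨h1, h2⟩
          exact ⟨h2, he (mem_erase.mpr ⟨h1, h2⟩)⟩
      rw [h1, card_erase_of_mem hf, card_nb hr]
  choose φ hφ1 hφ2 using key
  apply card_bij (fun h hh => φ h hh)
  · intro h hh; exact hφ1 h hh
  · intro h hh h' hh' heq
    -- both in the same cell, with only one open edge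
    have h1 := (mem_filter.mp (hφ1 h hh))
    have hr := mem_Ie.mp h1.1
    have h2 := card_inter_opn (card_nb hr) h1.2
    have h3 : h ∈ nb f (φ h hh) ∩ opn l := mem_inter.mpr ⟨hφ2 h hh, gam_subset hh⟩
    have h4 : h' ∈ nb f (φ h hh) ∩ opn l := mem_inter.mpr ⟨heq ▸ hφ2 h' hh', gam_subset hh'⟩
    exact card_le_one.mp h2.le h h3 h' h4
  · intro r hr
    obtain ⟨hr1, hr2⟩ := mem_filter.mp hr
    have hr1' := mem_Ie.mp hr1
    have h2 := card_inter_opn (card_nb hr1') hr2
    obtain ⟨h, hh⟩ := card_eq_one.mp h2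
    have h3 : h ∈ nb f r ∩ opn l := by rw [hh]; exact mem_singleton_self _
    obtain ⟨h4, h5⟩ := mem_inter.mp h3
    have hG : h ∈ Gm l f := by
      unfold Gm
      rw [mem_gam]
      refine ⟨h5, r, hr1', h4, ?_⟩
      intro x hx
      obtain ⟨hx1, hx2⟩ := mem_erase.mp hx
      rcases mem_union.mp (hr2.1 hx2) with h6 | h6
      · exact h6
      · exfalso
        have : x ∈ nb f r ∩ opn l := mem_inter.mpr ⟨hx2, h6⟩
        rw [hh, mem_singleton] at this
        exact hx1 this
    refine ⟨h, hG, ?_⟩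
    by_contra hne
    have h6 := hφ1 h hG
    have h7 := hφ2 h hG
    exact Finset.disjoint_left.mp (nb_disjoint (mem_Ie.mp (mem_filter.mp h6).1) hr1' hne) h7 h4

/-- overlap of two conflict neighbourhoods -/
theorem overlap {l : List (Edge d)} {x : Vx d} {p : Fin d} {f' : Edge d} {c : ℕ}
    (hne : f' ≠ ed x p)
    (hc : ∀ z, (z = x ∨ z = fl x p) → ∀ q, q ≠ p → (cod1s (acc l) z q p).card ≤ c) :
    (Gm l (ed x p) ∩ Gm l f').card ≤ 39 + 2 * c := by
  set q := dir f' with hq
  have hsub : Gm l (ed x p) ∩ Gm l f' ⊆ (Exc x p f').biUnion (fun r => nb (ed x p) r) ∪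
      ((if f' = ed x q ∧ q ≠ p then (cod1s (acc l) x q p).image (fun r => ed x r) else ∅) ∪
      (if f' = ed (fl x p) q ∧ q ≠ p then
        (cod1s (acc l) (fl x p) q p).image (fun r => ed (fl x p) r) else ∅)) := by
    intro h hh
    obtain ⟨h1, h2⟩ := mem_inter.mp hh
    obtain ⟨ho, r, hr, hf, he⟩ := mem_gam.mp h1
    rw [dir_ed] at hr
    by_cases hrE : r ∈ Exc x p f'
    · rw [mem_union, mem_biUnion]
      left; exact ⟨r, hrE, hf⟩
    · have h3 : ∃ z, (z = x ∨ z = fl x p) ∧ f' = ed z q ∧ h = ed z r := by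
        by_contra hcon
        exact hrE (mem_filter.mpr ⟨mem_univ _, hr, h, hf, cof_of_mem_Gm h2, hcon⟩)
      obtain ⟨z, hz, hf', hhz⟩ := h3
      have hed : ed x p = ed z p := by
        rcases hz with rfl | rfl
        · rfl
        · rw [ed_fl]
      have hqp : q ≠ p := by
        intro h
        apply hne
        rw [hf', h, hed]
      rw [hed, hhz] at h1
      rw [hf', hhz] at h2
      have s1 := star_mem h1
      have s2 := star_mem h2
      have hmem : r ∈ cod1s (acc l) z q p := by
        unfold cod1s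
        rw [mem_filter, mem_erase, mem_erase]
        exact ⟨⟨s1.1, s2.1, mem_univ _⟩, s2.2.1, s2.2.2, Or.inl s1.2.1⟩
      rw [mem_union, mem_union]
      right
      rcases hz with rfl | rfl
      · left
        rw [if_pos ⟨hf', hqp⟩, mem_image]
        exact ⟨r, hmem, hhz.symm⟩
      · right
        rw [if_pos ⟨hf', hqp⟩, mem_image]
        exact ⟨r, hmem, hhz.symm⟩
  refine (card_le_card hsub).trans ((card_union_le _ _).trans ?_)
  have h1 : ((Exc x p f').biUnion (fun r => nb (ed x p) r)).card ≤ 39 := by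
    refine card_biUnion_le.trans ?_
    have : ∀ r ∈ Exc x p f', (nb (ed x p) r).card ≤ 3 := by
      intro r hr
      have := (mem_filter.mp hr).2.1
      exact (card_nb (by rw [dir_ed]; exact this)).le
    refine (sum_le_card_nsmul _ _ 3 this).trans ?_
    have := card_Exc hne
    rw [smul_eq_mul]
    omega
  have h2 : ((if f' = ed x q ∧ q ≠ p then (cod1s (acc l) x q p).image (fun r => ed x r)
      else ∅ : Finset (Edge d))).card ≤ c := by
    split
    · rename_i h
      exact card_image_le.trans (hc x (Or.inl rfl) q h.2)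
    · simp
  have h3 : ((if f' = ed (fl x p) q ∧ q ≠ p then
        (cod1s (acc l) (fl x p) q p).image (fun r => ed (fl x p) r) else ∅ :
        Finset (Edge d))).card ≤ c := by
    split
    · rename_i h
      exact card_image_le.trans (hc (fl x p) (Or.inr rfl) q h.2)
    · simp
  have h4 := card_union_le (if f' = ed x q ∧ q ≠ p then (cod1s (acc l) x q p).image (fun r => ed x r)
      else ∅ : Finset (Edge d)) (if f' = ed (fl x p) q ∧ q ≠ p then
        (cod1s (acc l) (fl x p) q p).image (fun r => ed (fl x p) r) else ∅ : Finset (Edge d))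
  omega

/-- jump bound for the e-family -/
theorem e_jump {l : List (Edge d)} {x : Vx d} {p : Fin d} {g : Edge d} {k c : ℕ}
    (hne : g ≠ ed x p)
    (hc0 : k = 0 → ∀ z, (z = x ∨ z = fl x p) → ∀ q, (cod0s (acc l) z q).card ≤ c)
    (hc1 : k ≠ 0 → ∀ z, (z = x ∨ z = fl x p) → ∀ q, q ≠ p → (cod1s (acc l) z q p).card ≤ c) :
    ((Ie (ed x p)).filter (fun r => Ty (acc l) (opn l) (nb (ed x p) r) k ∧
      ¬ Disjoint (nb (ed x p) r) (Gm l g))).card ≤ 13 + 2 * c := by
  set q := dir g with hq
  have hsub : (Ie (ed x p)).filter (fun r => Ty (acc l) (opn l) (nb (ed x p) r) k ∧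
      ¬ Disjoint (nb (ed x p) r) (Gm l g)) ⊆ Exc x p g ∪
      ((if q ≠ p then (if k = 0 then cod0s (acc l) x q else cod1s (acc l) x q p) else ∅) ∪
      (if q ≠ p then (if k = 0 then cod0s (acc l) (fl x p) q
        else cod1s (acc l) (fl x p) q p) else ∅)) := by
    intro r hr
    obtain ⟨hr1, hr2, hr3⟩ := mem_filter.mp hr
    rw [mem_Ie, dir_ed] at hr1
    by_cases hrE : r ∈ Exc x p g
    · exact mem_union_left _ hrE
    · rw [Finset.not_disjoint_iff] at hr3
      obtain ⟨f, hf, hfg⟩ := hr3
      have h3 : ∃ z, (z = x ∨ z = fl x p) ∧ g = ed z q ∧ f = ed z r := by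
        by_contra hcon
        exact hrE (mem_filter.mpr ⟨mem_univ _, hr1, f, hf, cof_of_mem_Gm hfg, hcon⟩)
      obtain ⟨z, hz, hgz, hfz⟩ := h3
      have hed : ed x p = ed z p := by
        rcases hz with rfl | rfl
        · rfl
        · rw [ed_fl]
      have hqp : q ≠ p := by
        intro h
        apply hne
        rw [hgz, h, hed]
      have hfo : f ∈ opn l := gam_subset hfg
      rw [hgz, hfz] at hfg
      have s1 := star_mem hfg
      have hmem : r ∈ (if k = 0 then cod0s (acc l) z q else cod1s (acc l) z q p) := by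
        split
        · unfold cod0s
          rw [mem_filter, mem_erase]
          exact ⟨⟨s1.1, mem_univ _⟩, s1.2.1, s1.2.2⟩
        · rename_i hk
          unfold cod1s
          rw [mem_filter, mem_erase, mem_erase]
          refine ⟨⟨hr1, s1.1, mem_univ _⟩, s1.2.1, s1.2.2, ?_⟩
          have h5 : 0 < (nb (ed x p) r ∩ acc l).card := by
            rw [hr2.2]; exact Nat.pos_of_ne_zero hk
          obtain ⟨h, hh⟩ := card_pos.mp h5
          obtain ⟨h6, h7⟩ := mem_inter.mp hh
          rw [hed, mem_nb_ed] at h6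
          rcases h6 with h6 | h6 | h6
          · exfalso
            rw [h6, ← hfz] at h7
            exact Finset.disjoint_left.mp (disj_acc_opn l) h7 hfo
          · left; rw [← h6]; exact h7
          · right; rw [← h6]; exact h7
      rw [mem_union, mem_union]
      right
      rcases hz with rfl | rfl
      · left; rw [if_pos hqp]; exact hmem
      · right; rw [if_pos hqp]; exact hmem
  have hA : ∀ z, (z = x ∨ z = fl x p) →
      ((if q ≠ p then (if k = 0 then cod0s (acc l) z q else cod1s (acc l) z q p) else ∅ :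
        Finset (Fin d))).card ≤ c := by
    intro z hz
    split
    · rename_i h
      split
      · rename_i hk; exact hc0 hk z hz q
      · rename_i hk; exact hc1 hk z hz q h
    · simp
  refine (card_le_card hsub).trans ((card_union_le _ _).trans ?_)
  have h1 := card_Exc hne
  have h2 := (card_union_le (if q ≠ p then (if k = 0 then cod0s (acc l) x q
      else cod1s (acc l) x q p) else ∅ : Finset (Fin d))
      (if q ≠ p then (if k = 0 then cod0s (acc l) (fl x p) q
        else cod1s (acc l) (fl x p) q p) else ∅ : Finset (Fin d)))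
  have h3 := hA x (Or.inl rfl)
  have h4 := hA (fl x p) (Or.inr rfl)
  omega

/-- separation for the e-family -/
theorem e_sep {l : List (Edge d)} {e : Edge d} (he : e ∈ opn l) {r : Fin d} (hr : r ∈ Ie e)
    {j : ℕ} (hj : j ≤ 1) (hty : Ty (acc l) (opn l) (nb e r) j) {g : Edge d}
    (hg : g ∈ nb e r ∩ opn l) : Disjoint (nb e r) (Gm l g) ∧ e ∈ opn (l ++ [g]) := by
  rw [mem_Ie] at hr
  obtain ⟨hg1, hg2⟩ := mem_inter.mp hg
  obtain ⟨s, hs, hes, hse⟩ := nb_symm hr hg1
  constructor
  · rw [Finset.disjoint_left]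
    intro f hf hfg
    obtain ⟨_, t, ht, hft, hte⟩ := mem_gam.mp hfg
    have hfg' : f ≠ g := ne_of_mem_gam hfg
    have hfs : f ∈ nb g s := by
      have : f ∈ (nb g s).erase e := by
        rw [hse]; exact mem_erase.mpr ⟨hfg', hf⟩
      exact mem_of_mem_erase this
    have hst : s = t := by
      by_contra hne
      exact Finset.disjoint_left.mp (nb_disjoint hs ht hne) hfs hft
    subst hst
    have hef : e ≠ f := by
      rintro rfl
      exact not_mem_nb hr hf
    have : e ∈ acc l := hte (mem_erase.mpr ⟨hef, hes⟩)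
    exact Finset.disjoint_left.mp (disj_acc_opn l) this he
  · obtain ⟨_, h2⟩ := step_open hg2
    rw [h2, mem_filter]
    refine ⟨he, ?_, ?_⟩
    · rintro rfl
      exact not_mem_nb hr hg1
    · intro h
      obtain ⟨_, t, ht, hgt, hte⟩ := mem_gam.mp (gam_symm hg2 h)
      have hrt : r = t := by
        by_contra hne
        exact Finset.disjoint_left.mp (nb_disjoint hr ht hne) hg1 hgt
      subst hrt
      have h3 : (nb e r).erase g ⊆ nb e r ∩ acc l := by
        intro y hy
        exact mem_inter.mpr ⟨mem_of_mem_erase hy, hte hy⟩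
      have h4 := card_le_card h3
      rw [card_erase_of_mem hg1, card_nb hr, hty.2] at h4
      omega

/-- the excluded steps for the e-family -/
theorem e_Z {l : List (Edge d)} {e : Edge d} (he : e ∈ opn l) :
    (opn l).filter (fun g => ¬ e ∈ opn (l ++ [g])) ⊆ insert e (Gm l e) := by
  intro g hg
  obtain ⟨hgo, hg2⟩ := mem_filter.mp hg
  obtain ⟨_, h2⟩ := step_open hgo
  rw [h2, mem_filter] at hg2
  push Not at hg2
  rw [mem_insert]
  by_cases heg : e = g
  · left; exact heg.symm
  · right
    exact gam_symm hgo (hg2 he heg)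

end Pool.Agent.Q2F
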