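import Mathlib
import Pool.Agent.MP_9431a4_pr.Prob

set_option autoImplicit false

/-!
Union bounds for the set of the first `m` elements.
-/

namespace Pool.Agent.Q2F

open Finset Classical

variable {E : Type} [Fintype E] [DecidableEq E]

theorem descFactorial_mul_pow_le {m N : ℕ} (h : m ≤ N) (a : ℕ) :
    m.descFactorial a * N ^ a ≤ N.descFactorial a * m ^ a := by
  induction a with
  | zero => simp
  | succ a ih =>
    rw [Nat.descFactorial_succ, Nat.descFactorial_succ, pow_succ, pow_succ]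
    have h1 : (m - a) * N ≤ (N - a) * m := by
      by_cases ha : a ≤ m
      · zify [ha, ha.trans h]
        have : (m : ℤ) ≤ N := by exact_mod_cast h
        have ha0 : (0 : ℤ) ≤ a := by positivity
        nlinarith
      · have : m - a = 0 := by omega
        rw [this]; simp
    calc (m - a) * m.descFactorial a * (N ^ a * N)
        = (m.descFactorial a * N ^ a) * ((m - a) * N) := by ring
      _ ≤ (N.descFactorial a * m ^ a) * ((N - a) * m) := Nat.mul_le_mul ih h1
      _ = (N - a) * N.descFactorial a * (m ^ a * m) := by ring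

/-- functionals of the first `m` elements -/
theorem Pr_take (A : List E → Prop) {m : ℕ} (hm : m ≤ Fintype.card E) :
    Pr (fun ω => A (ω.take m)) = Ex (fun ω => if A ω then 1 else 0) m [] := by
  unfold Pr
  have h := Ex_take (fun ω : List E => if A ω then (1 : ℝ) else 0) m (Fintype.card E - m)
    (l := []) List.nodup_nil (by simp; omega)
  simp only [List.length_nil, zero_add] at h
  rw [show m + (Fintype.card E - m) = Fintype.card E by omega] at h
  rw [← h]

theorem Pr_births (A : Finset E) {m : ℕ} (hm : m ≤ Fintype.card E) :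
    Pr (fun ω : List E => A ⊆ (ω.take m).toFinset) ≤ ((m : ℝ) / Fintype.card E) ^ A.card := by
  rw [Pr_take (fun ω => A ⊆ ω.toFinset) hm]
  have h := Ex_births A m (l := []) List.nodup_nil (by simpa using hm)
  simp only [List.toFinset_nil, sdiff_empty, List.length_nil, Nat.sub_zero] at h
  refine le_trans (le_of_eq ?_) (h.trans ?_)
  · congr!
  · by_cases hN : Fintype.card E = 0
    · have hA : A.card = 0 := by
        have := card_le_univ A
        omega
      rw [hA]; simp
    have hNpos : (0 : ℝ) < (Fintype.card E : ℝ) := by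
      exact_mod_cast Nat.pos_of_ne_zero hN
    have hA : A.card ≤ Fintype.card E := card_le_univ A
    have hD : 0 < (Fintype.card E).descFactorial A.card := Nat.descFactorial_pos.mpr hA
    have hDr : (0 : ℝ) < ((Fintype.card E).descFactorial A.card : ℝ) := by exact_mod_cast hD
    rw [div_pow, div_le_div_iff₀ hDr (by positivity)]
    have := descFactorial_mul_pow_le hm A.card
    have h2 : ((m.descFactorial A.card * (Fintype.card E) ^ A.card : ℕ) : ℝ) ≤
      (((Fintype.card E).descFactorial A.card * m ^ A.card : ℕ) : ℝ) := by exact_mod_cast this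
    push_cast at h2
    linarith

/-- the basic union bound -/
theorem union_bound {ι κ : Type} (I : Finset ι) (C : Finset κ) (A : ι → κ → Finset E) (s K : ℕ)
    {m : ℕ} (hm : m ≤ Fintype.card E)
    (hA : ∀ i ∈ I, ∀ c ∈ C, s ≤ (A i c).card)
    (hdisj : ∀ i ∈ I, ∀ i' ∈ I, i ≠ i' → ∀ c ∈ C, ∀ c' ∈ C, Disjoint (A i c) (A i' c')) :
    Pr (fun ω : List E => K ≤ (I.filter (fun i => ∃ c ∈ C, A i c ⊆ (ω.take m).toFinset)).card) ≤
      (I.card.choose K : ℝ) * (C.card : ℝ) ^ K * ((m : ℝ) / Fintype.card E) ^ (s * K) := by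
  have hτ0 : (0 : ℝ) ≤ (m : ℝ) / Fintype.card E := by positivity
  have hτ1 : (m : ℝ) / Fintype.card E ≤ 1 := by
    apply div_le_one_of_le₀ _ (by positivity)
    exact_mod_cast hm
  -- index set of the union
  let J : Finset (Σ Q : Finset ι, ∀ i, i ∈ Q → κ) := (powersetCard K I).sigma (fun Q => Q.pi (fun _ => C))
  let B : (Σ Q : Finset ι, ∀ i, i ∈ Q → κ) → Finset E :=
    fun q => q.1.attach.biUnion (fun i => A i.1 (q.2 i.1 i.2))
  have h1 : Pr (fun ω : List E =>
      K ≤ (I.filter (fun i => ∃ c ∈ C, A i c ⊆ (ω.take m).toFinset)).card) ≤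
      Pr (fun ω => ∃ q ∈ J, B q ⊆ (ω.take m).toFinset) := by
    apply Pr_mono
    intro ω _ _ hω
    obtain ⟨Q, hQ1, hQ2⟩ := exists_subset_card_eq hω
    have hex : ∀ i, i ∈ Q → ∃ c ∈ C, A i c ⊆ (ω.take m).toFinset := by
      intro i hi
      exact (mem_filter.mp (hQ1 hi)).2
    choose φ hφ1 hφ2 using hex
    refine ⟨⟨Q, fun i hi => φ i hi⟩, ?_, ?_⟩
    · simp only [J, mem_sigma, mem_powersetCard, mem_pi]
      exact ⟨⟨fun i hi => (mem_filter.mp (hQ1 hi)).1, hQ2⟩, fun i hi => hφ1 i hi⟩
    · simp only [B]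
      intro x hx
      rw [mem_biUnion] at hx
      obtain ⟨i, _, hx⟩ := hx
      exact hφ2 i.1 i.2 hx
  refine h1.trans ((Pr_biUnion_le J _).trans ?_)
  have h2 : ∀ q ∈ J, Pr (fun ω => B q ⊆ (ω.take m).toFinset) ≤
      ((m : ℝ) / Fintype.card E) ^ (s * K) := by
    intro q hq
    refine (Pr_births (B q) hm).trans ?_
    apply pow_le_pow_of_le_one hτ0 hτ1
    simp only [J, mem_sigma, mem_powersetCard, mem_pi] at hq
    obtain ⟨⟨hq1, hq2⟩, hq3⟩ := hq
    simp only [B]
    rw [card_biUnion]
    · have : ∀ i ∈ q.1.attach, s ≤ (A i.1 (q.2 i.1 i.2)).card := by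
        intro i _
        exact hA i.1 (hq1 i.2) _ (hq3 i.1 i.2)
      have h3 := Finset.card_nsmul_le_sum _ _ _ this
      rw [card_attach, hq2] at h3
      simpa [mul_comm] using h3
    · intro i _ j _ hij
      apply hdisj i.1 (hq1 i.2) j.1 (hq1 j.2) _ _ (hq3 i.1 i.2) _ (hq3 j.1 j.2)
      intro h
      exact hij (Subtype.ext h)
  refine (sum_le_sum h2).trans ?_
  rw [sum_const, nsmul_eq_mul]
  apply mul_le_mul_of_nonneg_right _ (by positivity)
  have h3 : J.card = (I.card.choose K) * C.card ^ K := by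
    simp only [J, card_sigma, card_pi, prod_const]
    rw [sum_congr rfl (g := fun _ => C.card ^ K)]
    · rw [sum_const, card_powersetCard, smul_eq_mul]
    · intro Q hQ
      rw [(mem_powersetCard.mp hQ).2]
  rw [h3]
  push_cast
  exact le_rfl

theorem choose_le_exp (n K : ℕ) (hK : 0 < K) :
    (n.choose K : ℝ) ≤ (Real.exp 1 * n / K) ^ K := by
  have h1 : (n.choose K : ℝ) ≤ (n : ℝ) ^ K / (K.factorial : ℝ) := Nat.choose_le_pow_div K n
  have h2 : (K : ℝ) ^ K / (K.factorial : ℝ) ≤ Real.exp K :=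
    Real.pow_div_factorial_le_exp K (Nat.cast_nonneg _) K
  have hKr : (0 : ℝ) < K := by exact_mod_cast hK
  have hf : (0 : ℝ) < (K.factorial : ℝ) := by exact_mod_cast Nat.factorial_pos K
  have h3 : (Real.exp 1 * n / K) ^ K = Real.exp K * (n : ℝ) ^ K / (K : ℝ) ^ K := by
    rw [div_pow, mul_pow, ← Real.exp_nat_mul, mul_one]
  rw [h3]
  refine h1.trans ?_
  rw [div_le_div_iff₀ hf (by positivity)]
  rw [div_le_iff₀ hf] at h2
  have : (0 : ℝ) ≤ (n : ℝ) ^ K := by positivity
  nlinarith

/-- exponential form of the union bound -/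
theorem union_bound_exp {ι κ : Type} (I : Finset ι) (C : Finset κ) (A : ι → κ → Finset E) (s K : ℕ)
    {m : ℕ} (hm : m ≤ Fintype.card E)
    (hA : ∀ i ∈ I, ∀ c ∈ C, s ≤ (A i c).card)
    (hdisj : ∀ i ∈ I, ∀ i' ∈ I, i ≠ i' → ∀ c ∈ C, ∀ c' ∈ C, Disjoint (A i c) (A i' c'))
    (hK : Real.exp 2 * (I.card * C.card * ((m : ℝ) / Fintype.card E) ^ s) ≤ K) :
    Pr (fun ω : List E => K ≤ (I.filter (fun i => ∃ c ∈ C, A i c ⊆ (ω.take m).toFinset)).card) ≤
      Real.exp (-K) := by
  rcases Nat.eq_zero_or_pos K with hK0 | hK0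
  · subst hK0
    simpa using Pr_le_one _
  refine (union_bound I C A s K hm hA hdisj).trans ?_
  have hKr : (0 : ℝ) < K := by exact_mod_cast hK0
  have h1 := choose_le_exp I.card K hK0
  set τ := (m : ℝ) / Fintype.card E with hτ
  have hτ0 : 0 ≤ τ := by positivity
  calc (I.card.choose K : ℝ) * (C.card : ℝ) ^ K * τ ^ (s * K)
      ≤ (Real.exp 1 * I.card / K) ^ K * (C.card : ℝ) ^ K * (τ ^ s) ^ K := by
        rw [pow_mul]
        gcongr
    _ = (Real.exp 1 * I.card / K * C.card * τ ^ s) ^ K := by rw [← mul_pow, ← mul_pow]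
    _ ≤ (Real.exp (-1)) ^ K := by
        apply pow_le_pow_left₀ (by positivity)
        have e2 : Real.exp 2 = Real.exp 1 * Real.exp 1 := by rw [← Real.exp_add]; norm_num
        have e1 : Real.exp (-1) * Real.exp 1 = 1 := by rw [← Real.exp_add]; norm_num
        rw [e2] at hK
        have h3 : Real.exp 1 * I.card / K * C.card * τ ^ s =
          (Real.exp 1 * (I.card * C.card * τ ^ s)) / K := by ring
        rw [h3, div_le_iff₀ hKr]
        have h4 : Real.exp (-1) * (Real.exp 1 * Real.exp 1 * (I.card * C.card * τ ^ s)) ≤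
          Real.exp (-1) * K := mul_le_mul_of_nonneg_left hK (Real.exp_pos _).le
        calc Real.exp 1 * (I.card * C.card * τ ^ s)
            = (Real.exp (-1) * Real.exp 1) * (Real.exp 1 * (I.card * C.card * τ ^ s)) := by
              rw [e1, one_mul]
          _ = Real.exp (-1) * (Real.exp 1 * Real.exp 1 * (I.card * C.card * τ ^ s)) := by ring
          _ ≤ _ := h4
    _ = Real.exp (-K) := by
        rw [← Real.exp_nat_mul]; congr 1; ring

end Pool.Agent.Q2F
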