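import Mathlib
import Pool.Agent.MP_9431a4_pr.Geo2
import Pool.Agent.MP_9431a4_pr.Union

set_option autoImplicit false

/-!
Static regularity of the set of the first `m` born edges.
-/

namespace Pool.Agent.Q2F

open Finset Classical

variable {d : ℕ}

noncomputable def deg1s (R : Finset (Edge d)) (e : Edge d) : Finset (Fin d) :=
  (Ie e).filter (fun r => ∃ f ∈ nb e r, f ∈ R)

noncomputable def deg2s (R : Finset (Edge d)) (e : Edge d) : Finset (Fin d) :=
  (Ie e).filter (fun r => 2 ≤ (nb e r ∩ R).card)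

/-- static regularity at a vertex -/
structure SV (L0 L1 B1 B2 : ℝ) (R : Finset (Edge d)) (z : Vx d) : Prop where
  c0 : ∀ q, ((cod0s R z q).card : ℝ) ≤ L0
  c1 : ∀ q p, q ≠ p → ((cod1s R z q p).card : ℝ) ≤ L1
  b1 : ∀ i, ((deg1s R (ed z i)).card : ℝ) ≤ B1
  b2 : ∀ i, ((deg2s R (ed z i)).card : ℝ) ≤ B2

theorem cod0s_mono {R R' : Finset (Edge d)} (h : R ⊆ R') (z : Vx d) (q : Fin d) :
    cod0s R z q ⊆ cod0s R' z q := by
  intro r hr
  simp only [cod0s, mem_filter] at hr ⊢
  exact ⟨hr.1, h hr.2.1, h hr.2.2⟩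

theorem cod1s_mono {R R' : Finset (Edge d)} (h : R ⊆ R') (z : Vx d) (q p : Fin d) :
    cod1s R z q p ⊆ cod1s R' z q p := by
  intro r hr
  simp only [cod1s, mem_filter] at hr ⊢
  refine ⟨hr.1, h hr.2.1, h hr.2.2.1, ?_⟩
  rcases hr.2.2.2 with h' | h'
  · left; exact h h'
  · right; exact h h'

theorem deg1s_mono {R R' : Finset (Edge d)} (h : R ⊆ R') (e : Edge d) :
    deg1s R e ⊆ deg1s R' e := by
  intro r hr
  simp only [deg1s, mem_filter] at hr ⊢
  obtain ⟨h1, f, hf, hf'⟩ := hr
  exact ⟨h1, f, hf, h hf'⟩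

theorem deg2s_mono {R R' : Finset (Edge d)} (h : R ⊆ R') (e : Edge d) :
    deg2s R e ⊆ deg2s R' e := by
  intro r hr
  simp only [deg2s, mem_filter] at hr ⊢
  exact ⟨hr.1, hr.2.trans (card_le_card (inter_subset_inter_left h))⟩

theorem SV.mono {L0 L1 B1 B2 : ℝ} {R R' : Finset (Edge d)} {z : Vx d} (h : R ⊆ R')
    (hS : SV L0 L1 B1 B2 R' z) : SV L0 L1 B1 B2 R z where
  c0 q := le_trans (by exact_mod_cast card_le_card (cod0s_mono h z q)) (hS.c0 q)
  c1 q p hqp := le_trans (by exact_mod_cast card_le_card (cod1s_mono h z q p)) (hS.c1 q p hqp)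
  b1 i := le_trans (by exact_mod_cast card_le_card (deg1s_mono h _)) (hS.b1 i)
  b2 i := le_trans (by exact_mod_cast card_le_card (deg2s_mono h _)) (hS.b2 i)

theorem acc_subset_toFinset (l : List (Edge d)) : acc l ⊆ l.toFinset := by
  intro e he
  rw [List.mem_toFinset]
  exact acc_subset l e he

/-- real-threshold form of the union bound -/
theorem union_bound_real {E : Type} [Fintype E] [DecidableEq E] {ι κ : Type} (I : Finset ι)
    (C : Finset κ) (A : ι → κ → Finset E) (s : ℕ) (L : ℝ)
    {m : ℕ} (hm : m ≤ Fintype.card E) (hL : 0 ≤ L)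
    (hA : ∀ i ∈ I, ∀ c ∈ C, s ≤ (A i c).card)
    (hdisj : ∀ i ∈ I, ∀ i' ∈ I, i ≠ i' → ∀ c ∈ C, ∀ c' ∈ C, Disjoint (A i c) (A i' c'))
    (hK : Real.exp 2 * (I.card * C.card * ((m : ℝ) / Fintype.card E) ^ s) ≤ L) :
    Pr (fun ω : List E => L <
      ((I.filter (fun i => ∃ c ∈ C, A i c ⊆ (ω.take m).toFinset)).card : ℝ)) ≤
      Real.exp (-L) := by
  have h1 : (L : ℝ) ≤ ((⌊L⌋₊ + 1 : ℕ) : ℝ) := by
    push_cast; exact (Nat.lt_floor_add_one L).le
  have h2 := union_bound_exp I C A s (⌊L⌋₊ + 1) hm hA hdisj (hK.trans h1)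
  refine le_trans ?_ (h2.trans (Real.exp_le_exp.mpr (by linarith)))
  apply Pr_mono
  intro ω _ _ hω
  have := (Nat.floor_lt hL).mpr hω
  omega

theorem Pr_cod0 {m : ℕ} (hm : m ≤ Fintype.card (Edge d)) {L : ℝ} (hL : 0 ≤ L) (z : Vx d) (q : Fin d)
    (h : Real.exp 2 * (d * ((m : ℝ) / Fintype.card (Edge d)) ^ 2) ≤ L) :
    Pr (fun ω : List (Edge d) => L < ((cod0s (ω.take m).toFinset z q).card : ℝ)) ≤
      Real.exp (-L) := by
  set τ := (m : ℝ) / Fintype.card (Edge d) with hτ
  have hτ0 : 0 ≤ τ := by positivity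
  have h1 := union_bound_real (univ.erase q) ({()} : Finset Unit)
    (fun r _ => ({ed (fl z q) r, ed (fl z r) q} : Finset (Edge d))) 2 L hm hL ?_ ?_ ?_
  · refine le_trans (Pr_mono ?_) h1
    intro ω _ _ hω
    refine lt_of_lt_of_le hω ?_
    have : cod0s (ω.take m).toFinset z q ⊆ (univ.erase q).filter (fun r => ∃ c ∈ ({()} : Finset Unit),
        ({ed (fl z q) r, ed (fl z r) q} : Finset (Edge d)) ⊆ (ω.take m).toFinset) := by
      intro r hr
      simp only [cod0s, mem_filter] at hr
      rw [mem_filter]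
      refine ⟨hr.1, (), mem_singleton_self _, ?_⟩
      intro f hf
      rw [mem_insert, mem_singleton] at hf
      rcases hf with rfl | rfl
      · exact hr.2.1
      · exact hr.2.2
    exact_mod_cast card_le_card this
  · intro r hr _ _
    rw [card_pair]
    intro h
    exact (mem_erase.mp hr).1 (ed_eq_iff.mp h).1
  · intro r hr r' hr' hne _ _ _ _
    have hrq := (mem_erase.mp hr).1
    have hrq' := (mem_erase.mp hr').1
    rw [Finset.disjoint_left]
    intro f hf hf'
    rw [mem_insert, mem_singleton] at hf hf'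
    rcases hf with rfl | rfl <;> rcases hf' with h | h
    · exact hne (ed_eq_iff.mp h).1
    · exact hrq (ed_eq_iff.mp h).1
    · exact hrq' (ed_eq_iff.mp h).1.symm
    · obtain ⟨_, h | h⟩ := ed_eq_iff.mp h
      · exact hne (fl_left_inj.mp h)
      · have hpar := congrArg par h
        rw [par_fl, par_fl, par_fl] at hpar
        generalize par z = a at hpar
        revert a
        decide
  · refine le_trans ?_ h
    apply mul_le_mul_of_nonneg_left _ (Real.exp_pos _).le
    simp only [card_singleton, Nat.cast_one, mul_one]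
    apply mul_le_mul_of_nonneg_right _ (by positivity)
    have : (univ.erase q : Finset (Fin d)).card ≤ d := by
      refine (card_le_univ _).trans ?_
      simp
    exact_mod_cast this

theorem Pr_cod1 {m : ℕ} (hm : m ≤ Fintype.card (Edge d)) {L : ℝ} (hL : 0 ≤ L) (z : Vx d)
    (q p : Fin d) (hqp : q ≠ p)
    (h : Real.exp 2 * (d * 2 * ((m : ℝ) / Fintype.card (Edge d)) ^ 3) ≤ L) :
    Pr (fun ω : List (Edge d) => L < ((cod1s (ω.take m).toFinset z q p).card : ℝ)) ≤
      Real.exp (-L) := by
  set τ := (m : ℝ) / Fintype.card (Edge d) with hτ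
  have hτ0 : 0 ≤ τ := by positivity
  have hpar2 : ∀ a b c : Fin d, fl z a ≠ fl (fl z b) c := by
    intro a b c h
    have hpar := congrArg par h
    rw [par_fl, par_fl, par_fl] at hpar
    generalize par z = a at hpar
    revert a
    decide
  have h1 := union_bound_real ((univ.erase q).erase p) (univ : Finset Bool)
    (fun r c => ({ed (fl z q) r, ed (fl z r) q,
      if c then ed (fl z p) r else ed (fl z r) p} : Finset (Edge d))) 3 L hm hL ?_ ?_ ?_
  · refine le_trans (Pr_mono ?_) h1
    intro ω _ _ hω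
    refine lt_of_lt_of_le hω ?_
    have : cod1s (ω.take m).toFinset z q p ⊆ ((univ.erase q).erase p).filter
        (fun r => ∃ c ∈ (univ : Finset Bool), ({ed (fl z q) r, ed (fl z r) q,
      if c then ed (fl z p) r else ed (fl z r) p} : Finset (Edge d)) ⊆ (ω.take m).toFinset) := by
      intro r hr
      simp only [cod1s, mem_filter] at hr
      rw [mem_filter]
      refine ⟨hr.1, ?_⟩
      rcases hr.2.2.2 with h' | h'
      · refine ⟨true, mem_univ _, ?_⟩
        intro f hf
        simp only [if_true, mem_insert, mem_singleton] at hf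
        rcases hf with rfl | rfl | rfl
        · exact hr.2.1
        · exact hr.2.2.1
        · exact h'
      · refine ⟨false, mem_univ _, ?_⟩
        intro f hf
        simp only [Bool.false_eq_true, if_false, mem_insert, mem_singleton] at hf
        rcases hf with rfl | rfl | rfl
        · exact hr.2.1
        · exact hr.2.2.1
        · exact h'
    refine (Nat.cast_le.mpr (card_le_card this)).trans (le_of_eq ?_)
    congr!
  · intro r hr c _
    have hrp := (mem_erase.mp hr).1
    have hrq := (mem_erase.mp (mem_erase.mp hr).2).1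
    have e1 : ed (fl z q) r ≠ ed (fl z r) q := fun h => hrq (ed_eq_iff.mp h).1
    have e2 : ed (fl z q) r ≠ (if c then ed (fl z p) r else ed (fl z r) p) := by
      split
      · intro h
        obtain ⟨_, h | h⟩ := ed_eq_iff.mp h
        · exact hqp (fl_left_inj.mp h)
        · exact hpar2 _ _ _ h
      · intro h
        exact hrp (ed_eq_iff.mp h).1
    have e3 : ed (fl z r) q ≠ (if c then ed (fl z p) r else ed (fl z r) p) := by
      split
      · intro h
        exact hrq (ed_eq_iff.mp h).1.symm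
      · intro h
        exact hqp (ed_eq_iff.mp h).1
    exact (card_eq_three.mpr ⟨_, _, _, e1, e2, e3, rfl⟩).ge
  · intro r hr r' hr' hne c _ c' _
    have hrp := (mem_erase.mp hr).1
    have hrq := (mem_erase.mp (mem_erase.mp hr).2).1
    have hrp' := (mem_erase.mp hr').1
    have hrq' := (mem_erase.mp (mem_erase.mp hr').2).1
    have key2 : ∀ t, ed (fl z r) t = ed (fl z r') t → False := by
      intro t h
      obtain ⟨_, h | h⟩ := ed_eq_iff.mp h
      · exact hne (fl_left_inj.mp h)
      · exact hpar2 _ _ _ h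
    rw [Finset.disjoint_left]
    intro f hf hf'
    simp only [mem_insert, mem_singleton] at hf hf'
    cases c <;> cases c' <;> simp only [Bool.false_eq_true, if_false, if_true] at hf hf' <;>
    rcases hf with rfl | rfl | rfl <;> rcases hf' with h | h | h <;>
    first
      | exact hne (ed_eq_iff.mp h).1
      | exact hrq (ed_eq_iff.mp h).1
      | exact hrp (ed_eq_iff.mp h).1
      | exact hrq' (ed_eq_iff.mp h).1.symm
      | exact hrp' (ed_eq_iff.mp h).1.symm
      | exact hqp (ed_eq_iff.mp h).1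
      | exact hqp (ed_eq_iff.mp h).1.symm
      | exact key2 _ h
  · refine le_trans ?_ h
    apply mul_le_mul_of_nonneg_left _ (Real.exp_pos _).le
    have h2 : ((univ : Finset Bool).card : ℝ) = 2 := by simp
    rw [h2]
    apply mul_le_mul_of_nonneg_right _ (by positivity)
    apply mul_le_mul_of_nonneg_right _ (by positivity)
    have : ((univ.erase q).erase p : Finset (Fin d)).card ≤ d := by
      refine (card_le_univ _).trans ?_
      simp
    exact_mod_cast this

/-- enumeration of a face -/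
noncomputable def nbi (x : Vx d) (p r : Fin d) (c : Fin 3) : Edge d :=
  if c = 0 then ed x r else if c = 1 then ed (fl x p) r else ed (fl x r) p

theorem nbi_mem (x : Vx d) (p r : Fin d) (c : Fin 3) : nbi x p r c ∈ nb (ed x p) r := by
  rw [mem_nb_ed]
  unfold nbi
  fin_cases c <;> simp

theorem mem_nb_iff_nbi {x : Vx d} {p r : Fin d} {f : Edge d} :
    f ∈ nb (ed x p) r ↔ ∃ c, f = nbi x p r c := by
  rw [mem_nb_ed]
  constructor
  · rintro (h | h | h)
    · exact ⟨0, by simpa [nbi] using h⟩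
    · exact ⟨1, by simpa [nbi] using h⟩
    · exact ⟨2, by simpa [nbi] using h⟩
  · rintro ⟨c, rfl⟩
    have := nbi_mem x p r c
    rwa [mem_nb_ed] at this

theorem Pr_deg1 {m : ℕ} (hm : m ≤ Fintype.card (Edge d)) {L : ℝ} (hL : 0 ≤ L) (z : Vx d)
    (p : Fin d) (h : Real.exp 2 * (d * 3 * ((m : ℝ) / Fintype.card (Edge d))) ≤ L) :
    Pr (fun ω : List (Edge d) => L < ((deg1s (ω.take m).toFinset (ed z p)).card : ℝ)) ≤
      Real.exp (-L) := by
  set τ := (m : ℝ) / Fintype.card (Edge d) with hτ
  have hτ0 : 0 ≤ τ := by positivity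
  have h1 := union_bound_real (Ie (ed z p)) (univ : Finset (Fin 3))
    (fun r c => ({nbi z p r c} : Finset (Edge d))) 1 L hm hL ?_ ?_ ?_
  · refine le_trans (Pr_mono ?_) h1
    intro ω _ _ hω
    refine lt_of_lt_of_le hω ?_
    have : deg1s (ω.take m).toFinset (ed z p) ⊆ (Ie (ed z p)).filter
        (fun r => ∃ c ∈ (univ : Finset (Fin 3)), ({nbi z p r c} : Finset (Edge d)) ⊆
          (ω.take m).toFinset) := by
      intro r hr
      simp only [deg1s, mem_filter] at hr
      obtain ⟨hr1, f, hf, hfR⟩ := hr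
      obtain ⟨c, rfl⟩ := mem_nb_iff_nbi.mp hf
      rw [mem_filter]
      exact ⟨hr1, c, mem_univ _, by rwa [singleton_subset_iff]⟩
    refine (Nat.cast_le.mpr (card_le_card this)).trans (le_of_eq ?_)
    congr!
  · intro r _ c _
    simp
  · intro r hr r' hr' hne c _ c' _
    rw [mem_Ie] at hr hr'
    exact (nb_disjoint hr hr' hne).mono (singleton_subset_iff.mpr (nbi_mem _ _ _ _))
      (singleton_subset_iff.mpr (nbi_mem _ _ _ _))
  · refine le_trans ?_ h
    apply mul_le_mul_of_nonneg_left _ (Real.exp_pos _).le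
    have h2 : ((univ : Finset (Fin 3)).card : ℝ) = 3 := by simp
    rw [h2, pow_one]
    apply mul_le_mul_of_nonneg_right _ (by positivity)
    apply mul_le_mul_of_nonneg_right _ (by positivity)
    have : (Ie (ed z p)).card ≤ d := by
      refine (card_le_univ _).trans ?_
      simp
    exact_mod_cast this

theorem Pr_deg2 {m : ℕ} (hm : m ≤ Fintype.card (Edge d)) {L : ℝ} (hL : 0 ≤ L) (z : Vx d)
    (p : Fin d) (h : Real.exp 2 * (d * 3 * ((m : ℝ) / Fintype.card (Edge d)) ^ 2) ≤ L) :
    Pr (fun ω : List (Edge d) => L < ((deg2s (ω.take m).toFinset (ed z p)).card : ℝ)) ≤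
      Real.exp (-L) := by
  set τ := (m : ℝ) / Fintype.card (Edge d) with hτ
  have hτ0 : 0 ≤ τ := by positivity
  have h1 := union_bound_real (Ie (ed z p)) (univ : Finset (Fin 3))
    (fun r c => (nb (ed z p) r).erase (nbi z p r c)) 2 L hm hL ?_ ?_ ?_
  · refine le_trans (Pr_mono ?_) h1
    intro ω _ _ hω
    refine lt_of_lt_of_le hω ?_
    have : deg2s (ω.take m).toFinset (ed z p) ⊆ (Ie (ed z p)).filter
        (fun r => ∃ c ∈ (univ : Finset (Fin 3)), (nb (ed z p) r).erase (nbi z p r c) ⊆
          (ω.take m).toFinset) := by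
      intro r hr
      simp only [deg2s, mem_filter] at hr
      obtain ⟨hr1, h2⟩ := hr
      rw [mem_filter]
      refine ⟨hr1, ?_⟩
      have h3 := card_nb (mem_Ie.mp hr1)
      -- at most one element of nb outside R
      have h4 : (nb (ed z p) r \ (ω.take m).toFinset).card ≤ 1 := by
        have h5 := card_sdiff_add_card_inter (nb (ed z p) r) (ω.take m).toFinset
        have h6 : 2 ≤ (nb (ed z p) r ∩ (ω.take m).toFinset).card := by
          convert h2
        omega
      by_cases h5 : (nb (ed z p) r \ (ω.take m).toFinset) = ∅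
      · refine ⟨0, mem_univ _, ?_⟩
        rw [sdiff_eq_empty_iff_subset] at h5
        exact (erase_subset _ _).trans h5
      · obtain ⟨f, hf⟩ := Finset.nonempty_iff_ne_empty.mpr h5
        obtain ⟨c, hc⟩ := mem_nb_iff_nbi.mp (mem_sdiff.mp hf).1
        refine ⟨c, mem_univ _, ?_⟩
        intro g hg
        rw [← hc] at hg
        by_contra hgR
        have : g ∈ (nb (ed z p) r \ (ω.take m).toFinset) :=
          mem_sdiff.mpr ⟨mem_of_mem_erase hg, hgR⟩
        exact (ne_of_mem_erase hg) (card_le_one.mp h4 g this f hf)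
    refine (Nat.cast_le.mpr (card_le_card this)).trans (le_of_eq ?_)
    congr!
  · intro r hr c _
    rw [card_erase_of_mem (nbi_mem _ _ _ _), card_nb (mem_Ie.mp hr)]
  · intro r hr r' hr' hne c _ c' _
    rw [mem_Ie] at hr hr'
    exact (nb_disjoint hr hr' hne).mono (erase_subset _ _) (erase_subset _ _)
  · refine le_trans ?_ h
    apply mul_le_mul_of_nonneg_left _ (Real.exp_pos _).le
    have h2 : ((univ : Finset (Fin 3)).card : ℝ) = 3 := by simp
    rw [h2]
    apply mul_le_mul_of_nonneg_right _ (by positivity)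
    apply mul_le_mul_of_nonneg_right _ (by positivity)
    have : (Ie (ed z p)).card ≤ d := by
      refine (card_le_univ _).trans ?_
      simp
    exact_mod_cast this

/-- probability that static regularity fails at a vertex -/
theorem Pr_SV {m : ℕ} (hm : m ≤ Fintype.card (Edge d)) {L0 L1 B1 B2 : ℝ} (z : Vx d)
    (h0 : Real.exp 2 * (d * ((m : ℝ) / Fintype.card (Edge d)) ^ 2) ≤ L0)
    (h1 : Real.exp 2 * (d * 2 * ((m : ℝ) / Fintype.card (Edge d)) ^ 3) ≤ L1)
    (h2 : Real.exp 2 * (d * 3 * ((m : ℝ) / Fintype.card (Edge d))) ≤ B1)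
    (h3 : Real.exp 2 * (d * 3 * ((m : ℝ) / Fintype.card (Edge d)) ^ 2) ≤ B2) :
    Pr (fun ω : List (Edge d) => ¬ SV L0 L1 B1 B2 (ω.take m).toFinset z) ≤
      d * Real.exp (-L0) + d * d * Real.exp (-L1) + d * Real.exp (-B1) + d * Real.exp (-B2) := by
  have hL0 : 0 ≤ L0 := le_trans (by positivity) h0
  have hL1 : 0 ≤ L1 := le_trans (by positivity) h1
  have hB1 : 0 ≤ B1 := le_trans (by positivity) h2
  have hB2 : 0 ≤ B2 := le_trans (by positivity) h3
  have hsub : Pr (fun ω : List (Edge d) => ¬ SV L0 L1 B1 B2 (ω.take m).toFinset z) ≤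
    Pr (fun ω : List (Edge d) => (((∃ q ∈ (univ : Finset (Fin d)),
        L0 < ((cod0s (ω.take m).toFinset z q).card : ℝ)) ∨
      (∃ qp ∈ (univ : Finset (Fin d × Fin d)), qp.1 ≠ qp.2 ∧
        L1 < ((cod1s (ω.take m).toFinset z qp.1 qp.2).card : ℝ))) ∨
      (∃ i ∈ (univ : Finset (Fin d)), B1 < ((deg1s (ω.take m).toFinset (ed z i)).card : ℝ))) ∨
      (∃ i ∈ (univ : Finset (Fin d)), B2 < ((deg2s (ω.take m).toFinset (ed z i)).card : ℝ))) := by
    apply Pr_mono
    intro ω _ _ hω
    by_contra hcon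
    push Not at hcon
    obtain ⟨⟨⟨k1, k2⟩, k3⟩, k4⟩ := hcon
    exact hω ⟨fun q => k1 q (mem_univ _), fun q p hqp => k2 (q, p) (mem_univ _) hqp,
      fun i => k3 i (mem_univ _), fun i => k4 i (mem_univ _)⟩
  refine hsub.trans ((Pr_or_le _ _).trans ?_)
  refine add_le_add ((Pr_or_le _ _).trans (add_le_add ((Pr_or_le _ _).trans (add_le_add ?_ ?_)) ?_)) ?_
  · refine (Pr_biUnion_le _ _).trans ?_
    refine (sum_le_sum (fun q _ => Pr_cod0 hm hL0 z q h0)).trans ?_
    simp
  · refine (Pr_biUnion_le _ _).trans ?_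
    have : ∀ qp ∈ (univ : Finset (Fin d × Fin d)), Pr (fun ω : List (Edge d) => qp.1 ≠ qp.2 ∧
        L1 < ((cod1s (ω.take m).toFinset z qp.1 qp.2).card : ℝ)) ≤ Real.exp (-L1) := by
      intro qp _
      by_cases hqp : qp.1 = qp.2
      · refine le_trans (Pr_mono (B := fun _ => False) ?_) ?_
        · intro ω _ _ h
          exact h.1 hqp
        · have h5 := Pr_compl (E := Edge d) (fun _ => True)
          rw [Pr_true] at h5
          simp only [not_true_eq_false, sub_self] at h5
          rw [h5]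
          exact (Real.exp_pos _).le
      · refine le_trans (Pr_mono ?_) (Pr_cod1 hm hL1 z qp.1 qp.2 hqp h1)
        intro ω _ _ h
        exact h.2
    refine (sum_le_sum this).trans ?_
    simp
  · refine (Pr_biUnion_le _ _).trans ?_
    refine (sum_le_sum (fun q _ => Pr_deg1 hm hB1 z q h2)).trans ?_
    simp
  · refine (Pr_biUnion_le _ _).trans ?_
    refine (sum_le_sum (fun q _ => Pr_deg2 hm hB2 z q h3)).trans ?_
    simp

end Pool.Agent.Q2F
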