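import Mathlib
import Pool.Agent.MP_9431a4_pr.Static

set_option autoImplicit false

/-!
The family of faces at a fixed edge.
-/

namespace Pool.Agent.Q2F

open Finset Classical

variable {d : ℕ}

/-- static regularity in the ball of radius two -/
structure SB (L0 L1 B1 B2 : ℝ) (R : Finset (Edge d)) (x : Vx d) : Prop where
  s0 : SV L0 L1 B1 B2 R x
  s1 : ∀ i, SV L0 L1 B1 B2 R (fl x i)
  s2 : ∀ i j, SV L0 L1 B1 B2 R (fl (fl x i) j)

theorem SB.mono {L0 L1 B1 B2 : ℝ} {R R' : Finset (Edge d)} {x : Vx d} (h : R ⊆ R')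
    (hS : SB L0 L1 B1 B2 R' x) : SB L0 L1 B1 B2 R x where
  s0 := hS.s0.mono h
  s1 i := (hS.s1 i).mono h
  s2 i j := (hS.s2 i j).mono h

theorem Pr_SB {m : ℕ} {L0 L1 B1 B2 : ℝ} (x : Vx d) {π : ℝ}
    (h : ∀ z : Vx d, Pr (fun ω : List (Edge d) => ¬ SV L0 L1 B1 B2 (ω.take m).toFinset z) ≤ π) :
    Pr (fun ω : List (Edge d) => ¬ SB L0 L1 B1 B2 (ω.take m).toFinset x) ≤ (1 + d + d * d) * π := by
  have hsub : Pr (fun ω : List (Edge d) => ¬ SB L0 L1 B1 B2 (ω.take m).toFinset x) ≤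
    Pr (fun ω : List (Edge d) => (¬ SV L0 L1 B1 B2 (ω.take m).toFinset x ∨
      (∃ i ∈ (univ : Finset (Fin d)), ¬ SV L0 L1 B1 B2 (ω.take m).toFinset (fl x i))) ∨
      (∃ ij ∈ (univ : Finset (Fin d × Fin d)),
        ¬ SV L0 L1 B1 B2 (ω.take m).toFinset (fl (fl x ij.1) ij.2))) := by
    apply Pr_mono
    intro ω _ _ hω
    by_contra hcon
    push Not at hcon
    obtain ⟨⟨k1, k2⟩, k3⟩ := hcon
    exact hω ⟨k1, fun i => k2 i (mem_univ _), fun i j => k3 (i, j) (mem_univ _)⟩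
  refine hsub.trans ((Pr_or_le _ _).trans ?_)
  have e1 : Pr (fun ω : List (Edge d) => ∃ i ∈ (univ : Finset (Fin d)),
      ¬ SV L0 L1 B1 B2 (ω.take m).toFinset (fl x i)) ≤ d * π := by
    refine (Pr_biUnion_le _ _).trans ?_
    refine (sum_le_sum (fun q _ => h _)).trans ?_
    simp
  have e2 : Pr (fun ω : List (Edge d) => ∃ ij ∈ (univ : Finset (Fin d × Fin d)),
        ¬ SV L0 L1 B1 B2 (ω.take m).toFinset (fl (fl x ij.1) ij.2)) ≤ d * d * π := by
    refine (Pr_biUnion_le _ _).trans ?_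
    refine (sum_le_sum (fun q _ => h _)).trans ?_
    simp
  have e3 := Pr_or_le (fun ω : List (Edge d) => ¬ SV L0 L1 B1 B2 (ω.take m).toFinset x)
    (fun ω => ∃ i ∈ (univ : Finset (Fin d)), ¬ SV L0 L1 B1 B2 (ω.take m).toFinset (fl x i))
  have e4 := h x
  have : (1 + (d : ℝ) + d * d) * π = π + d * π + d * d * π := by ring
  rw [this]
  linarith

/-- the edge is still open -/
def LvE (e : Edge d) (l : List (Edge d)) : Prop := e ∈ opn l

/-- the functional `X_k(e)` -/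
noncomputable def Xe (e : Edge d) (k : ℕ) (l : List (Edge d)) : ℝ := Xf (Ie e) (nb e) k l

theorem nb_card_Ie {e : Edge d} : ∀ r ∈ Ie e, (nb e r).card = 3 :=
  fun _ hr => card_nb (mem_Ie.mp hr)

theorem nb_disj_Ie {e : Edge d} : ∀ r ∈ Ie e, ∀ s ∈ Ie e, r ≠ s → Disjoint (nb e r) (nb e s) :=
  fun _ hr _ hs hne => nb_disjoint (mem_Ie.mp hr) (mem_Ie.mp hs) hne

theorem Xe0_le (e : Edge d) (k : ℕ) (l : List (Edge d)) : Xe e k l ≤ d := by
  unfold Xe Xf cnt
  have : ((Ie e).filter (fun r => Ty (acc l) (opn l) (nb e r) k)).card ≤ d := by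
    refine (card_le_univ _).trans ?_
    simp
  exact_mod_cast this

theorem Xe1_le (e : Edge d) (l : List (Edge d)) :
    Xe e 1 l ≤ ((deg1s l.toFinset e).card : ℝ) := by
  unfold Xe Xf cnt
  have : (Ie e).filter (fun r => Ty (acc l) (opn l) (nb e r) 1) ⊆ deg1s l.toFinset e := by
    intro r hr
    obtain ⟨h1, h2⟩ := mem_filter.mp hr
    have h3 : 0 < (nb e r ∩ acc l).card := by rw [h2.2]; norm_num
    obtain ⟨f, hf⟩ := card_pos.mp h3
    unfold deg1s
    rw [mem_filter]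
    exact ⟨h1, f, (mem_inter.mp hf).1, acc_subset_toFinset l (mem_inter.mp hf).2⟩
  exact_mod_cast card_le_card this

theorem Xe2_le (e : Edge d) (l : List (Edge d)) :
    Xe e 2 l ≤ ((deg2s l.toFinset e).card : ℝ) := by
  unfold Xe Xf cnt
  have : (Ie e).filter (fun r => Ty (acc l) (opn l) (nb e r) 2) ⊆ deg2s l.toFinset e := by
    intro r hr
    obtain ⟨h1, h2⟩ := mem_filter.mp hr
    unfold deg2s
    rw [mem_filter]
    refine ⟨h1, ?_⟩
    rw [← h2.2]
    apply card_le_card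
    intro f hf
    obtain ⟨h3, h4⟩ := mem_inter.mp hf
    exact mem_inter.mpr ⟨h3, acc_subset_toFinset l h4⟩
  exact_mod_cast card_le_card this

theorem Gm_le (f : Edge d) (l : List (Edge d)) :
    ((Gm l f).card : ℝ) ≤ ((deg2s l.toFinset f).card : ℝ) := by
  rw [card_Gm]
  exact Xe2_le f l

section
variable {L0 L1 B1 B2 : ℝ} {R : Finset (Edge d)}

theorem SB.deg2 {x : Vx d} (h : SB L0 L1 B1 B2 R x) {p r : Fin d} {f : Edge d}
    (hf : f ∈ nb (ed x p) r) : ((deg2s R f).card : ℝ) ≤ B2 := by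
  rw [mem_nb_ed] at hf
  rcases hf with rfl | rfl | rfl
  · exact h.s0.b2 r
  · exact (h.s1 p).b2 r
  · exact (h.s1 r).b2 p

/-- every edge of a face at `e`, and `e` itself, has both ends in the ball -/
theorem SB.ends {x : Vx d} (h : SB L0 L1 B1 B2 R x) {p r : Fin d} {f : Edge d}
    (hf : f ∈ nb (ed x p) r ∨ f = ed x p) :
    ∃ y i, f = ed y i ∧ SV L0 L1 B1 B2 R y ∧ SV L0 L1 B1 B2 R (fl y i) := by
  rcases hf with hf | rfl
  · rw [mem_nb_ed] at hf
    rcases hf with rfl | rfl | rfl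
    · exact ⟨x, r, rfl, h.s0, h.s1 r⟩
    · exact ⟨fl x p, r, rfl, h.s1 p, h.s2 p r⟩
    · exact ⟨fl x r, p, rfl, h.s1 r, h.s2 r p⟩
  · exact ⟨x, p, rfl, h.s0, h.s1 p⟩

theorem SV.cod1_acc {l : List (Edge d)} {z : Vx d} (h : SV L0 L1 B1 B2 l.toFinset z) {q p : Fin d}
    (hqp : q ≠ p) : (cod1s (acc l) z q p).card ≤ ⌊L1⌋₊ := by
  apply Nat.le_floor
  exact le_trans (by exact_mod_cast card_le_card (cod1s_mono (acc_subset_toFinset l) z q p))
    (h.c1 q p hqp)

theorem SV.cod0_acc {l : List (Edge d)} {z : Vx d} (h : SV L0 L1 B1 B2 l.toFinset z) (q : Fin d) :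
    (cod0s (acc l) z q).card ≤ ⌊L0⌋₊ := by
  apply Nat.le_floor
  exact le_trans (by exact_mod_cast card_le_card (cod0s_mono (acc_subset_toFinset l) z q))
    (h.c0 q)

/-- overlap bound under static regularity -/
theorem overlap_SV {l : List (Edge d)} {y : Vx d} {i : Fin d}
    (h1 : SV L0 L1 B1 B2 l.toFinset y) (h2 : SV L0 L1 B1 B2 l.toFinset (fl y i)) {f' : Edge d}
    (hne : f' ≠ ed y i) : (Gm l (ed y i) ∩ Gm l f').card ≤ 39 + 2 * ⌊L1⌋₊ := by
  apply overlap hne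
  rintro z (rfl | rfl) q hq
  · exact h1.cod1_acc hq
  · exact h2.cod1_acc hq

/-- jump bound -/
theorem Xe_jump {e : Edge d} {l : List (Edge d)} (hL1 : 0 ≤ L1)
    (hS : SB L0 L1 B1 B2 l.toFinset (bs e))
    {g : Edge d} (hg : g ∈ rest l) (hne : g ≠ e) (k : ℕ) :
    |Xe e k (l ++ [g]) - Xe e k l| ≤ 14 + 2 * (if k = 0 then L0 else L1) := by
  have hL0 : 0 ≤ L0 := le_trans (Nat.cast_nonneg _) (hS.s0.c0 (dir e))
  have hfl : ∀ L : ℝ, 0 ≤ L → ((⌊L⌋₊ : ℕ) : ℝ) ≤ L := fun L h => Nat.floor_le h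
  have hj : ∀ c : ℕ, (k = 0 → ⌊L0⌋₊ ≤ c) → (k ≠ 0 → ⌊L1⌋₊ ≤ c) →
      |Xe e k (l ++ [g]) - Xe e k l| ≤ ((13 + 2 * c : ℕ) : ℝ) + 1 := by
    intro c h0 h1
    unfold Xe
    apply jump_main hg nb_disj_Ie (13 + 2 * c)
    intro _
    have he : ed (bs e) (dir e) = e := ed_bs e
    have := e_jump (l := l) (x := bs e) (p := dir e) (g := g) (k := k) (c := c)
      (by rw [he]; exact hne) ?_ ?_
    · rw [he] at this; exact this
    · rintro hk z (rfl | rfl) q
      · exact (hS.s0.cod0_acc q).trans (h0 hk)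
      · exact ((hS.s1 (dir e)).cod0_acc q).trans (h0 hk)
    · rintro hk z (rfl | rfl) q hq
      · exact (hS.s0.cod1_acc hq).trans (h1 hk)
      · exact ((hS.s1 (dir e)).cod1_acc hq).trans (h1 hk)
  by_cases hk : k = 0
  · rw [if_pos hk]
    have := hj ⌊L0⌋₊ (fun _ => le_rfl) (fun h => absurd hk h)
    push_cast at this
    linarith [hfl L0 hL0]
  · rw [if_neg hk]
    have := hj ⌊L1⌋₊ (fun h => absurd h hk) (fun _ => le_rfl)
    push_cast at this
    linarith [hfl L1 hL1]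

/-- bound for the loss term -/
theorem lt_le_of_Gm {ι : Type} {I : Finset ι} {V : ι → Finset (Edge d)} {v k : ℕ}
    {l : List (Edge d)} (hV : ∀ r ∈ I, (V r).card = v) (hk : k ≤ v) {B : ℝ}
    (hB : ∀ r ∈ I, ∀ f ∈ V r, ((Gm l f).card : ℝ) ≤ B) :
    lt I V k l ≤ ((v : ℝ) - k) * B * Xf I V k l := by
  unfold lt
  rw [Xf_eq_sum, mul_sum, mul_one]
  apply sum_le_sum
  intro r hr
  obtain ⟨hr1, hr2⟩ := mem_filter.mp hr
  have h1 := card_inter_opn (hV r hr1) hr2
  have h2 : ∑ f ∈ V r ∩ opn l, ((Gm l f).card : ℝ) ≤ ∑ _f ∈ V r ∩ opn l, B := by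
    apply sum_le_sum
    intro f hf
    exact hB r hr1 f (mem_inter.mp hf).1
  refine h2.trans ?_
  rw [sum_const, h1, nsmul_eq_mul, Nat.cast_sub hk]

theorem Xe_lt_le {e : Edge d} {l : List (Edge d)} (hS : SB L0 L1 B1 B2 l.toFinset (bs e))
    {k : ℕ} (hk : k ≤ 3) : lt (Ie e) (nb e) k l ≤ (3 - k) * B2 * Xe e k l := by
  have := lt_le_of_Gm (l := l) (I := Ie e) (V := nb e) nb_card_Ie hk (B := B2) ?_
  · exact_mod_cast this
  · intro r hr f hf
    refine (Gm_le f l).trans ?_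
    have he : ed (bs e) (dir e) = e := ed_bs e
    rw [← he] at hf
    exact hS.deg2 hf

/-- drift formula for the e-family -/
theorem Xe_drift {e : Edge d} {l : List (Edge d)} (hL1 : 0 ≤ L1)
    (hS : SB L0 L1 B1 B2 l.toFinset (bs e)) (heo : e ∈ opn l) {k : ℕ} (hk : k ≤ 2) :
    |((rest l).card : ℝ) * drift (Xe e k) (LvE e) l -
      (gt (Ie e) (nb e) 3 l k - lt (Ie e) (nb e) k l)| ≤ (363 + 18 * L1) * Xe e k l := by
  have hpos : 0 < (rest l).card := card_pos.mpr ⟨e, opn_subset_rest l heo⟩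
  have he : ed (bs e) (dir e) = e := ed_bs e
  have h := drift_main (I := Ie e) (V := nb e) (v := 3) (k := k) (l := l)
    (live := LvE e) nb_card_Ie (by omega) hpos ?_ (40 + 2 * ⌊L1⌋₊) ?_ ?_
  · refine h.trans ?_
    apply mul_le_mul_of_nonneg_right _ (Xf_nonneg _ _ _ _)
    push_cast
    have := Nat.floor_le hL1
    linarith
  · intro j hj r hr hty g hg
    exact e_sep heo hr (by omega) hty hg
  · intro r hr _ f hf f' hf' hne
    obtain ⟨y, i, rfl, h1, h2⟩ := hS.ends (p := dir e) (r := r) (f := f)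
      (Or.inl (by rw [he]; exact (mem_inter.mp hf).1))
    have := overlap_SV (f' := f') h1 h2 hne.symm
    omega
  · intro r hr _ f hf
    obtain ⟨y, i, rfl, h1, h2⟩ := hS.ends (p := dir e) (r := r) (f := f)
      (Or.inl (by rw [he]; exact (mem_inter.mp hf).1))
    have hne : e ≠ ed y i := by
      intro h
      exact not_mem_nb (mem_Ie.mp hr) (h ▸ (mem_inter.mp hf).1)
    have h3 := overlap_SV (f' := e) h1 h2 hne
    have h4 : Gm l (ed y i) ∩ (opn l).filter (fun g => ¬ LvE e (l ++ [g])) ⊆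
        {e} ∪ (Gm l (ed y i) ∩ Gm l e) := by
      intro g hg
      obtain ⟨hg1, hg2⟩ := mem_inter.mp hg
      obtain ⟨hg3, hg4⟩ := mem_filter.mp hg2
      have h5 := e_Z heo (mem_filter.mpr ⟨hg3, hg4⟩)
      rw [mem_insert] at h5
      rw [mem_union, mem_singleton, mem_inter]
      rcases h5 with h5 | h5
      · left; exact h5
      · right; exact ⟨hg1, h5⟩
    have h5 := card_le_card h4
    have h6 := card_union_le {e} (Gm l (ed y i) ∩ Gm l e)
    rw [card_singleton] at h6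
    omega

/-- variance bound for the e-family -/
theorem Xe_var {e : Edge d} {l : List (Edge d)}
    (hS : SB L0 L1 B1 B2 l.toFinset (bs e)) {k : ℕ} (hk : k ≤ 2) :
    av l (fun g => if LvE e (l ++ [g]) then |Xe e k (l ++ [g]) - Xe e k l| else 0) ≤
      (gt (Ie e) (nb e) 3 l k + (3 * Xe e k l + (3 - k) * B2 * Xe e k l)) / (rest l).card := by
  have h := var_main (I := Ie e) (V := nb e) (v := 3) (k := k) (l := l)
    (live := LvE e) nb_card_Ie (by omega)
  refine h.trans ?_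
  apply div_le_div_of_nonneg_right _ (Nat.cast_nonneg _)
  have := Xe_lt_le hS (k := k) (by omega)
  unfold Xe at this ⊢
  push_cast
  linarith

end

end Pool.Agent.Q2F
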