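import Mathlib
import Pool.Agent.MP_9431a4_pr.MC

set_option autoImplicit false

/-!
Two-sided form of the concentration inequality.
-/

namespace Pool.Agent.Q2F

open Finset Classical

variable {E : Type} [Fintype E] [DecidableEq E]

/-- two-sided deviation event -/
def Dev2 (f : List E → ℝ) (live good : List E → Prop) (K : ℝ) (a n : ℕ) (ω : List E) : Prop :=
  ∃ b, a ≤ b ∧ b ≤ a + n ∧ (∀ i, a < i → i ≤ b → live (ω.take i)) ∧
    (∀ i, a ≤ i → i < b → good (ω.take i)) ∧ K ≤ |comp f (drift f live) ω a b|

theorem drift_neg (f : List E → ℝ) (live : List E → Prop) (l : List E) :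
    drift (fun l => - f l) live l = - drift f live l := by
  unfold drift av
  rw [← neg_div, ← sum_neg_distrib]
  congr 1
  apply sum_congr rfl
  intro g _
  by_cases h : live (l ++ [g])
  · simp only [if_pos h]; ring
  · simp only [if_neg h]; ring

theorem comp_neg (f : List E → ℝ) (live : List E → Prop) (ω : List E) (a b : ℕ) :
    comp (fun l => - f l) (drift (fun l => - f l) live) ω a b = - comp f (drift f live) ω a b := by
  unfold comp
  simp only [drift_neg, sum_neg_distrib]
  ring

theorem DevEv_take {f : List E → ℝ} {live good : List E → Prop} {K : ℝ} {a n : ℕ} {ω : List E} :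
    DevEv f live good K a n ω ↔ DevEv f live good K a n (ω.take (a + n)) := by
  have h : ∀ i, i ≤ a + n → (ω.take (a + n)).take i = ω.take i := by
    intro i hi
    rw [List.take_take, min_eq_left hi]
  unfold DevEv
  constructor
  · rintro ⟨b, h1, h2, h3, h4, h5⟩
    refine ⟨b, h1, h2, ?_, ?_, ?_⟩
    · intro i hi1 hi2
      rw [h i (by omega)]; exact h3 i hi1 hi2
    · intro i hi1 hi2
      rw [h i (by omega)]; exact h4 i hi1 hi2
    · refine h5.trans (le_of_eq ?_)
      unfold comp
      rw [h b h2, h a (by omega)]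
      congr 1
      apply sum_congr rfl
      intro i hi
      rw [h i (by have := mem_Ico.mp hi; omega)]
  · rintro ⟨b, h1, h2, h3, h4, h5⟩
    refine ⟨b, h1, h2, ?_, ?_, ?_⟩
    · intro i hi1 hi2
      rw [← h i (by omega)]; exact h3 i hi1 hi2
    · intro i hi1 hi2
      rw [← h i (by omega)]; exact h4 i hi1 hi2
    · refine h5.trans (le_of_eq ?_)
      unfold comp
      rw [h b h2, h a (by omega)]
      congr 1
      apply sum_congr rfl
      intro i hi
      rw [h i (by have := mem_Ico.mp hi; omega)]

theorem Pr_DevEv {f : List E → ℝ} {live good : List E → Prop} {L ρ lam : ℝ}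
    (hρ : 0 ≤ ρ) (hL : 0 ≤ L) (hlam0 : 0 ≤ lam) (hlam : lam * L ≤ 1)
    (hjump : ∀ l : List E, l.Nodup → good l → ∀ g ∈ rest l, live (l ++ [g]) →
      |f (l ++ [g]) - f l| ≤ L)
    (hvar : ∀ l : List E, l.Nodup → good l →
      av l (fun g => if live (l ++ [g]) then |f (l ++ [g]) - f l| else 0) ≤ ρ)
    (a n : ℕ) (h : a + n ≤ Fintype.card E) (K : ℝ) :
    Pr (DevEv f live good K a n) ≤ Real.exp (-lam * K + n * (lam ^ 2 * L * ρ)) := by
  apply Pr_le_of_forall (n := a) (by omega)
  intro l hl hla
  have h1 : Ex (fun ω => if DevEv f live good K a n ω then (1 : ℝ) else 0) (Fintype.card E - a) l =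
      Ex (fun ω => if DevEv f live good K a n ω then (1 : ℝ) else 0) n l := by
    have h2 := Ex_take (fun ω => if DevEv f live good K a n ω then (1 : ℝ) else 0) n
      (Fintype.card E - a - n) hl (by omega)
    rw [show n + (Fintype.card E - a - n) = Fintype.card E - a by omega, hla] at h2
    rw [← h2]
    congr 1
    funext ω
    by_cases hE : DevEv f live good K a n ω
    · rw [if_pos hE, if_pos (DevEv_take.mp hE)]
    · rw [if_neg hE, if_neg (fun h => hE (DevEv_take.mpr h))]
  rw [h1]
  have h3 := mart_conc hρ hL hlam0 hlam hjump hvar n l hl (by omega) K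
  rw [hla] at h3
  exact h3

theorem Pr_Dev2 {f : List E → ℝ} {live good : List E → Prop} {L ρ lam : ℝ}
    (hρ : 0 ≤ ρ) (hL : 0 ≤ L) (hlam0 : 0 ≤ lam) (hlam : lam * L ≤ 1)
    (hjump : ∀ l : List E, l.Nodup → good l → ∀ g ∈ rest l, live (l ++ [g]) →
      |f (l ++ [g]) - f l| ≤ L)
    (hvar : ∀ l : List E, l.Nodup → good l →
      av l (fun g => if live (l ++ [g]) then |f (l ++ [g]) - f l| else 0) ≤ ρ)
    (a n : ℕ) (h : a + n ≤ Fintype.card E) (K : ℝ) :
    Pr (Dev2 f live good K a n) ≤ 2 * Real.exp (-lam * K + n * (lam ^ 2 * L * ρ)) := by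
  have h1 : Pr (Dev2 f live good K a n) ≤ Pr (fun ω => DevEv f live good K a n ω ∨
      DevEv (fun l => - f l) live good K a n ω) := by
    apply Pr_mono
    rintro ω _ _ ⟨b, h1, h2, h3, h4, h5⟩
    rcases le_abs.mp h5 with h5 | h5
    · left; exact ⟨b, h1, h2, h3, h4, h5⟩
    · right
      refine ⟨b, h1, h2, h3, h4, ?_⟩
      rw [comp_neg]; exact h5
  refine h1.trans ((Pr_or_le _ _).trans ?_)
  rw [two_mul]
  apply add_le_add
  · exact Pr_DevEv hρ hL hlam0 hlam hjump hvar a n h K
  · apply Pr_DevEv hρ hL hlam0 hlam _ _ a n h K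
    · intro l hl hg g hgr hlive
      have := hjump l hl hg g hgr hlive
      rw [← abs_neg]
      convert this using 2
      ring
    · intro l hl hg
      refine le_trans (le_of_eq ?_) (hvar l hl hg)
      apply av_congr
      intro g _
      split
      · rw [← abs_neg]
        congr 1
        ring
      · rfl

end Pool.Agent.Q2F
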