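import Mathlib
import Pool.Agent.MP_9431a4_pr.Basic

set_option autoImplicit false

/-!
Numerical parameters.
-/

namespace Pool.Agent.Q2F

open Finset

/-- the parameters of the proof -/
structure Par (d : ℕ) where
  β : ℝ
  A : ℝ
  J : ℕ
  hβ : Real.exp 1000 ≤ β
  hd : (d : ℝ) = β ^ (12000 : ℤ)
  hA : 1 ≤ A
  hA3 : Real.exp (A ^ 3) = β
  hpoly : 10 ^ 12 * (1 + A) ^ 12 ≤ β
  hJ1 : A * β ^ (600 : ℤ) ≤ J
  hJ2 : (J : ℝ) ≤ A * β ^ (600 : ℤ) + 1
  hN : β ^ (20000 : ℤ) ≤ (Fintype.card (Edge d) : ℝ)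

namespace Par

variable {d : ℕ} (P : Par d)

theorem β_big : 10 ^ 12 * 2 ^ 12 ≤ P.β := by
  refine le_trans ?_ P.hpoly
  apply mul_le_mul_of_nonneg_left _ (by norm_num)
  apply pow_le_pow_left₀ (by norm_num)
  linarith [P.hA]

theorem β_pos : 0 < P.β := lt_of_lt_of_le (by norm_num) P.β_big

theorem β_one : 1 ≤ P.β := le_trans (by norm_num) P.β_big

theorem β_ne : P.β ≠ 0 := P.β_pos.ne'

theorem A_pos : 0 < P.A := lt_of_lt_of_le one_pos P.hA

/-- monotonicity of powers -/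
theorem zle {m n : ℤ} (h : m ≤ n) : P.β ^ m ≤ P.β ^ n := zpow_le_zpow_right₀ P.β_one h

theorem zpos (n : ℤ) : 0 < P.β ^ n := zpow_pos P.β_pos n

theorem znn (n : ℤ) : 0 ≤ P.β ^ n := (P.zpos n).le

theorem zadd (m n : ℤ) : P.β ^ m * P.β ^ n = P.β ^ (m + n) := (zpow_add₀ P.β_ne m n).symm

/-- constants are absorbed by one power of `β` -/
theorem zc {c : ℝ} (hc : c ≤ 10 ^ 12) {m n : ℤ} (h : m + 1 ≤ n) : c * P.β ^ m ≤ P.β ^ n := by
  have h1 : c ≤ P.β := hc.trans (le_trans (by norm_num) P.β_big)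
  calc c * P.β ^ m ≤ P.β * P.β ^ m := mul_le_mul_of_nonneg_right h1 (P.znn m)
    _ = P.β ^ (m + 1) := by
      rw [mul_comm]
      exact (zpow_add_one₀ P.β_ne m).symm
    _ ≤ P.β ^ n := P.zle h

/-- polynomials in `A` are absorbed by one power of `β` -/
theorem zA {k : ℕ} (hk : k ≤ 12) {c : ℝ} (_hc0 : 0 ≤ c) (hc : c ≤ 10 ^ 12) {m n : ℤ}
    (h : m + 1 ≤ n) : c * (1 + P.A) ^ k * P.β ^ m ≤ P.β ^ n := by
  have h0 : (1 : ℝ) ≤ 1 + P.A := by linarith [P.A_pos]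
  have h1 : c * (1 + P.A) ^ k ≤ P.β := by
    refine le_trans ?_ P.hpoly
    apply mul_le_mul hc (pow_le_pow_right₀ h0 hk) (by positivity) (by norm_num)
  calc c * (1 + P.A) ^ k * P.β ^ m ≤ P.β * P.β ^ m := mul_le_mul_of_nonneg_right h1 (P.znn m)
    _ = P.β ^ (m + 1) := by
      rw [mul_comm]
      exact (zpow_add_one₀ P.β_ne m).symm
    _ ≤ P.β ^ n := P.zle h

theorem z1 : P.β ^ (1 : ℤ) = P.β := zpow_one _

theorem A_le : P.A ≤ P.β := by
  have := P.zA (k := 1) (by norm_num) (c := 1) (by norm_num) (by norm_num) (m := 0) (n := 1)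
    (by norm_num)
  simp at this
  linarith

theorem J_pos : 0 < P.J := by
  have h1 : 0 < P.A * P.β ^ (600 : ℤ) := mul_pos P.A_pos (P.zpos _)
  have h2 : (0 : ℝ) < P.J := lt_of_lt_of_le h1 P.hJ1
  exact_mod_cast h2

theorem J_pos' : (0 : ℝ) < P.J := by exact_mod_cast P.J_pos

/-- step of the trajectory -/
noncomputable def Δ : ℝ := P.A / P.J

theorem Δ_pos : 0 < P.Δ := div_pos P.A_pos P.J_pos'

theorem J_mul_Δ : P.J * P.Δ = P.A := by
  unfold Δ
  rw [mul_div_cancel₀]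
  exact P.J_pos'.ne'

theorem Δ_le : P.Δ ≤ P.β ^ (-600 : ℤ) := by
  unfold Δ
  rw [div_le_iff₀ P.J_pos']
  have h : P.β ^ (-600 : ℤ) * (P.A * P.β ^ (600 : ℤ)) = P.A := by
    have := P.zadd (-600) 600
    norm_num at this
    calc P.β ^ (-600 : ℤ) * (P.A * P.β ^ (600 : ℤ))
        = P.A * (P.β ^ (-600 : ℤ) * P.β ^ (600 : ℤ)) := by ring
      _ = P.A := by rw [P.zadd]; norm_num
  calc P.A = P.β ^ (-600 : ℤ) * (P.A * P.β ^ (600 : ℤ)) := h.symm
    _ ≤ P.β ^ (-600 : ℤ) * P.J := mul_le_mul_of_nonneg_left P.hJ1 (P.znn _)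

theorem J_le : (P.J : ℝ) ≤ 2 * (P.A * P.β ^ (600 : ℤ)) := by
  have h1 : 1 ≤ P.A * P.β ^ (600 : ℤ) := by
    have := P.zle (m := 0) (n := 600) (by norm_num)
    rw [zpow_zero] at this
    nlinarith [P.hA]
  linarith [P.hJ2]

theorem le_Δ : P.β ^ (-600 : ℤ) / 2 ≤ P.Δ := by
  unfold Δ
  rw [le_div_iff₀ P.J_pos']
  calc P.β ^ (-600 : ℤ) / 2 * P.J ≤ P.β ^ (-600 : ℤ) / 2 * (2 * (P.A * P.β ^ (600 : ℤ))) :=
        mul_le_mul_of_nonneg_left P.J_le (div_nonneg (P.znn _) (by norm_num))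
    _ = P.A * (P.β ^ (-600 : ℤ) * P.β ^ (600 : ℤ)) := by ring
    _ = P.A := by rw [P.zadd]; norm_num

theorem le_Δ' : P.β ^ (-601 : ℤ) ≤ P.Δ := by
  have h := P.zc (c := 2) (by norm_num) (m := -601) (n := -600) (by norm_num)
  linarith [P.le_Δ]

theorem J_le' : (P.J : ℝ) ≤ P.β ^ (601 : ℤ) := by
  refine P.J_le.trans ?_
  have h := P.zA (k := 1) (by norm_num) (c := 2) (by norm_num) (by norm_num) (m := 600)
    (n := 601) (by norm_num)
  refine le_trans ?_ h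
  have := P.znn 600
  rw [pow_one]
  nlinarith [P.A_pos]

/-- the values of the rescaled time -/
noncomputable def al (j : ℕ) : ℝ := j * P.Δ

theorem al_zero : P.al 0 = 0 := by simp [al]

theorem al_succ (j : ℕ) : P.al (j + 1) = P.al j + P.Δ := by
  unfold al; push_cast; ring

theorem al_nonneg (j : ℕ) : 0 ≤ P.al j := by
  unfold al
  have := P.Δ_pos
  positivity

theorem al_le {j : ℕ} (hj : j ≤ P.J) : P.al j ≤ P.A := by
  unfold al
  rw [← P.J_mul_Δ]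
  exact mul_le_mul_of_nonneg_right (by exact_mod_cast hj) P.Δ_pos.le

/-- density of open edges -/
noncomputable def aa (j : ℕ) : ℝ := Real.exp (-(P.al j) ^ 3)

theorem aa_pos (j : ℕ) : 0 < P.aa j := Real.exp_pos _

theorem aa_le_one (j : ℕ) : P.aa j ≤ 1 := by
  unfold aa
  rw [Real.exp_le_one_iff]
  have := P.al_nonneg j
  have : 0 ≤ (P.al j) ^ 3 := by positivity
  linarith

theorem le_aa {j : ℕ} (hj : j ≤ P.J) : P.β ^ (-1 : ℤ) ≤ P.aa j := by
  unfold aa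
  rw [zpow_neg_one]
  have h1 : (P.al j) ^ 3 ≤ P.A ^ 3 := pow_le_pow_left₀ (P.al_nonneg j) (P.al_le hj) 3
  rw [← P.hA3, ← Real.exp_neg]
  apply Real.exp_le_exp.mpr
  linarith

theorem inv_aa_le {j : ℕ} (hj : j ≤ P.J) : (P.aa j)⁻¹ ≤ P.β := by
  have := P.le_aa hj
  rw [zpow_neg_one] at this
  exact inv_le_of_inv_le₀ P.β_pos this

/-- `p = d^{-1/3}` -/
noncomputable def p : ℝ := P.β ^ (-4000 : ℤ)

theorem p_pos : 0 < P.p := P.zpos _

theorem d_p3 : (d : ℝ) * P.p ^ 3 = 1 := by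
  rw [P.hd]
  unfold p
  rw [← zpow_natCast, ← zpow_mul, P.zadd]
  norm_num

/-- number of edges -/
@[nolint unusedArguments]
noncomputable def N (_P : Par d) : ℝ := (Fintype.card (Edge d) : ℝ)

theorem N_pos : 0 < P.N := lt_of_lt_of_le (P.zpos _) P.hN

theorem le_N : P.β ^ (20000 : ℤ) ≤ P.N := P.hN

/-- block lengths -/
noncomputable def b (j : ℕ) : ℕ := ⌊P.N * P.Δ * P.p / P.aa j⌋₊

theorem b_le (j : ℕ) : (P.b j : ℝ) ≤ P.N * P.Δ * P.p / P.aa j := by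
  unfold b
  apply Nat.floor_le
  have := P.N_pos
  have := P.Δ_pos
  have := P.p_pos
  have := P.aa_pos j
  positivity

theorem le_b (j : ℕ) : P.N * P.Δ * P.p / P.aa j - 1 ≤ (P.b j : ℝ) := by
  unfold b
  have := Nat.lt_floor_add_one (P.N * P.Δ * P.p / P.aa j)
  linarith

theorem b_le' {j : ℕ} (hj : j ≤ P.J) : (P.b j : ℝ) ≤ P.N * P.Δ * P.β ^ (-3999 : ℤ) := by
  refine (P.b_le j).trans ?_
  rw [div_eq_mul_inv]
  have h0 : 0 ≤ P.N * P.Δ * P.p := by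
    have := P.N_pos
    have := P.Δ_pos
    have := P.p_pos
    positivity
  have h1 : P.N * P.Δ * P.p * (P.aa j)⁻¹ ≤ P.N * P.Δ * P.p * P.β ^ (1 : ℤ) := by
    rw [P.z1]
    exact mul_le_mul_of_nonneg_left (P.inv_aa_le hj) h0
  refine h1.trans (le_of_eq ?_)
  unfold p
  rw [mul_assoc, P.zadd]
  norm_num

/-- block boundaries -/
noncomputable def mm (j : ℕ) : ℕ := ∑ i ∈ range j, P.b i

theorem mm_zero : P.mm 0 = 0 := by simp [mm]

theorem mm_succ (j : ℕ) : P.mm (j + 1) = P.mm j + P.b j := by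
  unfold mm; rw [sum_range_succ]

theorem mm_mono : Monotone P.mm := by
  apply monotone_nat_of_le_succ
  intro j
  rw [P.mm_succ]
  omega

theorem mm_le {j : ℕ} (hj : j ≤ P.J) : (P.mm j : ℝ) ≤ P.N * P.β ^ (-3998 : ℤ) := by
  have h1 : (P.mm j : ℝ) ≤ ∑ _i ∈ range P.J, P.N * P.Δ * P.β ^ (-3999 : ℤ) := by
    have : (P.mm j : ℝ) ≤ (P.mm P.J : ℝ) := by exact_mod_cast P.mm_mono hj
    refine this.trans ?_
    unfold mm
    push_cast
    apply sum_le_sum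
    intro i hi
    exact P.b_le' (mem_range.mp hi).le
  refine h1.trans ?_
  rw [sum_const, card_range, nsmul_eq_mul]
  have h2 : (P.J : ℝ) * (P.N * P.Δ * P.β ^ (-3999 : ℤ)) = P.N * (P.A * P.β ^ (-3999 : ℤ)) := by
    rw [← P.J_mul_Δ]; ring
  rw [h2]
  apply mul_le_mul_of_nonneg_left _ P.N_pos.le
  have h3 := P.zA (k := 1) (by norm_num) (c := 1) (by norm_num) (by norm_num) (m := -3999)
    (n := -3998) (by norm_num)
  refine le_trans ?_ h3
  have := P.znn (-3999)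
  rw [pow_one]
  nlinarith [P.A_pos]

theorem mm_le_half {j : ℕ} (hj : j ≤ P.J) : (P.mm j : ℝ) ≤ P.N / 2 := by
  refine (P.mm_le hj).trans ?_
  have h := P.zc (c := 2) (by norm_num) (m := -3998) (n := 0) (by norm_num)
  rw [zpow_zero] at h
  have := P.N_pos
  nlinarith

theorem mm_le_card {j : ℕ} (hj : j ≤ P.J) : P.mm j ≤ Fintype.card (Edge d) := by
  have h := P.mm_le_half hj
  have h2 := P.N_pos
  have : (P.mm j : ℝ) ≤ (Fintype.card (Edge d) : ℝ) := by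
    unfold N at h h2
    linarith
  exact_mod_cast this

theorem mm_lt_card {j : ℕ} (hj : j ≤ P.J) : P.mm j < Fintype.card (Edge d) := by
  have h := P.mm_le_half hj
  have h2 := P.N_pos
  have : (P.mm j : ℝ) < (Fintype.card (Edge d) : ℝ) := by
    unfold N at h h2
    linarith
  exact_mod_cast this

/-- fraction of born edges -/
theorem tau_le {j : ℕ} (hj : j ≤ P.J) :
    (P.mm j : ℝ) / (Fintype.card (Edge d) : ℝ) ≤ P.β ^ (-3998 : ℤ) := by
  have h := P.mm_le hj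
  have h2 := P.N_pos
  unfold N at h h2
  rw [div_le_iff₀ h2, mul_comm]
  exact h

end Par

end Pool.Agent.Q2F
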