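import Mathlib
import Pool.Agent.MP_9431a4_pr.Num
import Pool.Agent.MP_9431a4_pr.MC2
import Pool.Agent.MP_9431a4_pr.EFam

set_option autoImplicit false

/-!
Probability estimates for the static and martingale events of the face family of an edge.
-/

namespace Pool.Agent.Q2F

open Finset Classical

variable {d : ℕ}

namespace Par

variable (P : Par d)

theorem d_eq_exp : (d : ℝ) = Real.exp (12000 * P.A ^ 3) := by
  have h1 : P.β ^ (12000 : ℤ) = P.β ^ (12000 : ℕ) := by norm_cast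
  rw [P.hd, h1]
  nth_rw 1 [← P.hA3]
  rw [← Real.exp_nat_mul]
  norm_num

theorem A3_le : 10 ^ 7 * P.A ^ 3 ≤ P.β := by
  refine le_trans ?_ P.hpoly
  have h0 := P.A_pos
  have h1 : P.A ^ 3 ≤ (1 + P.A) ^ 12 := by
    calc P.A ^ 3 ≤ (1 + P.A) ^ 3 := pow_le_pow_left₀ h0.le (by linarith) 3
      _ ≤ (1 + P.A) ^ 12 := pow_le_pow_right₀ (by linarith) (by norm_num)
  have h2 : 0 ≤ P.A ^ 3 := by positivity
  nlinarith

include P in
theorem d_pos : (0 : ℝ) < d := by rw [P.d_eq_exp]; exact Real.exp_pos _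

include P in
theorem d_one : (1 : ℝ) ≤ d := by
  rw [P.d_eq_exp]
  apply Real.one_le_exp
  have := P.A_pos
  positivity

/-- powers of `d` are absorbed by `exp β` -/
theorem d_pow_le (k : ℕ) (hk : k ≤ 100) : (d : ℝ) ^ k ≤ Real.exp (P.β / 2) := by
  calc (d : ℝ) ^ k ≤ (d : ℝ) ^ 100 := pow_le_pow_right₀ P.d_one hk
    _ = Real.exp (100 * (12000 * P.A ^ 3)) := by
      rw [P.d_eq_exp, ← Real.exp_nat_mul]; norm_num
    _ ≤ Real.exp (P.β / 2) := by
      apply Real.exp_le_exp.mpr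
      have := P.A3_le
      have := P.β_pos
      linarith

/-- the static event -/
abbrev SBP (R : Finset (Edge d)) (x : Vx d) : Prop :=
  SB (P.β ^ (4006 : ℤ)) (P.β ^ (605 : ℤ)) (P.β ^ (8004 : ℤ)) (P.β ^ (4006 : ℤ)) R x

theorem exp2_le : Real.exp 2 ≤ 10 := by
  have h1 : Real.exp 2 = Real.exp 1 * Real.exp 1 := by rw [← Real.exp_add]; norm_num
  have h2 := Real.exp_one_lt_d9
  have h3 := Real.exp_pos 1
  rw [h1]; nlinarith

theorem card_β : P.β ≤ Real.exp (P.β / 4) := by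
  have h1 := Real.add_one_le_exp (P.β / 8)
  have h2 := P.β_big
  have h3 : Real.exp (P.β / 4) = Real.exp (P.β / 8) * Real.exp (P.β / 8) := by
    rw [← Real.exp_add]; congr 1; ring
  rw [h3]
  have h4 : 0 < P.β / 8 + 1 := by linarith [P.β_pos]
  calc P.β ≤ (P.β / 8 + 1) * (P.β / 8 + 1) := by nlinarith
    _ ≤ _ := mul_le_mul h1 h1 h4.le (Real.exp_pos _).le

/-- static regularity fails with tiny probability -/
theorem Pr_SBP (x : Vx d) :
    Pr (fun ω : List (Edge d) => ¬ P.SBP (ω.take (P.mm P.J)).toFinset x) ≤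
      Real.exp (-P.β ^ (604 : ℤ)) := by
  have hτ0 : (0 : ℝ) ≤ (P.mm P.J : ℝ) / (Fintype.card (Edge d) : ℝ) := by positivity
  have hτ := P.tau_le le_rfl
  have hd := P.hd
  have hd0 := P.d_pos
  have h2pos := Real.exp_pos 2
  have hpw : ∀ (c : ℝ) (s : ℕ) (n : ℤ), 0 ≤ c → c ≤ 100 → 12000 - 3998 * (s : ℤ) + 1 ≤ n →
      Real.exp 2 * (d * c * ((P.mm P.J : ℝ) / (Fintype.card (Edge d) : ℝ)) ^ s) ≤ P.β ^ n := by
    intro c s n hc0 hc hn
    have h1 : ((P.mm P.J : ℝ) / (Fintype.card (Edge d) : ℝ)) ^ s ≤ (P.β ^ (-3998 : ℤ)) ^ s :=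
      pow_le_pow_left₀ hτ0 hτ s
    have h2 : (P.β ^ (-3998 : ℤ)) ^ s = P.β ^ (-3998 * (s : ℤ)) := by
      rw [← zpow_natCast, ← zpow_mul]
    rw [h2] at h1
    calc Real.exp 2 * (d * c * ((P.mm P.J : ℝ) / (Fintype.card (Edge d) : ℝ)) ^ s)
        ≤ 10 * (d * 100 * P.β ^ (-3998 * (s : ℤ))) := by
          apply mul_le_mul exp2_le _ (by positivity) (by norm_num)
          apply mul_le_mul _ h1 (by positivity) (by positivity)
          exact mul_le_mul_of_nonneg_left hc hd0.le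
      _ = 1000 * (P.β ^ (12000 : ℤ) * P.β ^ (-3998 * (s : ℤ))) := by rw [hd]; ring
      _ = 1000 * P.β ^ (12000 + -3998 * (s : ℤ)) := by rw [P.zadd]
      _ ≤ P.β ^ n := P.zc (by norm_num) (by linarith)
  have hSV : ∀ z : Vx d, Pr (fun ω : List (Edge d) =>
      ¬ SV (P.β ^ (4006 : ℤ)) (P.β ^ (605 : ℤ)) (P.β ^ (8004 : ℤ)) (P.β ^ (4006 : ℤ))
        (ω.take (P.mm P.J)).toFinset z) ≤ 4 * d ^ 2 * Real.exp (-P.β ^ (605 : ℤ)) := by
    intro z
    refine (Pr_SV (P.mm_le_card le_rfl) z ?_ ?_ ?_ ?_).trans ?_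
    · have := hpw 1 2 4006 (by norm_num) (by norm_num) (by norm_num)
      rwa [mul_one] at this
    · exact hpw 2 3 605 (by norm_num) (by norm_num) (by norm_num)
    · have := hpw 3 1 8004 (by norm_num) (by norm_num) (by norm_num)
      rwa [pow_one] at this
    · exact hpw 3 2 4006 (by norm_num) (by norm_num) (by norm_num)
    · have e1 : Real.exp (-P.β ^ (4006 : ℤ)) ≤ Real.exp (-P.β ^ (605 : ℤ)) :=
        Real.exp_le_exp.mpr (neg_le_neg (P.zle (by norm_num)))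
      have e2 : Real.exp (-P.β ^ (8004 : ℤ)) ≤ Real.exp (-P.β ^ (605 : ℤ)) :=
        Real.exp_le_exp.mpr (neg_le_neg (P.zle (by norm_num)))
      have h1 := P.d_one
      have h3 : (d : ℝ) ≤ d ^ 2 := by nlinarith
      have h4 := Real.exp_pos (-P.β ^ (605 : ℤ))
      have h5 : (d : ℝ) * Real.exp (-P.β ^ (4006 : ℤ)) ≤ d ^ 2 * Real.exp (-P.β ^ (605 : ℤ)) :=
        mul_le_mul h3 e1 (Real.exp_pos _).le (by positivity)
      have h6 : (d : ℝ) * Real.exp (-P.β ^ (8004 : ℤ)) ≤ d ^ 2 * Real.exp (-P.β ^ (605 : ℤ)) :=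
        mul_le_mul h3 e2 (Real.exp_pos _).le (by positivity)
      nlinarith
  refine (Pr_SB x hSV).trans ?_
  have h1 := P.d_one
  have h7 : (1 + (d : ℝ) + d * d) * (4 * d ^ 2 * Real.exp (-P.β ^ (605 : ℤ))) ≤
      12 * d ^ 4 * Real.exp (-P.β ^ (605 : ℤ)) := by
    have h3 : 1 + (d : ℝ) + d * d ≤ 3 * d ^ 2 := by nlinarith
    have h4 := Real.exp_pos (-P.β ^ (605 : ℤ))
    calc (1 + (d : ℝ) + d * d) * (4 * d ^ 2 * Real.exp (-P.β ^ (605 : ℤ)))
        ≤ (3 * d ^ 2) * (4 * d ^ 2 * Real.exp (-P.β ^ (605 : ℤ))) :=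
          mul_le_mul_of_nonneg_right h3 (by positivity)
      _ = 12 * d ^ 4 * Real.exp (-P.β ^ (605 : ℤ)) := by ring
  refine h7.trans ?_
  have h8 : (12 : ℝ) * d ^ 4 ≤ Real.exp P.β := by
    have h9 := P.d_pow_le 4 (by norm_num)
    have h10 : (12 : ℝ) ≤ Real.exp (P.β / 2) := by
      have := Real.add_one_le_exp (P.β / 2)
      have := P.β_big
      linarith
    calc (12 : ℝ) * d ^ 4 ≤ Real.exp (P.β / 2) * Real.exp (P.β / 2) :=
          mul_le_mul h10 h9 (by positivity) (Real.exp_pos _).le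
      _ = Real.exp P.β := by rw [← Real.exp_add]; congr 1; ring
  calc 12 * (d : ℝ) ^ 4 * Real.exp (-P.β ^ (605 : ℤ))
      ≤ Real.exp P.β * Real.exp (-P.β ^ (605 : ℤ)) :=
        mul_le_mul_of_nonneg_right h8 (Real.exp_pos _).le
    _ = Real.exp (P.β - P.β ^ (605 : ℤ)) := by rw [← Real.exp_add]; congr 1
    _ ≤ Real.exp (-P.β ^ (604 : ℤ)) := by
      apply Real.exp_le_exp.mpr
      have h11 := P.zc (c := 2) (by norm_num) (m := 604) (n := 605) (by norm_num)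
      have h12 := P.zle (m := 1) (n := 604) (by norm_num)
      rw [P.z1] at h12
      linarith

/-- the concentration inequality with the parameters of the proof -/
theorem mart_apply {f : List (Edge d) → ℝ} {live good : List (Edge d) → Prop} {j : ℕ}
    (hj : j < P.J) {L Q κ : ℝ} (hL : 1 ≤ L) (hQ : 0 ≤ Q)
    (hκ : 4 * P.β ^ (-4016 : ℤ) * Q * P.Δ ^ 2 ≤ κ)
    (hjump : ∀ l : List (Edge d), l.Nodup → good l → ∀ g ∈ rest l, live (l ++ [g]) →
      |f (l ++ [g]) - f l| ≤ L)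
    (hvar : ∀ l : List (Edge d), l.Nodup → good l →
      av l (fun g => if live (l ++ [g]) then |f (l ++ [g]) - f l| else 0) ≤ 2 * Q / P.N) :
    Pr (Dev2 f live good κ (P.mm j) (P.b j)) ≤
      2 * Real.exp (-(P.Δ * P.β ^ (-17 : ℤ) / L * κ / 2)) := by
  have hΔ := P.Δ_pos
  have hN := P.N_pos
  have hL0 : 0 < L := by linarith
  have hz := P.zpos (-17)
  set lam := P.Δ * P.β ^ (-17 : ℤ) / L with hlam
  have hlam0 : 0 ≤ lam := by positivity
  have hlamL : lam * L = P.Δ * P.β ^ (-17 : ℤ) := by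
    rw [hlam]; field_simp
  have hlam1 : lam * L ≤ 1 := by
    rw [hlamL]
    have h1 := P.Δ_le
    have h2 := P.zle (m := -600) (n := 0) (by norm_num)
    have h3 := P.zle (m := -17) (n := 0) (by norm_num)
    rw [zpow_zero] at h2 h3
    have : P.Δ ≤ 1 := h1.trans h2
    nlinarith
  have hjN : P.mm j + P.b j ≤ Fintype.card (Edge d) := by
    rw [← P.mm_succ]
    exact P.mm_le_card hj
  have h := Pr_Dev2 (K := κ) (a := P.mm j) (n := P.b j) (ρ := 2 * Q / P.N) (L := L)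
    (by positivity) hL0.le hlam0 hlam1 hjump hvar hjN
  refine h.trans ?_
  apply mul_le_mul_of_nonneg_left _ (by norm_num)
  apply Real.exp_le_exp.mpr
  have h1 : (P.b j : ℝ) * (lam ^ 2 * L * (2 * Q / P.N)) ≤ lam * (κ / 2) := by
    have h2 : (P.b j : ℝ) * (lam ^ 2 * L * (2 * Q / P.N)) =
        lam * ((P.b j : ℝ) * (lam * L) * (2 * Q / P.N)) := by ring
    rw [h2]
    apply mul_le_mul_of_nonneg_left _ hlam0
    rw [hlamL]
    have h3 := P.b_le' hj.le
    calc (P.b j : ℝ) * (P.Δ * P.β ^ (-17 : ℤ)) * (2 * Q / P.N)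
        ≤ (P.N * P.Δ * P.β ^ (-3999 : ℤ)) * (P.Δ * P.β ^ (-17 : ℤ)) * (2 * Q / P.N) := by
          gcongr
      _ = 2 * (P.β ^ (-3999 : ℤ) * P.β ^ (-17 : ℤ)) * Q * P.Δ ^ 2 := by
          field_simp
      _ = 2 * P.β ^ (-4016 : ℤ) * Q * P.Δ ^ 2 := by rw [P.zadd]; norm_num
      _ ≤ κ / 2 := by linarith
  have h4 : -lam * κ = -(lam * κ) := by ring
  rw [h4]
  have h5 : P.Δ * P.β ^ (-17 : ℤ) / L * κ / 2 = lam * (κ / 2) := by rw [hlam]; ring
  linarith

end Par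

end Pool.Agent.Q2F
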