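import Mathlib
import Pool.Agent.MP_9431a4_pr.EMart

set_option autoImplicit false

/-!
The martingale events of the face family.
-/

namespace Pool.Agent.Q2F

open Finset Classical

variable {d : ℕ}

namespace Par

variable (P : Par d)

/-- histories to which the concentration inequality applies -/
def GE (e : Edge d) (l : List (Edge d)) : Prop :=
  e ∈ opn l ∧ l.length ≤ P.mm P.J ∧ P.SBP l.toFinset (bs e)

/-- allowed deviation -/
noncomputable def κe (k : ℕ) : ℝ := P.Δ ^ 2 * P.β ^ (11997 - 4000 * (k : ℤ))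

/-- failure of the concentration inequality -/
def MBad (e : Edge d) (j k : ℕ) (ω : List (Edge d)) : Prop :=
  Dev2 (Xe e k) (LvE e) (P.GE e) (P.κe k) (P.mm j) (P.b j) ω

theorem rest_ge {l : List (Edge d)} (hl : l.Nodup) (h : l.length ≤ P.mm P.J) :
    P.N / 2 ≤ ((rest l).card : ℝ) := by
  rw [card_rest hl]
  have h1 := P.mm_le_half le_rfl
  have h2 : (l.length : ℝ) ≤ P.mm P.J := by exact_mod_cast h
  have h3 : l.length ≤ Fintype.card (Edge d) := h.trans (P.mm_le_card le_rfl)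
  rw [Nat.cast_sub h3]
  have : P.N = (Fintype.card (Edge d) : ℝ) := rfl
  linarith

theorem rest_le {l : List (Edge d)} (hl : l.Nodup) : ((rest l).card : ℝ) ≤ P.N := by
  rw [card_rest hl]
  have : P.N = (Fintype.card (Edge d) : ℝ) := rfl
  rw [this]
  exact_mod_cast Nat.sub_le _ _

/-- bound for the variance numerators -/
noncomputable def Qe (k : ℕ) : ℝ :=
  if k = 0 then 4 * P.β ^ (16006 : ℤ) else if k = 1 then 4 * P.β ^ (12010 : ℤ)
  else 4 * P.β ^ (8012 : ℤ)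

theorem Qe_nonneg (k : ℕ) : 0 ≤ P.Qe k := by
  unfold Qe
  split
  · have := P.znn 16006; positivity
  · split
    · have := P.znn 12010; positivity
    · have := P.znn 8012; positivity

/-- crude bounds for the functionals -/
theorem Xe_crude {e : Edge d} {l : List (Edge d)} (hS : P.SBP l.toFinset (bs e)) :
    Xe e 0 l ≤ P.β ^ (12000 : ℤ) ∧ Xe e 1 l ≤ P.β ^ (8004 : ℤ) ∧ Xe e 2 l ≤ P.β ^ (4006 : ℤ) := by
  have he : ed (bs e) (dir e) = e := ed_bs e
  refine ⟨?_, ?_, ?_⟩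
  · rw [← P.hd]; exact Xe0_le e 0 l
  · refine (Xe1_le e l).trans ?_
    have := hS.s0.b1 (dir e)
    rwa [he] at this
  · refine (Xe2_le e l).trans ?_
    have := hS.s0.b2 (dir e)
    rwa [he] at this

theorem Xe_nonneg (e : Edge d) (k : ℕ) (l : List (Edge d)) : 0 ≤ Xe e k l := Xf_nonneg _ _ _ _

theorem Qe_bound {e : Edge d} {l : List (Edge d)} (hS : P.SBP l.toFinset (bs e)) {k : ℕ}
    (hk : k ≤ 2) : gt (Ie e) (nb e) 3 l k + (3 * Xe e k l + (3 - k) * P.β ^ (4006 : ℤ) * Xe e k l) ≤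
      P.Qe k := by
  obtain ⟨h0, h1, h2⟩ := P.Xe_crude hS
  have n0 := Xe_nonneg e 0 l
  have n1 := Xe_nonneg e 1 l
  have n2 := Xe_nonneg e 2 l
  have z := P.znn 4006
  have z4 := P.zc (c := 3) (by norm_num) (m := 0) (n := 4006) (by norm_num)
  rw [zpow_zero] at z4
  interval_cases k
  · rw [gt_zero]
    unfold Qe
    rw [if_pos rfl]
    have e1 : P.β ^ (4006 : ℤ) * P.β ^ (12000 : ℤ) = P.β ^ (16006 : ℤ) := by
      rw [P.zadd]; norm_num
    rw [← e1]
    have e2 : P.β ^ (4006 : ℤ) * Xe e 0 l ≤ P.β ^ (4006 : ℤ) * P.β ^ (12000 : ℤ) :=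
      mul_le_mul_of_nonneg_left h0 z
    have e3 : 3 * Xe e 0 l ≤ P.β ^ (4006 : ℤ) * P.β ^ (12000 : ℤ) := by
      calc 3 * Xe e 0 l ≤ P.β ^ (4006 : ℤ) * Xe e 0 l := mul_le_mul_of_nonneg_right (by linarith) n0
        _ ≤ _ := e2
    push_cast
    nlinarith
  · rw [gt_succ]
    unfold Qe
    rw [if_neg (by norm_num), if_pos rfl]
    have e1 : P.β ^ (4006 : ℤ) * P.β ^ (8004 : ℤ) = P.β ^ (12010 : ℤ) := by
      rw [P.zadd]; norm_num
    have e2 : P.β ^ (4006 : ℤ) * Xe e 1 l ≤ P.β ^ (4006 : ℤ) * P.β ^ (8004 : ℤ) :=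
      mul_le_mul_of_nonneg_left h1 z
    have e3 : 3 * Xe e 1 l ≤ P.β ^ (4006 : ℤ) * P.β ^ (8004 : ℤ) := by
      calc 3 * Xe e 1 l ≤ P.β ^ (4006 : ℤ) * Xe e 1 l := mul_le_mul_of_nonneg_right (by linarith) n1
        _ ≤ _ := e2
    have e4 := P.zc (c := 3) (by norm_num) (m := 12000) (n := 12010) (by norm_num)
    have e5 : Xf (Ie e) (nb e) 0 l = Xe e 0 l := rfl
    rw [e5]
    push_cast
    rw [e1] at e2 e3
    have e6 : ((3 : ℝ) - 0) * Xe e 0 l ≤ P.β ^ (12010 : ℤ) := by linarith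
    nlinarith
  · rw [gt_succ]
    unfold Qe
    rw [if_neg (by norm_num), if_neg (by norm_num)]
    have e1 : P.β ^ (4006 : ℤ) * P.β ^ (4006 : ℤ) = P.β ^ (8012 : ℤ) := by
      rw [P.zadd]; norm_num
    have e2 : P.β ^ (4006 : ℤ) * Xe e 2 l ≤ P.β ^ (4006 : ℤ) * P.β ^ (4006 : ℤ) :=
      mul_le_mul_of_nonneg_left h2 z
    have e3 : 3 * Xe e 2 l ≤ P.β ^ (4006 : ℤ) * P.β ^ (4006 : ℤ) := by
      calc 3 * Xe e 2 l ≤ P.β ^ (4006 : ℤ) * Xe e 2 l := mul_le_mul_of_nonneg_right (by linarith) n2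
        _ ≤ _ := e2
    have e4 := P.zc (c := 2) (by norm_num) (m := 8004) (n := 8012) (by norm_num)
    have e5 : Xf (Ie e) (nb e) 1 l = Xe e 1 l := rfl
    rw [e5]
    push_cast
    rw [e1] at e2 e3
    have e6 : ((3 : ℝ) - 1) * Xe e 1 l ≤ P.β ^ (8012 : ℤ) := by linarith
    have e7 := P.znn 8012
    linarith

theorem Δ3_ge : P.β ^ (-1803 : ℤ) ≤ P.Δ ^ 3 := by
  have h := pow_le_pow_left₀ (P.znn (-601)) P.le_Δ' 3
  have h2 : (P.β ^ (-601 : ℤ)) ^ 3 = P.β ^ (-1803 : ℤ) := by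
    rw [← zpow_natCast, ← zpow_mul]; norm_num
  rwa [h2] at h

theorem Pr_MBad (e : Edge d) {j k : ℕ} (hj : j < P.J) (hk : k ≤ 2) :
    Pr (P.MBad e j k) ≤ Real.exp (-P.β ^ (605 : ℤ)) := by
  have hkz : (k : ℤ) ≤ 2 := by exact_mod_cast hk
  -- the jump bound
  set lz : ℤ := if k = 0 then 4007 else 606 with hlz
  have hL1 : 1 ≤ P.β ^ lz := by
    have := P.zle (m := 0) (n := lz) (by rw [hlz]; split <;> norm_num)
    rwa [zpow_zero] at this
  have h := P.mart_apply (f := Xe e k) (live := LvE e) (good := P.GE e) hj (L := P.β ^ lz)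
    (Q := P.Qe k) (κ := P.κe k) hL1 (P.Qe_nonneg k) ?_ ?_ ?_
  · refine h.trans ?_
    have h1 : P.Δ * P.β ^ (-17 : ℤ) / P.β ^ lz * P.κe k / 2 =
        P.Δ ^ 3 * P.β ^ (-17 - lz + (11997 - 4000 * (k : ℤ))) / 2 := by
      unfold κe
      rw [zpow_add₀ P.β_ne (-17 - lz), zpow_sub₀ P.β_ne (-17) lz]
      ring
    rw [h1]
    have h2 : P.β ^ (607 : ℤ) ≤ P.Δ ^ 3 * P.β ^ (-17 - lz + (11997 - 4000 * (k : ℤ))) := by
      calc P.β ^ (607 : ℤ) ≤ P.β ^ (-1803 : ℤ) * P.β ^ (-17 - lz + (11997 - 4000 * (k : ℤ))) := by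
            rw [P.zadd]
            apply P.zle
            rw [hlz]
            interval_cases k <;> norm_num
        _ ≤ _ := mul_le_mul_of_nonneg_right P.Δ3_ge (P.znn _)
    have h3 := P.zc (c := 4) (by norm_num) (m := 605) (n := 607) (by norm_num)
    have h4 : 1 ≤ P.β ^ (605 : ℤ) := by
      have := P.zle (m := 0) (n := 605) (by norm_num)
      rwa [zpow_zero] at this
    have h5 : (2 : ℝ) ≤ Real.exp (P.β ^ (605 : ℤ)) := by
      have := Real.add_one_le_exp (P.β ^ (605 : ℤ))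
      linarith
    calc 2 * Real.exp (-(P.Δ ^ 3 * P.β ^ (-17 - lz + (11997 - 4000 * (k : ℤ))) / 2))
        ≤ Real.exp (P.β ^ (605 : ℤ)) * Real.exp (-(2 * P.β ^ (605 : ℤ))) := by
          apply mul_le_mul h5 _ (Real.exp_pos _).le (Real.exp_pos _).le
          apply Real.exp_le_exp.mpr
          linarith
      _ = Real.exp (-P.β ^ (605 : ℤ)) := by rw [← Real.exp_add]; congr 1; ring
  · -- κ condition
    unfold κe Qe
    have hΔ : 0 ≤ P.Δ ^ 2 := by positivity
    have key : ∀ a n : ℤ, -4016 + a + 1 ≤ n →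
        4 * P.β ^ (-4016 : ℤ) * (4 * P.β ^ a) * P.Δ ^ 2 ≤ P.Δ ^ 2 * P.β ^ n := by
      intro a n han
      have h1 : 4 * P.β ^ (-4016 : ℤ) * (4 * P.β ^ a) * P.Δ ^ 2 =
          P.Δ ^ 2 * (16 * (P.β ^ (-4016 : ℤ) * P.β ^ a)) := by ring
      rw [h1, P.zadd]
      exact mul_le_mul_of_nonneg_left (P.zc (by norm_num) han) hΔ
    interval_cases k
    · rw [if_pos rfl]; exact key _ _ (by norm_num)
    · rw [if_neg (by norm_num), if_pos rfl]; exact key _ _ (by norm_num)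
    · rw [if_neg (by norm_num), if_neg (by norm_num)]; exact key _ _ (by norm_num)
  · -- jumps
    rintro l hl ⟨heo, hlen, hS⟩ g hg hlive
    have hne : g ≠ e := by
      rintro rfl
      have := (mem_opn.mp hlive).1
      exact this (by simp)
    refine (Xe_jump (P.znn _) hS hg hne k).trans ?_
    rw [hlz]
    by_cases hk0 : k = 0
    · rw [if_pos hk0, if_pos hk0]
      have h1 := P.zc (c := 16) (by norm_num) (m := 4006) (n := 4007) (by norm_num)
      have h2 := P.zle (m := 0) (n := 4006) (by norm_num)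
      rw [zpow_zero] at h2
      linarith
    · rw [if_neg hk0, if_neg hk0]
      have h1 := P.zc (c := 16) (by norm_num) (m := 605) (n := 606) (by norm_num)
      have h2 := P.zle (m := 0) (n := 605) (by norm_num)
      rw [zpow_zero] at h2
      linarith
  · rintro l hl ⟨heo, hlen, hS⟩
    refine (Xe_var hS hk).trans ?_
    have h1 := P.rest_ge hl hlen
    have h2 := P.N_pos
    have h3 := P.Qe_bound hS hk
    have h4 : (0 : ℝ) < ((rest l).card : ℝ) := by linarith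
    rw [div_le_div_iff₀ h4 h2]
    have h5 := P.Qe_nonneg k
    calc _ ≤ P.Qe k * P.N := mul_le_mul_of_nonneg_right h3 h2.le
      _ ≤ 2 * P.Qe k * ((rest l).card : ℝ) := by nlinarith

end Par

end Pool.Agent.Q2F
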