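import Mathlib
import Pool.Agent.MP_9431a4_pr.Num

set_option autoImplicit false

/-!
Trajectories and the deterministic one-block estimate.
-/

namespace Pool.Agent.Q2F

open Finset

theorem taylor {α Δ u ν : ℝ} (hα : 0 ≤ α) (hαu : 1 + α ≤ u) (hΔ0 : 0 ≤ Δ) (hΔ : 9 * u ^ 2 * Δ ≤ 1)
    {k : ℕ} (hk : k ≤ 2) (hν0 : 0 ≤ ν) (hν : ν ≤ 3) :
    |(α + Δ) ^ k * Real.exp (-(ν * ((α + Δ) ^ 3 - α ^ 3))) -
      (α ^ k + Δ * (k * α ^ (k - 1) - 3 * ν * α ^ (k + 2)))| ≤ 110 * u ^ 6 * Δ ^ 2 := by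
  have hu1 : 1 ≤ u := by linarith
  have hu0 : 0 ≤ u := by linarith
  have hu2 : 1 ≤ u ^ 2 := one_le_pow₀ hu1
  have hΔ1 : Δ ≤ 1 / 9 := by nlinarith
  have hαu' : α ≤ u := by linarith
  have hαΔ : α + Δ ≤ u := by linarith
  set z := ν * ((α + Δ) ^ 3 - α ^ 3) with hz
  have hz1 : z = 3 * ν * α ^ 2 * Δ + ν * (3 * α + Δ) * Δ ^ 2 := by rw [hz]; ring
  have hα2 : α ^ 2 ≤ u ^ 2 := pow_le_pow_left₀ hα hαu' 2
  have hz0 : 0 ≤ z := by rw [hz1]; positivity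
  have hz2 : z ≤ 9 * u ^ 2 * Δ := by
    have h1 : z = ν * Δ * (3 * α ^ 2 + 3 * α * Δ + Δ ^ 2) := by rw [hz]; ring
    have h2 : 3 * α ^ 2 + 3 * α * Δ + Δ ^ 2 ≤ 3 * u ^ 2 := by nlinarith
    rw [h1]
    calc ν * Δ * (3 * α ^ 2 + 3 * α * Δ + Δ ^ 2) ≤ 3 * Δ * (3 * u ^ 2) := by
          apply mul_le_mul _ h2 (by positivity) (by positivity)
          exact mul_le_mul_of_nonneg_right hν hΔ0
      _ = 9 * u ^ 2 * Δ := by ring
  have hzle : |(-z)| ≤ 1 := by rw [abs_neg, abs_of_nonneg hz0]; linarith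
  have hE := Real.abs_exp_sub_one_sub_id_le hzle
  set E := Real.exp (-z) - 1 - -z with hEdef
  have hexp : Real.exp (-z) = 1 - z + E := by rw [hEdef]; ring
  have hE2 : |E| ≤ 81 * u ^ 4 * Δ ^ 2 := by
    refine hE.trans ?_
    have : (-z) ^ 2 = z ^ 2 := by ring
    rw [this]
    calc z ^ 2 ≤ (9 * u ^ 2 * Δ) ^ 2 := pow_le_pow_left₀ hz0 hz2 2
      _ = 81 * u ^ 4 * Δ ^ 2 := by ring
  set ρ := E - ν * (3 * α + Δ) * Δ ^ 2 with hρ
  have hr : |ν * (3 * α + Δ) * Δ ^ 2| ≤ 9 * u ^ 4 * Δ ^ 2 := by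
    rw [abs_of_nonneg (by positivity)]
    apply mul_le_mul_of_nonneg_right _ (by positivity)
    have h1 : 3 * α + Δ ≤ 3 * u := by linarith
    have h2 : u ≤ u ^ 4 := by
      calc u = u ^ 1 := (pow_one u).symm
        _ ≤ u ^ 4 := pow_le_pow_right₀ hu1 (by norm_num)
    calc ν * (3 * α + Δ) ≤ 3 * (3 * u) := mul_le_mul hν h1 (by positivity) (by norm_num)
      _ = 9 * u := by ring
      _ ≤ 9 * u ^ 4 := by linarith
  have hρ2 : |ρ| ≤ 90 * u ^ 4 * Δ ^ 2 := by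
    rw [hρ]
    refine (abs_sub _ _).trans ?_
    linarith
  have hexp2 : Real.exp (-z) = 1 - 3 * ν * α ^ 2 * Δ + ρ := by
    rw [hexp, hρ, hz1]; ring
  rw [hexp2]
  have hu6 : (1 : ℝ) ≤ u ^ 6 := one_le_pow₀ hu1
  have hu36 : u ^ 3 ≤ u ^ 6 := pow_le_pow_right₀ hu1 (by norm_num)
  have hΔ2 : 0 ≤ Δ ^ 2 := by positivity
  -- the term Q * ρ
  have hQρ : |(α + Δ) ^ k * ρ| ≤ 90 * u ^ 6 * Δ ^ 2 := by
    rw [abs_mul, abs_of_nonneg (by positivity : (0 : ℝ) ≤ (α + Δ) ^ k)]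
    have h1 : (α + Δ) ^ k ≤ u ^ 2 := by
      calc (α + Δ) ^ k ≤ u ^ k := pow_le_pow_left₀ (by positivity) hαΔ k
        _ ≤ u ^ 2 := pow_le_pow_right₀ hu1 hk
    calc (α + Δ) ^ k * |ρ| ≤ u ^ 2 * (90 * u ^ 4 * Δ ^ 2) :=
          mul_le_mul h1 hρ2 (abs_nonneg _) (by positivity)
      _ = 90 * u ^ 6 * Δ ^ 2 := by ring
  interval_cases k
  · have e : (α + Δ) ^ 0 * (1 - 3 * ν * α ^ 2 * Δ + ρ) -
        (α ^ 0 + Δ * (((0 : ℕ) : ℝ) * α ^ (0 - 1) - 3 * ν * α ^ (0 + 2))) = (α + Δ) ^ 0 * ρ := by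
      push_cast; ring
    rw [e]
    refine hQρ.trans ?_
    nlinarith
  · have e : (α + Δ) ^ 1 * (1 - 3 * ν * α ^ 2 * Δ + ρ) -
        (α ^ 1 + Δ * (((1 : ℕ) : ℝ) * α ^ (1 - 1) - 3 * ν * α ^ (1 + 2))) =
        (α + Δ) ^ 1 * ρ - 3 * ν * α ^ 2 * Δ ^ 2 := by
      push_cast; ring
    rw [e]
    refine (abs_sub _ _).trans ?_
    have h1 : |3 * ν * α ^ 2 * Δ ^ 2| ≤ 9 * u ^ 6 * Δ ^ 2 := by
      rw [abs_of_nonneg (by positivity)]
      apply mul_le_mul_of_nonneg_right _ hΔ2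
      have h2 : u ^ 2 ≤ u ^ 6 := pow_le_pow_right₀ hu1 (by norm_num)
      nlinarith
    nlinarith
  · have e : (α + Δ) ^ 2 * (1 - 3 * ν * α ^ 2 * Δ + ρ) -
        (α ^ 2 + Δ * (((2 : ℕ) : ℝ) * α ^ (2 - 1) - 3 * ν * α ^ (2 + 2))) =
        (α + Δ) ^ 2 * ρ + (Δ ^ 2 * (1 - 6 * ν * α ^ 3 - 3 * ν * α ^ 2 * Δ)) := by
      push_cast; ring
    rw [e]
    refine (abs_add_le _ _).trans ?_
    have h1 : |Δ ^ 2 * (1 - 6 * ν * α ^ 3 - 3 * ν * α ^ 2 * Δ)| ≤ 20 * u ^ 6 * Δ ^ 2 := by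
      rw [abs_mul, abs_of_nonneg hΔ2, mul_comm]
      apply mul_le_mul_of_nonneg_right _ hΔ2
      have hα3 : α ^ 3 ≤ u ^ 3 := pow_le_pow_left₀ hα hαu' 3
      have h2 : 0 ≤ 6 * ν * α ^ 3 := by positivity
      have h3 : 0 ≤ 3 * ν * α ^ 2 * Δ := by positivity
      have h4 : 6 * ν * α ^ 3 ≤ 18 * u ^ 3 := by
        have : ν * α ^ 3 ≤ 3 * u ^ 3 := mul_le_mul hν hα3 (by positivity) (by norm_num)
        linarith
      have h5 : 3 * ν * α ^ 2 * Δ ≤ 1 := by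
        calc 3 * ν * α ^ 2 * Δ ≤ 3 * 3 * u ^ 2 * Δ := by
              apply mul_le_mul_of_nonneg_right _ hΔ0
              apply mul_le_mul _ hα2 (by positivity) (by norm_num)
              linarith
          _ = 9 * u ^ 2 * Δ := by ring
          _ ≤ 1 := hΔ
      rw [abs_le]
      constructor <;> linarith
    nlinarith

namespace Par

variable {d : ℕ} (P : Par d)

/-- scale -/
noncomputable def ww (M : ℝ) (v k j : ℕ) : ℝ := M * P.p ^ k * (P.aa j) ^ (v - k)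

/-- trajectory -/
noncomputable def xx (M : ℝ) (v k j : ℕ) : ℝ := (v.choose k : ℝ) * (P.al j) ^ k * P.ww M v k j

theorem ww_pos {M : ℝ} (hM : 0 < M) (v k j : ℕ) : 0 < P.ww M v k j := by
  unfold ww
  have := P.p_pos
  have := P.aa_pos j
  positivity

theorem aa_succ (j : ℕ) : P.aa (j + 1) =
    P.aa j * Real.exp (-((P.al j + P.Δ) ^ 3 - (P.al j) ^ 3)) := by
  unfold aa
  rw [P.al_succ, ← Real.exp_add]
  congr 1
  ring

theorem ww_succ (M : ℝ) (v k j : ℕ) : P.ww M v k (j + 1) =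
    P.ww M v k j * Real.exp (-(((v - k : ℕ) : ℝ) * ((P.al j + P.Δ) ^ 3 - (P.al j) ^ 3))) := by
  unfold ww
  rw [P.aa_succ, mul_pow, ← Real.exp_nat_mul]
  rw [mul_neg]
  ring

theorem uΔ_le : 9 * (1 + P.A) ^ 2 * P.Δ ≤ P.β ^ (-599 : ℤ) := by
  have h1 := P.zA (k := 2) (by norm_num) (c := 9) (by norm_num) (by norm_num) (m := -600)
    (n := -599) (by norm_num)
  refine le_trans ?_ h1
  apply mul_le_mul_of_nonneg_left P.Δ_le
  positivity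

theorem uΔ_le_one : 9 * (1 + P.A) ^ 2 * P.Δ ≤ 1 := by
  refine P.uΔ_le.trans ?_
  have := P.zle (m := -599) (n := 0) (by norm_num)
  rwa [zpow_zero] at this

theorem Δ_le_one : P.Δ ≤ 1 := by
  refine P.Δ_le.trans ?_
  have := P.zle (m := -600) (n := 0) (by norm_num)
  rwa [zpow_zero] at this

/-- the window at the next time is not much smaller -/
theorem ww_succ_ge {M : ℝ} (hM : 0 < M) {v k j : ℕ} (hv : v ≤ 3) (hj : j ≤ P.J) :
    P.ww M v k j ≤ P.ww M v k (j + 1) * (1 + 18 * (1 + P.A) ^ 2 * P.Δ) := by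
  rw [P.ww_succ]
  have hW := P.ww_pos hM v k j
  set z := ((v - k : ℕ) : ℝ) * ((P.al j + P.Δ) ^ 3 - (P.al j) ^ 3) with hz
  have hα := P.al_nonneg j
  have hαA := P.al_le hj
  have hΔ := P.Δ_pos
  have hΔ1 := P.Δ_le_one
  have hn : ((v - k : ℕ) : ℝ) ≤ 3 := by
    have : v - k ≤ 3 := by omega
    exact_mod_cast this
  have hz2 : z ≤ 9 * (1 + P.A) ^ 2 * P.Δ := by
    have h1 : z = ((v - k : ℕ) : ℝ) * P.Δ * (3 * (P.al j) ^ 2 + 3 * (P.al j) * P.Δ + P.Δ ^ 2) := by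
      rw [hz]; ring
    have h2 : 3 * (P.al j) ^ 2 + 3 * (P.al j) * P.Δ + P.Δ ^ 2 ≤ 3 * (1 + P.A) ^ 2 := by
      have := P.A_pos
      nlinarith
    rw [h1]
    calc ((v - k : ℕ) : ℝ) * P.Δ * (3 * (P.al j) ^ 2 + 3 * (P.al j) * P.Δ + P.Δ ^ 2)
        ≤ 3 * P.Δ * (3 * (1 + P.A) ^ 2) := by
          apply mul_le_mul _ h2 (by positivity) (by positivity)
          exact mul_le_mul_of_nonneg_right hn hΔ.le
      _ = 9 * (1 + P.A) ^ 2 * P.Δ := by ring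
  have hz3 : z ≤ 1 / 2 := by
    refine hz2.trans (P.uΔ_le.trans ?_)
    have := P.zc (c := 2) (by norm_num) (m := -599) (n := 0) (by norm_num)
    rw [zpow_zero] at this
    linarith
  have hexp : 1 - z ≤ Real.exp (-z) := by
    have := Real.add_one_le_exp (-z)
    linarith
  have hz0 : 0 ≤ z := by
    rw [hz]
    have : (P.al j) ^ 3 ≤ (P.al j + P.Δ) ^ 3 := pow_le_pow_left₀ hα (by linarith) 3
    have h0 : (0 : ℝ) ≤ ((v - k : ℕ) : ℝ) := Nat.cast_nonneg _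
    apply mul_nonneg h0
    linarith
  have h3 : 1 ≤ Real.exp (-z) * (1 + 18 * (1 + P.A) ^ 2 * P.Δ) := by
    calc (1 : ℝ) ≤ (1 - z) * (1 + 2 * z) := by nlinarith
      _ ≤ Real.exp (-z) * (1 + 18 * (1 + P.A) ^ 2 * P.Δ) := by
        apply mul_le_mul hexp _ (by linarith) (Real.exp_pos _).le
        linarith
  calc P.ww M v k j = P.ww M v k j * 1 := (mul_one _).symm
    _ ≤ P.ww M v k j * (Real.exp (-z) * (1 + 18 * (1 + P.A) ^ 2 * P.Δ)) :=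
      mul_le_mul_of_nonneg_left h3 hW.le
    _ = _ := by ring

/-- trajectories satisfy the differential equation approximately -/
theorem xx_succ {M : ℝ} (hM : 0 < M) {v k j : ℕ} (hv : v ≤ 3) (hk : k ≤ 2) (hj : j ≤ P.J) :
    |P.xx M v k (j + 1) - (P.xx M v k j + P.Δ * ((v.choose k : ℝ) * P.ww M v k j *
      (k * (P.al j) ^ (k - 1) - 3 * ((v - k : ℕ) : ℝ) * (P.al j) ^ (k + 2))))| ≤
      330 * (1 + P.A) ^ 6 * P.Δ ^ 2 * P.ww M v k j := by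
  have hW := P.ww_pos hM v k j
  have hn : ((v - k : ℕ) : ℝ) ≤ 3 := by
    have : v - k ≤ 3 := by omega
    exact_mod_cast this
  have h := taylor (α := P.al j) (Δ := P.Δ) (u := 1 + P.A) (ν := ((v - k : ℕ) : ℝ)) (P.al_nonneg j)
    (by linarith [P.al_le hj]) P.Δ_pos.le P.uΔ_le_one hk (Nat.cast_nonneg _) hn
  have hc : (v.choose k : ℝ) ≤ 3 := by
    have : v.choose k ≤ 3 := by
      interval_cases v <;> interval_cases k <;> decide
    exact_mod_cast this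
  have e : P.xx M v k (j + 1) - (P.xx M v k j + P.Δ * ((v.choose k : ℝ) * P.ww M v k j *
      (k * (P.al j) ^ (k - 1) - 3 * ((v - k : ℕ) : ℝ) * (P.al j) ^ (k + 2)))) =
      ((v.choose k : ℝ) * P.ww M v k j) * ((P.al j + P.Δ) ^ k *
        Real.exp (-(((v - k : ℕ) : ℝ) * ((P.al j + P.Δ) ^ 3 - (P.al j) ^ 3))) -
      ((P.al j) ^ k + P.Δ * (k * (P.al j) ^ (k - 1) - 3 * ((v - k : ℕ) : ℝ) *
        (P.al j) ^ (k + 2)))) := by
    unfold xx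
    rw [P.ww_succ, P.al_succ]
    ring
  rw [e, abs_mul, abs_of_nonneg (by positivity)]
  calc (v.choose k : ℝ) * P.ww M v k j * _
      ≤ (3 * P.ww M v k j) * (110 * (1 + P.A) ^ 6 * P.Δ ^ 2) := by
        apply mul_le_mul _ h (abs_nonneg _) (by positivity)
        exact mul_le_mul_of_nonneg_right hc hW.le
    _ = _ := by ring

end Par

end Pool.Agent.Q2F
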