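import Mathlib
import Pool.Agent.MP_9431a4_pr.Traj

set_option autoImplicit false

/-!
The error sequence.
-/

namespace Pool.Agent.Q2F

open Finset

namespace Par

variable {d : ℕ} (P : Par d)

/-- error sequence -/
noncomputable def om (cr ω0 : ℝ) : ℕ → ℝ
  | 0 => ω0
  | j + 1 => om cr ω0 j + 120 * (1 + P.A) ^ 2 * P.Δ * (om cr ω0 j + cr) +
      2500 * (1 + P.A) ^ 6 * P.Δ ^ 2

theorem om_zero (cr ω0 : ℝ) : P.om cr ω0 0 = ω0 := rfl

theorem om_succ (cr ω0 : ℝ) (j : ℕ) : P.om cr ω0 (j + 1) =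
    P.om cr ω0 j + 120 * (1 + P.A) ^ 2 * P.Δ * (P.om cr ω0 j + cr) +
      2500 * (1 + P.A) ^ 6 * P.Δ ^ 2 := rfl

theorem om_nonneg {cr ω0 : ℝ} (hcr : 0 ≤ cr) (hω : 0 ≤ ω0) (j : ℕ) : 0 ≤ P.om cr ω0 j := by
  induction j with
  | zero => exact hω
  | succ j ih =>
    rw [om_succ]
    have := P.Δ_pos
    have := P.A_pos
    positivity

theorem A_ge_ten : 10 ≤ P.A := by
  have h1 : Real.exp 1000 ≤ Real.exp (P.A ^ 3) := by rw [P.hA3]; exact P.hβ
  have h2 : (1000 : ℝ) ≤ P.A ^ 3 := Real.exp_le_exp.mp h1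
  by_contra h
  push Not at h
  have h3 : P.A ^ 3 < 10 ^ 3 := pow_lt_pow_left₀ h P.A_pos.le (by norm_num)
  norm_num at h3
  linarith

theorem exp_u_le : Real.exp (120 * (1 + P.A) ^ 3) ≤ P.β ^ (160 : ℤ) := by
  have h1 : P.β ^ (160 : ℤ) = Real.exp (160 * P.A ^ 3) := by
    have h1 : P.β ^ (160 : ℤ) = P.β ^ (160 : ℕ) := by norm_cast
    rw [h1]
    nth_rw 1 [← P.hA3]
    rw [← Real.exp_nat_mul]
    norm_num
  rw [h1]
  apply Real.exp_le_exp.mpr
  have hA := P.A_ge_ten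
  have h2 : 1 + P.A ≤ 11 / 10 * P.A := by linarith
  have h3 : (1 + P.A) ^ 3 ≤ (11 / 10 * P.A) ^ 3 :=
    pow_le_pow_left₀ (by linarith) h2 3
  have h4 : (11 / 10 * P.A) ^ 3 = 1331 / 1000 * P.A ^ 3 := by ring
  rw [h4] at h3
  have h5 : 0 ≤ P.A ^ 3 := by have := P.A_pos; positivity
  linarith

theorem om_le {cr ω0 : ℝ} (hcr : 0 ≤ cr) (hω : 0 ≤ ω0) {j : ℕ} (hj : j ≤ P.J) :
    P.om cr ω0 j + cr ≤ (ω0 + cr + 2500 * (1 + P.A) ^ 7 * P.Δ) * P.β ^ (160 : ℤ) := by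
  have hΔ := P.Δ_pos
  have hA := P.A_pos
  set η := 120 * (1 + P.A) ^ 2 * P.Δ with hη
  set δ := 2500 * (1 + P.A) ^ 6 * P.Δ ^ 2 with hδ
  have hη0 : 0 ≤ η := by positivity
  have hδ0 : 0 ≤ δ := by positivity
  have key : ∀ j, P.om cr ω0 j + cr ≤ (ω0 + cr + j * δ) * (1 + η) ^ j := by
    intro j
    induction j with
    | zero => simp [om_zero]
    | succ j ih =>
      rw [om_succ, ← hη, ← hδ]
      have h1 : P.om cr ω0 j + η * (P.om cr ω0 j + cr) + δ + cr =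
          (P.om cr ω0 j + cr) * (1 + η) + δ := by ring
      rw [h1]
      have h2 : (P.om cr ω0 j + cr) * (1 + η) ≤ (ω0 + cr + j * δ) * (1 + η) ^ j * (1 + η) :=
        mul_le_mul_of_nonneg_right ih (by linarith)
      have h3 : δ ≤ δ * (1 + η) ^ (j + 1) := by
        have : 1 ≤ (1 + η) ^ (j + 1) := one_le_pow₀ (by linarith)
        nlinarith
      calc (P.om cr ω0 j + cr) * (1 + η) + δ ≤
          (ω0 + cr + j * δ) * (1 + η) ^ j * (1 + η) + δ * (1 + η) ^ (j + 1) := by linarith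
        _ = (ω0 + cr + ((j + 1 : ℕ) : ℝ) * δ) * (1 + η) ^ (j + 1) := by push_cast; ring
  refine (key j).trans ?_
  have hjJ : (j : ℝ) ≤ P.J := by exact_mod_cast hj
  have h1 : (j : ℝ) * δ ≤ 2500 * (1 + P.A) ^ 7 * P.Δ := by
    calc (j : ℝ) * δ ≤ P.J * δ := mul_le_mul_of_nonneg_right hjJ hδ0
      _ = 2500 * (1 + P.A) ^ 6 * P.Δ * (P.J * P.Δ) := by rw [hδ]; ring
      _ = 2500 * (1 + P.A) ^ 6 * P.Δ * P.A := by rw [P.J_mul_Δ]
      _ ≤ 2500 * (1 + P.A) ^ 6 * P.Δ * (1 + P.A) := by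
        apply mul_le_mul_of_nonneg_left (by linarith) (by positivity)
      _ = _ := by ring
  have h2 : (1 + η) ^ j ≤ P.β ^ (160 : ℤ) := by
    calc (1 + η) ^ j ≤ (Real.exp η) ^ j := by
          apply pow_le_pow_left₀ (by linarith)
          have := Real.add_one_le_exp η
          linarith
      _ = Real.exp (j * η) := by rw [← Real.exp_nat_mul]
      _ ≤ Real.exp (120 * (1 + P.A) ^ 3) := by
          apply Real.exp_le_exp.mpr
          calc (j : ℝ) * η ≤ P.J * η := mul_le_mul_of_nonneg_right hjJ hη0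
            _ = 120 * (1 + P.A) ^ 2 * (P.J * P.Δ) := by rw [hη]; ring
            _ = 120 * (1 + P.A) ^ 2 * P.A := by rw [P.J_mul_Δ]
            _ ≤ 120 * (1 + P.A) ^ 2 * (1 + P.A) := by
              apply mul_le_mul_of_nonneg_left (by linarith) (by positivity)
            _ = _ := by ring
      _ ≤ _ := P.exp_u_le
  apply mul_le_mul _ h2 (by positivity) (by positivity)
  linarith

theorem seven_le : 2500 * (1 + P.A) ^ 7 * P.Δ ≤ P.β ^ (-599 : ℤ) := by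
  have h1 := P.zA (k := 7) (by norm_num) (c := 2500) (by norm_num) (by norm_num) (m := -600)
    (n := -599) (by norm_num)
  refine le_trans ?_ h1
  apply mul_le_mul_of_nonneg_left P.Δ_le
  have := P.A_pos
  positivity

/-- numeric form -/
theorem om_le_pow {a : ℤ} (ha : -599 ≤ a) {j : ℕ} (hj : j ≤ P.J) :
    P.om (P.β ^ a) (P.β ^ a) j + P.β ^ a ≤ P.β ^ (a + 161) := by
  refine (P.om_le (P.znn a) (P.znn a) hj).trans ?_
  have h1 := P.seven_le
  have h2 := P.zle (m := -599) (n := a) ha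
  calc (P.β ^ a + P.β ^ a + 2500 * (1 + P.A) ^ 7 * P.Δ) * P.β ^ (160 : ℤ)
      ≤ (3 * P.β ^ a) * P.β ^ (160 : ℤ) := by
        apply mul_le_mul_of_nonneg_right _ (P.znn _)
        linarith
    _ = 3 * P.β ^ (a + 160) := by rw [mul_assoc, P.zadd]
    _ ≤ P.β ^ (a + 161) := P.zc (by norm_num) (by linarith)

/-- general numeric form -/
theorem om_le_pow' {a c : ℤ} (ha : -599 ≤ a) (hca : c ≤ a) {j : ℕ} (hj : j ≤ P.J) :
    P.om (P.β ^ c) (P.β ^ a) j + P.β ^ c ≤ P.β ^ (a + 161) := by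
  refine (P.om_le (P.znn c) (P.znn a) hj).trans ?_
  have h1 := P.seven_le
  have h2 := P.zle (m := -599) (n := a) ha
  have h3 := P.zle hca
  calc (P.β ^ a + P.β ^ c + 2500 * (1 + P.A) ^ 7 * P.Δ) * P.β ^ (160 : ℤ)
      ≤ (3 * P.β ^ a) * P.β ^ (160 : ℤ) := by
        apply mul_le_mul_of_nonneg_right _ (P.znn _)
        linarith
    _ = 3 * P.β ^ (a + 160) := by rw [mul_assoc, P.zadd]
    _ ≤ P.β ^ (a + 161) := P.zc (by norm_num) (by linarith)

/-- the error sequence dominates its starting value -/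
theorem om_ge {cr ω0 : ℝ} (hcr : 0 ≤ cr) (hω : 0 ≤ ω0) (j : ℕ) : ω0 ≤ P.om cr ω0 j := by
  induction j with
  | zero => exact le_rfl
  | succ j ih =>
    rw [om_succ]
    have h1 := P.Δ_pos
    have h2 := P.A_pos
    have h3 := P.om_nonneg hcr hω j
    have : 0 ≤ 120 * (1 + P.A) ^ 2 * P.Δ * (P.om cr ω0 j + cr) := by positivity
    have : 0 ≤ 2500 * (1 + P.A) ^ 6 * P.Δ ^ 2 := by positivity
    linarith

end Par

end Pool.Agent.Q2F
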