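import Mathlib
import Pool.Agent.MP_9431a4_pr.Traj

set_option autoImplicit false

/-!
The deterministic one-block estimate.
-/

namespace Pool.Agent.Q2F

open Finset

namespace Par

variable {d : ℕ} (P : Par d)

theorem q_le {j : ℕ} : P.aa j / P.p ≤ P.β ^ (4000 : ℤ) := by
  rw [div_le_iff₀ P.p_pos]
  unfold p
  rw [P.zadd]
  norm_num
  exact P.aa_le_one j

theorem q_pos (j : ℕ) : 0 < P.aa j / P.p := div_pos (P.aa_pos j) P.p_pos

theorem choose_le {v k : ℕ} (hv : v ≤ 3) (hk : k ≤ 2) : (v.choose k : ℝ) ≤ 3 := by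
  have : v.choose k ≤ 3 := by
    interval_cases v <;> interval_cases k <;> decide
  exact_mod_cast this

theorem round_step {M : ℝ} (hM : 0 < M) {v k j : ℕ} (hv : v ≤ 3) (hk : k ≤ 2) (hkv : k ≤ v)
    (hj : j < P.J) {ω cr X X' : ℝ} {D G Lt Xi R : ℕ → ℝ} (hω : 0 ≤ ω) (hcr : 0 ≤ cr)
    (hs : ω + cr ≤ 1)
    (hX : |X - P.xx M v k j| ≤ ω * P.ww M v k j)
    (h1 : |X' - X - ∑ i ∈ Ico (P.mm j) (P.mm (j + 1)), D i| ≤ P.Δ ^ 2 * P.ww M v k j)
    (hR : ∀ i ∈ Ico (P.mm j) (P.mm (j + 1)), P.N - P.N * P.β ^ (-3998 : ℤ) ≤ R i ∧ R i ≤ P.N)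
    (h2 : ∀ i ∈ Ico (P.mm j) (P.mm (j + 1)), |R i * D i - (G i - Lt i)| ≤
      P.Δ * (P.aa j / P.p * P.ww M v k j))
    (hXi : ∀ i ∈ Ico (P.mm j) (P.mm (j + 1)), |Xi i - P.xx M v k j| ≤ (ω + cr) * P.ww M v k j)
    (hG : ∀ i ∈ Ico (P.mm j) (P.mm (j + 1)), |G i - (v.choose k : ℝ) * (k * (P.al j) ^ (k - 1)) *
      (P.aa j / P.p * P.ww M v k j)| ≤ 3 * (ω + cr) * (P.aa j / P.p * P.ww M v k j))
    (hLt : ∀ i ∈ Ico (P.mm j) (P.mm (j + 1)), |Lt i - ((v - k : ℕ) : ℝ) *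
      (3 * (P.al j) ^ 2 * (P.aa j / P.p)) * Xi i| ≤
      ((v - k : ℕ) : ℝ) * (ω + cr) * (P.aa j / P.p) * Xi i) :
    |X' - P.xx M v k (j + 1)| ≤ (ω + 120 * (1 + P.A) ^ 2 * P.Δ * (ω + cr) +
      2500 * (1 + P.A) ^ 6 * P.Δ ^ 2) * P.ww M v k (j + 1) := by
  set W := P.ww M v k j with hWdef
  set q := P.aa j / P.p with hqdef
  set α := P.al j with hαdef
  set u := 1 + P.A with hudef
  set n := ((v - k : ℕ) : ℝ) with hndef
  set c := (v.choose k : ℝ) with hcdef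
  have hW : 0 < W := P.ww_pos hM v k j
  have hq : 0 < q := P.q_pos j
  have hα : 0 ≤ α := P.al_nonneg j
  have hA := P.A_pos
  have hu1 : 1 ≤ u := by rw [hudef]; linarith
  have hu0 : 0 < u := by linarith
  have hαu : α ≤ u := by
    have := P.al_le hj.le
    rw [hudef]; linarith
  have hn0 : 0 ≤ n := Nat.cast_nonneg _
  have hn3 : n ≤ 3 := by
    have : v - k ≤ 3 := by omega
    rw [hndef]; exact_mod_cast this
  have hc0 : 0 ≤ c := Nat.cast_nonneg _
  have hc3 : c ≤ 3 := choose_le hv hk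
  have hΔ := P.Δ_pos
  have hΔ1 := P.Δ_le_one
  have hN := P.N_pos
  have hu2 : 1 ≤ u ^ 2 := one_le_pow₀ hu1
  have hα2 : α ^ 2 ≤ u ^ 2 := pow_le_pow_left₀ hα hαu 2
  have hαk : α ^ k ≤ u ^ 2 := by
    calc α ^ k ≤ u ^ k := pow_le_pow_left₀ hα hαu k
      _ ≤ u ^ 2 := pow_le_pow_right₀ hu1 hk
  have hαk2 : α ^ (k + 2) ≤ u ^ 4 := by
    calc α ^ (k + 2) ≤ u ^ (k + 2) := pow_le_pow_left₀ hα hαu _
      _ ≤ u ^ 4 := pow_le_pow_right₀ hu1 (by omega)
  have hαk1 : (k : ℝ) * α ^ (k - 1) ≤ 2 * u ^ 2 := by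
    have h1 : (k : ℝ) ≤ 2 := by exact_mod_cast hk
    have h2 : α ^ (k - 1) ≤ u ^ 2 := by
      calc α ^ (k - 1) ≤ u ^ (k - 1) := pow_le_pow_left₀ hα hαu _
        _ ≤ u ^ 2 := pow_le_pow_right₀ hu1 (by omega)
    exact mul_le_mul h1 h2 (by positivity) (by norm_num)
  have hu24 : u ^ 2 ≤ u ^ 4 := pow_le_pow_right₀ hu1 (by norm_num)
  set S := q * W with hSdef
  have hS : 0 < S := mul_pos hq hW
  set y := ω + cr with hydef
  have hy0 : 0 ≤ y := by positivity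
  set F := c * S * (k * α ^ (k - 1) - 3 * n * α ^ (k + 2)) with hFdef
  have hxx : P.xx M v k j = c * α ^ k * W := rfl
  -- bound on F
  have hF : |F| ≤ 33 * u ^ 4 * S := by
    rw [hFdef, abs_mul, abs_of_nonneg (by positivity)]
    have h3 : |(k : ℝ) * α ^ (k - 1) - 3 * n * α ^ (k + 2)| ≤ 11 * u ^ 4 := by
      refine (abs_sub _ _).trans ?_
      rw [abs_of_nonneg (by positivity), abs_of_nonneg (by positivity)]
      have h4 : n * α ^ (k + 2) ≤ 3 * u ^ 4 := mul_le_mul hn3 hαk2 (by positivity) (by norm_num)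
      have h5 : (k : ℝ) * α ^ (k - 1) ≤ 2 * u ^ 4 := by linarith
      linarith
    calc c * S * _ ≤ 3 * S * (11 * u ^ 4) :=
          mul_le_mul (mul_le_mul_of_nonneg_right hc3 hS.le) h3 (abs_nonneg _) (by positivity)
      _ = 33 * u ^ 4 * S := by ring
  -- pointwise error
  set Er := S * (24 * u ^ 2 * y + P.Δ) with hEr
  have hErnn : 0 ≤ Er := by positivity
  have hpt : ∀ i ∈ Ico (P.mm j) (P.mm (j + 1)), |R i * D i - F| ≤ Er := by
    intro i hi
    have e2 := h2 i hi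
    have eX := hXi i hi
    have eG := hG i hi
    have eL := hLt i hi
    have hXup : Xi i ≤ 4 * u ^ 2 * W := by
      have h3 := (abs_le.mp eX).2
      rw [hxx] at h3
      have h4 : c * α ^ k ≤ 3 * u ^ 2 := mul_le_mul hc3 hαk (by positivity) (by norm_num)
      have h5 : c * α ^ k * W ≤ 3 * u ^ 2 * W := mul_le_mul_of_nonneg_right h4 hW.le
      have h6 : y * W ≤ u ^ 2 * W := mul_le_mul_of_nonneg_right (by linarith) hW.le
      linarith
    have e3 : |Lt i - n * (3 * α ^ 2 * q) * P.xx M v k j| ≤ 21 * u ^ 2 * y * S := by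
      have e4 : Lt i - n * (3 * α ^ 2 * q) * P.xx M v k j =
          (Lt i - n * (3 * α ^ 2 * q) * Xi i) + n * (3 * α ^ 2 * q) * (Xi i - P.xx M v k j) := by
        ring
      rw [e4]
      refine (abs_add_le _ _).trans ?_
      have e5 : n * y * q * Xi i ≤ 12 * u ^ 2 * y * S := by
        calc n * y * q * Xi i ≤ n * y * q * (4 * u ^ 2 * W) :=
              mul_le_mul_of_nonneg_left hXup (by positivity)
          _ ≤ 3 * y * q * (4 * u ^ 2 * W) := by
              apply mul_le_mul_of_nonneg_right _ (by positivity)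
              apply mul_le_mul_of_nonneg_right _ hq.le
              exact mul_le_mul_of_nonneg_right hn3 hy0
          _ = 12 * u ^ 2 * y * S := by rw [hSdef]; ring
      have e6 : |n * (3 * α ^ 2 * q) * (Xi i - P.xx M v k j)| ≤ 9 * u ^ 2 * y * S := by
        rw [abs_mul, abs_of_nonneg (by positivity : 0 ≤ n * (3 * α ^ 2 * q))]
        calc n * (3 * α ^ 2 * q) * |Xi i - P.xx M v k j|
            ≤ 3 * (3 * u ^ 2 * q) * (y * W) := by
              apply mul_le_mul _ eX (abs_nonneg _) (by positivity)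
              apply mul_le_mul hn3 _ (by positivity) (by norm_num)
              apply mul_le_mul_of_nonneg_right _ hq.le
              linarith
          _ = 9 * u ^ 2 * y * S := by rw [hSdef]; ring
      linarith
    have e7 : n * (3 * α ^ 2 * q) * P.xx M v k j = c * S * (3 * n * α ^ (k + 2)) := by
      rw [hxx, hSdef, pow_add]; ring
    have e8 : R i * D i - F = (R i * D i - (G i - Lt i)) +
        (G i - c * (k * α ^ (k - 1)) * S) - (Lt i - n * (3 * α ^ 2 * q) * P.xx M v k j) := by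
      rw [e7, hFdef]; ring
    rw [e8]
    refine (abs_sub _ _).trans ?_
    have e9 := abs_add_le (R i * D i - (G i - Lt i)) (G i - c * (k * α ^ (k - 1)) * S)
    have e10 : 3 * y * S ≤ 3 * u ^ 2 * y * S := by
      have h11 : y * S ≤ u ^ 2 * (y * S) :=
        le_mul_of_one_le_left (mul_nonneg hy0 hS.le) hu2
      calc 3 * y * S = 3 * (y * S) := by ring
        _ ≤ 3 * (u ^ 2 * (y * S)) := mul_le_mul_of_nonneg_left h11 (by norm_num)
        _ = 3 * u ^ 2 * y * S := by ring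
    rw [hEr]
    linarith
  -- sum
  have hb1 := P.b_le j
  have hb2 := P.le_b j
  have hbq : P.N * P.Δ * P.p / P.aa j = P.N * (P.Δ / q) := by
    rw [hqdef]
    have := P.p_pos
    have := P.aa_pos j
    field_simp
  rw [hbq] at hb1 hb2
  have hcardI : (((Ico (P.mm j) (P.mm (j + 1))).card : ℕ) : ℝ) = P.b j := by
    rw [Nat.card_Ico, P.mm_succ]; simp
  set t := P.β ^ (-3998 : ℤ) with htdef
  have ht0 : 0 < t := P.zpos _
  have ht2 : t ≤ 1 / 2 := by
    have := P.zc (c := 2) (by norm_num) (m := -3998) (n := 0) (by norm_num)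
    rw [zpow_zero] at this
    linarith
  have hDi : ∀ i ∈ Ico (P.mm j) (P.mm (j + 1)), |D i - F / P.N| ≤ (2 * Er + 2 * t * |F|) / P.N := by
    intro i hi
    obtain ⟨hR1, hR2⟩ := hR i hi
    have hNt : P.N * t ≤ P.N * (1 / 2) := mul_le_mul_of_nonneg_left ht2 hN.le
    have hRpos : P.N / 2 ≤ R i := by
      have h13 : P.N * (1 / 2) = P.N / 2 := by ring
      linarith only [hR1, hNt, h13]
    have hRp : 0 < R i := by linarith
    have e1 : D i - F / P.N = (R i * D i - F) / R i + F * (P.N - R i) / (R i * P.N) := by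
      field_simp
      ring
    rw [e1]
    refine (abs_add_le _ _).trans ?_
    have e2 : |(R i * D i - F) / R i| ≤ 2 * Er / P.N := by
      rw [abs_div, abs_of_pos hRp, div_le_div_iff₀ hRp hN]
      have := hpt i hi
      calc |R i * D i - F| * P.N ≤ Er * P.N := mul_le_mul_of_nonneg_right this hN.le
        _ = 2 * Er * (P.N / 2) := by ring
        _ ≤ 2 * Er * R i := mul_le_mul_of_nonneg_left hRpos (by linarith only [hErnn])
    have e3 : |F * (P.N - R i) / (R i * P.N)| ≤ 2 * t * |F| / P.N := by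
      rw [abs_div, abs_of_pos (mul_pos hRp hN), abs_mul, abs_of_nonneg (by linarith : 0 ≤ P.N - R i),
        div_le_div_iff₀ (mul_pos hRp hN) hN]
      have h3 : P.N - R i ≤ P.N * t := by linarith
      have h4 : |F| * (P.N - R i) * P.N ≤ |F| * (P.N * t) * P.N := by
        apply mul_le_mul_of_nonneg_right _ hN.le
        exact mul_le_mul_of_nonneg_left h3 (abs_nonneg _)
      have h5 : |F| * (P.N * t) * P.N ≤ 2 * t * |F| * (R i * P.N) := by
        have h6 : P.N / 2 * P.N ≤ R i * P.N := mul_le_mul_of_nonneg_right hRpos hN.le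
        have h7 : 0 ≤ 2 * t * |F| := by positivity
        calc |F| * (P.N * t) * P.N = 2 * t * |F| * (P.N / 2 * P.N) := by ring
          _ ≤ 2 * t * |F| * (R i * P.N) := mul_le_mul_of_nonneg_left h6 h7
      exact h4.trans h5
    have e4 : (2 * Er + 2 * t * |F|) / P.N = 2 * Er / P.N + 2 * t * |F| / P.N := by ring
    rw [e4]
    linarith
  have hsum : |∑ i ∈ Ico (P.mm j) (P.mm (j + 1)), D i - P.b j * (F / P.N)| ≤
      P.b j * ((2 * Er + 2 * t * |F|) / P.N) := by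
    have e1 : ∑ i ∈ Ico (P.mm j) (P.mm (j + 1)), D i - P.b j * (F / P.N) =
        ∑ i ∈ Ico (P.mm j) (P.mm (j + 1)), (D i - F / P.N) := by
      rw [sum_sub_distrib, sum_const, nsmul_eq_mul, hcardI]
    rw [e1]
    refine (abs_sum_le_sum_abs _ _).trans ?_
    refine (sum_le_sum hDi).trans ?_
    rw [sum_const, nsmul_eq_mul, hcardI]
  have hsum2 : P.b j * ((2 * Er + 2 * t * |F|) / P.N) ≤ P.Δ / q * (2 * Er + 2 * t * |F|) := by
    have h3 : (P.b j : ℝ) / P.N ≤ P.Δ / q := by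
      rw [div_le_iff₀ hN]
      linarith
    have h4 : 0 ≤ 2 * Er + 2 * t * |F| := by positivity
    calc P.b j * ((2 * Er + 2 * t * |F|) / P.N) = (P.b j / P.N) * (2 * Er + 2 * t * |F|) := by ring
      _ ≤ _ := mul_le_mul_of_nonneg_right h3 h4
  have hbF : |P.b j * (F / P.N) - P.Δ / q * F| ≤ |F| / P.N := by
    have e1 : P.b j * (F / P.N) - P.Δ / q * F = (P.b j - P.N * (P.Δ / q)) / P.N * F := by
      field_simp
    rw [e1, abs_mul, abs_div, abs_of_pos hN]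
    have h3 : |(P.b j : ℝ) - P.N * (P.Δ / q)| ≤ 1 := by
      rw [abs_le]; constructor <;> linarith
    calc |(P.b j : ℝ) - P.N * (P.Δ / q)| / P.N * |F| ≤ 1 / P.N * |F| := by
          apply mul_le_mul_of_nonneg_right _ (abs_nonneg _)
          exact div_le_div_of_nonneg_right h3 hN.le
      _ = |F| / P.N := by ring
  have hqF : P.Δ / q * F = P.Δ * (c * W * (k * α ^ (k - 1) - 3 * n * α ^ (k + 2))) := by
    rw [hFdef, hSdef]
    field_simp
  have hT := P.xx_succ hM hv hk hj.le (k := k)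
  rw [← hWdef, ← hαdef, ← hudef, ← hndef, ← hcdef] at hT
  -- small terms
  have hs1 : P.Δ / q * (2 * Er) = W * (48 * u ^ 2 * P.Δ * y + 2 * P.Δ ^ 2) := by
    rw [hEr, hSdef]
    field_simp
    ring
  have htΔ : 66 * u ^ 4 * t ≤ P.Δ := by
    have h3 := P.zA (k := 4) (by norm_num) (c := 66) (by norm_num) (by norm_num) (m := -3998)
      (n := -3997) (by norm_num)
    have h4 := P.zle (m := -3997) (n := -601) (by norm_num)
    have h5 := P.le_Δ'
    rw [hudef, htdef]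
    linarith
  have hs2 : P.Δ / q * (2 * t * |F|) ≤ P.Δ ^ 2 * W := by
    calc P.Δ / q * (2 * t * |F|) ≤ P.Δ / q * (2 * t * (33 * u ^ 4 * S)) := by
          apply mul_le_mul_of_nonneg_left _ (by positivity)
          exact mul_le_mul_of_nonneg_left hF (by positivity)
      _ = P.Δ * (66 * u ^ 4 * t) * W := by
          rw [hSdef]; field_simp; ring
      _ ≤ P.Δ * P.Δ * W := by
          apply mul_le_mul_of_nonneg_right _ hW.le
          exact mul_le_mul_of_nonneg_left htΔ hΔ.le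
      _ = P.Δ ^ 2 * W := by ring
  have hs3 : |F| / P.N ≤ P.Δ ^ 2 * W := by
    rw [div_le_iff₀ hN]
    have h3 : 33 * u ^ 4 * P.β ^ (4000 : ℤ) ≤ P.β ^ (4001 : ℤ) := by
      have := P.zA (k := 4) (by norm_num) (c := 33) (by norm_num) (by norm_num) (m := 4000)
        (n := 4001) (by norm_num)
      rwa [hudef]
    have h4 : P.β ^ (4001 : ℤ) ≤ P.Δ ^ 2 * P.N := by
      have h5 := pow_le_pow_left₀ (P.znn (-601)) P.le_Δ' 2
      have h6 : (P.β ^ (-601 : ℤ)) ^ 2 = P.β ^ (-1202 : ℤ) := by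
        rw [← zpow_natCast, ← zpow_mul]; norm_num
      rw [h6] at h5
      calc P.β ^ (4001 : ℤ) ≤ P.β ^ (-1202 : ℤ) * P.β ^ (20000 : ℤ) := by
            rw [P.zadd]; exact P.zle (by norm_num)
        _ ≤ P.Δ ^ 2 * P.N := mul_le_mul h5 P.le_N (P.znn _) (by positivity)
    calc |F| ≤ 33 * u ^ 4 * (q * W) := hF
      _ ≤ 33 * u ^ 4 * (P.β ^ (4000 : ℤ) * W) := by
          apply mul_le_mul_of_nonneg_left _ (by positivity)
          exact mul_le_mul_of_nonneg_right P.q_le hW.le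
      _ = (33 * u ^ 4 * P.β ^ (4000 : ℤ)) * W := by ring
      _ ≤ (P.Δ ^ 2 * P.N) * W := mul_le_mul_of_nonneg_right (h3.trans h4) hW.le
      _ = P.Δ ^ 2 * W * P.N := by ring
  -- assemble
  have hfin : |X' - P.xx M v k (j + 1)| ≤
      (ω + 48 * u ^ 2 * P.Δ * y + 335 * u ^ 6 * P.Δ ^ 2) * W := by
    have e1 : X' - P.xx M v k (j + 1) = (X' - X - ∑ i ∈ Ico (P.mm j) (P.mm (j + 1)), D i) +
        (∑ i ∈ Ico (P.mm j) (P.mm (j + 1)), D i - P.b j * (F / P.N)) +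
        (P.b j * (F / P.N) - P.Δ / q * F) + (X - P.xx M v k j) -
        (P.xx M v k (j + 1) - (P.xx M v k j + P.Δ / q * F)) := by ring
    rw [e1]
    have t1 := abs_sub ((X' - X - ∑ i ∈ Ico (P.mm j) (P.mm (j + 1)), D i) +
        (∑ i ∈ Ico (P.mm j) (P.mm (j + 1)), D i - P.b j * (F / P.N)) +
        (P.b j * (F / P.N) - P.Δ / q * F) + (X - P.xx M v k j))
        (P.xx M v k (j + 1) - (P.xx M v k j + P.Δ / q * F))
    have t2 := abs_add_le ((X' - X - ∑ i ∈ Ico (P.mm j) (P.mm (j + 1)), D i) +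
        (∑ i ∈ Ico (P.mm j) (P.mm (j + 1)), D i - P.b j * (F / P.N)) +
        (P.b j * (F / P.N) - P.Δ / q * F)) (X - P.xx M v k j)
    have t3 := abs_add_le ((X' - X - ∑ i ∈ Ico (P.mm j) (P.mm (j + 1)), D i) +
        (∑ i ∈ Ico (P.mm j) (P.mm (j + 1)), D i - P.b j * (F / P.N)))
        (P.b j * (F / P.N) - P.Δ / q * F)
    have t4 := abs_add_le (X' - X - ∑ i ∈ Ico (P.mm j) (P.mm (j + 1)), D i)
        (∑ i ∈ Ico (P.mm j) (P.mm (j + 1)), D i - P.b j * (F / P.N))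
    rw [← hqF] at hT
    have hsplit : P.Δ / q * (2 * Er + 2 * t * |F|) =
        P.Δ / q * (2 * Er) + P.Δ / q * (2 * t * |F|) := by ring
    have hu6 : (1 : ℝ) ≤ u ^ 6 := one_le_pow₀ hu1
    have hΔ2W : 0 ≤ P.Δ ^ 2 * W := by positivity
    have h5 : 5 * (P.Δ ^ 2 * W) ≤ 5 * u ^ 6 * (P.Δ ^ 2 * W) := by
      have h14 : P.Δ ^ 2 * W ≤ u ^ 6 * (P.Δ ^ 2 * W) := le_mul_of_one_le_left hΔ2W hu6
      calc 5 * (P.Δ ^ 2 * W) ≤ 5 * (u ^ 6 * (P.Δ ^ 2 * W)) :=
            mul_le_mul_of_nonneg_left h14 (by norm_num)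
        _ = 5 * u ^ 6 * (P.Δ ^ 2 * W) := by ring
    calc _ ≤ P.Δ ^ 2 * W + P.Δ / q * (2 * Er + 2 * t * |F|) + |F| / P.N + ω * W +
          330 * u ^ 6 * P.Δ ^ 2 * W := by linarith
      _ ≤ (ω + 48 * u ^ 2 * P.Δ * y + 335 * u ^ 6 * P.Δ ^ 2) * W := by
          rw [hsplit, hs1]
          linarith
  refine hfin.trans ?_
  have hWs := P.ww_succ_ge hM hv hj.le (v := v) (k := k)
  rw [← hWdef, ← hudef] at hWs
  set W' := P.ww M v k (j + 1) with hW'def
  have hW' : 0 < W' := P.ww_pos hM v k (j + 1)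
  have h18 : 18 * u ^ 2 * P.Δ ≤ 1 := by
    have h3 := P.uΔ_le
    have h4 := P.zc (c := 2) (by norm_num) (m := -599) (n := 0) (by norm_num)
    rw [zpow_zero] at h4
    rw [← hudef] at h3
    linarith
  have hu2Δ : 0 ≤ u ^ 2 * P.Δ := by positivity
  have hC : 0 ≤ ω + 48 * u ^ 2 * P.Δ * y + 335 * u ^ 6 * P.Δ ^ 2 := by positivity
  calc (ω + 48 * u ^ 2 * P.Δ * y + 335 * u ^ 6 * P.Δ ^ 2) * W
      ≤ (ω + 48 * u ^ 2 * P.Δ * y + 335 * u ^ 6 * P.Δ ^ 2) * (W' * (1 + 18 * u ^ 2 * P.Δ)) :=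
        mul_le_mul_of_nonneg_left hWs hC
    _ = ((ω + 48 * u ^ 2 * P.Δ * y + 335 * u ^ 6 * P.Δ ^ 2) * (1 + 18 * u ^ 2 * P.Δ)) * W' := by
        ring
    _ ≤ (ω + 120 * u ^ 2 * P.Δ * y + 2500 * u ^ 6 * P.Δ ^ 2) * W' := by
        apply mul_le_mul_of_nonneg_right _ hW'.le
        have e1 : (ω + 48 * u ^ 2 * P.Δ * y + 335 * u ^ 6 * P.Δ ^ 2) * (1 + 18 * u ^ 2 * P.Δ) =
          ω + (48 * u ^ 2 * P.Δ * y + 335 * u ^ 6 * P.Δ ^ 2) + ω * (18 * u ^ 2 * P.Δ) +
            (48 * u ^ 2 * P.Δ * y + 335 * u ^ 6 * P.Δ ^ 2) * (18 * u ^ 2 * P.Δ) := by ring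
        rw [e1]
        have e2 : (48 * u ^ 2 * P.Δ * y + 335 * u ^ 6 * P.Δ ^ 2) * (18 * u ^ 2 * P.Δ) ≤
          (48 * u ^ 2 * P.Δ * y + 335 * u ^ 6 * P.Δ ^ 2) * 1 :=
          mul_le_mul_of_nonneg_left h18 (by positivity)
        have e3 : ω * (18 * u ^ 2 * P.Δ) ≤ y * (18 * u ^ 2 * P.Δ) :=
          mul_le_mul_of_nonneg_right (by rw [hydef]; linarith) (by positivity)
        have e4 : 0 ≤ u ^ 2 * P.Δ * y := by positivity
        have e5 : 0 ≤ u ^ 6 * P.Δ ^ 2 := by positivity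
        linarith

end Par

end Pool.Agent.Q2F
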