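import Mathlib
import Pool.Agent.MP_9431a4_pr.EBad
import Pool.Agent.MP_9431a4_pr.Round
import Pool.Agent.MP_9431a4_pr.Err

set_option autoImplicit false

/-!
Windows for the face family: deterministic consequences of clean neighbourhoods.
-/

namespace Pool.Agent.Q2F

open Finset Classical

variable {d : ℕ}

/-- two-sided estimate of the loss term -/
theorem lt_two_sided {ι : Type} {I : Finset ι} {V : ι → Finset (Edge d)} {v k : ℕ}
    {l : List (Edge d)} (hV : ∀ r ∈ I, (V r).card = v) {g0 δ0 : ℝ}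
    (h : ∀ r ∈ I, Ty (acc l) (opn l) (V r) k → ∀ f ∈ V r ∩ opn l,
      |((Gm l f).card : ℝ) - g0| ≤ δ0) :
    |lt I V k l - ((v - k : ℕ) : ℝ) * g0 * Xf I V k l| ≤
      ((v - k : ℕ) : ℝ) * δ0 * Xf I V k l := by
  unfold lt
  rw [Xf_eq_sum, mul_sum, mul_sum, mul_one, mul_one, ← sum_sub_distrib]
  refine (abs_sum_le_sum_abs _ _).trans ?_
  apply sum_le_sum
  intro r hr
  obtain ⟨hr1, hr2⟩ := mem_filter.mp hr
  have h1 := card_inter_opn (hV r hr1) hr2
  have h2 : ∑ f ∈ V r ∩ opn l, ((Gm l f).card : ℝ) - ((v - k : ℕ) : ℝ) * g0 =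
      ∑ f ∈ V r ∩ opn l, (((Gm l f).card : ℝ) - g0) := by
    rw [sum_sub_distrib, sum_const, h1, nsmul_eq_mul]
  rw [h2]
  refine (abs_sum_le_sum_abs _ _).trans ?_
  refine (sum_le_sum (fun f hf => h r hr1 hr2 f hf)).trans ?_
  rw [sum_const, h1, nsmul_eq_mul]

theorem take_append_drop' (ω : List (Edge d)) {a b : ℕ} (hab : a ≤ b) :
    ω.take b = ω.take a ++ (ω.take b).drop a := by
  have h1 : (ω.take b).take a = ω.take a := by rw [List.take_take, min_eq_left hab]
  rw [← h1, List.take_append_drop]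

theorem opn_take_subset (ω : List (Edge d)) {a b : ℕ} (hab : a ≤ b) :
    opn (ω.take b) ⊆ opn (ω.take a) := by
  rw [take_append_drop' ω hab]
  exact opn_append_subset _ _

theorem acc_take_subset (ω : List (Edge d)) {a b : ℕ} (hab : a ≤ b) :
    acc (ω.take a) ⊆ acc (ω.take b) := by
  rw [take_append_drop' ω hab]
  exact acc_subset_append _ _

theorem toFinset_take_subset (ω : List (Edge d)) {a b : ℕ} (hab : a ≤ b) :
    (ω.take a).toFinset ⊆ (ω.take b).toFinset := by
  intro e he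
  rw [List.mem_toFinset] at he ⊢
  rw [take_append_drop' ω hab]
  exact List.mem_append_left _ he

theorem take_nodup {ω : List (Edge d)} (h : ω.Nodup) (a : ℕ) : (ω.take a).Nodup :=
  h.sublist (List.take_sublist _ _)

namespace Par

variable (P : Par d)

theorem length_take_le (ω : List (Edge d)) {a : ℕ} (ha : a ≤ P.mm P.J) :
    (ω.take a).length ≤ P.mm P.J := by
  rw [List.length_take]
  exact (min_le_left _ _).trans ha

/-- crude bound for the drift -/
theorem drift_crude {e : Edge d} {l : List (Edge d)} (hl : l.Nodup) (hG : P.GE e l) {k : ℕ}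
    (hk : k ≤ 2) : |drift (Xe e k) (LvE e) l| ≤ 4 * P.Qe k / P.N := by
  obtain ⟨heo, hlen, hS⟩ := hG
  have h1 := Xe_drift (P.znn 605) hS heo hk
  have h2 := Xe_lt_le hS (k := k) (by omega)
  have h3 := P.Qe_bound hS hk
  have h4 := P.rest_ge hl hlen
  have hN := P.N_pos
  have hX := Xe_nonneg e k l
  have hlt : 0 ≤ lt (Ie e) (nb e) k l := lt_nonneg _ _ _ _
  have hgt : 0 ≤ gt (Ie e) (nb e) 3 l k := gt_nonneg (by omega)
  obtain ⟨c0, c1, c2⟩ := P.Xe_crude hS
  have hz : 363 + 18 * P.β ^ (605 : ℤ) ≤ P.β ^ (606 : ℤ) := by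
    have a1 := P.zc (c := 400) (by norm_num) (m := 605) (n := 606) (by norm_num)
    have a2 := P.zle (m := 0) (n := 605) (by norm_num)
    rw [zpow_zero] at a2
    linarith
  have hXQ : (363 + 18 * P.β ^ (605 : ℤ)) * Xe e k l ≤ P.Qe k := by
    have key : ∀ a b : ℤ, Xe e k l ≤ P.β ^ a → 606 + a ≤ b → (363 + 18 * P.β ^ (605 : ℤ)) * Xe e k l ≤
        4 * P.β ^ b := by
      intro a b ha hab
      calc (363 + 18 * P.β ^ (605 : ℤ)) * Xe e k l ≤ P.β ^ (606 : ℤ) * P.β ^ a :=
            mul_le_mul hz ha hX (P.znn _)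
        _ = P.β ^ (606 + a) := by rw [P.zadd]
        _ ≤ P.β ^ b := P.zle hab
        _ ≤ 4 * P.β ^ b := by linarith [P.znn b]
    unfold Qe
    interval_cases k
    · rw [if_pos rfl]; exact key _ _ c0 (by norm_num)
    · rw [if_neg (by norm_num), if_pos rfl]; exact key _ _ c1 (by norm_num)
    · rw [if_neg (by norm_num), if_neg (by norm_num)]; exact key _ _ c2 (by norm_num)
  have hQ := P.Qe_nonneg k
  have hR : ((rest l).card : ℝ) * |drift (Xe e k) (LvE e) l| ≤ 2 * P.Qe k := by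
    have h5 : ((rest l).card : ℝ) * |drift (Xe e k) (LvE e) l| =
        |((rest l).card : ℝ) * drift (Xe e k) (LvE e) l| := by
      rw [abs_mul, Nat.abs_cast]
    rw [h5]
    have h6 : ((rest l).card : ℝ) * drift (Xe e k) (LvE e) l =
        (((rest l).card : ℝ) * drift (Xe e k) (LvE e) l -
          (gt (Ie e) (nb e) 3 l k - lt (Ie e) (nb e) k l)) +
        (gt (Ie e) (nb e) 3 l k - lt (Ie e) (nb e) k l) := by ring
    rw [h6]
    refine (abs_add_le _ _).trans ?_
    have h7 : |gt (Ie e) (nb e) 3 l k - lt (Ie e) (nb e) k l| ≤ P.Qe k := by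
      rw [abs_le]
      constructor
      · nlinarith
      · nlinarith
    linarith
  rw [le_div_iff₀ hN]
  have h8 : 0 ≤ |drift (Xe e k) (LvE e) l| := abs_nonneg _
  nlinarith

/-- no deviation event for `e` in block `j` -/
def CM (e : Edge d) (j : ℕ) (ω : List (Edge d)) : Prop := ∀ k ≤ 2, ¬ P.MBad e j k ω

/-- clean edge -/
def Cl (ω : List (Edge d)) (e : Edge d) : Prop :=
  P.SBP (ω.take (P.mm P.J)).toFinset (bs e) ∧ ∀ j < P.J, P.CM e j ω

theorem GE_take {ω : List (Edge d)} {e : Edge d} (hS : P.SBP (ω.take (P.mm P.J)).toFinset (bs e))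
    {i : ℕ} (hi : i ≤ P.mm P.J) (heo : e ∈ opn (ω.take i)) : P.GE e (ω.take i) :=
  ⟨heo, P.length_take_le ω hi, hS.mono (toFinset_take_subset ω hi)⟩

/-- deviation bound for clean edges -/
theorem Cl.dev {ω : List (Edge d)} {e : Edge d} (hC : P.Cl ω e) {j : ℕ} (hj : j < P.J) {i : ℕ}
    (hi1 : P.mm j ≤ i) (hi2 : i ≤ P.mm (j + 1)) (heo : e ∈ opn (ω.take i)) {k : ℕ} (hk : k ≤ 2) :
    |comp (Xe e k) (drift (Xe e k) (LvE e)) ω (P.mm j) i| < P.κe k := by
  by_contra hcon
  push Not at hcon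
  apply hC.2 j hj k hk
  have hiJ : i ≤ P.mm P.J := hi2.trans (P.mm_mono hj)
  refine ⟨i, hi1, by rw [← P.mm_succ]; exact hi2, ?_, ?_, hcon⟩
  · intro i' _ h2
    exact opn_take_subset ω h2 heo
  · intro i' _ h2
    exact P.GE_take hC.1 (h2.le.trans hiJ) (opn_take_subset ω h2.le heo)

theorem κe_le_ww {k j : ℕ} (hk : k ≤ 2) (hj : j ≤ P.J) :
    P.κe k ≤ P.Δ ^ 2 * P.ww d 3 k j := by
  unfold κe
  apply mul_le_mul_of_nonneg_left _ (by positivity)
  unfold ww p
  rw [P.hd]
  have h1 := P.le_aa hj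
  have h2 : (P.β ^ (-1 : ℤ)) ^ (3 - k) ≤ (P.aa j) ^ (3 - k) := pow_le_pow_left₀ (P.znn _) h1 _
  have h3 : (P.β ^ (-1 : ℤ)) ^ (3 - k) = P.β ^ (-(3 - (k : ℤ))) := by
    rw [← zpow_natCast, ← zpow_mul, Nat.cast_sub (by omega)]
    congr 1
    push_cast
    ring
  have h4 : (P.β ^ (-4000 : ℤ)) ^ k = P.β ^ (-4000 * (k : ℤ)) := by
    rw [← zpow_natCast, ← zpow_mul]
  rw [h3] at h2
  rw [h4]
  calc P.β ^ (11997 - 4000 * (k : ℤ)) ≤
      P.β ^ (12000 : ℤ) * P.β ^ (-4000 * (k : ℤ)) * P.β ^ (-(3 - (k : ℤ))) := by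
        rw [P.zadd, P.zadd]
        apply P.zle
        have : (0 : ℤ) ≤ k := Int.natCast_nonneg k
        linarith
    _ ≤ _ := mul_le_mul_of_nonneg_left h2 (mul_nonneg (P.znn _) (P.znn _))

/-- crude control inside a block -/
theorem Cl.crude {ω : List (Edge d)} (hω : ω.Nodup) {e : Edge d} (hC : P.Cl ω e) {j : ℕ}
    (hj : j < P.J) {i : ℕ}
    (hi1 : P.mm j ≤ i) (hi2 : i ≤ P.mm (j + 1)) (heo : e ∈ opn (ω.take i)) {k : ℕ} (hk : k ≤ 2) :
    |Xe e k (ω.take i) - Xe e k (ω.take (P.mm j))| ≤ P.β ^ (-584 : ℤ) * P.ww d 3 k j := by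
  have hdev := hC.dev P hj hi1 hi2 heo hk
  have hiJ : i ≤ P.mm P.J := hi2.trans (P.mm_mono hj)
  unfold comp at hdev
  set S := ∑ i' ∈ Ico (P.mm j) i, drift (Xe e k) (LvE e) (ω.take i') with hSdef
  have hS : |S| ≤ P.b j * (4 * P.Qe k / P.N) := by
    refine (abs_sum_le_sum_abs _ _).trans ?_
    have h1 : ∀ i' ∈ Ico (P.mm j) i, |drift (Xe e k) (LvE e) (ω.take i')| ≤ 4 * P.Qe k / P.N := by
      intro i' hi'
      have h2 := (mem_Ico.mp hi').2.le
      exact P.drift_crude (take_nodup hω _)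
        (P.GE_take hC.1 (h2.trans hiJ) (opn_take_subset ω h2 heo)) hk
    refine (sum_le_sum h1).trans ?_
    rw [sum_const, nsmul_eq_mul, Nat.card_Ico]
    apply mul_le_mul_of_nonneg_right
    · have h3 : i - P.mm j ≤ P.b j := by
        have := P.mm_succ j
        omega
      exact_mod_cast h3
    · have := P.Qe_nonneg k
      have := P.N_pos
      positivity
  have hN := P.N_pos
  have hΔ := P.Δ_pos
  have hQ := P.Qe_nonneg k
  have hS2 : P.b j * (4 * P.Qe k / P.N) ≤ 4 * P.β ^ (-4599 : ℤ) * P.Qe k := by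
    have h1 := P.b_le' hj.le
    have h2 : (P.b j : ℝ) ≤ P.N * P.β ^ (-4599 : ℤ) := by
      refine h1.trans ?_
      rw [mul_assoc]
      apply mul_le_mul_of_nonneg_left _ hN.le
      calc P.Δ * P.β ^ (-3999 : ℤ) ≤ P.β ^ (-600 : ℤ) * P.β ^ (-3999 : ℤ) :=
            mul_le_mul_of_nonneg_right P.Δ_le (P.znn _)
        _ = P.β ^ (-4599 : ℤ) := by rw [P.zadd]; norm_num
    calc P.b j * (4 * P.Qe k / P.N) ≤ (P.N * P.β ^ (-4599 : ℤ)) * (4 * P.Qe k / P.N) :=
          mul_le_mul_of_nonneg_right h2 (by positivity)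
      _ = _ := by field_simp
  have hww : P.β ^ (11997 - 3999 * (k : ℤ)) ≤ P.ww d 3 k j := by
    unfold ww p
    rw [P.hd]
    have h1 := P.le_aa hj.le
    have h2 : (P.β ^ (-1 : ℤ)) ^ (3 - k) ≤ (P.aa j) ^ (3 - k) := pow_le_pow_left₀ (P.znn _) h1 _
    have h3 : (P.β ^ (-1 : ℤ)) ^ (3 - k) = P.β ^ (-(3 - (k : ℤ))) := by
      rw [← zpow_natCast, ← zpow_mul, Nat.cast_sub (by omega)]
      congr 1
      push_cast
      ring
    have h4 : (P.β ^ (-4000 : ℤ)) ^ k = P.β ^ (-4000 * (k : ℤ)) := by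
      rw [← zpow_natCast, ← zpow_mul]
    rw [h3] at h2
    rw [h4]
    calc P.β ^ (11997 - 3999 * (k : ℤ)) ≤
        P.β ^ (12000 : ℤ) * P.β ^ (-4000 * (k : ℤ)) * P.β ^ (-(3 - (k : ℤ))) := by
          rw [P.zadd, P.zadd]
          apply P.zle
          linarith
      _ ≤ _ := mul_le_mul_of_nonneg_left h2 (mul_nonneg (P.znn _) (P.znn _))
  have hQw : 4 * P.β ^ (-4599 : ℤ) * P.Qe k ≤ P.β ^ (-585 : ℤ) * P.ww d 3 k j := by
    have key : ∀ a : ℤ, P.Qe k = 4 * P.β ^ a → -4599 + a + 1 ≤ -585 + (11997 - 3999 * (k : ℤ)) →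
        4 * P.β ^ (-4599 : ℤ) * P.Qe k ≤ P.β ^ (-585 : ℤ) * P.ww d 3 k j := by
      intro a ha hk'
      rw [ha]
      calc 4 * P.β ^ (-4599 : ℤ) * (4 * P.β ^ a) = 16 * (P.β ^ (-4599 : ℤ) * P.β ^ a) := by ring
        _ = 16 * P.β ^ (-4599 + a) := by rw [P.zadd]
        _ ≤ P.β ^ (-585 + (11997 - 3999 * (k : ℤ))) := P.zc (by norm_num) hk'
        _ = P.β ^ (-585 : ℤ) * P.β ^ (11997 - 3999 * (k : ℤ)) := by rw [P.zadd]
        _ ≤ _ := mul_le_mul_of_nonneg_left hww (P.znn _)
    interval_cases k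
    · exact key 16006 (by unfold Qe; rw [if_pos rfl]) (by norm_num)
    · exact key 12010 (by unfold Qe; rw [if_neg (by norm_num), if_pos rfl]) (by norm_num)
    · exact key 8012 (by unfold Qe; rw [if_neg (by norm_num), if_neg (by norm_num)]) (by norm_num)
  have hκ := P.κe_le_ww hk hj.le (k := k)
  have hW : 0 < P.ww d 3 k j := P.ww_pos P.d_pos 3 k j
  have hΔ2 : P.Δ ^ 2 ≤ P.β ^ (-585 : ℤ) := by
    have h1 := P.Δ_le
    have h2 := P.Δ_le_one
    have h3 := P.zle (m := -600) (n := -585) (by norm_num)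
    nlinarith
  have h5 : P.Δ ^ 2 * P.ww d 3 k j ≤ P.β ^ (-585 : ℤ) * P.ww d 3 k j :=
    mul_le_mul_of_nonneg_right hΔ2 hW.le
  have h6 := P.zc (c := 2) (by norm_num) (m := -585) (n := -584) (by norm_num)
  have h7 : Xe e k (ω.take i) - Xe e k (ω.take (P.mm j)) =
      (Xe e k (ω.take i) - Xe e k (ω.take (P.mm j)) - S) + S := by ring
  rw [h7]
  refine (abs_add_le _ _).trans ?_
  have h8 : 2 * P.β ^ (-585 : ℤ) * P.ww d 3 k j ≤ P.β ^ (-584 : ℤ) * P.ww d 3 k j :=
    mul_le_mul_of_nonneg_right h6 hW.le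
  linarith

/-- clean up to distance `n` -/
def OK (ω : List (Edge d)) : ℕ → Edge d → Prop
  | 0, e => P.Cl ω e
  | n + 1, e => OK ω n e ∧ ∀ r ∈ Ie e, ∀ f ∈ nb e r, OK ω n f

theorem OK.cl {ω : List (Edge d)} {n : ℕ} {e : Edge d} (h : P.OK ω n e) : P.Cl ω e := by
  induction n with
  | zero => exact h
  | succ n ih => exact ih h.1

theorem OK.mono {ω : List (Edge d)} {n m : ℕ} (hnm : n ≤ m) {e : Edge d} (h : P.OK ω m e) :
    P.OK ω n e := by
  induction m with
  | zero =>
    have : n = 0 := by omega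
    rw [this]; exact h
  | succ m ih =>
    rcases Nat.eq_or_lt_of_le hnm with h1 | h1
    · rw [h1]; exact h
    · exact ih (by omega) h.1

/-- the errors of the face family -/
noncomputable def ome (j : ℕ) : ℝ := P.om (P.β ^ (-584 : ℤ)) (P.β ^ (-584 : ℤ)) j

theorem ome_nonneg (j : ℕ) : 0 ≤ P.ome j := P.om_nonneg (P.znn _) (P.znn _) j

theorem ome_le {j : ℕ} (hj : j ≤ P.J) : P.ome j + P.β ^ (-584 : ℤ) ≤ P.β ^ (-423 : ℤ) := by
  have := P.om_le_pow (a := -584) (by norm_num) hj
  norm_num at this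
  exact this

theorem ww_pred {M : ℝ} {v k j : ℕ} (hk : k + 1 ≤ v) :
    P.ww M v k j = P.aa j / P.p * P.ww M v (k + 1) j := by
  unfold ww
  have h1 : v - k = (v - (k + 1)) + 1 := by omega
  rw [h1, pow_succ, pow_succ]
  have := P.p_pos.ne'
  field_simp

/-- windows for clean edges -/
theorem window {ω : List (Edge d)} (hω : ω.Nodup) (hlen : ω.length = Fintype.card (Edge d))
    {j : ℕ} (hj : j ≤ P.J) {e : Edge d} (hOK : P.OK ω j e) (heo : e ∈ opn (ω.take (P.mm j)))
    {k : ℕ} (hk : k ≤ 2) :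
    |Xe e k (ω.take (P.mm j)) - P.xx d 3 k j| ≤ P.ome j * P.ww d 3 k j := by
  induction j generalizing e k with
  | zero =>
    rw [P.mm_zero, List.take_zero]
    have hacc : acc ([] : List (Edge d)) = ∅ := rfl
    have hopn : opn ([] : List (Edge d)) = univ := by
      ext g
      rw [mem_opn]
      simp only [List.not_mem_nil, not_false_eq_true, true_and, mem_univ, iff_true, hacc]
      rintro ⟨r, hr, h⟩
      have := card_nb hr
      rw [subset_empty.mp h] at this
      simp at this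
    unfold ome
    rw [om_zero]
    have haa : P.aa 0 = 1 := by unfold aa; rw [P.al_zero]; simp
    have hww : P.ww d 3 k 0 = d * P.p ^ k := by unfold ww; rw [haa]; simp
    have hd1 := P.d_one
    rcases Nat.eq_zero_or_pos k with hk0 | hk0
    · subst hk0
      have hX : Xe e 0 ([] : List (Edge d)) = d - 1 := by
        unfold Xe Xf cnt
        have h1 : (Ie e).filter (fun r => Ty (acc []) (opn []) (nb e r) 0) = Ie e := by
          apply filter_true_of_mem
          intro r _
          refine ⟨?_, ?_⟩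
          · rw [hopn]; simp
          · rw [hacc]; simp
        rw [h1]
        unfold Ie
        rw [card_erase_of_mem (mem_univ _), card_univ, Fintype.card_fin, Nat.cast_sub]
        · simp
        · exact_mod_cast hd1
      rw [hX]
      have hxx : P.xx d 3 0 0 = d := by unfold xx; rw [hww]; simp
      rw [hxx, hww]
      have h2 : P.β ^ (-584 : ℤ) * (d : ℝ) = P.β ^ (11416 : ℤ) := by
        rw [P.hd, P.zadd]; norm_num
      have h3 := P.zle (m := 0) (n := 11416) (by norm_num)
      rw [zpow_zero] at h3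
      rw [pow_zero, mul_one, h2]
      have : |((d : ℝ) - 1) - d| = 1 := by
        rw [show ((d : ℝ) - 1) - d = -1 by ring]; norm_num
      rw [this]; exact h3
    · have hX : Xe e k ([] : List (Edge d)) = 0 := by
        unfold Xe Xf cnt
        have h1 : (Ie e).filter (fun r => Ty (acc []) (opn []) (nb e r) k) = ∅ := by
          apply filter_false_of_mem
          rintro r _ ⟨_, h2⟩
          rw [hacc, inter_empty, card_empty] at h2
          omega
        rw [h1]; simp
      have hxx : P.xx d 3 k 0 = 0 := by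
        unfold xx; rw [P.al_zero, zero_pow (by omega)]; ring
      rw [hX, hxx, sub_zero, abs_zero]
      have := P.ww_pos P.d_pos 3 k 0
      have := P.znn (-584)
      positivity
  | succ j ih =>
    have hj' : j < P.J := hj
    have hOKj : P.OK ω j e := hOK.1
    have hmm : P.mm j ≤ P.mm (j + 1) := P.mm_mono (Nat.le_succ j)
    have hmJ : P.mm (j + 1) ≤ P.mm P.J := P.mm_mono hj
    have heoi : ∀ i ≤ P.mm (j + 1), e ∈ opn (ω.take i) := fun i hi => opn_take_subset ω hi heo
    have hClE := hOK.cl P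
    have hW := P.ww_pos P.d_pos 3 k j
    -- windows within the block, for every open edge which is OK at level j
    have hin : ∀ f : Edge d, P.OK ω j f → ∀ i, P.mm j ≤ i → i ≤ P.mm (j + 1) →
        f ∈ opn (ω.take i) → ∀ k' ≤ 2, |Xe f k' (ω.take i) - P.xx d 3 k' j| ≤
          (P.ome j + P.β ^ (-584 : ℤ)) * P.ww d 3 k' j := by
      intro f hf i hi1 hi2 hfo k' hk'
      have h1 := ih hj'.le hf (opn_take_subset ω hi1 hfo) hk'
      have h2 := (hf.cl P).crude P hω hj' hi1 hi2 hfo hk'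
      have h3 : Xe f k' (ω.take i) - P.xx d 3 k' j =
        (Xe f k' (ω.take i) - Xe f k' (ω.take (P.mm j))) +
          (Xe f k' (ω.take (P.mm j)) - P.xx d 3 k' j) := by ring
      rw [h3, add_mul]
      refine (abs_add_le _ _).trans ?_
      linarith
    have hlei : ∀ i ≤ P.mm (j + 1), i ≤ Fintype.card (Edge d) := fun i hi =>
      hi.trans (P.mm_le_card hj)
    have hlen_i : ∀ i ≤ P.mm (j + 1), (ω.take i).length = i := by
      intro i hi
      rw [List.length_take, hlen]
      exact min_eq_left (hlei i hi)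
    have hcr := P.znn (-584)
    have hy := P.ome_le hj'.le
    have hy1 : P.ome j + P.β ^ (-584 : ℤ) ≤ 1 := by
      refine hy.trans ?_
      have := P.zle (m := -423) (n := 0) (by norm_num)
      rwa [zpow_zero] at this
    have hq := P.q_pos j
    have hal := P.al_nonneg j
    have := P.round_step (M := d) P.d_pos (v := 3) (k := k) (by norm_num) hk (by omega) hj'
      (ω := P.ome j) (cr := P.β ^ (-584 : ℤ)) (X := Xe e k (ω.take (P.mm j)))
      (X' := Xe e k (ω.take (P.mm (j + 1))))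
      (D := fun i => drift (Xe e k) (LvE e) (ω.take i))
      (G := fun i => gt (Ie e) (nb e) 3 (ω.take i) k)
      (Lt := fun i => lt (Ie e) (nb e) k (ω.take i))
      (Xi := fun i => Xe e k (ω.take i))
      (R := fun i => ((rest (ω.take i)).card : ℝ))
      (P.ome_nonneg j) hcr hy1 (ih hj'.le hOKj (heoi _ hmm) hk) ?_ ?_ ?_ ?_ ?_ ?_
    · unfold ome at this ⊢
      rw [om_succ]
      exact this
    · -- martingale bound
      have h1 := hClE.dev P hj' hmm le_rfl heo hk
      have h2 := P.κe_le_ww hk hj'.le (k := k)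
      unfold comp at h1
      linarith
    · -- number of unborn edges
      intro i hi
      obtain ⟨hi1, hi2⟩ := mem_Ico.mp hi
      constructor
      · rw [card_rest (take_nodup hω _), hlen_i i hi2.le, Nat.cast_sub (hlei i hi2.le)]
        have h3 : (i : ℝ) ≤ P.mm (j + 1) := by exact_mod_cast hi2.le
        have h4 := P.mm_le hj
        have h5 : P.N = (Fintype.card (Edge d) : ℝ) := rfl
        linarith
      · exact P.rest_le (take_nodup hω _)
    · -- drift formula
      intro i hi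
      obtain ⟨hi1, hi2⟩ := mem_Ico.mp hi
      have hS : P.SBP (ω.take i).toFinset (bs e) :=
        hClE.1.mono (toFinset_take_subset ω (hi2.le.trans hmJ))
      have h1 := Xe_drift (P.znn 605) hS (heoi i hi2.le) hk
      refine h1.trans ?_
      have h2 := hin e hOKj i hi1 hi2.le (heoi i hi2.le) k hk
      have h3 : Xe e k (ω.take i) ≤ 4 * (1 + P.A) ^ 2 * P.ww d 3 k j := by
        have h4 := (abs_le.mp h2).2
        have hc := choose_le (v := 3) (by norm_num) hk
        have hα : (P.al j) ^ k ≤ (1 + P.A) ^ 2 := by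
          have h6 : P.al j ≤ 1 + P.A := by linarith [P.al_le hj'.le]
          calc (P.al j) ^ k ≤ (1 + P.A) ^ k := pow_le_pow_left₀ hal h6 k
            _ ≤ (1 + P.A) ^ 2 := pow_le_pow_right₀ (by linarith [P.A_pos]) hk
        have h5 : P.xx d 3 k j ≤ 3 * (1 + P.A) ^ 2 * P.ww d 3 k j := by
          unfold xx
          apply mul_le_mul_of_nonneg_right _ hW.le
          exact mul_le_mul hc hα (by positivity) (by norm_num)
        have h7 : (P.ome j + P.β ^ (-584 : ℤ)) * P.ww d 3 k j ≤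
            (1 + P.A) ^ 2 * P.ww d 3 k j := by
          apply mul_le_mul_of_nonneg_right _ hW.le
          have : (1 : ℝ) ≤ (1 + P.A) ^ 2 := one_le_pow₀ (by linarith [P.A_pos])
          linarith
        linarith
      have h8 : (363 + 18 * P.β ^ (605 : ℤ)) * (4 * (1 + P.A) ^ 2) ≤ P.β ^ (608 : ℤ) := by
        have a2 := P.zle (m := 0) (n := 605) (by norm_num)
        rw [zpow_zero] at a2
        have a3 := P.zA (k := 2) (by norm_num) (c := 4000) (by norm_num) (by norm_num) (m := 605)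
          (n := 608) (by norm_num)
        have a4 : 0 ≤ (1 + P.A) ^ 2 := by positivity
        calc (363 + 18 * P.β ^ (605 : ℤ)) * (4 * (1 + P.A) ^ 2) ≤
            (1000 * P.β ^ (605 : ℤ)) * (4 * (1 + P.A) ^ 2) := by
              apply mul_le_mul_of_nonneg_right _ (by positivity)
              linarith
          _ = 4000 * (1 + P.A) ^ 2 * P.β ^ (605 : ℤ) := by ring
          _ ≤ _ := a3
      have h9 : P.β ^ (3398 : ℤ) ≤ P.Δ * (P.aa j / P.p) := by
        have b1 := P.le_Δ'
        have b2 := P.le_aa hj'.le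
        have b3 : P.β ^ (3999 : ℤ) ≤ P.aa j / P.p := by
          rw [le_div_iff₀ P.p_pos]
          unfold p
          rw [P.zadd]
          norm_num
          norm_num at b2
          exact b2
        calc P.β ^ (3398 : ℤ) = P.β ^ (-601 : ℤ) * P.β ^ (3999 : ℤ) := by rw [P.zadd]; norm_num
          _ ≤ _ := mul_le_mul b1 b3 (P.znn _) P.Δ_pos.le
      calc (363 + 18 * P.β ^ (605 : ℤ)) * Xe e k (ω.take i)
          ≤ (363 + 18 * P.β ^ (605 : ℤ)) * (4 * (1 + P.A) ^ 2 * P.ww d 3 k j) := by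
            apply mul_le_mul_of_nonneg_left h3
            have := P.znn 605
            linarith
        _ = ((363 + 18 * P.β ^ (605 : ℤ)) * (4 * (1 + P.A) ^ 2)) * P.ww d 3 k j := by ring
        _ ≤ P.β ^ (608 : ℤ) * P.ww d 3 k j := mul_le_mul_of_nonneg_right h8 hW.le
        _ ≤ (P.Δ * (P.aa j / P.p)) * P.ww d 3 k j := by
            apply mul_le_mul_of_nonneg_right _ hW.le
            exact (P.zle (by norm_num)).trans h9
        _ = _ := by ring
    · intro i hi
      obtain ⟨hi1, hi2⟩ := mem_Ico.mp hi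
      exact hin e hOKj i hi1 hi2.le (heoi i hi2.le) k hk
    · -- gain term
      intro i hi
      obtain ⟨hi1, hi2⟩ := mem_Ico.mp hi
      have hy0 : 0 ≤ P.ome j + P.β ^ (-584 : ℤ) := add_nonneg (P.ome_nonneg j) hcr
      rcases Nat.eq_zero_or_pos k with hk0 | hk0
      · subst hk0
        simp only [gt_zero, Nat.cast_zero, zero_mul, mul_zero, sub_zero, abs_zero]
        positivity
      · obtain ⟨k', rfl⟩ : ∃ k', k = k' + 1 := ⟨k - 1, by omega⟩
        simp only [gt_succ]
        have h2 := hin e hOKj i hi1 hi2.le (heoi i hi2.le) k' (by omega)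
        rw [P.ww_pred (M := d) (v := 3) (k := k') (j := j) (by omega)] at h2
        have hkr : (0 : ℝ) ≤ k' := Nat.cast_nonneg _
        have hk'3 : (k' : ℝ) ≤ 1 := by exact_mod_cast (by omega : k' ≤ 1)
        have hch : ((Nat.choose 3 (k' + 1) : ℕ) : ℝ) * ((k' + 1 : ℕ) : ℝ) =
            (3 - k') * ((Nat.choose 3 k' : ℕ) : ℝ) := by
          have : k' ≤ 1 := by omega
          interval_cases k' <;> simp [Nat.choose] <;> norm_num
        have e1 : ((3 : ℕ) : ℝ) = 3 := by norm_num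
        have e2 : (((3 : ℕ) : ℝ) - (k' : ℝ)) * Xf (Ie e) (nb e) k' (ω.take i) -
            ((Nat.choose 3 (k' + 1) : ℕ) : ℝ) * (((k' + 1 : ℕ) : ℝ) * P.al j ^ (k' + 1 - 1)) *
              (P.aa j / P.p * P.ww d 3 (k' + 1) j) =
            (3 - k') * (Xe e k' (ω.take i) - P.xx d 3 k' j) := by
          unfold xx
          rw [P.ww_pred (M := d) (v := 3) (k := k') (j := j) (by omega)]
          have : ((Nat.choose 3 (k' + 1) : ℕ) : ℝ) * (((k' + 1 : ℕ) : ℝ) * P.al j ^ (k' + 1 - 1)) =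
              (((Nat.choose 3 (k' + 1) : ℕ) : ℝ) * ((k' + 1 : ℕ) : ℝ)) * P.al j ^ k' := by
            rw [Nat.add_sub_cancel]; ring
          rw [this, hch, e1]
          unfold Xe
          ring
        rw [e2, abs_mul, abs_of_nonneg (by linarith : (0 : ℝ) ≤ 3 - k')]
        calc (3 - (k' : ℝ)) * |Xe e k' (ω.take i) - P.xx d 3 k' j|
            ≤ 3 * ((P.ome j + P.β ^ (-584 : ℤ)) * (P.aa j / P.p * P.ww d 3 (k' + 1) j)) := by
              apply mul_le_mul (by linarith) h2 (abs_nonneg _) (by norm_num)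
          _ = _ := by ring
    · -- loss term
      intro i hi
      obtain ⟨hi1, hi2⟩ := mem_Ico.mp hi
      have h1 := lt_two_sided (I := Ie e) (V := nb e) (v := 3) (k := k) (l := ω.take i)
        (g0 := 3 * (P.al j) ^ 2 * (P.aa j / P.p))
        (δ0 := (P.ome j + P.β ^ (-584 : ℤ)) * (P.aa j / P.p)) nb_card_Ie ?_
      · refine h1.trans (le_of_eq ?_)
        unfold Xe
        ring
      · intro r hr _ f hf
        obtain ⟨hf1, hf2⟩ := mem_inter.mp hf
        have hOKf := hOK.2 r hr f hf1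
        have h2 := hin f hOKf i hi1 hi2.le hf2 2 le_rfl
        rw [card_Gm]
        have h3 : P.ww d 3 2 j = P.aa j / P.p := by
          unfold ww
          have h4 := P.d_p3
          have h5 := P.p_pos
          rw [eq_div_iff h5.ne']
          calc (d : ℝ) * P.p ^ 2 * P.aa j ^ (3 - 2) * P.p = (d * P.p ^ 3) * P.aa j := by ring
            _ = P.aa j := by rw [h4, one_mul]
        have h4 : P.xx d 3 2 j = 3 * (P.al j) ^ 2 * (P.aa j / P.p) := by
          unfold xx
          rw [h3]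
          have : ((Nat.choose 3 2 : ℕ) : ℝ) = 3 := by norm_num [Nat.choose]
          rw [this]
        rw [h3, h4] at h2
        exact h2

end Par

end Pool.Agent.Q2F
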