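import Mathlib
import Pool.Agent.MP_9431a4_pr.EWin

set_option autoImplicit false

/-!
Probability that the neighbourhood of an edge is clean.
-/

namespace Pool.Agent.Q2F

open Finset Classical

variable {d : ℕ}

namespace Par

variable (P : Par d)

theorem exp_absorb {a b c : ℤ} (hab : a + 1 ≤ c) (hbc : b + 1 ≤ c) :
    Real.exp (P.β ^ a) * Real.exp (-P.β ^ c) ≤ Real.exp (-P.β ^ b) := by
  rw [← Real.exp_add]
  apply Real.exp_le_exp.mpr
  have h1 := P.zc (c := 2) (by norm_num) (m := a) (n := c) hab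
  have h2 := P.zc (c := 2) (by norm_num) (m := b) (n := c) hbc
  linarith

theorem J_le_exp : (P.J : ℝ) ≤ Real.exp (P.β ^ (602 : ℤ)) := by
  refine P.J_le'.trans ?_
  have h1 := P.zle (m := 601) (n := 602) (by norm_num)
  have h2 := Real.add_one_le_exp (P.β ^ (602 : ℤ))
  linarith

theorem const_le_exp {c : ℝ} (hc : c ≤ 10 ^ 12) {a : ℤ} (ha : 1 ≤ a) : c ≤ Real.exp (P.β ^ a) := by
  have h1 := P.zle ha
  rw [P.z1] at h1
  have h2 := Real.add_one_le_exp (P.β ^ a)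
  have h3 := P.β_big
  linarith

theorem Pr_Cl (e : Edge d) : Pr (fun ω => ¬ P.Cl ω e) ≤ Real.exp (-P.β ^ (603 : ℤ)) := by
  have hsub : Pr (fun ω => ¬ P.Cl ω e) ≤ Pr (fun ω : List (Edge d) =>
      (¬ P.SBP (ω.take (P.mm P.J)).toFinset (bs e)) ∨
      (∃ jk ∈ (range P.J ×ˢ range 3), P.MBad e jk.1 jk.2 ω)) := by
    apply Pr_mono
    intro ω _ _ hω
    by_contra hcon
    push Not at hcon
    obtain ⟨h1, h2⟩ := hcon
    apply hω
    refine ⟨h1, ?_⟩
    intro j hj k hk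
    exact h2 (j, k) (mem_product.mpr ⟨mem_range.mpr hj, mem_range.mpr (by omega)⟩)
  refine hsub.trans ((Pr_or_le _ _).trans ?_)
  have h1 := P.Pr_SBP (bs e)
  have h2 : Pr (fun ω : List (Edge d) => ∃ jk ∈ (range P.J ×ˢ range 3), P.MBad e jk.1 jk.2 ω) ≤
      P.J * 3 * Real.exp (-P.β ^ (605 : ℤ)) := by
    refine (Pr_biUnion_le _ _).trans ?_
    have h3 : ∀ jk ∈ (range P.J ×ˢ range 3), Pr (P.MBad e jk.1 jk.2) ≤
        Real.exp (-P.β ^ (605 : ℤ)) := by
      intro jk hjk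
      obtain ⟨a, b⟩ := mem_product.mp hjk
      exact P.Pr_MBad e (mem_range.mp a) (by have := mem_range.mp b; omega)
    refine (sum_le_sum h3).trans ?_
    rw [sum_const, card_product, card_range, card_range, nsmul_eq_mul]
    push_cast
    exact le_rfl
  have h4 : (P.J : ℝ) * 3 * Real.exp (-P.β ^ (605 : ℤ)) ≤ Real.exp (-P.β ^ (604 : ℤ)) := by
    have a1 : (P.J : ℝ) * 3 ≤ Real.exp (P.β ^ (603 : ℤ)) := by
      have b1 := P.J_le_exp
      have b2 := P.const_le_exp (c := 3) (by norm_num) (a := 602) (by norm_num)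
      calc (P.J : ℝ) * 3 ≤ Real.exp (P.β ^ (602 : ℤ)) * Real.exp (P.β ^ (602 : ℤ)) :=
            mul_le_mul b1 b2 (by norm_num) (Real.exp_pos _).le
        _ = Real.exp (2 * P.β ^ (602 : ℤ)) := by rw [← Real.exp_add]; congr 1; ring
        _ ≤ _ := Real.exp_le_exp.mpr (P.zc (by norm_num) (by norm_num))
    calc (P.J : ℝ) * 3 * Real.exp (-P.β ^ (605 : ℤ)) ≤
        Real.exp (P.β ^ (603 : ℤ)) * Real.exp (-P.β ^ (605 : ℤ)) :=
          mul_le_mul_of_nonneg_right a1 (Real.exp_pos _).le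
      _ ≤ _ := P.exp_absorb (by norm_num) (by norm_num)
  have h5 : 2 * Real.exp (-P.β ^ (604 : ℤ)) ≤ Real.exp (-P.β ^ (603 : ℤ)) := by
    have b2 := P.const_le_exp (c := 2) (by norm_num) (a := 1) (by norm_num)
    calc 2 * Real.exp (-P.β ^ (604 : ℤ)) ≤ Real.exp (P.β ^ (1 : ℤ)) * Real.exp (-P.β ^ (604 : ℤ)) :=
          mul_le_mul_of_nonneg_right b2 (Real.exp_pos _).le
      _ ≤ _ := P.exp_absorb (by norm_num) (by norm_num)
  linarith

theorem Pr_OK (n : ℕ) (e : Edge d) :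
    Pr (fun ω => ¬ P.OK ω n e) ≤ (1 + 3 * d) ^ n * Real.exp (-P.β ^ (603 : ℤ)) := by
  induction n generalizing e with
  | zero =>
    rw [pow_zero, one_mul]
    exact P.Pr_Cl e
  | succ n ih =>
    have hsub : Pr (fun ω => ¬ P.OK ω (n + 1) e) ≤ Pr (fun ω : List (Edge d) =>
        (¬ P.OK ω n e) ∨ (∃ f ∈ (Ie e).biUnion (nb e), ¬ P.OK ω n f)) := by
      apply Pr_mono
      intro ω _ _ hω
      by_contra hcon
      push Not at hcon
      obtain ⟨h1, h2⟩ := hcon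
      apply hω
      exact ⟨h1, fun r hr f hf => h2 f (mem_biUnion.mpr ⟨r, hr, hf⟩)⟩
    refine hsub.trans ((Pr_or_le _ _).trans ?_)
    have h1 := ih e
    set X := (1 + 3 * (d : ℝ)) ^ n * Real.exp (-P.β ^ (603 : ℤ)) with hX
    have hX0 : 0 ≤ X := by
      have := Real.exp_pos (-P.β ^ (603 : ℤ))
      positivity
    have h2 : Pr (fun ω : List (Edge d) => ∃ f ∈ (Ie e).biUnion (nb e), ¬ P.OK ω n f) ≤
        3 * d * X := by
      refine (Pr_biUnion_le _ _).trans ?_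
      refine (sum_le_sum (fun f _ => ih f)).trans ?_
      rw [sum_const, nsmul_eq_mul]
      apply mul_le_mul_of_nonneg_right _ hX0
      have h3 : ((Ie e).biUnion (nb e)).card ≤ 3 * d := by
        refine card_biUnion_le.trans ?_
        refine (sum_le_card_nsmul _ _ 3 (fun r hr => (card_nb (mem_Ie.mp hr)).le)).trans ?_
        have : (Ie e).card ≤ d := by
          refine (card_le_univ _).trans ?_
          simp
        rw [smul_eq_mul]
        omega
      exact_mod_cast h3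
    have h4 : (1 + 3 * (d : ℝ)) ^ (n + 1) * Real.exp (-P.β ^ (603 : ℤ)) = X + 3 * d * X := by
      rw [hX]; ring
    rw [h4]
    linarith

theorem Pr_OK_J {n : ℕ} (hn : n ≤ P.J) (e : Edge d) :
    Pr (fun ω => ¬ P.OK ω n e) ≤ Real.exp (-P.β ^ (602 : ℤ)) := by
  refine (P.Pr_OK n e).trans ?_
  have hd1 := P.d_one
  have h1 : (1 + 3 * (d : ℝ)) ^ n ≤ Real.exp (P.β ^ (602 : ℤ)) := by
    have h2 : 1 + 3 * (d : ℝ) ≤ Real.exp P.β := by
      have a1 : (1 : ℝ) + 3 * d ≤ 4 * d := by linarith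
      have a2 := P.d_pow_le 1 (by norm_num)
      rw [pow_one] at a2
      have a3 : (4 : ℝ) ≤ Real.exp (P.β / 2) := by
        have := Real.add_one_le_exp (P.β / 2)
        have := P.β_big
        linarith
      calc 1 + 3 * (d : ℝ) ≤ 4 * d := a1
        _ ≤ Real.exp (P.β / 2) * Real.exp (P.β / 2) :=
            mul_le_mul a3 a2 (by linarith) (Real.exp_pos _).le
        _ = Real.exp P.β := by rw [← Real.exp_add]; congr 1; ring
    calc (1 + 3 * (d : ℝ)) ^ n ≤ (1 + 3 * (d : ℝ)) ^ P.J := pow_le_pow_right₀ (by linarith) hn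
      _ ≤ (Real.exp P.β) ^ P.J := pow_le_pow_left₀ (by linarith) h2 _
      _ = Real.exp (P.J * P.β) := by rw [← Real.exp_nat_mul]
      _ ≤ Real.exp (P.β ^ (602 : ℤ)) := by
        apply Real.exp_le_exp.mpr
        calc (P.J : ℝ) * P.β ≤ P.β ^ (601 : ℤ) * P.β ^ (1 : ℤ) := by
              rw [P.z1]
              exact mul_le_mul_of_nonneg_right P.J_le' P.β_pos.le
          _ = P.β ^ (602 : ℤ) := by rw [P.zadd]; norm_num
  calc (1 + 3 * (d : ℝ)) ^ n * Real.exp (-P.β ^ (603 : ℤ)) ≤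
      Real.exp (P.β ^ (602 : ℤ)) * Real.exp (-P.β ^ (603 : ℤ)) :=
        mul_le_mul_of_nonneg_right h1 (Real.exp_pos _).le
    _ ≤ _ := P.exp_absorb (by norm_num) (by norm_num)

/-- all edges which matter at a vertex are clean up to distance `J` -/
def GV (ω : List (Edge d)) (x : Vx d) : Prop :=
  P.SBP (ω.take (P.mm P.J)).toFinset x ∧ (∀ i, P.OK ω P.J (ed x i)) ∧
    ∀ i k, P.OK ω P.J (ed (fl x i) k)

theorem Pr_GV (x : Vx d) : Pr (fun ω => ¬ P.GV ω x) ≤ Real.exp (-P.β ^ (601 : ℤ)) := by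
  have hsub : Pr (fun ω => ¬ P.GV ω x) ≤ Pr (fun ω : List (Edge d) =>
      ((¬ P.SBP (ω.take (P.mm P.J)).toFinset x) ∨
        (∃ i ∈ (univ : Finset (Fin d)), ¬ P.OK ω P.J (ed x i))) ∨
      (∃ ik ∈ (univ : Finset (Fin d × Fin d)), ¬ P.OK ω P.J (ed (fl x ik.1) ik.2))) := by
    apply Pr_mono
    intro ω _ _ hω
    by_contra hcon
    push Not at hcon
    obtain ⟨⟨h1, h2⟩, h3⟩ := hcon
    exact hω ⟨h1, fun i => h2 i (mem_univ _), fun i k => h3 (i, k) (mem_univ _)⟩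
  refine hsub.trans ((Pr_or_le _ _).trans ?_)
  have e0 := Pr_or_le (fun ω : List (Edge d) => ¬ P.SBP (ω.take (P.mm P.J)).toFinset x)
    (fun ω => ∃ i ∈ (univ : Finset (Fin d)), ¬ P.OK ω P.J (ed x i))
  have e1 := P.Pr_SBP x
  have e2 : Pr (fun ω : List (Edge d) => ∃ i ∈ (univ : Finset (Fin d)),
      ¬ P.OK ω P.J (ed x i)) ≤ d * Real.exp (-P.β ^ (602 : ℤ)) := by
    refine (Pr_biUnion_le _ _).trans ?_
    refine (sum_le_sum (fun i _ => P.Pr_OK_J le_rfl _)).trans ?_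
    simp
  have e3 : Pr (fun ω : List (Edge d) => ∃ ik ∈ (univ : Finset (Fin d × Fin d)),
      ¬ P.OK ω P.J (ed (fl x ik.1) ik.2)) ≤ d * d * Real.exp (-P.β ^ (602 : ℤ)) := by
    refine (Pr_biUnion_le _ _).trans ?_
    refine (sum_le_sum (fun i _ => P.Pr_OK_J le_rfl _)).trans ?_
    simp
  have e4 : Real.exp (-P.β ^ (604 : ℤ)) ≤ Real.exp (-P.β ^ (602 : ℤ)) :=
    Real.exp_le_exp.mpr (neg_le_neg (P.zle (by norm_num)))
  have hd1 := P.d_one
  have e5 : (1 + (d : ℝ) + d * d) * Real.exp (-P.β ^ (602 : ℤ)) ≤ Real.exp (-P.β ^ (601 : ℤ)) := by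
    have a1 : 1 + (d : ℝ) + d * d ≤ Real.exp (P.β ^ (1 : ℤ)) := by
      have b1 : 1 + (d : ℝ) + d * d ≤ 3 * d ^ 2 := by nlinarith
      have b2 := P.d_pow_le 2 (by norm_num)
      have b3 : (3 : ℝ) ≤ Real.exp (P.β / 2) := by
        have := Real.add_one_le_exp (P.β / 2)
        have := P.β_big
        linarith
      rw [P.z1]
      calc 1 + (d : ℝ) + d * d ≤ 3 * d ^ 2 := b1
        _ ≤ Real.exp (P.β / 2) * Real.exp (P.β / 2) :=
            mul_le_mul b3 b2 (by positivity) (Real.exp_pos _).le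
        _ = Real.exp P.β := by rw [← Real.exp_add]; congr 1; ring
    calc (1 + (d : ℝ) + d * d) * Real.exp (-P.β ^ (602 : ℤ)) ≤
        Real.exp (P.β ^ (1 : ℤ)) * Real.exp (-P.β ^ (602 : ℤ)) :=
          mul_le_mul_of_nonneg_right a1 (Real.exp_pos _).le
      _ ≤ _ := P.exp_absorb (by norm_num) (by norm_num)
  have e6 : (1 + (d : ℝ) + d * d) * Real.exp (-P.β ^ (602 : ℤ)) =
      Real.exp (-P.β ^ (602 : ℤ)) + d * Real.exp (-P.β ^ (602 : ℤ)) +
        d * d * Real.exp (-P.β ^ (602 : ℤ)) := by ring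
  linarith

end Par

end Pool.Agent.Q2F
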