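import Mathlib
import Pool.Agent.MP_9431a4_pr.EFam

set_option autoImplicit false

/-!
The family of pairs at distance two attached to a set of directions.
-/

namespace Pool.Agent.Q2F

open Finset Classical

variable {d : ℕ}

/-- pairs of directions -/
noncomputable def IT (T : Finset (Fin d)) : Finset (Fin d × Fin d) :=
  (T ×ˢ T).filter (fun p => p.1 < p.2)

/-- the two outer edges of the face spanned at `x` -/
noncomputable def VT (x : Vx d) (r : Fin d × Fin d) : Finset (Edge d) :=
  {ed (fl x r.1) r.2, ed (fl x r.2) r.1}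

theorem mem_IT {T : Finset (Fin d)} {r : Fin d × Fin d} :
    r ∈ IT T ↔ r.1 ∈ T ∧ r.2 ∈ T ∧ r.1 < r.2 := by
  unfold IT
  rw [mem_filter, mem_product]
  tauto

theorem mem_VT {x : Vx d} {r : Fin d × Fin d} {f : Edge d} :
    f ∈ VT x r ↔ f = ed (fl x r.1) r.2 ∨ f = ed (fl x r.2) r.1 := by
  unfold VT
  rw [mem_insert, mem_singleton]

theorem VT_card {x : Vx d} {T : Finset (Fin d)} : ∀ r ∈ IT T, (VT x r).card = 2 := by
  intro r hr
  unfold VT
  rw [card_pair]
  intro h
  exact (mem_IT.mp hr).2.2.ne (ed_eq_iff.mp h).1.symm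

theorem fl_ne_fl_fl (x : Vx d) (a b c : Fin d) : fl x a ≠ fl (fl x b) c := by
  intro h
  have hpar := congrArg par h
  rw [par_fl, par_fl, par_fl] at hpar
  generalize par x = a at hpar
  revert a
  decide

theorem outer_eq {x : Vx d} {i k i' k' : Fin d} (h : ed (fl x i) k = ed (fl x i') k') :
    i = i' ∧ k = k' := by
  obtain ⟨h1, h2 | h2⟩ := ed_eq_iff.mp h
  · exact ⟨fl_left_inj.mp h2, h1⟩
  · exact absurd h2 (fl_ne_fl_fl _ _ _ _)

theorem VT_disj {x : Vx d} {T : Finset (Fin d)} : ∀ r ∈ IT T, ∀ s ∈ IT T, r ≠ s →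
    Disjoint (VT x r) (VT x s) := by
  intro r hr s hs hne
  have hr3 := (mem_IT.mp hr).2.2
  have hs3 := (mem_IT.mp hs).2.2
  rw [Finset.disjoint_left]
  intro f hf hf'
  rw [mem_VT] at hf hf'
  rcases hf with rfl | rfl <;> rcases hf' with h | h <;> obtain ⟨h1, h2⟩ := outer_eq h
  · exact hne (Prod.ext h1 h2)
  · rw [h1, h2] at hr3; exact absurd hr3 (not_lt.mpr hs3.le)
  · rw [h1, h2] at hr3; exact absurd hr3 (not_lt.mpr hs3.le)
  · exact hne (Prod.ext h2 h1)

/-- no edge from `x` in a direction of `T` is born -/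
def LvT (x : Vx d) (T : Finset (Fin d)) (l : List (Edge d)) : Prop := ∀ t ∈ T, ed x t ∉ l

theorem LvT.initial {x : Vx d} {T : Finset (Fin d)} {l m : List (Edge d)}
    (h : LvT x T (l ++ m)) : LvT x T l := fun t ht hl => h t ht (List.mem_append_left _ hl)

theorem outer_ne_inner {x : Vx d} {i k t : Fin d} (hik : i ≠ k) : ed (fl x i) k ≠ ed x t := by
  intro h
  obtain ⟨rfl, h | h⟩ := ed_eq_iff.mp h
  · exact fl_ne x i h
  · exact hik (fl_left_inj.mp h)

/-- the two outer edges do not conflict -/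
theorem outer_not_conf {x : Vx d} {T : Finset (Fin d)} {l : List (Edge d)} (hl : LvT x T l)
    {i k : Fin d} (hi : i ∈ T) : ed (fl x k) i ∉ Gm l (ed (fl x i) k) := by
  intro h
  set z := fl (fl x i) k with hz
  have e1 : ed (fl x i) k = ed z k := by rw [hz, ed_fl]
  have e2 : ed (fl x k) i = ed z i := by rw [hz, fl_comm, ed_fl]
  rw [e1, e2] at h
  have h2 := (star_mem h).2.1
  have e3 : fl z k = fl x i := by rw [hz, fl_fl]
  rw [e3, ed_fl] at h2
  exact hl i hi (acc_subset l _ h2)

theorem T_sep {x : Vx d} {T : Finset (Fin d)} {l : List (Edge d)} (hl : LvT x T l)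
    {r : Fin d × Fin d} (hr : r ∈ IT T) {g : Edge d} (hg : g ∈ VT x r) :
    Disjoint (VT x r) (Gm l g) ∧ LvT x T (l ++ [g]) := by
  obtain ⟨h1, h2, h3⟩ := mem_IT.mp hr
  rw [mem_VT] at hg
  constructor
  · rw [Finset.disjoint_left]
    intro f hf hfg
    rw [mem_VT] at hf
    rcases hf with rfl | rfl <;> rcases hg with rfl | rfl
    · exact ne_of_mem_gam hfg rfl
    · exact outer_not_conf hl h2 hfg
    · exact outer_not_conf hl h1 hfg
    · exact ne_of_mem_gam hfg rfl
  · intro t ht hmem
    rcases List.mem_append.mp hmem with h | h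
    · exact hl t ht h
    · rw [List.mem_singleton] at h
      rcases hg with rfl | rfl
      · exact outer_ne_inner h3.ne h.symm
      · exact outer_ne_inner h3.ne' h.symm

/-- inner edges which conflict with an outer edge -/
theorem T_Z {x : Vx d} {T : Finset (Fin d)} {l : List (Edge d)} (hl : LvT x T l) {i k : Fin d}
    (hik : i ≠ k) : (Gm l (ed (fl x i) k) ∩
      (opn l).filter (fun g => ¬ LvT x T (l ++ [g]))).card ≤ 2 := by
  have hsub : Gm l (ed (fl x i) k) ∩ (opn l).filter (fun g => ¬ LvT x T (l ++ [g])) ⊆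
      {ed x i, ed x k} := by
    intro g hg
    obtain ⟨h1, h2⟩ := mem_inter.mp hg
    obtain ⟨h3, h4⟩ := mem_filter.mp h2
    have h5 : ∃ t ∈ T, g = ed x t := by
      by_contra hcon
      push Not at hcon
      apply h4
      intro t ht hmem
      rcases List.mem_append.mp hmem with h | h
      · exact hl t ht h
      · rw [List.mem_singleton] at h
        exact hcon t ht h.symm
    obtain ⟨t, ht, rfl⟩ := h5
    obtain ⟨s, hs, hf⟩ := cof_of_mem_Gm h1
    rw [dir_ed] at hs
    rw [mem_nb_ed] at hf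
    rw [mem_insert, mem_singleton]
    rcases hf with h | h | h
    · obtain ⟨rfl, h | h⟩ := ed_eq_iff.mp h
      · exact absurd h (ne_fl x i)
      · left
        have : fl x t = fl x i := by
          have := congrArg (fun z => fl z t) h
          simpa using this
        rw [fl_left_inj.mp this]
    · obtain ⟨rfl, h | h⟩ := ed_eq_iff.mp h
      · exfalso
        have : fl x k = fl x i := by
          have := congrArg (fun z => fl z k) h
          simpa using this
        exact hik (fl_left_inj.mp this).symm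
      · exfalso
        have h6 : fl x t = fl (fl x i) k := by
          have := congrArg (fun z => fl z t) h
          simpa using this
        exact fl_ne_fl_fl _ _ _ _ h6
    · obtain ⟨rfl, _⟩ := ed_eq_iff.mp h
      right; rfl
  exact (card_le_card hsub).trans card_le_two

section
variable {L0 L1 B1 B2 : ℝ}

/-- drift formula for the pair family -/
theorem T_drift {x : Vx d} {T : Finset (Fin d)} {l : List (Edge d)} (hL1 : 0 ≤ L1)
    (hS : SB L0 L1 B1 B2 l.toFinset x) (hl : LvT x T l) (hpos : 0 < (rest l).card) {k : ℕ}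
    (hk : k ≤ 1) :
    |((rest l).card : ℝ) * drift (Xf (IT T) (VT x) k) (LvT x T) l -
      (gt (IT T) (VT x) 2 l k - lt (IT T) (VT x) k l)| ≤
      (158 + 8 * L1) * Xf (IT T) (VT x) k l := by
  have h := drift_main (I := IT T) (V := VT x) (v := 2) (k := k) (l := l)
    (live := LvT x T) VT_card (by omega) hpos ?_ (39 + 2 * ⌊L1⌋₊) ?_ ?_
  · refine h.trans ?_
    apply mul_le_mul_of_nonneg_right _ (Xf_nonneg _ _ _ _)
    push_cast
    have := Nat.floor_le hL1
    linarith
  · intro j _ r hr _ g hg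
    exact T_sep hl hr (mem_inter.mp hg).1
  · intro r hr _ f hf f' hf' hne
    have hf1 := (mem_inter.mp hf).1
    rw [mem_VT] at hf1
    rcases hf1 with rfl | rfl
    · exact overlap_SV (hS.s1 _) (hS.s2 _ _) hne.symm
    · exact overlap_SV (hS.s1 _) (hS.s2 _ _) hne.symm
  · intro r hr _ f hf
    have hf1 := (mem_inter.mp hf).1
    obtain ⟨_, _, hlt⟩ := mem_IT.mp hr
    rw [mem_VT] at hf1
    rcases hf1 with rfl | rfl
    · exact (T_Z hl hlt.ne).trans (by omega)
    · exact (T_Z hl hlt.ne').trans (by omega)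

theorem T_lt_le {x : Vx d} {T : Finset (Fin d)} {l : List (Edge d)}
    (hS : SB L0 L1 B1 B2 l.toFinset x) {k : ℕ} (hk : k ≤ 2) :
    lt (IT T) (VT x) k l ≤ (2 - k) * B2 * Xf (IT T) (VT x) k l := by
  have := lt_le_of_Gm (l := l) (I := IT T) (V := VT x) VT_card hk (B := B2) ?_
  · exact_mod_cast this
  · intro r _ f hf
    rw [mem_VT] at hf
    rcases hf with rfl | rfl
    · exact (Gm_le _ l).trans ((hS.s1 _).b2 _)
    · exact (Gm_le _ l).trans ((hS.s1 _).b2 _)

end

/-- codegrees into `T` -/
noncomputable def codTs (R : Finset (Edge d)) (x : Vx d) (T : Finset (Fin d)) (i q : Fin d) :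
    Finset (Fin d) :=
  T.filter (fun k => k ≠ q ∧ k ≠ i ∧ ed (fl (fl x i) q) k ∈ R ∧ ed (fl (fl x i) k) q ∈ R)

theorem codTs_mono {R R' : Finset (Edge d)} (h : R ⊆ R') (x : Vx d) (T : Finset (Fin d))
    (i q : Fin d) : codTs R x T i q ⊆ codTs R' x T i q := by
  intro r hr
  simp only [codTs, mem_filter] at hr ⊢
  exact ⟨hr.1, hr.2.1, hr.2.2.1, h hr.2.2.2.1, h hr.2.2.2.2⟩

theorem codTs_sub_cod0s (R : Finset (Edge d)) (x : Vx d) (T : Finset (Fin d)) (i q : Fin d) :
    codTs R x T i q ⊆ cod0s R (fl x i) q := by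
  intro r hr
  simp only [codTs, mem_filter] at hr
  unfold cod0s
  rw [mem_filter, mem_erase]
  exact ⟨⟨hr.2.1, mem_univ _⟩, hr.2.2.2.1, hr.2.2.2.2⟩

/-- ordered outer edges in conflict with `g` -/
noncomputable def OT (x : Vx d) (T : Finset (Fin d)) (l : List (Edge d)) (g : Edge d) :
    Finset (Fin d × Fin d) :=
  (T ×ˢ T).filter (fun r => r.1 ≠ r.2 ∧ ed (fl x r.1) r.2 ∈ Gm l g)

/-- pairs at distance two from `x` -/
noncomputable def PT (x y : Vx d) : Finset (Fin d × Fin d) :=
  univ.filter (fun r => r.1 ≠ r.2 ∧ y = fl (fl x r.1) r.2)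

theorem card_PT (x y : Vx d) : (PT x y).card ≤ 2 := by
  by_cases hne : PT x y = ∅
  · rw [hne]; simp
  obtain ⟨r, hr⟩ := Finset.nonempty_iff_ne_empty.mpr hne
  have hr2 := (mem_filter.mp hr).2
  have hsub : PT x y ⊆ {r, (r.2, r.1)} := by
    intro s hs
    have hs2 := (mem_filter.mp hs).2
    rw [mem_insert, mem_singleton]
    have h : fl (fl x s.1) s.2 = fl (fl x r.1) r.2 := by rw [← hs2.2, ← hr2.2]
    rcases fl_fl_eq hs2.1 h with ⟨h1, h2⟩ | ⟨h1, h2⟩
    · left; exact Prod.ext h1 h2
    · right; exact Prod.ext h1 h2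
  exact (card_le_card hsub).trans card_le_two

theorem card_OT {x : Vx d} {T : Finset (Fin d)} {l : List (Edge d)} {g : Edge d} {c : ℕ}
    (hg : ∀ t ∈ T, g ≠ ed x t)
    (hc : ∀ i ∈ T, g = ed (fl x i) (dir g) → (codTs (acc l) x T i (dir g)).card ≤ c) :
    (OT x T l g).card ≤ 8 + 2 * c := by
  obtain ⟨y, q, rfl⟩ := exists_ed g
  rw [dir_ed] at hc
  set I0 : Finset (Fin d) := (S1 y x ∪ S1 (fl y q) x).filter
    (fun i => i ∈ T ∧ ed y q = ed (fl x i) q) with hI0
  have hsub : OT x T l (ed y q) ⊆
      (I0.biUnion (fun i => (codTs (acc l) x T i q).image (fun k => (i, k)))) ∪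
      (PT x y ∪ (PT x (fl y q) ∪
      ((if q ∈ T then (if x = y then ∅ else S2 x y) else ∅).image (fun i => (i, q)) ∪
      (if q ∈ T then (if x = fl y q then ∅ else S2 x (fl y q)) else ∅).image (fun i => (i, q))))) := by
    intro r hr
    unfold OT at hr
    rw [mem_filter, mem_product] at hr
    obtain ⟨⟨hi, hk⟩, hik, hmem⟩ := hr
    set i := r.1 with hidef
    set k := r.2 with hkdef
    have hrik : r = (i, k) := rfl
    have key : ed y q = ed (fl x i) q → (fl x i = y ∨ fl x i = fl y q) →
        r ∈ I0.biUnion (fun i => (codTs (acc l) x T i q).image (fun k => (i, k))) := by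
      intro h hor
      rw [mem_biUnion]
      refine ⟨i, ?_, ?_⟩
      · rw [hI0, mem_filter, mem_union, mem_S1, mem_S1]
        exact ⟨by rcases hor with h1 | h1
                  · left; exact h1.symm
                  · right; exact h1.symm, hi, h⟩
      · rw [mem_image]
        refine ⟨k, ?_, hrik.symm⟩
        rw [h] at hmem
        have hs := star_mem hmem
        unfold codTs
        rw [mem_filter]
        exact ⟨hk, hs.1, hik.symm, hs.2.1, hs.2.2⟩
    obtain ⟨s, hs, hf⟩ := cof_of_mem_Gm hmem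
    rw [dir_ed] at hs
    rw [mem_nb_ed] at hf
    simp only [mem_union]
    rcases hf with h | h | h
    · obtain ⟨h1, h2 | h2⟩ := ed_eq_iff.mp h
      · left; exact key (by rw [h2]) (Or.inl h2)
      · right; left
        unfold PT
        rw [mem_filter]
        refine ⟨mem_univ _, hik, ?_⟩
        show y = fl (fl x i) k
        rw [h2, fl_fl]
    · obtain ⟨h1, h2 | h2⟩ := ed_eq_iff.mp h
      · left; exact key (by rw [h2, ed_fl]) (Or.inr h2)
      · right; right; left
        unfold PT
        rw [mem_filter]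
        refine ⟨mem_univ _, hik, ?_⟩
        show fl y q = fl (fl x i) k
        rw [h2, fl_fl]
    · obtain ⟨h1, h2 | h2⟩ := ed_eq_iff.mp h
      · right; right; right; left
        rw [mem_image]
        refine ⟨i, ?_, by rw [hrik, h1]⟩
        rw [if_pos (h1 ▸ hk), if_neg]
        · rw [mem_S2]; exact ⟨s, h2⟩
        · rintro rfl
          exact hg q (h1 ▸ hk) rfl
      · right; right; right; right
        rw [mem_image]
        refine ⟨i, ?_, by rw [hrik, h1]⟩
        rw [if_pos (h1 ▸ hk), if_neg]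
        · rw [mem_S2]
          refine ⟨s, ?_⟩
          rw [h2, h1, fl_comm]
        · intro hx
          apply hg q (h1 ▸ hk)
          rw [hx, ed_fl]
  have hI0c : I0.card ≤ 2 := by
    refine (card_le_card (filter_subset _ _)).trans ((card_union_le _ _).trans ?_)
    have h1 := card_S1 y x
    have h2 := card_S1 (fl y q) x
    omega
  have hb1 : (I0.biUnion (fun i => (codTs (acc l) x T i q).image (fun k => (i, k)))).card ≤ 2 * c := by
    refine card_biUnion_le.trans ?_
    refine (sum_le_card_nsmul _ _ c ?_).trans ?_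
    · intro i hi
      refine card_image_le.trans ?_
      obtain ⟨_, hiT, hgi⟩ := mem_filter.mp hi
      exact hc i hiT hgi
    · rw [smul_eq_mul]
      exact Nat.mul_le_mul_right _ hI0c
  have e1 : (((if q ∈ T then (if x = y then ∅ else S2 x y) else ∅) :
      Finset (Fin d)).image (fun i => (i, q))).card ≤ 2 := by
    refine card_image_le.trans ?_
    split
    · split
      · simp
      · rename_i h; exact card_S2 h
    · simp
  have e2 : (((if q ∈ T then (if x = fl y q then ∅ else S2 x (fl y q)) else ∅) :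
      Finset (Fin d)).image (fun i => (i, q))).card ≤ 2 := by
    refine card_image_le.trans ?_
    split
    · split
      · simp
      · rename_i h; exact card_S2 h
    · simp
  refine (card_le_card hsub).trans ?_
  have hu : ∀ (A B : Finset (Fin d × Fin d)) (a b : ℕ), A.card ≤ a → B.card ≤ b →
    (A ∪ B).card ≤ a + b :=
    fun A B a b h1 h2 => (card_union_le A B).trans (Nat.add_le_add h1 h2)
  have h0 := hu _ _ _ _ hb1 (hu _ _ _ _ (card_PT x y) (hu _ _ _ _ (card_PT x (fl y q))
    (hu _ _ _ _ e1 e2)))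
  omega

/-- cells in conflict with `g` -/
noncomputable def hitT (x : Vx d) (T : Finset (Fin d)) (l : List (Edge d)) (g : Edge d) :
    Finset (Fin d × Fin d) :=
  (IT T).filter (fun r => ¬ Disjoint (VT x r) (Gm l g))

theorem card_hitT {x : Vx d} {T : Finset (Fin d)} {l : List (Edge d)} {g : Edge d} {c : ℕ}
    (hg : ∀ t ∈ T, g ≠ ed x t)
    (hc : ∀ i ∈ T, g = ed (fl x i) (dir g) → (codTs (acc l) x T i (dir g)).card ≤ c) :
    (hitT x T l g).card ≤ 16 + 4 * c := by
  have h := card_OT hg hc
  have hsub : hitT x T l g ⊆ OT x T l g ∪ (OT x T l g).image (fun r => (r.2, r.1)) := by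
    intro r hr
    unfold hitT at hr
    rw [mem_filter, Finset.not_disjoint_iff] at hr
    obtain ⟨hrI, f, hf, hfg⟩ := hr
    obtain ⟨h1, h2, h3⟩ := mem_IT.mp hrI
    rw [mem_VT] at hf
    rw [mem_union, mem_image]
    rcases hf with rfl | rfl
    · left
      unfold OT
      rw [mem_filter, mem_product]
      exact ⟨⟨h1, h2⟩, h3.ne, hfg⟩
    · right
      refine ⟨(r.2, r.1), ?_, rfl⟩
      unfold OT
      rw [mem_filter, mem_product]
      exact ⟨⟨h2, h1⟩, h3.ne', hfg⟩
  have h2 := (card_le_card hsub).trans (card_union_le _ _)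
  have h3 : ((OT x T l g).image (fun r => (r.2, r.1))).card ≤ (OT x T l g).card := card_image_le
  omega

end Pool.Agent.Q2F
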