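import Mathlib
import Pool.Agent.MP_9431a4_pr.EProb

set_option autoImplicit false

/-!
Windows for general families with `k ≤ 1`.
-/

namespace Pool.Agent.Q2F

open Finset Classical

variable {d : ℕ}

namespace Par

variable (P : Par d)

/-- conflict degrees of clean open edges inside a block -/
theorem fineG {ω : List (Edge d)} (hω : ω.Nodup) (hlen : ω.length = Fintype.card (Edge d))
    {f : Edge d} (hOK : P.OK ω P.J f) {j : ℕ} (hj : j < P.J) {i : ℕ} (hi1 : P.mm j ≤ i)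
    (hi2 : i ≤ P.mm (j + 1)) (hfo : f ∈ opn (ω.take i)) :
    |((Gm (ω.take i) f).card : ℝ) - 3 * (P.al j) ^ 2 * (P.aa j / P.p)| ≤
      P.β ^ (-423 : ℤ) * (P.aa j / P.p) := by
  have h1 := P.window hω hlen hj.le (hOK.mono P hj.le) (opn_take_subset ω hi1 hfo) (k := 2) le_rfl
  have h2 := (hOK.cl P).crude P hω hj hi1 hi2 hfo (k := 2) le_rfl
  rw [card_Gm]
  have h3 : P.ww d 3 2 j = P.aa j / P.p := by
    unfold ww
    have h4 := P.d_p3
    have h5 := P.p_pos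
    rw [eq_div_iff h5.ne']
    calc (d : ℝ) * P.p ^ 2 * P.aa j ^ (3 - 2) * P.p = (d * P.p ^ 3) * P.aa j := by ring
      _ = P.aa j := by rw [h4, one_mul]
  have h4 : P.xx d 3 2 j = 3 * (P.al j) ^ 2 * (P.aa j / P.p) := by
    unfold xx
    rw [h3]
    have : ((Nat.choose 3 2 : ℕ) : ℝ) = 3 := by norm_num [Nat.choose]
    rw [this]
  rw [h3, h4] at h1
  rw [h3] at h2
  have h5 := P.ome_le hj.le
  have hq := P.q_pos j
  have h6 : Xf (Ie f) (nb f) 2 (ω.take i) - 3 * (P.al j) ^ 2 * (P.aa j / P.p) =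
      (Xe f 2 (ω.take i) - Xe f 2 (ω.take (P.mm j))) +
      (Xe f 2 (ω.take (P.mm j)) - 3 * (P.al j) ^ 2 * (P.aa j / P.p)) := by
    unfold Xe; ring
  rw [h6]
  refine (abs_add_le _ _).trans ?_
  have h7 : (P.ome j + P.β ^ (-584 : ℤ)) * (P.aa j / P.p) ≤ P.β ^ (-423 : ℤ) * (P.aa j / P.p) :=
    mul_le_mul_of_nonneg_right h5 hq.le
  linarith

/-- the errors for general families -/
noncomputable def omf (j : ℕ) : ℝ := P.om (P.β ^ (-584 : ℤ)) (P.β ^ (-423 : ℤ)) j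

theorem omf_nonneg (j : ℕ) : 0 ≤ P.omf j := P.om_nonneg (P.znn _) (P.znn _) j

theorem omf_le {j : ℕ} (hj : j ≤ P.J) : P.omf j + P.β ^ (-584 : ℤ) ≤ P.β ^ (-262 : ℤ) := by
  have := P.om_le_pow' (a := -423) (c := -584) (by norm_num) (by norm_num) hj
  norm_num at this
  exact this

theorem fam_window {M : ℝ} (hM : 0 < M) {v : ℕ} (hv1 : 1 ≤ v) (hv : v ≤ 2)
    {X D G Lt : ℕ → ℕ → ℝ} {R : ℕ → ℝ} {J' : ℕ} (hJ' : J' ≤ P.J)
    (h0 : ∀ k ≤ 1, |X k 0 - P.xx M v k 0| ≤ P.β ^ (-423 : ℤ) * P.ww M v k 0)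
    (h1 : ∀ k ≤ 1, ∀ j < J',
      |X k (P.mm (j + 1)) - X k (P.mm j) - ∑ i ∈ Ico (P.mm j) (P.mm (j + 1)), D k i| ≤
        P.Δ ^ 2 * P.ww M v k j)
    (hR : ∀ j < J', ∀ i ∈ Ico (P.mm j) (P.mm (j + 1)),
      P.N - P.N * P.β ^ (-3998 : ℤ) ≤ R i ∧ R i ≤ P.N)
    (h2 : ∀ k ≤ 1, ∀ j < J', ∀ i ∈ Ico (P.mm j) (P.mm (j + 1)),
      |R i * D k i - (G k i - Lt k i)| ≤ P.Δ * (P.aa j / P.p * P.ww M v k j))
    (hcr : ∀ k ≤ 1, ∀ j < J', ∀ i ∈ Ico (P.mm j) (P.mm (j + 1)),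
      |X k i - X k (P.mm j)| ≤ P.β ^ (-584 : ℤ) * P.ww M v k j)
    (hG0 : ∀ i, G 0 i = 0) (hG1 : ∀ i, G 1 i = v * X 0 i)
    (hLt : ∀ k ≤ 1, ∀ j < J', ∀ i ∈ Ico (P.mm j) (P.mm (j + 1)),
      |Lt k i - ((v - k : ℕ) : ℝ) * (3 * (P.al j) ^ 2 * (P.aa j / P.p)) * X k i| ≤
        ((v - k : ℕ) : ℝ) * P.β ^ (-423 : ℤ) * (P.aa j / P.p) * X k i)
    (hX0 : ∀ k i, 0 ≤ X k i)
    {j : ℕ} (hj : j ≤ J') {k : ℕ} (hk : k ≤ 1) :
    |X k (P.mm j) - P.xx M v k j| ≤ P.omf j * P.ww M v k j := by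
  induction j generalizing k with
  | zero =>
    rw [P.mm_zero]
    exact h0 k hk
  | succ j ih =>
    have hj' : j < J' := hj
    have hjJ : j < P.J := by omega
    have hcr0 := P.znn (-584)
    have hy := P.omf_le hjJ.le
    have hy1 : P.omf j + P.β ^ (-584 : ℤ) ≤ 1 := by
      refine hy.trans ?_
      have := P.zle (m := -262) (n := 0) (by norm_num)
      rwa [zpow_zero] at this
    have hW := P.ww_pos hM v k j
    have hwin : ∀ k' ≤ 1, ∀ i ∈ Ico (P.mm j) (P.mm (j + 1)), |X k' i - P.xx M v k' j| ≤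
        (P.omf j + P.β ^ (-584 : ℤ)) * P.ww M v k' j := by
      intro k' hk' i hi
      have a1 := ih hj'.le hk'
      have a2 := hcr k' hk' j hj' i hi
      have a3 : X k' i - P.xx M v k' j = (X k' i - X k' (P.mm j)) +
        (X k' (P.mm j) - P.xx M v k' j) := by ring
      rw [a3, add_mul]
      refine (abs_add_le _ _).trans ?_
      linarith
    have hq := P.q_pos j
    have := P.round_step hM (v := v) (k := k) (by omega) (by omega) (by omega) hjJ
      (ω := P.omf j) (cr := P.β ^ (-584 : ℤ)) (X := X k (P.mm j))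
      (X' := X k (P.mm (j + 1))) (D := D k) (G := G k) (Lt := Lt k) (Xi := X k) (R := R)
      (P.omf_nonneg j) hcr0 hy1 (ih hj'.le hk) (h1 k hk j hj') (hR j hj') (h2 k hk j hj')
      (hwin k hk) ?_ ?_
    · unfold omf at this ⊢
      rw [om_succ]
      exact this
    · intro i hi
      have hy0 : 0 ≤ P.omf j + P.β ^ (-584 : ℤ) := add_nonneg (P.omf_nonneg j) hcr0
      rcases Nat.eq_zero_or_pos k with hk0 | hk0
      · subst hk0
        simp only [hG0, Nat.cast_zero, zero_mul, mul_zero, sub_zero, abs_zero]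
        positivity
      · have hk1 : k = 1 := by omega
        subst hk1
        have a1 := hwin 0 (by norm_num) i hi
        rw [P.ww_pred (M := M) (v := v) (k := 0) (j := j) hv1] at a1
        have e1 : G 1 i - ((v.choose 1 : ℕ) : ℝ) * (((1 : ℕ) : ℝ) * P.al j ^ (1 - 1)) *
            (P.aa j / P.p * P.ww M v 1 j) = v * (X 0 i - P.xx M v 0 j) := by
          rw [hG1]
          unfold xx
          rw [P.ww_pred (M := M) (v := v) (k := 0) (j := j) hv1]
          simp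
          ring
        rw [e1, abs_mul, Nat.abs_cast]
        have hv3 : (v : ℝ) ≤ 3 := by exact_mod_cast (by omega : v ≤ 3)
        calc (v : ℝ) * |X 0 i - P.xx M v 0 j| ≤
            3 * ((P.omf j + P.β ^ (-584 : ℤ)) * (P.aa j / P.p * P.ww M v 1 j)) :=
              mul_le_mul hv3 a1 (abs_nonneg _) (by norm_num)
          _ = _ := by ring
    · intro i hi
      refine (hLt k hk j hj' i hi).trans ?_
      apply mul_le_mul_of_nonneg_right _ (hX0 k i)
      apply mul_le_mul_of_nonneg_right _ hq.le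
      apply mul_le_mul_of_nonneg_left _ (Nat.cast_nonneg _)
      have b1 := P.om_ge (cr := P.β ^ (-584 : ℤ)) (ω0 := P.β ^ (-423 : ℤ)) (P.znn _) (P.znn _) j
      have b2 : P.om (P.β ^ (-584 : ℤ)) (P.β ^ (-423 : ℤ)) j = P.omf j := rfl
      rw [b2] at b1
      linarith

end Par

end Pool.Agent.Q2F
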