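import Mathlib
import Pool.Agent.MP_9431a4_pr.FamWin

set_option autoImplicit false

/-!
The star of a vertex.
-/

namespace Pool.Agent.Q2F

open Finset Classical

variable {d : ℕ}

/-- single edges at a vertex -/
def Vs (x : Vx d) (i : Fin d) : Finset (Edge d) := {ed x i}

/-- functionals of the star -/
noncomputable def Xv (x : Vx d) (k : ℕ) (l : List (Edge d)) : ℝ := Xf univ (Vs x) k l

def LvX (_l : List (Edge d)) : Prop := True

theorem Vs_card (x : Vx d) : ∀ r ∈ (univ : Finset (Fin d)), (Vs x r).card = 1 :=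
  fun _ _ => card_singleton _

theorem Vs_disj (x : Vx d) : ∀ r ∈ (univ : Finset (Fin d)), ∀ s ∈ (univ : Finset (Fin d)),
    r ≠ s → Disjoint (Vs x r) (Vs x s) := by
  intro r _ s _ hne
  unfold Vs
  rw [disjoint_singleton]
  intro h
  exact hne (ed_eq_iff.mp h).1

theorem star_jump {l : List (Edge d)} {x : Vx d} {g : Edge d} {c : ℕ}
    (hc : ∀ q, (cod0s (acc l) x q).card ≤ c) :
    (univ.filter (fun r => ed x r ∈ Gm l g)).card ≤ 3 + c := by
  obtain ⟨y, q, rfl⟩ := exists_ed g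
  have hsub : univ.filter (fun r => ed x r ∈ Gm l (ed y q)) ⊆ S1 x y ∪ (S1 x (fl y q) ∪ ({q} ∪
      cod0s (acc l) x q)) := by
    intro r hr
    have hr2 := (mem_filter.mp hr).2
    have key : ed y q = ed x q → r ∈ cod0s (acc l) x q := by
      intro h
      rw [h] at hr2
      have := star_mem hr2
      unfold cod0s
      rw [mem_filter, mem_erase]
      exact ⟨⟨this.1, mem_univ _⟩, this.2.1, this.2.2⟩
    obtain ⟨s, hs, hf⟩ := cof_of_mem_Gm hr2
    rw [dir_ed] at hs
    rw [mem_nb_ed] at hf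
    simp only [mem_union, mem_singleton, mem_S1]
    rcases hf with h | h | h
    · obtain ⟨rfl, h | h⟩ := ed_eq_iff.mp h
      · right; right; right; exact key (by rw [h])
      · left; exact h
    · obtain ⟨rfl, h | h⟩ := ed_eq_iff.mp h
      · right; right; right; exact key (by rw [h, ed_fl])
      · right; left; exact h
    · obtain ⟨rfl, _⟩ := ed_eq_iff.mp h
      right; right; left; rfl
  refine (card_le_card hsub).trans ?_
  have hu : ∀ (A B : Finset (Fin d)) (a b : ℕ), A.card ≤ a → B.card ≤ b → (A ∪ B).card ≤ a + b :=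
    fun A B a b h1 h2 => (card_union_le A B).trans (Nat.add_le_add h1 h2)
  have h0 := hu _ _ _ _ (card_S1 x y) (hu _ _ _ _ (card_S1 x (fl y q)) (hu _ _ _ _
    (card_singleton q).le (hc q)))
  omega

theorem Xv_nonneg (x : Vx d) (k : ℕ) (l : List (Edge d)) : 0 ≤ Xv x k l := Xf_nonneg _ _ _ _

theorem Xv_le (x : Vx d) (k : ℕ) (l : List (Edge d)) : Xv x k l ≤ d := by
  unfold Xv Xf cnt
  have : ((univ : Finset (Fin d)).filter (fun r => Ty (acc l) (opn l) (Vs x r) k)).card ≤ d := by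
    refine (card_le_univ _).trans ?_
    simp
  exact_mod_cast this

section
variable {L0 L1 B1 B2 : ℝ}

theorem Xv_jump {x : Vx d} {l : List (Edge d)} (hS : SB L0 L1 B1 B2 l.toFinset x)
    {g : Edge d} (hg : g ∈ rest l) (k : ℕ) :
    |Xv x k (l ++ [g]) - Xv x k l| ≤ 4 + L0 := by
  have hL0 : 0 ≤ L0 ∨ d = 0 := by
    by_cases hd : d = 0
    · right; exact hd
    · left
      exact le_trans (Nat.cast_nonneg _) (hS.s0.c0 ⟨0, Nat.pos_of_ne_zero hd⟩)
  rcases hL0 with hL0 | hd
  · have h := jump_main (I := (univ : Finset (Fin d))) (V := Vs x) (k := k) hg (Vs_disj x)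
      (3 + ⌊L0⌋₊) ?_
    · unfold Xv
      push_cast at h
      have := Nat.floor_le hL0
      linarith
    · intro _
      refine (card_le_card ?_).trans (star_jump (l := l) (x := x) (g := g) (c := ⌊L0⌋₊)
        (fun q => hS.s0.cod0_acc q))
      intro r hr
      rw [mem_filter] at hr ⊢
      refine ⟨mem_univ _, ?_⟩
      have := hr.2.2
      unfold Vs at this
      rw [disjoint_singleton_left, not_not] at this
      exact this
  · subst hd
    obtain ⟨y, q, _⟩ := exists_ed g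
    exact q.elim0

theorem Xv_lt_le {x : Vx d} {l : List (Edge d)} (hS : SB L0 L1 B1 B2 l.toFinset x)
    {k : ℕ} (hk : k ≤ 1) : lt univ (Vs x) k l ≤ (1 - k) * B2 * Xv x k l := by
  have := lt_le_of_Gm (l := l) (I := (univ : Finset (Fin d))) (V := Vs x) (Vs_card x) hk
    (B := B2) ?_
  · exact_mod_cast this
  · intro r _ f hf
    unfold Vs at hf
    rw [mem_singleton] at hf
    subst hf
    exact (Gm_le _ l).trans (hS.s0.b2 r)

theorem Xv_drift {x : Vx d} {l : List (Edge d)} (hpos : 0 < (rest l).card) {k : ℕ} (hk : k ≤ 1) :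
    |((rest l).card : ℝ) * drift (Xv x k) LvX l -
      (gt univ (Vs x) 1 l k - lt univ (Vs x) k l)| ≤ Xv x k l := by
  have h := drift_main (I := (univ : Finset (Fin d))) (V := Vs x) (v := 1) (k := k) (l := l)
    (live := LvX) (Vs_card x) hk hpos ?_ 0 ?_ ?_
  · refine h.trans (le_of_eq ?_)
    unfold Xv
    push_cast
    ring
  · intro j _ r _ _ g hg
    refine ⟨?_, trivial⟩
    have h1 := (mem_inter.mp hg).1
    unfold Vs at h1 ⊢
    rw [mem_singleton] at h1
    subst h1
    rw [disjoint_singleton_left]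
    intro h
    exact ne_of_mem_gam h rfl
  · intro r _ _ f hf f' hf' hne
    exfalso
    have h1 := (mem_inter.mp hf).1
    have h2 := (mem_inter.mp hf').1
    unfold Vs at h1 h2
    rw [mem_singleton] at h1 h2
    exact hne (h1.trans h2.symm)
  · intro r _ _ f _
    have : (opn l).filter (fun g => ¬ LvX (l ++ [g])) = ∅ := by
      apply filter_false_of_mem
      intro g _ h
      exact h trivial
    rw [this, inter_empty, card_empty]

theorem Xv_var {x : Vx d} {l : List (Edge d)}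
    (hS : SB L0 L1 B1 B2 l.toFinset x) {k : ℕ} (hk : k ≤ 1) :
    av l (fun g => if LvX (l ++ [g]) then |Xv x k (l ++ [g]) - Xv x k l| else 0) ≤
      (gt univ (Vs x) 1 l k + (Xv x k l + (1 - k) * B2 * Xv x k l)) / (rest l).card := by
  have h := var_main (I := (univ : Finset (Fin d))) (V := Vs x) (v := 1) (k := k) (l := l)
    (live := LvX) (Vs_card x) hk
  refine h.trans ?_
  apply div_le_div_of_nonneg_right _ (Nat.cast_nonneg _)
  have := Xv_lt_le hS hk
  unfold Xv at this ⊢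
  push_cast
  linarith

end

namespace Par

variable (P : Par d)

def GX (x : Vx d) (l : List (Edge d)) : Prop :=
  l.length ≤ P.mm P.J ∧ P.SBP l.toFinset x

def XBad (x : Vx d) (j k : ℕ) (ω : List (Edge d)) : Prop :=
  Dev2 (Xv x k) LvX (P.GX x) (P.κe k) (P.mm j) (P.b j) ω

theorem Xv_Qe_bound {x : Vx d} {l : List (Edge d)} {k : ℕ}
    (hk : k ≤ 1) : gt univ (Vs x) 1 l k + (Xv x k l + (1 - k) * P.β ^ (4006 : ℤ) * Xv x k l) ≤
      P.Qe k := by
  have h0 := Xv_le x 0 l
  have h1 := Xv_le x 1 l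
  rw [P.hd] at h0 h1
  have n0 := Xv_nonneg x 0 l
  have n1 := Xv_nonneg x 1 l
  have z := P.znn 4006
  have z4 := P.zle (m := 0) (n := 4006) (by norm_num)
  rw [zpow_zero] at z4
  interval_cases k
  · rw [gt_zero]
    unfold Qe
    rw [if_pos rfl]
    have e1 : P.β ^ (4006 : ℤ) * P.β ^ (12000 : ℤ) = P.β ^ (16006 : ℤ) := by
      rw [P.zadd]; norm_num
    rw [← e1]
    have e2 : P.β ^ (4006 : ℤ) * Xv x 0 l ≤ P.β ^ (4006 : ℤ) * P.β ^ (12000 : ℤ) :=
      mul_le_mul_of_nonneg_left h0 z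
    have e3 : Xv x 0 l ≤ P.β ^ (4006 : ℤ) * P.β ^ (12000 : ℤ) := by
      calc Xv x 0 l = 1 * Xv x 0 l := (one_mul _).symm
        _ ≤ P.β ^ (4006 : ℤ) * Xv x 0 l := mul_le_mul_of_nonneg_right (by linarith) n0
        _ ≤ _ := e2
    push_cast
    nlinarith
  · rw [gt_succ]
    unfold Qe
    rw [if_neg (by norm_num), if_pos rfl]
    have e4 := P.zle (m := 12000) (n := 12010) (by norm_num)
    have e5 : Xf univ (Vs x) 0 l = Xv x 0 l := rfl
    rw [e5]
    push_cast
    have e6 := P.znn 12010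
    nlinarith

theorem Pr_XBad (x : Vx d) {j k : ℕ} (hj : j < P.J) (hk : k ≤ 1) :
    Pr (P.XBad x j k) ≤ Real.exp (-P.β ^ (605 : ℤ)) := by
  have hL1 : 1 ≤ P.β ^ (4007 : ℤ) := by
    have := P.zle (m := 0) (n := 4007) (by norm_num)
    rwa [zpow_zero] at this
  have h := P.mart_apply (f := Xv x k) (live := LvX) (good := P.GX x) hj (L := P.β ^ (4007 : ℤ))
    (Q := P.Qe k) (κ := P.κe k) hL1 (P.Qe_nonneg k) ?_ ?_ ?_
  · refine h.trans ?_
    have h1 : P.Δ * P.β ^ (-17 : ℤ) / P.β ^ (4007 : ℤ) * P.κe k / 2 =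
        P.Δ ^ 3 * P.β ^ (-17 - 4007 + (11997 - 4000 * (k : ℤ))) / 2 := by
      unfold κe
      rw [zpow_add₀ P.β_ne (-17 - 4007), zpow_sub₀ P.β_ne (-17) 4007]
      ring
    rw [h1]
    have h2 : P.β ^ (607 : ℤ) ≤ P.Δ ^ 3 * P.β ^ (-17 - 4007 + (11997 - 4000 * (k : ℤ))) := by
      calc P.β ^ (607 : ℤ) ≤ P.β ^ (-1803 : ℤ) * P.β ^ (-17 - 4007 + (11997 - 4000 * (k : ℤ))) := by
            rw [P.zadd]
            apply P.zle
            interval_cases k <;> norm_num
        _ ≤ _ := mul_le_mul_of_nonneg_right P.Δ3_ge (P.znn _)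
    have h3 := P.zc (c := 4) (by norm_num) (m := 605) (n := 607) (by norm_num)
    have h4 : 1 ≤ P.β ^ (605 : ℤ) := by
      have := P.zle (m := 0) (n := 605) (by norm_num)
      rwa [zpow_zero] at this
    have h5 : (2 : ℝ) ≤ Real.exp (P.β ^ (605 : ℤ)) := by
      have := Real.add_one_le_exp (P.β ^ (605 : ℤ))
      linarith
    generalize P.Δ ^ 3 * P.β ^ (-17 - 4007 + (11997 - 4000 * (k : ℤ))) = Y at h2
    calc 2 * Real.exp (-(Y / 2))
        ≤ Real.exp (P.β ^ (605 : ℤ)) * Real.exp (-(2 * P.β ^ (605 : ℤ))) := by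
          apply mul_le_mul h5 _ (Real.exp_pos _).le (Real.exp_pos _).le
          apply Real.exp_le_exp.mpr
          linarith
      _ = Real.exp (-P.β ^ (605 : ℤ)) := by rw [← Real.exp_add]; congr 1; ring
  · -- κ condition
    unfold κe Qe
    have hΔ : 0 ≤ P.Δ ^ 2 := by positivity
    have key : ∀ a n : ℤ, -4016 + a + 1 ≤ n →
        4 * P.β ^ (-4016 : ℤ) * (4 * P.β ^ a) * P.Δ ^ 2 ≤ P.Δ ^ 2 * P.β ^ n := by
      intro a n han
      have h1 : 4 * P.β ^ (-4016 : ℤ) * (4 * P.β ^ a) * P.Δ ^ 2 =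
          P.Δ ^ 2 * (16 * (P.β ^ (-4016 : ℤ) * P.β ^ a)) := by ring
      rw [h1, P.zadd]
      exact mul_le_mul_of_nonneg_left (P.zc (by norm_num) han) hΔ
    interval_cases k
    · rw [if_pos rfl]; exact key _ _ (by norm_num)
    · rw [if_neg (by norm_num), if_pos rfl]; exact key _ _ (by norm_num)
  · -- jumps
    rintro l hl ⟨hlen, hS⟩ g hg _
    refine (Xv_jump hS hg k).trans ?_
    have h1 := P.zc (c := 5) (by norm_num) (m := 4006) (n := 4007) (by norm_num)
    have h2 := P.zle (m := 0) (n := 4006) (by norm_num)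
    rw [zpow_zero] at h2
    linarith
  · rintro l hl ⟨hlen, hS⟩
    refine (Xv_var hS hk).trans ?_
    have h1 := P.rest_ge hl hlen
    have h2 := P.N_pos
    have h3 := P.Xv_Qe_bound (x := x) (l := l) hk
    have h4 : (0 : ℝ) < ((rest l).card : ℝ) := by linarith
    rw [div_le_div_iff₀ h4 h2]
    have h5 := P.Qe_nonneg k
    calc _ ≤ P.Qe k * P.N := mul_le_mul_of_nonneg_right h3 h2.le
      _ ≤ 2 * P.Qe k * ((rest l).card : ℝ) := by nlinarith

/-- sums of drifts over part of a block -/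
theorem sum_drift_le {D : ℕ → ℝ} {j i : ℕ} (hj : j < P.J)
    (hi2 : i ≤ P.mm (j + 1)) {Q : ℝ} (hQ : 0 ≤ Q)
    (h : ∀ i' ∈ Ico (P.mm j) i, |D i'| ≤ 4 * Q / P.N) :
    |∑ i' ∈ Ico (P.mm j) i, D i'| ≤ 4 * P.β ^ (-4599 : ℤ) * Q := by
  have hN := P.N_pos
  refine (abs_sum_le_sum_abs _ _).trans ?_
  refine (sum_le_sum h).trans ?_
  rw [sum_const, nsmul_eq_mul, Nat.card_Ico]
  have h1 := P.b_le' hj.le
  have h2 : (P.b j : ℝ) ≤ P.N * P.β ^ (-4599 : ℤ) := by
    refine h1.trans ?_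
    rw [mul_assoc]
    apply mul_le_mul_of_nonneg_left _ hN.le
    calc P.Δ * P.β ^ (-3999 : ℤ) ≤ P.β ^ (-600 : ℤ) * P.β ^ (-3999 : ℤ) :=
          mul_le_mul_of_nonneg_right P.Δ_le (P.znn _)
      _ = P.β ^ (-4599 : ℤ) := by rw [P.zadd]; norm_num
  have h3 : ((i - P.mm j : ℕ) : ℝ) ≤ P.b j := by
    have h4 : i - P.mm j ≤ P.b j := by
      have := P.mm_succ j
      omega
    exact_mod_cast h4
  calc ((i - P.mm j : ℕ) : ℝ) * (4 * Q / P.N) ≤ (P.N * P.β ^ (-4599 : ℤ)) * (4 * Q / P.N) :=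
        mul_le_mul_of_nonneg_right (h3.trans h2) (by positivity)
    _ = _ := by field_simp

theorem acc_nil_opn : opn ([] : List (Edge d)) = univ := by
  have hacc : acc ([] : List (Edge d)) = ∅ := rfl
  ext g
  rw [mem_opn]
  simp only [List.not_mem_nil, not_false_eq_true, true_and, mem_univ, iff_true, hacc]
  rintro ⟨r, hr, h⟩
  have := card_nb hr
  rw [subset_empty.mp h] at this
  simp at this

theorem aa_zero : P.aa 0 = 1 := by unfold aa; rw [P.al_zero]; simp

/-- windows for the star of a vertex -/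
theorem xwindow {ω : List (Edge d)} (hω : ω.Nodup) (hlen : ω.length = Fintype.card (Edge d))
    {x : Vx d} (hGV : P.GV ω x) (hM : ∀ j < P.J, ∀ k ≤ 1, ¬ P.XBad x j k ω)
    {j : ℕ} (hj : j ≤ P.J) {k : ℕ} (hk : k ≤ 1) :
    |Xv x k (ω.take (P.mm j)) - P.xx d 1 k j| ≤ P.omf j * P.ww d 1 k j := by
  have hd0 := P.d_pos
  have hlei : ∀ j < P.J, ∀ i ≤ P.mm (j + 1), i ≤ Fintype.card (Edge d) := fun j hj i hi =>
      hi.trans (P.mm_le_card hj)
  have hlen_i : ∀ j < P.J, ∀ i ≤ P.mm (j + 1), (ω.take i).length = i := by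
    intro j hj i hi
    rw [List.length_take, hlen]
    exact min_eq_left (hlei j hj i hi)
  have hGX : ∀ i ≤ P.mm P.J, P.GX x (ω.take i) := fun i hi =>
    ⟨P.length_take_le ω hi, hGV.1.mono (toFinset_take_subset ω hi)⟩
  have hmJ : ∀ j < P.J, P.mm (j + 1) ≤ P.mm P.J := fun j hj => P.mm_mono hj
  have hrest : ∀ i ≤ P.mm P.J, P.N / 2 ≤ ((rest (ω.take i)).card : ℝ) := fun i hi =>
    P.rest_ge (take_nodup hω _) (P.length_take_le ω hi)
  have hN := P.N_pos
  have hrpos : ∀ i ≤ P.mm P.J, 0 < (rest (ω.take i)).card := by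
    intro i hi
    have h1 := hrest i hi
    have : (0 : ℝ) < ((rest (ω.take i)).card : ℝ) := by linarith
    exact_mod_cast this
  -- deviations
  have hdev : ∀ k ≤ 1, ∀ j < P.J, ∀ i, P.mm j ≤ i → i ≤ P.mm (j + 1) →
      |comp (Xv x k) (drift (Xv x k) LvX) ω (P.mm j) i| < P.κe k := by
    intro k hk j hj i hi1 hi2
    by_contra hcon
    push Not at hcon
    apply hM j hj k hk
    refine ⟨i, hi1, by rw [← P.mm_succ]; exact hi2, fun _ _ _ => trivial, ?_, hcon⟩
    intro i' _ h2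
    exact hGX i' (by have := hmJ j hj; omega)
  -- crude bounds for the functionals
  have hX1 : ∀ i ≤ P.mm P.J, Xv x 1 (ω.take i) ≤ P.β ^ (8005 : ℤ) := by
    intro i hi
    have hS := (hGX i hi).2
    have hd1 : 0 < d := by exact_mod_cast hd0
    have h1 := hS.s0.b1 ⟨0, hd1⟩
    have h2 : Xv x 1 (ω.take i) ≤ 1 + ((deg1s (ω.take i).toFinset (ed x ⟨0, hd1⟩)).card : ℝ) := by
      unfold Xv Xf cnt
      have : (univ : Finset (Fin d)).filter (fun r => Ty (acc (ω.take i)) (opn (ω.take i))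
          (Vs x r) 1) ⊆ {⟨0, hd1⟩} ∪ deg1s (ω.take i).toFinset (ed x ⟨0, hd1⟩) := by
        intro r hr
        have hr2 := (mem_filter.mp hr).2
        rw [mem_union, mem_singleton]
        by_cases hr0 : r = ⟨0, hd1⟩
        · left; exact hr0
        · right
          unfold deg1s
          rw [mem_filter, mem_Ie]
          refine ⟨by rw [dir_ed]; exact hr0, ed x r, ?_, ?_⟩
          · rw [mem_nb_ed]; left; rfl
          · apply acc_subset_toFinset
            have h3 : 0 < (Vs x r ∩ acc (ω.take i)).card := by rw [hr2.2]; norm_num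
            obtain ⟨f, hf⟩ := card_pos.mp h3
            obtain ⟨h4, h5⟩ := mem_inter.mp hf
            unfold Vs at h4
            rw [mem_singleton] at h4
            rw [← h4]; exact h5
      have h6 := (card_le_card this).trans (card_union_le _ _)
      rw [card_singleton] at h6
      exact_mod_cast h6
    have h7 := P.zc (c := 2) (by norm_num) (m := 8004) (n := 8005) (by norm_num)
    have h8 := P.zle (m := 0) (n := 8004) (by norm_num)
    rw [zpow_zero] at h8
    linarith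
  have hX0d : ∀ i, Xv x 0 (ω.take i) ≤ P.β ^ (12000 : ℤ) := by
    intro i; rw [← P.hd]; exact Xv_le x 0 _
  -- lower bounds for the scales
  have haa : ∀ j ≤ P.J, P.β ^ (-1 : ℤ) ≤ P.aa j := fun j hj => P.le_aa hj
  have hw0 : ∀ j ≤ P.J, P.β ^ (11999 : ℤ) ≤ P.ww d 1 0 j := by
    intro j hj
    unfold ww
    rw [P.hd, pow_zero, mul_one, Nat.sub_zero, pow_one]
    calc P.β ^ (11999 : ℤ) = P.β ^ (12000 : ℤ) * P.β ^ (-1 : ℤ) := by rw [P.zadd]; norm_num
      _ ≤ _ := mul_le_mul_of_nonneg_left (haa j hj) (P.znn _)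
  have hw1 : ∀ j, P.ww d 1 1 j = P.β ^ (8000 : ℤ) := by
    intro j
    unfold ww p
    rw [P.hd, pow_one, P.zadd]
    norm_num
  have hκ : ∀ k ≤ 1, ∀ j ≤ P.J, P.κe k ≤ P.Δ ^ 2 * P.ww d 1 k j := by
    intro k hk j hj
    unfold κe
    apply mul_le_mul_of_nonneg_left _ (by positivity)
    interval_cases k
    · exact (P.zle (by norm_num)).trans (hw0 j hj)
    · rw [hw1 j]; exact P.zle (by norm_num)
  have hq3 : ∀ j ≤ P.J, P.β ^ (3398 : ℤ) ≤ P.Δ * (P.aa j / P.p) := by
    intro j hj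
    have b1 := P.le_Δ'
    have b2 := P.le_aa hj
    have b3 : P.β ^ (3999 : ℤ) ≤ P.aa j / P.p := by
      rw [le_div_iff₀ P.p_pos]
      unfold p
      rw [P.zadd]
      norm_num
      norm_num at b2
      exact b2
    calc P.β ^ (3398 : ℤ) = P.β ^ (-601 : ℤ) * P.β ^ (3999 : ℤ) := by rw [P.zadd]; norm_num
      _ ≤ _ := mul_le_mul b1 b3 (P.znn _) P.Δ_pos.le
  have hDcr : ∀ k ≤ 1, ∀ i ≤ P.mm P.J, |drift (Xv x k) LvX (ω.take i)| ≤ 4 * P.Qe k / P.N := by
    intro k hk i hi
    have h1 := Xv_drift (x := x) (hrpos i hi) hk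
    have h2 := Xv_lt_le (hGX i hi).2 hk
    have h3 := P.Xv_Qe_bound (x := x) (l := ω.take i) hk
    have h4 := hrest i hi
    have hX := Xv_nonneg x k (ω.take i)
    have hlt : 0 ≤ lt univ (Vs x) k (ω.take i) := lt_nonneg _ _ _ _
    have hgt : 0 ≤ gt univ (Vs x) 1 (ω.take i) k := gt_nonneg (by omega)
    have hQ := P.Qe_nonneg k
    have hR : ((rest (ω.take i)).card : ℝ) * |drift (Xv x k) LvX (ω.take i)| ≤ P.Qe k := by
      have h5 : ((rest (ω.take i)).card : ℝ) * |drift (Xv x k) LvX (ω.take i)| =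
          |((rest (ω.take i)).card : ℝ) * drift (Xv x k) LvX (ω.take i)| := by
        rw [abs_mul, Nat.abs_cast]
      rw [h5]
      have h6 : ((rest (ω.take i)).card : ℝ) * drift (Xv x k) LvX (ω.take i) =
          (((rest (ω.take i)).card : ℝ) * drift (Xv x k) LvX (ω.take i) -
            (gt univ (Vs x) 1 (ω.take i) k - lt univ (Vs x) k (ω.take i))) +
          (gt univ (Vs x) 1 (ω.take i) k - lt univ (Vs x) k (ω.take i)) := by ring
      rw [h6]
      refine (abs_add_le _ _).trans ?_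
      have h7 : |gt univ (Vs x) 1 (ω.take i) k - lt univ (Vs x) k (ω.take i)| ≤
          gt univ (Vs x) 1 (ω.take i) k + lt univ (Vs x) k (ω.take i) := by
        rw [abs_le]
        constructor <;> linarith
      linarith
    rw [le_div_iff₀ hN]
    have h8 : 0 ≤ |drift (Xv x k) LvX (ω.take i)| := abs_nonneg _
    nlinarith
  have hQw : ∀ k ≤ 1, ∀ j ≤ P.J, 4 * P.β ^ (-4599 : ℤ) * P.Qe k ≤
      P.β ^ (-585 : ℤ) * P.ww d 1 k j := by
    intro k hk j hj
    have e : ∀ a b : ℤ, -4599 + a + 1 ≤ -585 + b → 4 * P.β ^ (-4599 : ℤ) * (4 * P.β ^ a) ≤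
        P.β ^ (-585 : ℤ) * P.β ^ b := by
      intro a b hab
      calc 4 * P.β ^ (-4599 : ℤ) * (4 * P.β ^ a) = 16 * (P.β ^ (-4599 : ℤ) * P.β ^ a) := by ring
        _ = 16 * P.β ^ (-4599 + a) := by rw [P.zadd]
        _ ≤ P.β ^ (-585 + b) := P.zc (by norm_num) hab
        _ = _ := by rw [P.zadd]
    interval_cases k
    · unfold Qe
      rw [if_pos rfl]
      exact (e 16006 11999 (by norm_num)).trans (mul_le_mul_of_nonneg_left (hw0 j hj) (P.znn _))
    · unfold Qe
      rw [if_neg (by norm_num), if_pos rfl, hw1 j]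
      exact e 12010 8000 (by norm_num)
  have hΔ2 : P.Δ ^ 2 ≤ P.β ^ (-585 : ℤ) := by
    have h1 := P.Δ_le
    have h2 := P.Δ_le_one
    have h3 := P.zle (m := -600) (n := -585) (by norm_num)
    have h4 := P.Δ_pos
    nlinarith
  have h6 := P.zc (c := 2) (by norm_num) (m := -585) (n := -584) (by norm_num)
  refine P.fam_window (M := d) hd0 (v := 1) le_rfl (by norm_num)
    (X := fun k i => Xv x k (ω.take i))
    (D := fun k i => drift (Xv x k) LvX (ω.take i))
    (G := fun k i => gt univ (Vs x) 1 (ω.take i) k)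
    (Lt := fun k i => lt univ (Vs x) k (ω.take i))
    (R := fun i => ((rest (ω.take i)).card : ℝ)) (J' := P.J) le_rfl ?_ ?_ ?_ ?_ ?_ ?_ ?_ ?_ ?_ hj hk
  · -- initial values
    intro k hk
    simp only [List.take_zero]
    interval_cases k
    · have hX : Xv x 0 ([] : List (Edge d)) = d := by
        unfold Xv Xf cnt
        rw [filter_true_of_mem]
        · simp
        · intro r _
          refine ⟨?_, ?_⟩
          · rw [acc_nil_opn]; simp
          · rw [acc_nil]; simp
      have hxx : P.xx d 1 0 0 = d := by unfold xx ww; rw [P.aa_zero]; simp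
      rw [hX, hxx, sub_self, abs_zero]
      exact mul_nonneg (P.znn _) (P.ww_pos hd0 1 0 0).le
    · have hX : Xv x 1 ([] : List (Edge d)) = 0 := by
        unfold Xv Xf cnt
        rw [filter_false_of_mem]
        · simp
        · rintro r _ ⟨_, h2⟩
          rw [acc_nil, inter_empty, card_empty] at h2
          omega
      have hxx : P.xx d 1 1 0 = 0 := by
        unfold xx; rw [P.al_zero]; ring
      rw [hX, hxx, sub_zero, abs_zero]
      exact mul_nonneg (P.znn _) (P.ww_pos hd0 1 1 0).le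
  · intro k hk j hj
    have h1 := (hdev k hk j hj (P.mm (j + 1)) (P.mm_mono (Nat.le_succ j)) le_rfl).le
    unfold comp at h1
    exact h1.trans (hκ k hk j hj.le)
  · intro j hj i hi
    obtain ⟨hi1, hi2⟩ := mem_Ico.mp hi
    constructor
    · rw [card_rest (take_nodup hω _), hlen_i j hj i hi2.le, Nat.cast_sub (hlei j hj i hi2.le)]
      have h3 : (i : ℝ) ≤ P.mm (j + 1) := by exact_mod_cast hi2.le
      have h4 := P.mm_le (j := j + 1) hj
      have h5 : P.N = (Fintype.card (Edge d) : ℝ) := rfl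
      linarith
    · exact P.rest_le (take_nodup hω _)
  · intro k hk j hj i hi
    obtain ⟨hi1, hi2⟩ := mem_Ico.mp hi
    have hiJ : i ≤ P.mm P.J := by have := hmJ j hj; omega
    refine (Xv_drift (x := x) (hrpos i hiJ) hk).trans ?_
    have hW := P.ww_pos hd0 1 k j
    interval_cases k
    · have h1 := hX0d i
      have h2 := hw0 j hj.le
      have h3 := hq3 j hj.le
      calc Xv x 0 (ω.take i) ≤ P.β ^ (12000 : ℤ) := h1
        _ ≤ P.β ^ (3398 : ℤ) * P.β ^ (11999 : ℤ) := by rw [P.zadd]; exact P.zle (by norm_num)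
        _ ≤ (P.Δ * (P.aa j / P.p)) * P.ww d 1 0 j := mul_le_mul h3 h2 (P.znn _)
            ((P.znn _).trans h3)
        _ = _ := by ring
    · have h1 := hX1 i hiJ
      have h3 := hq3 j hj.le
      calc Xv x 1 (ω.take i) ≤ P.β ^ (8005 : ℤ) := h1
        _ ≤ P.β ^ (3398 : ℤ) * P.β ^ (8000 : ℤ) := by rw [P.zadd]; exact P.zle (by norm_num)
        _ ≤ (P.Δ * (P.aa j / P.p)) * P.ww d 1 1 j := by
            rw [hw1 j]
            exact mul_le_mul_of_nonneg_right h3 (P.znn _)
        _ = _ := by ring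
  · -- crude
    intro k hk j hj i hi
    obtain ⟨hi1, hi2⟩ := mem_Ico.mp hi
    have hiJ : i ≤ P.mm P.J := by have := hmJ j hj; omega
    have h1 := hdev k hk j hj i hi1 hi2.le
    unfold comp at h1
    have h2 := P.sum_drift_le (D := fun i' => drift (Xv x k) LvX (ω.take i')) hj hi2.le
      (P.Qe_nonneg k) (by
        intro i' hi'
        exact hDcr k hk i' (by have := (mem_Ico.mp hi').2; omega))
    have h3 := hκ k hk j hj.le
    have h4 := hQw k hk j hj.le
    have hW := P.ww_pos hd0 1 k j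
    have h5 : P.Δ ^ 2 * P.ww d 1 k j ≤ P.β ^ (-585 : ℤ) * P.ww d 1 k j :=
      mul_le_mul_of_nonneg_right hΔ2 hW.le
    have h8 : 2 * P.β ^ (-585 : ℤ) * P.ww d 1 k j ≤ P.β ^ (-584 : ℤ) * P.ww d 1 k j :=
      mul_le_mul_of_nonneg_right h6 hW.le
    have h7 : Xv x k (ω.take i) - Xv x k (ω.take (P.mm j)) =
        (Xv x k (ω.take i) - Xv x k (ω.take (P.mm j)) -
          ∑ i' ∈ Ico (P.mm j) i, drift (Xv x k) LvX (ω.take i')) +
          ∑ i' ∈ Ico (P.mm j) i, drift (Xv x k) LvX (ω.take i') := by ring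
    rw [h7]
    refine (abs_add_le _ _).trans ?_
    linarith
  · intro i; exact gt_zero _ _ _ _
  · intro i
    have e := gt_succ (univ : Finset (Fin d)) (Vs x) 1 0 (ω.take i)
    rw [e]
    unfold Xv
    push_cast
    ring
  · -- loss term
    intro k hk j hj i hi
    obtain ⟨hi1, hi2⟩ := mem_Ico.mp hi
    have h1 := lt_two_sided (I := (univ : Finset (Fin d))) (V := Vs x) (v := 1) (k := k)
      (l := ω.take i) (g0 := 3 * (P.al j) ^ 2 * (P.aa j / P.p))
      (δ0 := P.β ^ (-423 : ℤ) * (P.aa j / P.p)) (Vs_card x) ?_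
    · refine h1.trans (le_of_eq ?_)
      unfold Xv
      ring
    · intro r _ _ f hf
      obtain ⟨hf1, hf2⟩ := mem_inter.mp hf
      unfold Vs at hf1
      rw [mem_singleton] at hf1
      subst hf1
      exact P.fineG hω hlen (hGV.2.1 r) hj hi1 hi2.le hf2
  · intro k i; exact Xv_nonneg _ _ _

end Par

end Pool.Agent.Q2F
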