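import Mathlib
import Pool.Agent.MP_9431a4_pr.TGeo
import Pool.Agent.MP_9431a4_pr.XFam

set_option autoImplicit false

/-!
Concentration for the pair family, with heavy steps removed.
-/

namespace Pool.Agent.Q2F

open Finset Classical

variable {d : ℕ}

/-- functionals of the pair family -/
noncomputable def XT (x : Vx d) (T : Finset (Fin d)) (k : ℕ) (l : List (Edge d)) : ℝ :=
  Xf (IT T) (VT x) k l

theorem XT_nonneg (x : Vx d) (T : Finset (Fin d)) (k : ℕ) (l : List (Edge d)) :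
    0 ≤ XT x T k l := Xf_nonneg _ _ _ _

theorem XT_le (x : Vx d) (T : Finset (Fin d)) (k : ℕ) (l : List (Edge d)) :
    XT x T k l ≤ (IT T).card := by
  unfold XT Xf cnt
  exact_mod_cast card_le_card (filter_subset _ _)

/-- heavy step -/
def hvy (x : Vx d) (T : Finset (Fin d)) (K0 : ℕ) (l : List (Edge d)) (g : Edge d) : Prop :=
  g ∈ opn l ∧ K0 < (hitT x T l g).card

/-- the last step of a history is heavy -/
def hvyL (x : Vx d) (T : Finset (Fin d)) (K0 : ℕ) (l' : List (Edge d)) : Prop :=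
  ∃ l g, l' = l ++ [g] ∧ hvy x T K0 l g

theorem hvyL_append {x : Vx d} {T : Finset (Fin d)} {K0 : ℕ} {l : List (Edge d)} {g : Edge d} :
    hvyL x T K0 (l ++ [g]) ↔ hvy x T K0 l g := by
  constructor
  · rintro ⟨l', g', h1, h2⟩
    obtain ⟨h3, h4⟩ := List.append_inj' h1 rfl
    rw [List.cons.injEq] at h4
    rw [h3, h4.1]; exact h2
  · intro h; exact ⟨l, g, rfl, h⟩

/-- accumulated changes in heavy steps -/
noncomputable def HT (x : Vx d) (T : Finset (Fin d)) (K0 k : ℕ) (l : List (Edge d)) : ℝ :=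
  ∑ i ∈ range l.length, (if hvyL x T K0 (l.take (i + 1)) then
    XT x T k (l.take i) - XT x T k (l.take (i + 1)) else 0)

/-- the modified functional -/
noncomputable def FT (x : Vx d) (T : Finset (Fin d)) (K0 k : ℕ) (l : List (Edge d)) : ℝ :=
  XT x T k l + HT x T K0 k l

theorem HT_append (x : Vx d) (T : Finset (Fin d)) (K0 k : ℕ) (l : List (Edge d)) (g : Edge d) :
    HT x T K0 k (l ++ [g]) = HT x T K0 k l + (if hvy x T K0 l g then
      XT x T k l - XT x T k (l ++ [g]) else 0) := by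
  unfold HT
  rw [List.length_append, List.length_singleton, sum_range_succ]
  congr 1
  · apply sum_congr rfl
    intro i hi
    have hi' := mem_range.mp hi
    rw [List.take_append_of_le_length (by omega), List.take_append_of_le_length (by omega)]
  · have h1 : (l ++ [g]).take (l.length + 1) = l ++ [g] := by
      rw [List.take_of_length_le]; simp
    have h2 : (l ++ [g]).take l.length = l := by
      rw [List.take_append_of_le_length le_rfl, List.take_length]
    rw [h1, h2]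
    by_cases h : hvy x T K0 l g
    · rw [if_pos h, if_pos (hvyL_append.mpr h)]
    · rw [if_neg h, if_neg (fun h' => h (hvyL_append.mp h'))]

theorem FT_step (x : Vx d) (T : Finset (Fin d)) (K0 k : ℕ) (l : List (Edge d)) (g : Edge d) :
    FT x T K0 k (l ++ [g]) - FT x T K0 k l = if hvy x T K0 l g then 0 else
      XT x T k (l ++ [g]) - XT x T k l := by
  unfold FT
  rw [HT_append]
  split <;> ring

theorem FT_jump {x : Vx d} {T : Finset (Fin d)} {K0 k : ℕ} {l : List (Edge d)} {g : Edge d}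
    (hg : g ∈ rest l) : |FT x T K0 k (l ++ [g]) - FT x T K0 k l| ≤ K0 + 1 := by
  rw [FT_step]
  split
  · rw [abs_zero]; positivity
  · rename_i h
    unfold XT
    apply jump_main hg VT_disj K0
    intro hgo
    unfold hvy at h
    push Not at h
    refine (card_le_card ?_).trans (h hgo)
    intro r hr
    unfold hitT
    rw [mem_filter] at hr ⊢
    exact ⟨hr.1, hr.2.2⟩

theorem FT_var {x : Vx d} {T : Finset (Fin d)} {K0 k : ℕ} {l : List (Edge d)} (hk : k ≤ 2)
    {live : List (Edge d) → Prop} :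
    av l (fun g => if live (l ++ [g]) then
      |FT x T K0 k (l ++ [g]) - FT x T K0 k l| else 0) ≤
      (gt (IT T) (VT x) 2 l k + (2 * XT x T k l + lt (IT T) (VT x) k l)) / (rest l).card := by
  have h := var_main (I := IT T) (V := VT x) (v := 2) (k := k) (l := l)
    (live := live) VT_card (by omega)
  refine le_trans ?_ (h.trans (le_of_eq ?_))
  · apply av_mono
    intro g _
    split
    · rw [FT_step]
      split
      · rw [abs_zero]; exact abs_nonneg _
      · exact le_rfl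
    · exact le_rfl
  · unfold XT
    push_cast
    ring

/-- pairs touched by a set -/
noncomputable def touT (R : Finset (Edge d)) (x : Vx d) (T : Finset (Fin d)) :
    Finset (Fin d × Fin d) := (IT T).filter (fun r => ∃ f ∈ VT x r, f ∈ R)

theorem touT_mono {R R' : Finset (Edge d)} (h : R ⊆ R') (x : Vx d) (T : Finset (Fin d)) :
    touT R x T ⊆ touT R' x T := by
  intro r hr
  unfold touT at hr ⊢
  rw [mem_filter] at hr ⊢
  obtain ⟨h1, f, hf, hfR⟩ := hr
  exact ⟨h1, f, hf, h hfR⟩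

theorem XT1_le (x : Vx d) (T : Finset (Fin d)) (l : List (Edge d)) :
    XT x T 1 l ≤ ((touT l.toFinset x T).card : ℝ) := by
  unfold XT Xf cnt
  have : (IT T).filter (fun r => Ty (acc l) (opn l) (VT x r) 1) ⊆ touT l.toFinset x T := by
    intro r hr
    obtain ⟨h1, h2⟩ := mem_filter.mp hr
    have h3 : 0 < (VT x r ∩ acc l).card := by rw [h2.2]; norm_num
    obtain ⟨f, hf⟩ := card_pos.mp h3
    unfold touT
    rw [mem_filter]
    exact ⟨h1, f, (mem_inter.mp hf).1, acc_subset_toFinset l (mem_inter.mp hf).2⟩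
  exact_mod_cast card_le_card this

namespace Par

variable (P : Par d)

/-- histories to which the concentration inequality applies -/
def GT (x : Vx d) (T : Finset (Fin d)) (l : List (Edge d)) : Prop :=
  LvT x T l ∧ l.length ≤ P.mm P.J ∧ P.SBP l.toFinset x ∧
    ((touT l.toFinset x T).card : ℝ) ≤ (IT T).card * P.β ^ (-3997 : ℤ)

/-- threshold for heavy steps -/
noncomputable def K0 : ℕ := ⌊P.β ^ (2169 : ℤ)⌋₊

theorem K0_le : ((P.K0 : ℕ) : ℝ) + 1 ≤ P.β ^ (2170 : ℤ) := by
  have h1 : ((P.K0 : ℕ) : ℝ) ≤ P.β ^ (2169 : ℤ) := Nat.floor_le (P.znn _)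
  have h2 := P.zc (c := 2) (by norm_num) (m := 2169) (n := 2170) (by norm_num)
  have h3 := P.zle (m := 0) (n := 2169) (by norm_num)
  rw [zpow_zero] at h3
  linarith

/-- allowed deviation -/
noncomputable def κT (T : Finset (Fin d)) (k : ℕ) : ℝ :=
  P.Δ ^ 2 * ((IT T).card * P.β ^ (-3 - 4000 * (k : ℤ)))

/-- variance numerators -/
noncomputable def QT (T : Finset (Fin d)) (k : ℕ) : ℝ :=
  (IT T).card * (4 * P.β ^ (if k = 0 then (4006 : ℤ) else 9))

theorem QT_nonneg (T : Finset (Fin d)) (k : ℕ) : 0 ≤ P.QT T k := by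
  unfold QT
  have := P.znn (if k = 0 then (4006 : ℤ) else 9)
  positivity

def TBad (x : Vx d) (T : Finset (Fin d)) (j k : ℕ) (ω : List (Edge d)) : Prop :=
  Dev2 (FT x T P.K0 k) (LvT x T) (P.GT x T) (P.κT T k) (P.mm j) (P.b j) ω

theorem QT_bound {x : Vx d} {T : Finset (Fin d)} {l : List (Edge d)} (hG : P.GT x T l) {k : ℕ}
    (hk : k ≤ 1) : gt (IT T) (VT x) 2 l k + (2 * XT x T k l + lt (IT T) (VT x) k l) ≤ P.QT T k := by
  obtain ⟨_, _, hS, htou⟩ := hG
  have h0 := XT_le x T 0 l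
  have h1 := (XT1_le x T l).trans htou
  have n0 := XT_nonneg x T 0 l
  have n1 := XT_nonneg x T 1 l
  have hM : (0 : ℝ) ≤ (IT T).card := Nat.cast_nonneg _
  have z := P.znn 4006
  have z4 := P.zc (c := 4) (by norm_num) (m := 0) (n := 4006) (by norm_num)
  rw [zpow_zero] at z4
  have hlt := T_lt_le hS (T := T) (k := k) (by omega)
  interval_cases k
  · rw [gt_zero]
    unfold QT
    rw [if_pos rfl]
    have e5 : Xf (IT T) (VT x) 0 l = XT x T 0 l := rfl
    rw [e5] at hlt
    push_cast at hlt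
    have e2 : P.β ^ (4006 : ℤ) * XT x T 0 l ≤ P.β ^ (4006 : ℤ) * (IT T).card :=
      mul_le_mul_of_nonneg_left h0 z
    have e3 : 2 * XT x T 0 l ≤ P.β ^ (4006 : ℤ) * (IT T).card := by
      calc 2 * XT x T 0 l ≤ P.β ^ (4006 : ℤ) * XT x T 0 l :=
            mul_le_mul_of_nonneg_right (by linarith) n0
        _ ≤ _ := e2
    nlinarith
  · rw [gt_succ]
    unfold QT
    rw [if_neg (by norm_num)]
    have e5 : Xf (IT T) (VT x) 0 l = XT x T 0 l := rfl
    have e6 : Xf (IT T) (VT x) 1 l = XT x T 1 l := rfl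
    rw [e6] at hlt
    rw [e5]
    push_cast at hlt ⊢
    have e1 : P.β ^ (4006 : ℤ) * P.β ^ (-3997 : ℤ) = P.β ^ (9 : ℤ) := by rw [P.zadd]; norm_num
    have e2 : P.β ^ (4006 : ℤ) * XT x T 1 l ≤ (IT T).card * P.β ^ (9 : ℤ) := by
      calc P.β ^ (4006 : ℤ) * XT x T 1 l ≤ P.β ^ (4006 : ℤ) * ((IT T).card * P.β ^ (-3997 : ℤ)) :=
            mul_le_mul_of_nonneg_left h1 z
        _ = (IT T).card * (P.β ^ (4006 : ℤ) * P.β ^ (-3997 : ℤ)) := by ring
        _ = _ := by rw [e1]
    have e3 : 2 * XT x T 1 l ≤ (IT T).card * P.β ^ (9 : ℤ) := by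
      calc 2 * XT x T 1 l ≤ P.β ^ (4006 : ℤ) * XT x T 1 l :=
            mul_le_mul_of_nonneg_right (by linarith) n1
        _ ≤ _ := e2
    have e4 : 2 * XT x T 0 l ≤ (IT T).card * P.β ^ (9 : ℤ) := by
      have a1 := P.zc (c := 2) (by norm_num) (m := 0) (n := 9) (by norm_num)
      rw [zpow_zero] at a1
      nlinarith
    nlinarith

theorem Pr_TBad (x : Vx d) {T : Finset (Fin d)} (hM : P.β ^ (15999 : ℤ) ≤ (IT T).card)
    {j k : ℕ} (hj : j < P.J) (hk : k ≤ 1) :
    Pr (P.TBad x T j k) ≤ Real.exp (-P.β ^ (8005 : ℤ)) := by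
  have hL1 : 1 ≤ P.β ^ (2170 : ℤ) := by
    have := P.zle (m := 0) (n := 2170) (by norm_num)
    rwa [zpow_zero] at this
  have hMpos : (0 : ℝ) < (IT T).card := lt_of_lt_of_le (P.zpos _) hM
  have h := P.mart_apply (f := FT x T P.K0 k) (live := LvT x T) (good := P.GT x T) hj
    (L := P.β ^ (2170 : ℤ)) (Q := P.QT T k) (κ := P.κT T k) hL1 (P.QT_nonneg T k) ?_ ?_ ?_
  · refine h.trans ?_
    have h1 : P.Δ * P.β ^ (-17 : ℤ) / P.β ^ (2170 : ℤ) * P.κT T k / 2 =
        (P.Δ ^ 3 * P.β ^ (-17 - 2170 + (-3 - 4000 * (k : ℤ)))) * (IT T).card / 2 := by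
      unfold κT
      rw [zpow_add₀ P.β_ne (-17 - 2170), zpow_sub₀ P.β_ne (-17) 2170]
      ring
    rw [h1]
    have h2 : P.β ^ (8006 : ℤ) ≤
        (P.Δ ^ 3 * P.β ^ (-17 - 2170 + (-3 - 4000 * (k : ℤ)))) * (IT T).card := by
      calc P.β ^ (8006 : ℤ) ≤ (P.β ^ (-1803 : ℤ) * P.β ^ (-17 - 2170 + (-3 - 4000 * (k : ℤ)))) *
            P.β ^ (15999 : ℤ) := by
            rw [P.zadd, P.zadd]
            apply P.zle
            have hkz : (k : ℤ) ≤ 1 := by exact_mod_cast hk
            linarith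
        _ ≤ _ := by
            apply mul_le_mul _ hM (P.znn _)
            · exact mul_nonneg (pow_nonneg P.Δ_pos.le 3) (P.znn _)
            · exact mul_le_mul_of_nonneg_right P.Δ3_ge (P.znn _)
    have h3 := P.zc (c := 4) (by norm_num) (m := 8005) (n := 8006) (by norm_num)
    have h4 : 1 ≤ P.β ^ (8005 : ℤ) := by
      have := P.zle (m := 0) (n := 8005) (by norm_num)
      rwa [zpow_zero] at this
    have h5 : (2 : ℝ) ≤ Real.exp (P.β ^ (8005 : ℤ)) := by
      have := Real.add_one_le_exp (P.β ^ (8005 : ℤ))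
      linarith
    generalize (P.Δ ^ 3 * P.β ^ (-17 - 2170 + (-3 - 4000 * (k : ℤ)))) * (IT T).card = Y at h2
    calc 2 * Real.exp (-(Y / 2))
        ≤ Real.exp (P.β ^ (8005 : ℤ)) * Real.exp (-(2 * P.β ^ (8005 : ℤ))) := by
          apply mul_le_mul h5 _ (Real.exp_pos _).le (Real.exp_pos _).le
          apply Real.exp_le_exp.mpr
          linarith
      _ = Real.exp (-P.β ^ (8005 : ℤ)) := by rw [← Real.exp_add]; congr 1; ring
  · -- κ condition
    unfold κT QT
    have hΔ : 0 ≤ P.Δ ^ 2 := by positivity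
    have key : ∀ a n : ℤ, -4016 + a + 1 ≤ n →
        4 * P.β ^ (-4016 : ℤ) * ((IT T).card * (4 * P.β ^ a)) * P.Δ ^ 2 ≤
          P.Δ ^ 2 * ((IT T).card * P.β ^ n) := by
      intro a n han
      have h1 : 4 * P.β ^ (-4016 : ℤ) * ((IT T).card * (4 * P.β ^ a)) * P.Δ ^ 2 =
          P.Δ ^ 2 * ((IT T).card * (16 * (P.β ^ (-4016 : ℤ) * P.β ^ a))) := by ring
      rw [h1, P.zadd]
      apply mul_le_mul_of_nonneg_left _ hΔ
      exact mul_le_mul_of_nonneg_left (P.zc (by norm_num) han) hMpos.le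
    interval_cases k
    · rw [if_pos rfl]; exact key _ _ (by norm_num)
    · rw [if_neg (by norm_num)]; exact key _ _ (by norm_num)
  · -- jumps
    rintro l hl hG g hg _
    exact FT_jump hg |>.trans P.K0_le
  · rintro l hl hG
    refine (FT_var (by omega)).trans ?_
    have h1 := P.rest_ge hl hG.2.1
    have h2 := P.N_pos
    have h3 := P.QT_bound hG hk
    have h4 : (0 : ℝ) < ((rest l).card : ℝ) := by linarith
    rw [div_le_div_iff₀ h4 h2]
    have h5 := P.QT_nonneg T k
    calc _ ≤ P.QT T k * P.N := mul_le_mul_of_nonneg_right h3 h2.le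
      _ ≤ 2 * P.QT T k * ((rest l).card : ℝ) := by nlinarith

end Par

end Pool.Agent.Q2F
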