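import Mathlib
import Pool.Agent.MP_9431a4_pr.TMart

set_option autoImplicit false

/-!
Static estimates for the pair family.
-/

namespace Pool.Agent.Q2F

open Finset Classical

/-- union bound with dependent choices -/
theorem union_bound_dep {E : Type} [Fintype E] [DecidableEq E] {ι κ : Type} (I : Finset ι)
    (C : ι → Finset κ) (Cn : ℕ) (hC : ∀ i ∈ I, (C i).card ≤ Cn)
    (A : ι → κ → Finset E) (s K : ℕ) {m : ℕ} (hm : m ≤ Fintype.card E)
    (hA : ∀ i ∈ I, ∀ c ∈ C i, s ≤ (A i c).card)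
    (hdisj : ∀ i ∈ I, ∀ i' ∈ I, i ≠ i' → ∀ c ∈ C i, ∀ c' ∈ C i', Disjoint (A i c) (A i' c')) :
    Pr (fun ω : List E => K ≤ (I.filter (fun i => ∃ c ∈ C i, A i c ⊆ (ω.take m).toFinset)).card) ≤
      (I.card.choose K : ℝ) * (Cn : ℝ) ^ K * ((m : ℝ) / Fintype.card E) ^ (s * K) := by
  have hτ0 : (0 : ℝ) ≤ (m : ℝ) / Fintype.card E := by positivity
  have hτ1 : (m : ℝ) / Fintype.card E ≤ 1 := by
    apply div_le_one_of_le₀ _ (by positivity)
    exact_mod_cast hm
  let J : Finset (Σ Q : Finset ι, ∀ i, i ∈ Q → κ) := (powersetCard K I).sigma (fun Q => Q.pi C)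
  let B : (Σ Q : Finset ι, ∀ i, i ∈ Q → κ) → Finset E :=
    fun q => q.1.attach.biUnion (fun i => A i.1 (q.2 i.1 i.2))
  have h1 : Pr (fun ω : List E =>
      K ≤ (I.filter (fun i => ∃ c ∈ C i, A i c ⊆ (ω.take m).toFinset)).card) ≤
      Pr (fun ω => ∃ q ∈ J, B q ⊆ (ω.take m).toFinset) := by
    apply Pr_mono
    intro ω _ _ hω
    obtain ⟨Q, hQ1, hQ2⟩ := exists_subset_card_eq hω
    have hex : ∀ i, i ∈ Q → ∃ c ∈ C i, A i c ⊆ (ω.take m).toFinset := by
      intro i hi
      exact (mem_filter.mp (hQ1 hi)).2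
    choose φ hφ1 hφ2 using hex
    refine ⟨⟨Q, fun i hi => φ i hi⟩, ?_, ?_⟩
    · simp only [J, mem_sigma, mem_powersetCard, mem_pi]
      exact ⟨⟨fun i hi => (mem_filter.mp (hQ1 hi)).1, hQ2⟩, fun i hi => hφ1 i hi⟩
    · simp only [B]
      intro x hx
      rw [mem_biUnion] at hx
      obtain ⟨i, _, hx⟩ := hx
      exact hφ2 i.1 i.2 hx
  refine h1.trans ((Pr_biUnion_le J _).trans ?_)
  have h2 : ∀ q ∈ J, Pr (fun ω => B q ⊆ (ω.take m).toFinset) ≤
      ((m : ℝ) / Fintype.card E) ^ (s * K) := by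
    intro q hq
    refine (Pr_births (B q) hm).trans ?_
    apply pow_le_pow_of_le_one hτ0 hτ1
    simp only [J, mem_sigma, mem_powersetCard, mem_pi] at hq
    obtain ⟨⟨hq1, hq2⟩, hq3⟩ := hq
    simp only [B]
    rw [card_biUnion]
    · have : ∀ i ∈ q.1.attach, s ≤ (A i.1 (q.2 i.1 i.2)).card := by
        intro i _
        exact hA i.1 (hq1 i.2) _ (hq3 i.1 i.2)
      have h3 := Finset.card_nsmul_le_sum _ _ _ this
      rw [card_attach, hq2] at h3
      simpa [mul_comm] using h3
    · intro i _ j _ hij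
      apply hdisj i.1 (hq1 i.2) j.1 (hq1 j.2) _ _ (hq3 i.1 i.2) _ (hq3 j.1 j.2)
      intro h
      exact hij (Subtype.ext h)
  refine (sum_le_sum h2).trans ?_
  rw [sum_const, nsmul_eq_mul]
  apply mul_le_mul_of_nonneg_right _ (by positivity)
  have h3 : J.card ≤ (I.card.choose K) * Cn ^ K := by
    simp only [J, card_sigma, card_pi]
    have h4 : ∀ Q ∈ powersetCard K I, ∏ i ∈ Q, (C i).card ≤ Cn ^ K := by
      intro Q hQ
      obtain ⟨hQ1, hQ2⟩ := mem_powersetCard.mp hQ
      rw [← hQ2]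
      exact prod_le_pow_card _ _ _ (fun i hi => hC i (hQ1 hi))
    refine (sum_le_sum h4).trans ?_
    rw [sum_const, card_powersetCard, smul_eq_mul]
  exact_mod_cast h3

variable {d : ℕ}

/-- order type -/
def oty (i q k : Fin d) : Bool × Bool × Bool := (decide (i < q), decide (i < k), decide (q < k))

/-- the cell of a triple -/
noncomputable def cel (x : Vx d) (i q k : Fin d) : Finset (Edge d) :=
  {ed (fl (fl x i) q) k, ed (fl (fl x i) k) q}

theorem outer2_eq {x : Vx d} {i q k i' q' k' : Fin d} (hiq : i ≠ q)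
    (h : ed (fl (fl x i) q) k = ed (fl (fl x i') q') k') :
    k = k' ∧ ((i = i' ∧ q = q') ∨ (i = q' ∧ q = i')) := by
  obtain ⟨h1, h2 | h2⟩ := ed_eq_iff.mp h
  · exact ⟨h1, fl_fl_eq hiq h2⟩
  · exfalso
    have hpar := congrArg par h2
    rw [par_fl, par_fl, par_fl, par_fl, par_fl] at hpar
    generalize par x = a at hpar
    revert a
    decide

theorem card_cel {x : Vx d} {i q k : Fin d} (hqk : k ≠ q) : (cel x i q k).card = 2 := by
  unfold cel
  rw [card_pair]
  intro h
  exact hqk (ed_eq_iff.mp h).1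

theorem cel_disj {x : Vx d} {i q k i' q' k' : Fin d} (hiq : i ≠ q) (hik : k ≠ i) (hqk : k ≠ q)
    (hiq' : i' ≠ q') (hik' : k' ≠ i') (hqk' : k' ≠ q') (hty : oty i q k = oty i' q' k')
    (hne : ¬ (i = i' ∧ q = q' ∧ k = k')) : Disjoint (cel x i q k) (cel x i' q' k') := by
  unfold oty at hty
  simp only [Prod.mk.injEq, decide_eq_decide] at hty
  obtain ⟨t1, t2, t3⟩ := hty
  rw [Finset.disjoint_left]
  intro f hf hf'
  unfold cel at hf hf'
  rw [mem_insert, mem_singleton] at hf hf'
  have l1 := lt_trichotomy i q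
  have l2 := lt_trichotomy i k
  have l3 := lt_trichotomy q k
  rcases hf with rfl | rfl <;> rcases hf' with h | h
  · obtain ⟨rfl, ⟨rfl, rfl⟩ | ⟨rfl, rfl⟩⟩ := outer2_eq hiq h
    · exact hne ⟨rfl, rfl, rfl⟩
    · rcases lt_or_gt_of_ne hiq with h1 | h1
      · exact absurd (t1.mp h1) (not_lt.mpr h1.le)
      · exact absurd (t1.mpr h1) (not_lt.mpr h1.le)
  · obtain ⟨rfl, ⟨rfl, rfl⟩ | ⟨rfl, rfl⟩⟩ := outer2_eq hiq h
    · rcases lt_or_gt_of_ne hqk with h1 | h1
      · exact absurd (t3.mpr h1) (not_lt.mpr h1.le)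
      · exact absurd (t3.mp h1) (not_lt.mpr h1.le)
    · -- i' = q, q' = k, k' = i
      rcases lt_or_gt_of_ne hiq with h1 | h1
      · have h2 := t1.mp h1
        have h3 := t3.mp h2
        exact absurd (h1.trans h2) (not_lt.mpr h3.le)
      · have h2 : k < q := by
          rcases lt_or_gt_of_ne hqk with h2 | h2
          · exact h2
          · exact absurd (t1.mpr h2) (not_lt.mpr h1.le)
        have h3 : i < k := by
          rcases lt_or_gt_of_ne hik with h3 | h3
          · exact absurd (t3.mpr h3) (not_lt.mpr h2.le)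
          · exact h3
        exact absurd (h3.trans h2) (not_lt.mpr h1.le)
  · obtain ⟨rfl, ⟨rfl, rfl⟩ | ⟨rfl, rfl⟩⟩ := outer2_eq hik.symm h
    · rcases lt_or_gt_of_ne hqk with h1 | h1
      · exact absurd (t3.mpr h1) (not_lt.mpr h1.le)
      · exact absurd (t3.mp h1) (not_lt.mpr h1.le)
    · -- i' = k, q' = i, k' = q
      rcases lt_or_gt_of_ne hiq with h1 | h1
      · have h2 := t2
        have h3 : k < i := t1.mp h1
        have h4 : q < k := by
          rcases lt_or_gt_of_ne hqk with h4 | h4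
          · exact absurd (t2.mpr h4) (not_lt.mpr h3.le)
          · exact h4
        exact absurd (h1.trans h4) (not_lt.mpr h3.le)
      · have h3 : i < k := by
          rcases lt_or_gt_of_ne hik with h3 | h3
          · exact absurd (t1.mpr h3) (not_lt.mpr h1.le)
          · exact h3
        have h4 : k < q := t2.mp h3
        exact absurd (h3.trans h4) (not_lt.mpr h1.le)
  · obtain ⟨rfl, ⟨rfl, rfl⟩ | ⟨rfl, rfl⟩⟩ := outer2_eq hik.symm h
    · exact hne ⟨rfl, rfl, rfl⟩
    · rcases lt_or_gt_of_ne hik with h1 | h1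
      · exact absurd (t2.mpr h1) (not_lt.mpr h1.le)
      · exact absurd (t2.mp h1) (not_lt.mpr h1.le)

/-- ordered pairs -/
noncomputable def I2 (T : Finset (Fin d)) : Finset (Fin d × Fin d) :=
  (T ×ˢ univ).filter (fun r => r.1 ≠ r.2)

/-- pairs with large codegree of a given order type -/
noncomputable def hvb (R : Finset (Edge d)) (x : Vx d) (T : Finset (Fin d)) (c' : ℕ)
    (b : Bool × Bool × Bool) : Finset (Fin d × Fin d) :=
  (I2 T).filter (fun r => c' ≤ ((codTs R x T r.1 r.2).filter (fun k => oty r.1 r.2 k = b)).card)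

/-- pairs with large codegree -/
noncomputable def hvP (R : Finset (Edge d)) (x : Vx d) (T : Finset (Fin d)) (c' : ℕ) :
    Finset (Fin d × Fin d) :=
  (I2 T).filter (fun r => 8 * c' < (codTs R x T r.1 r.2).card)

theorem Pr_hvb {m : ℕ} (hm : m ≤ Fintype.card (Edge d)) (x : Vx d) (T : Finset (Fin d))
    (c' h : ℕ) (b : Bool × Bool × Bool) :
    Pr (fun ω : List (Edge d) => h ≤ (hvb (ω.take m).toFinset x T c' b).card) ≤
      ((I2 T).card.choose h : ℝ) * ((T.card.choose c' : ℕ) : ℝ) ^ h *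
        ((m : ℝ) / Fintype.card (Edge d)) ^ (2 * c' * h) := by
  have hu := union_bound_dep (I2 T)
    (fun r => powersetCard c' (T.filter (fun k => k ≠ r.2 ∧ k ≠ r.1 ∧ oty r.1 r.2 k = b)))
    (T.card.choose c') ?_ (fun r Q => Q.biUnion (fun k => cel x r.1 r.2 k)) (2 * c') h hm ?_ ?_
  · refine le_trans (Pr_mono ?_) hu
    intro ω _ _ hω
    refine hω.trans (card_le_card ?_)
    intro r hr
    unfold hvb at hr
    obtain ⟨hr1, hr2⟩ := mem_filter.mp hr
    obtain ⟨Q, hQ1, hQ2⟩ := exists_subset_card_eq hr2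
    rw [mem_filter]
    refine ⟨hr1, Q, ?_, ?_⟩
    · rw [mem_powersetCard]
      refine ⟨?_, hQ2⟩
      intro k hk
      obtain ⟨hk1, hk2⟩ := mem_filter.mp (hQ1 hk)
      unfold codTs at hk1
      rw [mem_filter] at hk1 ⊢
      exact ⟨hk1.1, hk1.2.1, hk1.2.2.1, hk2⟩
    · intro f hf
      rw [mem_biUnion] at hf
      obtain ⟨k, hk, hfk⟩ := hf
      obtain ⟨hk1, hk2⟩ := mem_filter.mp (hQ1 hk)
      unfold codTs at hk1
      rw [mem_filter] at hk1
      unfold cel at hfk
      rw [mem_insert, mem_singleton] at hfk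
      rcases hfk with rfl | rfl
      · exact hk1.2.2.2.1
      · exact hk1.2.2.2.2
  · intro r _
    rw [card_powersetCard]
    exact Nat.choose_le_choose _ (card_le_card (filter_subset _ _))
  · intro r hr Q hQ
    obtain ⟨hQ1, hQ2⟩ := mem_powersetCard.mp hQ
    have hrne := (mem_filter.mp hr).2
    rw [card_biUnion]
    · rw [sum_congr rfl (g := fun _ => 2)]
      · rw [sum_const, hQ2, smul_eq_mul, mul_comm]
      · intro k hk
        exact card_cel (mem_filter.mp (hQ1 hk)).2.1
    · intro k hk k' hk' hne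
      obtain ⟨_, a1, a2, a3⟩ := mem_filter.mp (hQ1 hk)
      obtain ⟨_, b1, b2, b3⟩ := mem_filter.mp (hQ1 hk')
      exact cel_disj hrne a2 a1 hrne b2 b1 (a3.trans b3.symm) (fun h => hne h.2.2)
  · intro r hr r' hr' hne Q hQ Q' hQ'
    obtain ⟨hQ1, _⟩ := mem_powersetCard.mp hQ
    obtain ⟨hQ1', _⟩ := mem_powersetCard.mp hQ'
    have hrne := (mem_filter.mp hr).2
    have hrne' := (mem_filter.mp hr').2
    rw [disjoint_biUnion_left]
    intro k hk
    rw [disjoint_biUnion_right]
    intro k' hk'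
    obtain ⟨_, a1, a2, a3⟩ := mem_filter.mp (hQ1 hk)
    obtain ⟨_, b1, b2, b3⟩ := mem_filter.mp (hQ1' hk')
    exact cel_disj hrne a2 a1 hrne' b2 b1 (a3.trans b3.symm)
      (fun h => hne (Prod.ext h.1 h.2.1))

theorem hvP_sub {R : Finset (Edge d)} {x : Vx d} {T : Finset (Fin d)} {c' : ℕ} :
    hvP R x T c' ⊆ (univ : Finset (Bool × Bool × Bool)).biUnion (fun b => hvb R x T c' b) := by
  intro r hr
  obtain ⟨hr1, hr2⟩ := mem_filter.mp hr
  rw [mem_biUnion]
  by_contra hcon
  push Not at hcon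
  have h1 : ∀ b ∈ (univ : Finset (Bool × Bool × Bool)),
      ((codTs R x T r.1 r.2).filter (fun k => oty r.1 r.2 k = b)).card ≤ c' := by
    intro b hb
    have := hcon b hb
    unfold hvb at this
    rw [mem_filter] at this
    push Not at this
    exact (this hr1).le
  have h2 : (codTs R x T r.1 r.2).card = ∑ b ∈ (univ : Finset (Bool × Bool × Bool)),
      ((codTs R x T r.1 r.2).filter (fun k => oty r.1 r.2 k = b)).card :=
    card_eq_sum_card_fiberwise (fun k _ => mem_univ _)
  have h3 := sum_le_card_nsmul _ _ c' h1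
  rw [← h2] at h3
  have h4 : (univ : Finset (Bool × Bool × Bool)).card = 8 := by decide
  rw [h4, smul_eq_mul] at h3
  omega

theorem Pr_hvP {m : ℕ} (hm : m ≤ Fintype.card (Edge d)) (x : Vx d) (T : Finset (Fin d))
    (c' h : ℕ) :
    Pr (fun ω : List (Edge d) => 8 * h < (hvP (ω.take m).toFinset x T c').card) ≤
      8 * (((I2 T).card.choose h : ℝ) * ((T.card.choose c' : ℕ) : ℝ) ^ h *
        ((m : ℝ) / Fintype.card (Edge d)) ^ (2 * c' * h)) := by
  have h1 : Pr (fun ω : List (Edge d) => 8 * h < (hvP (ω.take m).toFinset x T c').card) ≤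
      Pr (fun ω : List (Edge d) => ∃ b ∈ (univ : Finset (Bool × Bool × Bool)),
        h ≤ (hvb (ω.take m).toFinset x T c' b).card) := by
    apply Pr_mono
    intro ω _ _ hω
    by_contra hcon
    push Not at hcon
    have h2 := (card_le_card (hvP_sub (R := (ω.take m).toFinset) (x := x) (T := T)
      (c' := c'))).trans card_biUnion_le
    have h3 := sum_le_card_nsmul _ _ h (fun b hb => (hcon b hb).le)
    have h4 : (univ : Finset (Bool × Bool × Bool)).card = 8 := by decide
    rw [h4, smul_eq_mul] at h3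
    omega
  refine h1.trans ((Pr_biUnion_le _ _).trans ?_)
  refine (sum_le_sum (fun b _ => Pr_hvb hm x T c' h b)).trans ?_
  rw [sum_const]
  have h4 : (univ : Finset (Bool × Bool × Bool)).card = 8 := by decide
  rw [h4, nsmul_eq_mul]
  push_cast
  exact le_rfl

/-- touched pairs -/
theorem Pr_touT {m : ℕ} (hm : m ≤ Fintype.card (Edge d)) (x : Vx d) (T : Finset (Fin d))
    {L : ℝ} (hL : 0 ≤ L)
    (h : Real.exp 2 * ((IT T).card * 2 * ((m : ℝ) / Fintype.card (Edge d))) ≤ L) :
    Pr (fun ω : List (Edge d) => L < ((touT (ω.take m).toFinset x T).card : ℝ)) ≤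
      Real.exp (-L) := by
  have h1 := union_bound_real (IT T) (univ : Finset Bool)
    (fun r c => ({if c then ed (fl x r.1) r.2 else ed (fl x r.2) r.1} : Finset (Edge d)))
    1 L hm hL ?_ ?_ ?_
  · refine le_trans (Pr_mono ?_) h1
    intro ω _ _ hω
    refine lt_of_lt_of_le hω ?_
    have : touT (ω.take m).toFinset x T ⊆ (IT T).filter
        (fun r => ∃ c ∈ (univ : Finset Bool),
        ({if c then ed (fl x r.1) r.2 else ed (fl x r.2) r.1} : Finset (Edge d)) ⊆
          (ω.take m).toFinset) := by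
      intro r hr
      unfold touT at hr
      obtain ⟨hr1, f, hf, hfR⟩ := mem_filter.mp hr
      rw [mem_filter]
      refine ⟨hr1, ?_⟩
      rw [mem_VT] at hf
      rcases hf with rfl | rfl
      · exact ⟨true, mem_univ _, by simpa using hfR⟩
      · exact ⟨false, mem_univ _, by simpa using hfR⟩
    refine (Nat.cast_le.mpr (card_le_card this)).trans (le_of_eq ?_)
    congr!
  · intro r _ c _
    rw [card_singleton]
  · intro r hr r' hr' hne c _ c' _
    refine (VT_disj (x := x) r hr r' hr' hne).mono ?_ ?_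
    · rw [singleton_subset_iff, mem_VT]
      split
      · left; rfl
      · right; rfl
    · rw [singleton_subset_iff, mem_VT]
      split
      · left; rfl
      · right; rfl
  · refine le_trans ?_ h
    have h2 : ((univ : Finset Bool).card : ℝ) = 2 := by simp
    rw [h2, pow_one]

end Pool.Agent.Q2F
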