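import Mathlib
import Pool.Agent.MP_9431a4_pr.TStat

set_option autoImplicit false

/-!
Windows for the pair family.
-/

namespace Pool.Agent.Q2F

open Finset Classical

variable {d : ℕ}

theorem LvT_take {x : Vx d} {T : Finset (Fin d)} {ω : List (Edge d)} {a b : ℕ} (hab : a ≤ b)
    (h : LvT x T (ω.take b)) : LvT x T (ω.take a) := by
  rw [take_append_drop' ω hab] at h
  exact h.initial

theorem take_succ_eq {ω : List (Edge d)} {i : ℕ} {l : List (Edge d)} {g : Edge d}
    (h : ω.take (i + 1) = l ++ [g]) (hi : i < ω.length) : l = ω.take i ∧ ω[i]? = some g := by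
  have h1 : ω.take (i + 1) = ω.take i ++ [ω[i]] := by
    rw [List.take_succ_eq_append_getElem hi]
  rw [h1] at h
  obtain ⟨h2, h3⟩ := List.append_inj' h rfl
  rw [List.cons.injEq] at h3
  refine ⟨h2.symm, ?_⟩
  rw [List.getElem?_eq_getElem hi, h3.1]

namespace Par

variable (P : Par d)

noncomputable def CT : ℕ := ⌊P.β ^ (2167 : ℤ)⌋₊

noncomputable def Hn : ℕ := ⌈P.β ^ (5840 : ℤ)⌉₊

theorem CT_K0 : 16 + 4 * (8 * P.CT) ≤ P.K0 := by
  unfold K0
  apply Nat.le_floor
  push_cast
  have h1 : ((P.CT : ℕ) : ℝ) ≤ P.β ^ (2167 : ℤ) := Nat.floor_le (P.znn _)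
  have h2 := P.zc (c := 48) (by norm_num) (m := 2167) (n := 2169) (by norm_num)
  have h3 := P.zle (m := 0) (n := 2167) (by norm_num)
  rw [zpow_zero] at h3
  linarith

theorem Hn_le : 8 * ((P.Hn : ℕ) : ℝ) ≤ P.β ^ (5841 : ℤ) := by
  have h1 : ((P.Hn : ℕ) : ℝ) < P.β ^ (5840 : ℤ) + 1 := Nat.ceil_lt_add_one (P.znn _)
  have h2 := P.zc (c := 16) (by norm_num) (m := 5840) (n := 5841) (by norm_num)
  have h3 := P.zle (m := 0) (n := 5840) (by norm_num)
  rw [zpow_zero] at h3
  linarith

/-- static good event for `T` -/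
def StT (x : Vx d) (T : Finset (Fin d)) (R : Finset (Edge d)) : Prop :=
  ((touT R x T).card : ℝ) ≤ (IT T).card * P.β ^ (-3997 : ℤ) ∧
    (hvP R x T P.CT).card ≤ 8 * P.Hn

section
variable {x : Vx d} {T : Finset (Fin d)} {R : Finset (Edge d)}

/-- a heavy edge comes from a pair with large codegree -/
theorem heavy_pair {l : List (Edge d)} {g : Edge d} (hl : l.toFinset ⊆ R)
    (hg : ∀ t ∈ T, g ≠ ed x t) (hh : P.K0 < (hitT x T l g).card) :
    ∃ r ∈ hvP R x T P.CT, g = ed (fl x r.1) r.2 := by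
  by_contra hcon
  push Not at hcon
  have h1 : (hitT x T l g).card ≤ 16 + 4 * (8 * P.CT) := by
    apply card_hitT hg
    intro i hi hgi
    by_contra hlt
    push Not at hlt
    apply hcon (i, dir g) _ hgi
    unfold hvP I2
    rw [mem_filter, mem_filter, mem_product]
    refine ⟨⟨⟨hi, mem_univ _⟩, ?_⟩, ?_⟩
    · intro h
      apply hg i hi
      rw [hgi]
      have h' : dir g = i := h.symm
      rw [h', ed_fl]
    · exact lt_of_lt_of_le hlt (card_le_card (codTs_mono ((acc_subset_toFinset l).trans hl) x T _ _))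
  have := P.CT_K0
  omega

/-- number of heavy edges -/
theorem heavy_count {l : List (Edge d)} (hl : l.toFinset ⊆ R) {S : Finset (Edge d)}
    (hS : ∀ g ∈ S, (∀ t ∈ T, g ≠ ed x t) ∧ P.K0 < (hitT x T l g).card) :
    S.card ≤ (hvP R x T P.CT).card := by
  have h1 : S ⊆ (hvP R x T P.CT).image (fun r => ed (fl x r.1) r.2) := by
    intro g hg
    obtain ⟨h2, h3⟩ := hS g hg
    obtain ⟨r, hr, hgr⟩ := P.heavy_pair hl h2 h3
    exact mem_image.mpr ⟨r, hr, hgr.symm⟩
  exact (card_le_card h1).trans card_image_le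

/-- change of the functional in any live step -/
theorem XT_jump_crude {l : List (Edge d)} {g : Edge d} (hS : P.SBP l.toFinset x)
    (hgr : g ∈ rest l) (hg : ∀ t ∈ T, g ≠ ed x t) (k : ℕ) :
    |XT x T k (l ++ [g]) - XT x T k l| ≤ P.β ^ (4007 : ℤ) := by
  have h1 : (hitT x T l g).card ≤ 16 + 4 * ⌊P.β ^ (4006 : ℤ)⌋₊ := by
    apply card_hitT hg
    intro i _ _
    exact (card_le_card (codTs_sub_cod0s _ _ _ _ _)).trans ((hS.s1 i).cod0_acc _)
  have h2 : |XT x T k (l ++ [g]) - XT x T k l| ≤ ((16 + 4 * ⌊P.β ^ (4006 : ℤ)⌋₊ : ℕ) : ℝ) + 1 := by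
    unfold XT
    apply jump_main hgr VT_disj
    intro _
    refine (card_le_card ?_).trans h1
    intro r hr
    unfold hitT
    rw [mem_filter] at hr ⊢
    exact ⟨hr.1, hr.2.2⟩
  refine h2.trans ?_
  push_cast
  have h3 : ((⌊P.β ^ (4006 : ℤ)⌋₊ : ℕ) : ℝ) ≤ P.β ^ (4006 : ℤ) := Nat.floor_le (P.znn _)
  have h4 := P.zc (c := 21) (by norm_num) (m := 4006) (n := 4007) (by norm_num)
  have h5 := P.zle (m := 0) (n := 4006) (by norm_num)
  rw [zpow_zero] at h5
  linarith

theorem ne_inner_of_live {l : List (Edge d)} {g : Edge d} (h : LvT x T (l ++ [g])) :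
    ∀ t ∈ T, g ≠ ed x t := by
  intro t ht hg
  apply h t ht
  rw [hg]
  simp

/-- total change in heavy steps -/
theorem HT_le {ω : List (Edge d)} (hω : ω.Nodup) (hlen : ω.length = Fintype.card (Edge d))
    (hS : P.SBP (ω.take (P.mm P.J)).toFinset x)
    (hst : P.StT x T (ω.take (P.mm P.J)).toFinset) {i : ℕ} (hi : i ≤ P.mm P.J)
    (hlive : LvT x T (ω.take i)) (k : ℕ) :
    |HT x T P.K0 k (ω.take i)| ≤ P.β ^ (9848 : ℤ) := by
  have hil : i ≤ ω.length := by rw [hlen]; exact hi.trans (P.mm_le_card le_rfl)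
  unfold HT
  rw [List.length_take, min_eq_left hil]
  have h1 : ∀ i' ∈ range i, |(if hvyL x T P.K0 ((ω.take i).take (i' + 1)) then
      XT x T k ((ω.take i).take i') - XT x T k ((ω.take i).take (i' + 1)) else 0)| ≤
      (if hvyL x T P.K0 (ω.take (i' + 1)) then P.β ^ (4007 : ℤ) else 0) := by
    intro i' hi'
    have hi'2 := mem_range.mp hi'
    rw [List.take_take, List.take_take, min_eq_left (by omega), min_eq_left (by omega)]
    by_cases hh : hvyL x T P.K0 (ω.take (i' + 1))
    · rw [if_pos hh, if_pos hh]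
      obtain ⟨l, g, hlg, hhv⟩ := hh
      obtain ⟨hl, _⟩ := take_succ_eq hlg (by omega)
      have hlv : LvT x T (ω.take (i' + 1)) := LvT_take (by omega) hlive
      rw [hlg] at hlv ⊢
      subst hl
      rw [abs_sub_comm]
      exact P.XT_jump_crude (hS.mono (toFinset_take_subset ω (by omega)))
        (opn_subset_rest _ hhv.1) (ne_inner_of_live hlv) k
    · rw [if_neg hh, if_neg hh, abs_zero]
  refine (abs_sum_le_sum_abs _ _).trans ((sum_le_sum h1).trans ?_)
  rw [← sum_filter, sum_const, nsmul_eq_mul]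
  -- number of heavy steps
  have h2 : ((range i).filter (fun i' => hvyL x T P.K0 (ω.take (i' + 1)))).card ≤
      (hvP (ω.take (P.mm P.J)).toFinset x T P.CT).card := by
    have key : ∀ i' ∈ (range i).filter (fun i' => hvyL x T P.K0 (ω.take (i' + 1))),
        ∃ r ∈ hvP (ω.take (P.mm P.J)).toFinset x T P.CT,
          ω[i']? = some (ed (fl x r.1) r.2) := by
      intro i' hi'
      obtain ⟨h3, l, g, hlg, hhv⟩ := mem_filter.mp hi'
      have hi'2 := mem_range.mp h3
      obtain ⟨hl, hg⟩ := take_succ_eq hlg (by omega)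
      have hlv : LvT x T (ω.take (i' + 1)) := LvT_take (by omega) hlive
      rw [hlg] at hlv
      subst hl
      obtain ⟨r, hr, hgr⟩ := P.heavy_pair (R := (ω.take (P.mm P.J)).toFinset)
        (toFinset_take_subset ω (by omega)) (ne_inner_of_live hlv) hhv.2
      exact ⟨r, hr, by rw [hg, hgr]⟩
    choose φ hφ1 hφ2 using key
    apply card_le_card_of_injOn (fun i' => if h : i' ∈ (range i).filter
      (fun i' => hvyL x T P.K0 (ω.take (i' + 1))) then φ i' h else (⟨⟨0, ?_⟩, ⟨0, ?_⟩⟩ : Fin d × Fin d))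
    · intro i' hi'
      simp only [Finset.mem_coe] at hi'
      simp only [dif_pos hi']
      exact hφ1 i' hi'
    · intro a ha b hb hab
      simp only [Finset.mem_coe] at ha hb
      simp only [dif_pos ha, dif_pos hb] at hab
      have e1 := hφ2 a ha
      have e2 := hφ2 b hb
      rw [hab, ← e2] at e1
      have ha' : a < ω.length := by
        have := mem_range.mp (mem_filter.mp ha).1
        omega
      have hb' : b < ω.length := by
        have := mem_range.mp (mem_filter.mp hb).1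
        omega
      exact (List.getElem?_inj ha' hω).mp e1
    · exact_mod_cast P.d_pos
    · exact_mod_cast P.d_pos
  have h3 : (((range i).filter (fun i' => hvyL x T P.K0 (ω.take (i' + 1)))).card : ℝ) ≤
      P.β ^ (5841 : ℤ) := by
    refine le_trans ?_ P.Hn_le
    exact_mod_cast h2.trans hst.2
  calc _ ≤ P.β ^ (5841 : ℤ) * P.β ^ (4007 : ℤ) := mul_le_mul_of_nonneg_right h3 (P.znn _)
    _ = P.β ^ (9848 : ℤ) := by rw [P.zadd]; norm_num

/-- difference of the two drifts -/
theorem drift_diff {l : List (Edge d)} (hlR : l.toFinset ⊆ R)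
    (hS : P.SBP l.toFinset x) (hst : P.StT x T R) (hpos : 0 < (rest l).card) (k : ℕ) :
    |((rest l).card : ℝ) * drift (FT x T P.K0 k) (LvT x T) l -
      ((rest l).card : ℝ) * drift (XT x T k) (LvT x T) l| ≤ P.β ^ (9848 : ℤ) := by
  unfold drift av
  have hne : ((rest l).card : ℝ) ≠ 0 := by exact_mod_cast hpos.ne'
  rw [mul_div_cancel₀ _ hne, mul_div_cancel₀ _ hne, ← sum_sub_distrib]
  refine (abs_sum_le_sum_abs _ _).trans ?_
  have h1 : ∀ g ∈ rest l, |(if LvT x T (l ++ [g]) then FT x T P.K0 k (l ++ [g]) -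
      FT x T P.K0 k l else 0) -
      (if LvT x T (l ++ [g]) then XT x T k (l ++ [g]) - XT x T k l else 0)| ≤
      (if LvT x T (l ++ [g]) ∧ hvy x T P.K0 l g then P.β ^ (4007 : ℤ) else 0) := by
    intro g hg
    by_cases hlv : LvT x T (l ++ [g])
    · rw [if_pos hlv, if_pos hlv, FT_step]
      by_cases hh : hvy x T P.K0 l g
      · rw [if_pos hh, if_pos ⟨hlv, hh⟩, zero_sub, abs_neg]
        exact P.XT_jump_crude hS hg (ne_inner_of_live hlv) k
      · rw [if_neg hh, if_neg (fun h => hh h.2), sub_self, abs_zero]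
    · rw [if_neg hlv, if_neg hlv, if_neg (fun h => hlv h.1), sub_self, abs_zero]
  refine (sum_le_sum h1).trans ?_
  rw [← sum_filter, sum_const, nsmul_eq_mul]
  have h2 : ((rest l).filter (fun g => LvT x T (l ++ [g]) ∧ hvy x T P.K0 l g)).card ≤
      (hvP R x T P.CT).card := by
    apply P.heavy_count hlR
    intro g hg
    obtain ⟨_, hlv, hh⟩ := mem_filter.mp hg
    exact ⟨ne_inner_of_live hlv, hh.2⟩
  have h3 : (((rest l).filter (fun g => LvT x T (l ++ [g]) ∧ hvy x T P.K0 l g)).card : ℝ) ≤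
      P.β ^ (5841 : ℤ) := by
    refine le_trans ?_ P.Hn_le
    exact_mod_cast h2.trans hst.2
  calc _ ≤ P.β ^ (5841 : ℤ) * P.β ^ (4007 : ℤ) := mul_le_mul_of_nonneg_right h3 (P.znn _)
    _ = P.β ^ (9848 : ℤ) := by rw [P.zadd]; norm_num

end

end Par

end Pool.Agent.Q2F
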