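import Mathlib
import Pool.Agent.MP_9431a4_pr.TWin

set_option autoImplicit false

/-!
Windows for the pair family, continued.
-/

namespace Pool.Agent.Q2F

open Finset Classical

variable {d : ℕ}

namespace Par

variable (P : Par d)

theorem q_ge {j : ℕ} (hj : j ≤ P.J) : P.β ^ (3398 : ℤ) ≤ P.Δ * (P.aa j / P.p) := by
  have b1 := P.le_Δ'
  have b2 := P.le_aa hj
  have b3 : P.β ^ (3999 : ℤ) ≤ P.aa j / P.p := by
    rw [le_div_iff₀ P.p_pos]
    unfold p
    rw [P.zadd]
    norm_num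
    norm_num at b2
    exact b2
  calc P.β ^ (3398 : ℤ) = P.β ^ (-601 : ℤ) * P.β ^ (3999 : ℤ) := by rw [P.zadd]; norm_num
    _ ≤ _ := mul_le_mul b1 b3 (P.znn _) P.Δ_pos.le

/-- lower bound for the scales of the pair family -/
theorem wwT_ge {M : ℝ} (hM : 0 ≤ M) {j k : ℕ} (hj : j ≤ P.J) (hk : k ≤ 1) :
    M * P.β ^ (-2 - 3999 * (k : ℤ)) ≤ P.ww M 2 k j := by
  unfold ww p
  have h1 := P.le_aa hj
  have h2 : (P.β ^ (-1 : ℤ)) ^ (2 - k) ≤ (P.aa j) ^ (2 - k) := pow_le_pow_left₀ (P.znn _) h1 _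
  have h3 : (P.β ^ (-1 : ℤ)) ^ (2 - k) = P.β ^ (-(2 - (k : ℤ))) := by
    rw [← zpow_natCast, ← zpow_mul, Nat.cast_sub (by omega)]
    congr 1
    push_cast
    ring
  have h4 : (P.β ^ (-4000 : ℤ)) ^ k = P.β ^ (-4000 * (k : ℤ)) := by
    rw [← zpow_natCast, ← zpow_mul]
  rw [h3] at h2
  rw [h4]
  calc M * P.β ^ (-2 - 3999 * (k : ℤ)) ≤
      M * P.β ^ (-4000 * (k : ℤ)) * P.β ^ (-(2 - (k : ℤ))) := by
        rw [mul_assoc, P.zadd]
        apply mul_le_mul_of_nonneg_left _ hM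
        apply P.zle
        linarith
    _ ≤ _ := mul_le_mul_of_nonneg_left h2 (mul_nonneg hM (P.znn _))

/-- all good events for `T` -/
structure TGood (x : Vx d) (T : Finset (Fin d)) (ω : List (Edge d)) : Prop where
  gv : P.GV ω x
  st : P.StT x T (ω.take (P.mm P.J)).toFinset
  mb : ∀ j < P.J, ∀ k ≤ 1, ¬ P.TBad x T j k ω

section
variable {x : Vx d} {T : Finset (Fin d)} {ω : List (Edge d)}

theorem TGood.GT (hG : P.TGood x T ω) {i : ℕ} (hi : i ≤ P.mm P.J) (hlive : LvT x T (ω.take i)) :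
    P.GT x T (ω.take i) := by
  refine ⟨hlive, P.length_take_le ω hi, hG.gv.1.mono (toFinset_take_subset ω hi), ?_⟩
  refine le_trans ?_ hG.st.1
  exact_mod_cast card_le_card (touT_mono (toFinset_take_subset ω hi) x T)

theorem TGood.dev (hG : P.TGood x T ω) {k : ℕ} (hk : k ≤ 1) {j : ℕ} (hj : j < P.J) {i : ℕ}
    (hi1 : P.mm j ≤ i) (hi2 : i ≤ P.mm (j + 1)) (hlive : LvT x T (ω.take i)) :
    |comp (FT x T P.K0 k) (drift (FT x T P.K0 k) (LvT x T)) ω (P.mm j) i| < P.κT T k := by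
  by_contra hcon
  push Not at hcon
  apply hG.mb j hj k hk
  have hiJ : i ≤ P.mm P.J := hi2.trans (P.mm_mono hj)
  refine ⟨i, hi1, by rw [← P.mm_succ]; exact hi2, ?_, ?_, hcon⟩
  · intro i' _ h2
    exact LvT_take h2 hlive
  · intro i' _ h2
    exact hG.GT P (h2.le.trans hiJ) (LvT_take h2.le hlive)

theorem FT_drift_crude {l : List (Edge d)} (hl : l.Nodup) (hG : P.GT x T l) {k : ℕ}
    (hk : k ≤ 1) : |drift (FT x T P.K0 k) (LvT x T) l| ≤ 4 * P.QT T k / P.N := by
  have h1 := P.rest_ge hl hG.2.1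
  have hN := P.N_pos
  have h4 : (0 : ℝ) < ((rest l).card : ℝ) := by linarith
  have h2 : |drift (FT x T P.K0 k) (LvT x T) l| ≤
      av l (fun g => if LvT x T (l ++ [g]) then
        |FT x T P.K0 k (l ++ [g]) - FT x T P.K0 k l| else 0) := by
    unfold drift av
    rw [abs_div, Nat.abs_cast]
    apply div_le_div_of_nonneg_right _ (Nat.cast_nonneg _)
    refine (abs_sum_le_sum_abs _ _).trans (le_of_eq ?_)
    apply sum_congr rfl
    intro g _
    by_cases h : LvT x T (l ++ [g])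
    · simp only [if_pos h]
    · simp only [if_neg h, abs_zero]
  have h3 := FT_var (x := x) (T := T) (K0 := P.K0) (k := k) (l := l) (by omega)
    (live := LvT x T)
  have h5 := P.QT_bound hG hk
  have h6 := P.QT_nonneg T k
  refine (h2.trans h3).trans ?_
  rw [div_le_div_iff₀ h4 hN]
  calc _ ≤ P.QT T k * P.N := mul_le_mul_of_nonneg_right h5 hN.le
    _ ≤ 4 * P.QT T k * ((rest l).card : ℝ) := by nlinarith

theorem twindow (hω : ω.Nodup) (hlen : ω.length = Fintype.card (Edge d))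
    (hM : P.β ^ (15999 : ℤ) ≤ (IT T).card) (hG : P.TGood x T ω) {j : ℕ} (hj : j < P.J) {i : ℕ}
    (hi1 : P.mm j ≤ i) (hi2 : i ≤ P.mm (j + 1)) (hlive : LvT x T (ω.take i)) {k : ℕ} (hk : k ≤ 1) :
    |XT x T k (ω.take i) - P.xx (IT T).card 2 k j| ≤
      (P.omf j + P.β ^ (-584 : ℤ)) * P.ww (IT T).card 2 k j := by
  have hM0 : (0 : ℝ) < (IT T).card := lt_of_lt_of_le (P.zpos _) hM
  set M : ℝ := ((IT T).card : ℝ) with hMdef
  have hd0 := P.d_pos
  have hlei : ∀ j < P.J, ∀ i ≤ P.mm (j + 1), i ≤ Fintype.card (Edge d) := fun j hj i hi =>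
      hi.trans (P.mm_le_card hj)
  have hlen_i : ∀ j < P.J, ∀ i ≤ P.mm (j + 1), (ω.take i).length = i := by
    intro j hj i hi
    rw [List.length_take, hlen]
    exact min_eq_left (hlei j hj i hi)
  have hmJ : ∀ j < P.J, P.mm (j + 1) ≤ P.mm P.J := fun j hj => P.mm_mono hj
  have hN := P.N_pos
  have hrpos : ∀ i ≤ P.mm P.J, 0 < (rest (ω.take i)).card := by
    intro i hi
    have h1 := P.rest_ge (take_nodup hω _) (P.length_take_le ω hi)
    have : (0 : ℝ) < ((rest (ω.take i)).card : ℝ) := by linarith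
    exact_mod_cast this
  have hΔ := P.Δ_pos
  have hH : ∀ k, ∀ i ≤ P.mm P.J, LvT x T (ω.take i) → |HT x T P.K0 k (ω.take i)| ≤
      P.β ^ (9848 : ℤ) := fun k i hi hlv => P.HT_le hω hlen hG.gv.1 hG.st hi hlv k
  have hΔ2ge : P.β ^ (-1202 : ℤ) ≤ P.Δ ^ 2 := by
    have h5 := pow_le_pow_left₀ (P.znn (-601)) P.le_Δ' 2
    have h6 : (P.β ^ (-601 : ℤ)) ^ 2 = P.β ^ (-1202 : ℤ) := by
      rw [← zpow_natCast, ← zpow_mul]; norm_num
    rwa [h6] at h5
  have hww : ∀ k : ℕ, k ≤ 1 → ∀ j ≤ P.J, M * P.β ^ (-2 - 3999 * (k : ℤ)) ≤ P.ww M 2 k j :=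
    fun k hk j hj => P.wwT_ge hM0.le hj hk
  have hwpos : ∀ k j, 0 < P.ww M 2 k j := fun k j => P.ww_pos hM0 2 k j
  -- κ and the heavy contribution are at most Δ² ww / 4
  have hκ : ∀ k ≤ 1, ∀ j ≤ P.J, P.κT T k + 2 * P.β ^ (9848 : ℤ) ≤ P.Δ ^ 2 * P.ww M 2 k j := by
    intro k hk j hj
    have h1 : P.κT T k ≤ P.Δ ^ 2 * (M * P.β ^ (-2 - 3999 * (k : ℤ))) / 2 := by
      unfold κT
      rw [← hMdef]
      have h2 := P.zc (c := 2) (by norm_num) (m := -3 - 4000 * (k : ℤ)) (n := -2 - 3999 * (k : ℤ))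
        (by
          have : (0 : ℤ) ≤ k := Int.natCast_nonneg k
          linarith)
      have h3 : M * P.β ^ (-3 - 4000 * (k : ℤ)) ≤ M * P.β ^ (-2 - 3999 * (k : ℤ)) / 2 := by
        nlinarith
      have h4 : 0 ≤ P.Δ ^ 2 := by positivity
      nlinarith
    have h2 : 2 * P.β ^ (9848 : ℤ) ≤ P.Δ ^ 2 * (M * P.β ^ (-2 - 3999 * (k : ℤ))) / 2 := by
      have h3 := P.zc (c := 4) (by norm_num) (m := 9848) (n := 9849) (by norm_num)
      have h4 : P.β ^ (9849 : ℤ) ≤ P.Δ ^ 2 * (M * P.β ^ (-2 - 3999 * (k : ℤ))) := by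
        calc P.β ^ (9849 : ℤ) ≤ P.β ^ (-1202 : ℤ) * (P.β ^ (15999 : ℤ) *
              P.β ^ (-2 - 3999 * (k : ℤ))) := by
              rw [P.zadd, P.zadd]
              apply P.zle
              have : (k : ℤ) ≤ 1 := by exact_mod_cast hk
              linarith
          _ ≤ _ := by
              apply mul_le_mul hΔ2ge _ (mul_nonneg (P.znn _) (P.znn _)) (by positivity)
              exact mul_le_mul_of_nonneg_right hM (P.znn _)
      linarith
    have h3 := mul_le_mul_of_nonneg_left (hww k hk j hj) (by positivity : 0 ≤ P.Δ ^ 2)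
    linarith
  have hΔ2 : P.Δ ^ 2 ≤ P.β ^ (-585 : ℤ) := by
    have h1 := P.Δ_le
    have h2 := P.Δ_le_one
    have h3 := P.zle (m := -600) (n := -585) (by norm_num)
    nlinarith
  have hQw : ∀ k ≤ 1, ∀ j ≤ P.J, 4 * P.β ^ (-4599 : ℤ) * P.QT T k ≤
      P.β ^ (-585 : ℤ) * P.ww M 2 k j := by
    intro k hk j hj
    unfold QT
    rw [← hMdef]
    have e : ∀ a b : ℤ, -4599 + a + 1 ≤ -585 + b → M * P.β ^ b ≤ P.ww M 2 k j →
        4 * P.β ^ (-4599 : ℤ) * (M * (4 * P.β ^ a)) ≤ P.β ^ (-585 : ℤ) * P.ww M 2 k j := by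
      intro a b hab hb
      calc 4 * P.β ^ (-4599 : ℤ) * (M * (4 * P.β ^ a)) =
            M * (16 * (P.β ^ (-4599 : ℤ) * P.β ^ a)) := by ring
        _ = M * (16 * P.β ^ (-4599 + a)) := by rw [P.zadd]
        _ ≤ M * P.β ^ (-585 + b) := mul_le_mul_of_nonneg_left (P.zc (by norm_num) hab) hM0.le
        _ = P.β ^ (-585 : ℤ) * (M * P.β ^ b) := by rw [← P.zadd]; ring
        _ ≤ _ := mul_le_mul_of_nonneg_left hb (P.znn _)
    have hb := hww k hk j hj
    interval_cases k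
    · rw [if_pos rfl]; exact e 4006 _ (by norm_num) hb
    · rw [if_neg (by norm_num)]; exact e 9 _ (by norm_num) hb
  have hcrude : ∀ k ≤ 1, ∀ j < P.J, ∀ i, P.mm j ≤ i → i ≤ P.mm (j + 1) → LvT x T (ω.take i) →
      |XT x T k (ω.take i) - XT x T k (ω.take (P.mm j))| ≤ P.β ^ (-584 : ℤ) * P.ww M 2 k j := by
    intro k hk j hj i hi1 hi2 hlv
    have hiJ : i ≤ P.mm P.J := hi2.trans (hmJ j hj)
    have h1 := hG.dev P hk hj hi1 hi2 hlv
    unfold comp at h1
    have h2 := P.sum_drift_le (D := fun i' => drift (FT x T P.K0 k) (LvT x T) (ω.take i')) hj hi2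
      (P.QT_nonneg T k) (by
        intro i' hi'
        have h3 := (mem_Ico.mp hi').2.le
        exact P.FT_drift_crude (take_nodup hω _) (hG.GT P (h3.trans hiJ) (LvT_take h3 hlv)) hk)
    have h3 := hκ k hk j hj.le
    have h4 := hQw k hk j hj.le
    have h5 : P.Δ ^ 2 * P.ww M 2 k j ≤ P.β ^ (-585 : ℤ) * P.ww M 2 k j :=
      mul_le_mul_of_nonneg_right hΔ2 (hwpos k j).le
    have h6 := P.zc (c := 2) (by norm_num) (m := -585) (n := -584) (by norm_num)
    have h8 : 2 * P.β ^ (-585 : ℤ) * P.ww M 2 k j ≤ P.β ^ (-584 : ℤ) * P.ww M 2 k j :=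
      mul_le_mul_of_nonneg_right h6 (hwpos k j).le
    have hHi := hH k i hiJ hlv
    have hHj := hH k (P.mm j) (hi1.trans hiJ) (LvT_take hi1 hlv)
    unfold FT at h1
    set S := ∑ i' ∈ Ico (P.mm j) i, drift (FT x T P.K0 k) (LvT x T) (ω.take i') with hSdef
    have hS1 : |(XT x T k (ω.take i) + HT x T P.K0 k (ω.take i)) -
        (XT x T k (ω.take (P.mm j)) + HT x T P.K0 k (ω.take (P.mm j))) - S| < P.κT T k := h1
    rw [abs_lt] at hS1
    rw [abs_le] at h2 hHi hHj ⊢
    constructor <;> linarith [hS1.1, hS1.2, h2.1, h2.2, hHi.1, hHi.2, hHj.1, hHj.2]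
  have hwin := P.fam_window (M := M) hM0 (v := 2) (by norm_num) le_rfl
    (X := fun k i => XT x T k (ω.take i))
    (D := fun k i => drift (FT x T P.K0 k) (LvT x T) (ω.take i))
    (G := fun k i => gt (IT T) (VT x) 2 (ω.take i) k)
    (Lt := fun k i => lt (IT T) (VT x) k (ω.take i))
    (R := fun i => ((rest (ω.take i)).card : ℝ)) (J' := j) hj.le ?_ ?_ ?_ ?_ ?_ ?_ ?_ ?_ ?_
    le_rfl hk
  · have h1 := hcrude k hk j hj i hi1 hi2 hlive
    have h2 : XT x T k (ω.take i) - P.xx M 2 k j =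
        (XT x T k (ω.take i) - XT x T k (ω.take (P.mm j))) +
        (XT x T k (ω.take (P.mm j)) - P.xx M 2 k j) := by ring
    rw [h2, add_mul]
    refine (abs_add_le _ _).trans ?_
    linarith
  · -- initial values
    intro k hk
    simp only [List.take_zero]
    interval_cases k
    · have hX : XT x T 0 ([] : List (Edge d)) = M := by
        unfold XT Xf cnt
        rw [filter_true_of_mem]
        · intro r _
          refine ⟨?_, ?_⟩
          · rw [acc_nil_opn]; simp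
          · rw [acc_nil]; simp
      have hxx : P.xx M 2 0 0 = M := by unfold xx ww; rw [P.aa_zero]; simp
      rw [hX, hxx, sub_self, abs_zero]
      exact mul_nonneg (P.znn _) (P.ww_pos hM0 2 0 0).le
    · have hX : XT x T 1 ([] : List (Edge d)) = 0 := by
        unfold XT Xf cnt
        rw [filter_false_of_mem]
        · simp
        · rintro r _ ⟨_, h2⟩
          rw [acc_nil, inter_empty, card_empty] at h2
          omega
      have hxx : P.xx M 2 1 0 = 0 := by
        unfold xx; rw [P.al_zero]; ring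
      rw [hX, hxx, sub_zero, abs_zero]
      exact mul_nonneg (P.znn _) (P.ww_pos hM0 2 1 0).le
  · -- deviation
    intro k hk j' hj'
    have hj'J : j' < P.J := hj'.trans hj
    have hb : P.mm (j' + 1) ≤ i := (P.mm_mono hj').trans hi1
    have hlv : LvT x T (ω.take (P.mm (j' + 1))) := LvT_take hb hlive
    have hlv0 : LvT x T (ω.take (P.mm j')) :=
      LvT_take ((P.mm_mono (Nat.le_succ j')).trans hb) hlive
    have h1 := hG.dev P hk hj'J (P.mm_mono (Nat.le_succ j')) le_rfl hlv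
    unfold comp at h1
    have h3 := hκ k hk j' hj'J.le
    have hHi := hH k (P.mm (j' + 1)) (hmJ j' hj'J) hlv
    have hHj := hH k (P.mm j') (P.mm_mono hj'J.le) hlv0
    unfold FT at h1
    set S := ∑ i' ∈ Ico (P.mm j') (P.mm (j' + 1)),
      drift (FT x T P.K0 k) (LvT x T) (ω.take i') with hSdef
    have hS1 : |(XT x T k (ω.take (P.mm (j' + 1))) + HT x T P.K0 k (ω.take (P.mm (j' + 1)))) -
        (XT x T k (ω.take (P.mm j')) + HT x T P.K0 k (ω.take (P.mm j'))) - S| < P.κT T k := h1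
    rw [abs_lt] at hS1
    rw [abs_le] at hHi hHj ⊢
    constructor <;> linarith [hS1.1, hS1.2, hHi.1, hHi.2, hHj.1, hHj.2]
  · intro j' hj' i' hi'
    obtain ⟨hi1', hi2'⟩ := mem_Ico.mp hi'
    have hj'J : j' < P.J := hj'.trans hj
    constructor
    · rw [card_rest (take_nodup hω _), hlen_i j' hj'J i' hi2'.le,
        Nat.cast_sub (hlei j' hj'J i' hi2'.le)]
      have h3 : (i' : ℝ) ≤ P.mm (j' + 1) := by exact_mod_cast hi2'.le
      have h4 := P.mm_le (j := j' + 1) hj'J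
      have h5 : P.N = (Fintype.card (Edge d) : ℝ) := rfl
      linarith
    · exact P.rest_le (take_nodup hω _)
  · -- drift formula
    intro k hk j' hj' i' hi'
    obtain ⟨hi1', hi2'⟩ := mem_Ico.mp hi'
    have hj'J : j' < P.J := hj'.trans hj
    have hb : i' ≤ i := hi2'.le.trans ((P.mm_mono hj').trans hi1)
    have hlv : LvT x T (ω.take i') := LvT_take hb hlive
    have hiJ : i' ≤ P.mm P.J := hi2'.le.trans (hmJ j' hj'J)
    have hGT := hG.GT P hiJ hlv
    have h1 := T_drift (P.znn 605) hGT.2.2.1 hlv (hrpos i' hiJ) hk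
    have h2 := P.drift_diff (R := (ω.take (P.mm P.J)).toFinset) (toFinset_take_subset ω hiJ)
      hGT.2.2.1 hG.st (hrpos i' hiJ) k
    have hX1 : XT x T k (ω.take i') ≤ M * P.β ^ (-3997 * (k : ℤ)) := by
      interval_cases k
      · have := XT_le x T 0 (ω.take i')
        simpa using this
      · have := (XT1_le x T (ω.take i')).trans hGT.2.2.2
        rw [← hMdef] at this
        simpa using this
    have h3 : (158 + 8 * P.β ^ (605 : ℤ)) ≤ P.β ^ (606 : ℤ) := by
      have a1 := P.zc (c := 200) (by norm_num) (m := 605) (n := 606) (by norm_num)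
      have a2 := P.zle (m := 0) (n := 605) (by norm_num)
      rw [zpow_zero] at a2
      linarith
    have hX0 := XT_nonneg x T k (ω.take i')
    have h4 : (158 + 8 * P.β ^ (605 : ℤ)) * XT x T k (ω.take i') ≤
        M * P.β ^ (606 - 3997 * (k : ℤ)) := by
      calc (158 + 8 * P.β ^ (605 : ℤ)) * XT x T k (ω.take i') ≤
            P.β ^ (606 : ℤ) * (M * P.β ^ (-3997 * (k : ℤ))) :=
              mul_le_mul h3 hX1 hX0 (P.znn _)
        _ = M * (P.β ^ (606 : ℤ) * P.β ^ (-3997 * (k : ℤ))) := by ring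
        _ = M * P.β ^ (606 + -3997 * (k : ℤ)) := by rw [P.zadd]
        _ = M * P.β ^ (606 - 3997 * (k : ℤ)) := by
          have e : (606 : ℤ) + -3997 * (k : ℤ) = 606 - 3997 * (k : ℤ) := by ring
          rw [e]
    have h5 : P.β ^ (9848 : ℤ) ≤ M * P.β ^ (606 - 3997 * (k : ℤ)) := by
      calc P.β ^ (9848 : ℤ) ≤ P.β ^ (15999 : ℤ) * P.β ^ (606 - 3997 * (k : ℤ)) := by
            rw [P.zadd]
            apply P.zle
            have : (k : ℤ) ≤ 1 := by exact_mod_cast hk
            linarith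
        _ ≤ _ := mul_le_mul_of_nonneg_right hM (P.znn _)
    have h6 : 2 * (M * P.β ^ (606 - 3997 * (k : ℤ))) ≤
        P.Δ * (P.aa j' / P.p * P.ww M 2 k j') := by
      have a1 := P.q_ge hj'J.le
      have a2 := hww k hk j' hj'J.le
      calc 2 * (M * P.β ^ (606 - 3997 * (k : ℤ))) = M * (2 * P.β ^ (606 - 3997 * (k : ℤ))) := by ring
        _ ≤ M * P.β ^ (3398 + (-2 - 3999 * (k : ℤ))) := by
            apply mul_le_mul_of_nonneg_left _ hM0.le
            apply P.zc (by norm_num)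
            have : (k : ℤ) ≤ 1 := by exact_mod_cast hk
            linarith
        _ = P.β ^ (3398 : ℤ) * (M * P.β ^ (-2 - 3999 * (k : ℤ))) := by rw [← P.zadd]; ring
        _ ≤ (P.Δ * (P.aa j' / P.p)) * P.ww M 2 k j' :=
            mul_le_mul a1 a2 (mul_nonneg hM0.le (P.znn _)) ((P.znn _).trans a1)
        _ = _ := by ring
    have h7 : Xf (IT T) (VT x) k (ω.take i') = XT x T k (ω.take i') := rfl
    rw [h7] at h1
    have h8 : drift (XT x T k) (LvT x T) (ω.take i') =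
      drift (Xf (IT T) (VT x) k) (LvT x T) (ω.take i') := rfl
    rw [h8] at h2
    have h9 : ((rest (ω.take i')).card : ℝ) * drift (FT x T P.K0 k) (LvT x T) (ω.take i') -
        (gt (IT T) (VT x) 2 (ω.take i') k - lt (IT T) (VT x) k (ω.take i')) =
        (((rest (ω.take i')).card : ℝ) * drift (FT x T P.K0 k) (LvT x T) (ω.take i') -
          ((rest (ω.take i')).card : ℝ) * drift (Xf (IT T) (VT x) k) (LvT x T) (ω.take i')) +
        (((rest (ω.take i')).card : ℝ) * drift (Xf (IT T) (VT x) k) (LvT x T) (ω.take i') -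
          (gt (IT T) (VT x) 2 (ω.take i') k - lt (IT T) (VT x) k (ω.take i'))) := by ring
    rw [h9]
    refine (abs_add_le _ _).trans ?_
    linarith
  · -- crude
    intro k hk j' hj' i' hi'
    obtain ⟨hi1', hi2'⟩ := mem_Ico.mp hi'
    have hj'J : j' < P.J := hj'.trans hj
    have hb : i' ≤ i := hi2'.le.trans ((P.mm_mono hj').trans hi1)
    exact hcrude k hk j' hj'J i' hi1' hi2'.le (LvT_take hb hlive)
  · intro i; exact gt_zero _ _ _ _
  · intro i
    have e := gt_succ (IT T) (VT x) 2 0 (ω.take i)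
    rw [e]
    unfold XT
    push_cast
    ring
  · -- loss term
    intro k hk j' hj' i' hi'
    obtain ⟨hi1', hi2'⟩ := mem_Ico.mp hi'
    have hj'J : j' < P.J := hj'.trans hj
    have h1 := lt_two_sided (I := IT T) (V := VT x) (v := 2) (k := k)
      (l := ω.take i') (g0 := 3 * (P.al j') ^ 2 * (P.aa j' / P.p))
      (δ0 := P.β ^ (-423 : ℤ) * (P.aa j' / P.p)) VT_card ?_
    · refine h1.trans (le_of_eq ?_)
      unfold XT
      ring
    · intro r _ _ f hf
      obtain ⟨hf1, hf2⟩ := mem_inter.mp hf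
      rw [mem_VT] at hf1
      rcases hf1 with rfl | rfl
      · exact P.fineG hω hlen (hG.gv.2.2 _ _) hj'J hi1' hi2'.le hf2
      · exact P.fineG hω hlen (hG.gv.2.2 _ _) hj'J hi1' hi2'.le hf2
  · intro k i; exact XT_nonneg _ _ _ _

end

end Par

end Pool.Agent.Q2F
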