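import Mathlib
import Pool.Agent.MP_9431a4_pr.TWin2

set_option autoImplicit false

/-!
Survival estimate: a fixed set of directions is independent with tiny probability.
-/

namespace Pool.Agent.Q2F

open Finset Classical

theorem survival {E : Type} [Fintype E] [DecidableEq E] {live ok : List E → Prop} {θ : ℕ → ℝ}
    (hθ1 : ∀ i, θ i ≤ 1) (hmono : ∀ l : List E, ∀ g, live (l ++ [g]) → live l)
    (hstep : ∀ l : List E, l.Nodup → live l → ok l →
      θ l.length * (rest l).card ≤ (((rest l).filter (fun g => ¬ live (l ++ [g]))).card : ℝ))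
    (n : ℕ) (l : List E) (hl : l.Nodup) (hn : l.length + n ≤ Fintype.card E) :
    Ex (fun ω => if live ω ∧ ∀ i, l.length ≤ i → i < l.length + n → ok (ω.take i) then (1 : ℝ)
      else 0) n l ≤ if live l then ∏ i ∈ range n, (1 - θ (l.length + i)) else 0 := by
  have hmono' : ∀ (l m : List E), live (l ++ m) → live l := by
    intro l m
    induction m using List.reverseRecOn with
    | nil => simp
    | append_singleton m g ih =>
      intro h
      rw [← List.append_assoc] at h
      exact ih (hmono _ _ h)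
  induction n generalizing l with
  | zero =>
    rw [Ex_zero, range_zero, prod_empty]
    by_cases h : live l
    · rw [if_pos h]
      split <;> norm_num
    · rw [if_neg h, if_neg (fun h' => h h'.1)]
  | succ n ih =>
    have hpos : 0 < (rest l).card := card_rest_pos hl (by omega)
    by_cases hlv : live l
    swap
    · rw [if_neg hlv]
      have h0 : Ex (fun ω => if live ω ∧ ∀ i, l.length ≤ i → i < l.length + (n + 1) →
          ok (ω.take i) then (1 : ℝ) else 0) (n + 1) l = Ex (fun _ => 0) (n + 1) l := by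
        apply Ex_congr hl
        intro m _ _
        rw [if_neg]
        rintro ⟨h, _⟩
        exact hlv (hmono' _ _ h)
      rw [h0, Ex_const hl hn]
    rw [if_pos hlv]
    have hprod : 0 ≤ ∏ i ∈ range n, (1 - θ (l.length + 1 + i)) :=
      prod_nonneg (fun i _ => by linarith [hθ1 (l.length + 1 + i)])
    have hprod' : 0 ≤ ∏ i ∈ range (n + 1), (1 - θ (l.length + i)) :=
      prod_nonneg (fun i _ => by linarith [hθ1 (l.length + i)])
    by_cases hok : ok l
    swap
    · have h0 : Ex (fun ω => if live ω ∧ ∀ i, l.length ≤ i → i < l.length + (n + 1) →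
          ok (ω.take i) then (1 : ℝ) else 0) (n + 1) l = Ex (fun _ => 0) (n + 1) l := by
        apply Ex_congr hl
        intro m _ _
        rw [if_neg]
        rintro ⟨_, h⟩
        have := h l.length le_rfl (by omega)
        rw [List.take_append_of_le_length le_rfl, List.take_length] at this
        exact hok this
      rw [h0, Ex_const hl hn]
      exact hprod'
    rw [Ex_succ]
    have key : ∀ g ∈ rest l, Ex (fun ω => if live ω ∧ ∀ i, l.length ≤ i → i < l.length + (n + 1) →
        ok (ω.take i) then (1 : ℝ) else 0) n (l ++ [g]) ≤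
        (∏ i ∈ range n, (1 - θ (l.length + 1 + i))) * (if live (l ++ [g]) then 1 else 0) := by
      intro g hg
      have hnd := nodup_append hl hg
      have h1 := ih (l ++ [g]) hnd (by simp; omega)
      have h2 : Ex (fun ω => if live ω ∧ ∀ i, l.length ≤ i → i < l.length + (n + 1) →
          ok (ω.take i) then (1 : ℝ) else 0) n (l ++ [g]) ≤
          Ex (fun ω => if live ω ∧ ∀ i, (l ++ [g]).length ≤ i → i < (l ++ [g]).length + n →
          ok (ω.take i) then (1 : ℝ) else 0) n (l ++ [g]) := by
        apply Ex_mono hnd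
        intro m _ _
        by_cases hc : live (l ++ [g] ++ m) ∧ ∀ i, l.length ≤ i → i < l.length + (n + 1) →
          ok ((l ++ [g] ++ m).take i)
        · rw [if_pos hc, if_pos]
          refine ⟨hc.1, ?_⟩
          intro i hi1 hi2
          simp only [List.length_append, List.length_singleton] at hi1 hi2
          exact hc.2 i (by omega) (by omega)
        · rw [if_neg hc]
          split <;> norm_num
      refine h2.trans (h1.trans (le_of_eq ?_))
      have h3 : (l ++ [g]).length = l.length + 1 := by simp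
      rw [h3]
      split <;> simp
    refine (av_mono key).trans ?_
    rw [av_mul_left]
    have hav : av l (fun g => if live (l ++ [g]) then (1 : ℝ) else 0) ≤ 1 - θ l.length := by
      unfold av
      have hpr : (0 : ℝ) < ((rest l).card : ℝ) := by exact_mod_cast hpos
      rw [div_le_iff₀ hpr, ← sum_filter, sum_const, nsmul_eq_mul, mul_one]
      have h4 := card_filter_add_card_filter_not (s := rest l) (fun g => live (l ++ [g]))
      have h5 := hstep l hl hlv hok
      have h6 : (((rest l).filter (fun g => live (l ++ [g]))).card : ℝ) +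
        (((rest l).filter (fun g => ¬ live (l ++ [g]))).card : ℝ) = ((rest l).card : ℝ) := by
        exact_mod_cast h4
      nlinarith
    rw [prod_range_succ', Nat.add_zero]
    have h7 : ∏ k ∈ range n, (1 - θ (l.length + (k + 1))) =
        ∏ i ∈ range n, (1 - θ (l.length + 1 + i)) := by
      apply prod_congr rfl
      intro k _
      congr 2
      ring
    rw [h7]
    exact mul_le_mul_of_nonneg_left hav hprod

variable {d : ℕ}

/-- no late pair is completed -/
def LvC (x : Vx d) (T : Finset (Fin d)) (l : List (Edge d)) : Prop :=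
  LvT x T l ∧ ∀ r ∈ IT T, ¬ VT x r ⊆ acc l

theorem LvC_mono {x : Vx d} {T : Finset (Fin d)} (l : List (Edge d)) (g : Edge d)
    (h : LvC x T (l ++ [g])) : LvC x T l :=
  ⟨h.1.initial, fun r hr hs => h.2 r hr (hs.trans (acc_subset_append _ _))⟩

/-- each pair of type one has an edge whose acceptance completes it -/
theorem completions {x : Vx d} {T : Finset (Fin d)} {l : List (Edge d)} :
    XT x T 1 l ≤ (((rest l).filter (fun g => ¬ LvC x T (l ++ [g]))).card : ℝ) := by
  unfold XT Xf cnt
  have key : ∀ r ∈ (IT T).filter (fun r => Ty (acc l) (opn l) (VT x r) 1),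
      ∃ g, g ∈ VT x r ∧ g ∈ opn l := by
    intro r hr
    obtain ⟨h1, h2⟩ := mem_filter.mp hr
    have h3 := card_inter_opn (VT_card r h1) h2
    have h4 : 0 < (VT x r ∩ opn l).card := by omega
    obtain ⟨g, hg⟩ := card_pos.mp h4
    exact ⟨g, (mem_inter.mp hg).1, (mem_inter.mp hg).2⟩
  choose φ hφ1 hφ2 using key
  have : ((IT T).filter (fun r => Ty (acc l) (opn l) (VT x r) 1)).card ≤
      ((rest l).filter (fun g => ¬ LvC x T (l ++ [g]))).card := by
    rw [← card_attach]
    apply card_le_card_of_injOn (fun r => φ r.1 r.2)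
    · rintro ⟨r, hr⟩ _
      simp only [Finset.mem_coe]
      have hro := hφ2 r hr
      have hrv := hφ1 r hr
      obtain ⟨h1, h2⟩ := mem_filter.mp hr
      rw [mem_filter]
      refine ⟨opn_subset_rest _ hro, ?_⟩
      rintro ⟨_, hno⟩
      apply hno r h1
      obtain ⟨h3, _⟩ := step_open hro
      rw [h3]
      intro f hf
      by_cases hfg : f = φ r hr
      · rw [hfg]; exact mem_insert_self _ _
      · apply mem_insert_of_mem
        rcases mem_union.mp (h2.1 hf) with h4 | h4
        · exact h4
        · exfalso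
          have h5 := card_inter_opn (VT_card r h1) h2
          have h6 : f ∈ VT x r ∩ opn l := mem_inter.mpr ⟨hf, h4⟩
          have h7 : φ r hr ∈ VT x r ∩ opn l := mem_inter.mpr ⟨hrv, hro⟩
          exact hfg (card_le_one.mp (by omega) f h6 (φ r hr) h7)
    · rintro ⟨r, hr⟩ _ ⟨s, hs⟩ _ hrs
      simp only at hrs
      by_contra hne
      have h1 := hφ1 r hr
      have h2 := hφ1 s hs
      rw [← hrs] at h2
      have hne' : r ≠ s := fun h => hne (Subtype.ext h)
      exact Finset.disjoint_left.mp (VT_disj r (mem_filter.mp hr).1 s (mem_filter.mp hs).1 hne') h1 h2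
  exact_mod_cast this

namespace Par

variable (P : Par d)

/-- late blocks -/
noncomputable def lateB : Finset ℕ := (range P.J).filter (fun j => P.J ≤ 2 * j)

/-- lower bound for the completion rate in block `j` -/
noncomputable def rate (M : ℝ) (j : ℕ) : ℝ := M * P.p * P.al j * P.aa j / P.N

/-- lower bound for the completion rate at time `i` -/
noncomputable def θ (M : ℝ) (i : ℕ) : ℝ :=
  ∑ j ∈ P.lateB, (if i ∈ Ico (P.mm j) (P.mm (j + 1)) then P.rate M j else 0)

theorem block_unique {i j j' : ℕ} (h : i ∈ Ico (P.mm j) (P.mm (j + 1)))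
    (h' : i ∈ Ico (P.mm j') (P.mm (j' + 1))) : j = j' := by
  obtain ⟨h1, h2⟩ := mem_Ico.mp h
  obtain ⟨h3, h4⟩ := mem_Ico.mp h'
  by_contra hne
  rcases lt_or_gt_of_ne hne with hlt | hlt
  · have := P.mm_mono (show j + 1 ≤ j' from hlt)
    omega
  · have := P.mm_mono (show j' + 1 ≤ j from hlt)
    omega

theorem θ_eq {M : ℝ} {i j : ℕ} (hj : j ∈ P.lateB) (h : i ∈ Ico (P.mm j) (P.mm (j + 1))) :
    P.θ M i = P.rate M j := by
  unfold θ
  rw [sum_eq_single j]
  · rw [if_pos h]
  · intro j' _ hne
    rw [if_neg]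
    intro h'
    exact hne (P.block_unique h' h)
  · intro h'; exact absurd hj h'

theorem θ_zero {M : ℝ} {i : ℕ} (h : ∀ j ∈ P.lateB, i ∉ Ico (P.mm j) (P.mm (j + 1))) :
    P.θ M i = 0 := by
  unfold θ
  apply sum_eq_zero
  intro j hj
  rw [if_neg (h j hj)]

theorem rate_nonneg {M : ℝ} (hM : 0 ≤ M) (j : ℕ) : 0 ≤ P.rate M j := by
  unfold rate
  have := P.p_pos
  have := P.al_nonneg j
  have := P.aa_pos j
  have := P.N_pos
  positivity

theorem θ_nonneg {M : ℝ} (hM : 0 ≤ M) (i : ℕ) : 0 ≤ P.θ M i := by
  unfold θ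
  apply sum_nonneg
  intro j _
  split
  · exact P.rate_nonneg hM j
  · exact le_rfl

theorem al_late {j : ℕ} (hj : j ∈ P.lateB) : P.A / 2 ≤ P.al j := by
  unfold lateB at hj
  obtain ⟨_, h2⟩ := mem_filter.mp hj
  unfold al
  have h3 : (P.J : ℝ) ≤ 2 * j := by exact_mod_cast h2
  have h4 := P.J_mul_Δ
  have h5 := P.Δ_pos
  nlinarith

theorem sum_θ {M : ℝ} (hM : 0 ≤ M) : P.A ^ 2 * M * P.p ^ 2 / 12 ≤
    ∑ i ∈ range (P.mm P.J), P.θ M i := by
  unfold θ
  rw [sum_comm]
  have hp := P.p_pos
  have hN := P.N_pos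
  have hΔ := P.Δ_pos
  have hA := P.A_pos
  have h1 : ∀ j ∈ P.lateB, P.Δ * M * P.p ^ 2 * (P.A / 2) / 2 ≤
      ∑ i ∈ range (P.mm P.J), (if i ∈ Ico (P.mm j) (P.mm (j + 1)) then P.rate M j else 0) := by
    intro j hj
    have hjJ : j < P.J := mem_range.mp (mem_filter.mp hj).1
    have h2 : ∑ i ∈ range (P.mm P.J), (if i ∈ Ico (P.mm j) (P.mm (j + 1)) then P.rate M j else 0) =
        P.b j * P.rate M j := by
      rw [← sum_filter, sum_const, nsmul_eq_mul]
      congr 2
      have h3 : (range (P.mm P.J)).filter (fun i => i ∈ Ico (P.mm j) (P.mm (j + 1))) =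
          Ico (P.mm j) (P.mm (j + 1)) := by
        ext i
        rw [mem_filter, mem_range]
        constructor
        · exact fun h => h.2
        · intro h
          refine ⟨?_, h⟩
          have := (mem_Ico.mp h).2
          have := P.mm_mono (show j + 1 ≤ P.J from hjJ)
          omega
      rw [h3, Nat.card_Ico, P.mm_succ]
      omega
    rw [h2]
    unfold rate
    have haa := P.aa_pos j
    have hal := P.al_late hj
    have hb := P.le_b j
    have hb2 : P.N * P.Δ * P.p / P.aa j / 2 ≤ P.b j := by
      have h4 : 2 ≤ P.N * P.Δ * P.p / P.aa j := by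
        rw [le_div_iff₀ haa]
        have a1 := P.le_N
        have a2 := P.le_Δ'
        have a3 : P.β ^ (15399 : ℤ) ≤ P.N * P.Δ * P.p := by
          unfold p
          calc P.β ^ (15399 : ℤ) = P.β ^ (20000 : ℤ) * P.β ^ (-601 : ℤ) * P.β ^ (-4000 : ℤ) := by
                rw [P.zadd, P.zadd]; norm_num
            _ ≤ P.N * P.Δ * P.β ^ (-4000 : ℤ) := by
                apply mul_le_mul_of_nonneg_right _ (P.znn _)
                exact mul_le_mul a1 a2 (P.znn _) hN.le
        have a4 := P.zc (c := 2) (by norm_num) (m := 0) (n := 15399) (by norm_num)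
        rw [zpow_zero] at a4
        have a5 := P.aa_le_one j
        linarith
      linarith
    have h5 : P.Δ * M * P.p ^ 2 * (P.A / 2) / 2 ≤
        (P.N * P.Δ * P.p / P.aa j / 2) * (M * P.p * (P.A / 2) * P.aa j / P.N) := by
      apply le_of_eq
      field_simp
    refine h5.trans ?_
    apply mul_le_mul hb2 _ (by positivity) (Nat.cast_nonneg _)
    apply div_le_div_of_nonneg_right _ hN.le
    apply mul_le_mul_of_nonneg_right _ haa.le
    apply mul_le_mul_of_nonneg_left hal (by positivity)
  refine le_trans ?_ (sum_le_sum h1)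
  rw [sum_const, nsmul_eq_mul]
  have hcard : (P.J : ℝ) / 3 ≤ (P.lateB.card : ℝ) := by
    have h6 : P.J ≤ 3 * P.lateB.card := by
      have h7 : Ico ((P.J + 1) / 2) P.J ⊆ P.lateB := by
        intro j hj
        obtain ⟨a, b⟩ := mem_Ico.mp hj
        unfold lateB
        rw [mem_filter, mem_range]
        omega
      have h8 := card_le_card h7
      rw [Nat.card_Ico] at h8
      have h9 : 3 ≤ P.J := by
        have a1 := P.hJ1
        have a2 := P.zc (c := 3) (by norm_num) (m := 0) (n := 600) (by norm_num)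
        rw [zpow_zero] at a2
        have a3 := P.hA
        have a4 : (3 : ℝ) ≤ P.J := by nlinarith
        exact_mod_cast a4
      omega
    have h10 : (P.J : ℝ) ≤ 3 * P.lateB.card := by exact_mod_cast h6
    linarith
  have hJ := P.J_mul_Δ
  have h11 : P.A ^ 2 * M * P.p ^ 2 / 12 = (P.J : ℝ) / 3 * (P.Δ * M * P.p ^ 2 * (P.A / 2) / 2) := by
    have : P.A ^ 2 = P.A * (P.J * P.Δ) := by rw [hJ]; ring
    rw [this]; ring
  rw [h11]
  exact mul_le_mul_of_nonneg_right hcard (by positivity)

theorem θ_N {M : ℝ} (hM : 0 ≤ M) (i : ℕ) : P.θ M i * P.N ≤ M := by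
  by_cases h : ∃ j ∈ P.lateB, i ∈ Ico (P.mm j) (P.mm (j + 1))
  · obtain ⟨j, hj, hi⟩ := h
    rw [P.θ_eq hj hi]
    unfold rate
    have hN := P.N_pos
    rw [div_mul_cancel₀ _ hN.ne']
    have hjJ : j < P.J := mem_range.mp (mem_filter.mp hj).1
    have h1 := P.al_le hjJ.le
    have h2 := P.aa_le_one j
    have h3 := P.aa_pos j
    have h4 := P.al_nonneg j
    have h5 : P.p * P.al j ≤ 1 := by
      have a1 := P.A_le
      unfold p
      calc P.β ^ (-4000 : ℤ) * P.al j ≤ P.β ^ (-4000 : ℤ) * P.β ^ (1 : ℤ) := by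
            rw [P.z1]
            exact mul_le_mul_of_nonneg_left (h1.trans a1) (P.znn _)
        _ = P.β ^ (-3999 : ℤ) := by rw [P.zadd]; norm_num
        _ ≤ P.β ^ (0 : ℤ) := P.zle (by norm_num)
        _ = 1 := zpow_zero _
    have h6 : 0 ≤ P.p * P.al j := mul_nonneg P.p_pos.le h4
    have h7 : P.p * P.al j * P.aa j ≤ 1 := by nlinarith
    calc M * P.p * P.al j * P.aa j = M * (P.p * P.al j * P.aa j) := by ring
      _ ≤ M * 1 := mul_le_mul_of_nonneg_left h7 hM
      _ = M := mul_one _
  · push Not at h
    rw [P.θ_zero h, zero_mul]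
    exact hM

end Par

end Pool.Agent.Q2F
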