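import Mathlib
import Pool.Agent.MP_9431a4_pr.Surv

set_option autoImplicit false

/-!
The union bound over sets of directions.
-/

namespace Pool.Agent.Q2F

open Finset Classical

variable {d : ℕ}

theorem card_IT (T : Finset (Fin d)) : 2 * (IT T).card = T.card * (T.card - 1) := by
  have h1 : T.offDiag = IT T ∪ (IT T).image (fun r => (r.2, r.1)) := by
    ext r
    rw [mem_offDiag, mem_union, mem_IT, mem_image]
    constructor
    · rintro ⟨a, b, c⟩
      rcases lt_or_gt_of_ne c with h | h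
      · left; exact ⟨a, b, h⟩
      · right; exact ⟨(r.2, r.1), mem_IT.mpr ⟨b, a, h⟩, rfl⟩
    · rintro (⟨a, b, c⟩ | ⟨s, hs, rfl⟩)
      · exact ⟨a, b, c.ne⟩
      · obtain ⟨a, b, c⟩ := mem_IT.mp hs
        exact ⟨b, a, c.ne'⟩
  have h2 : Disjoint (IT T) ((IT T).image (fun r => (r.2, r.1))) := by
    rw [Finset.disjoint_left]
    intro r hr hr'
    obtain ⟨s, hs, rfl⟩ := mem_image.mp hr'
    have a := (mem_IT.mp hr).2.2
    have b := (mem_IT.mp hs).2.2
    exact absurd a (not_lt.mpr b.le)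
  have h3 : ((IT T).image (fun r => (r.2, r.1))).card = (IT T).card := by
    apply card_image_of_injective
    intro a b h
    simp only [Prod.mk.injEq] at h
    exact Prod.ext h.2 h.1
  have h4 := offDiag_card T
  rw [h1, card_union_of_disjoint h2, h3] at h4
  rw [Nat.mul_sub, mul_one, ← h4]
  ring

namespace Par

variable (P : Par d)

/-- size of the sets in the union bound -/
noncomputable def D : ℕ := ⌈2000000 * P.A * P.β ^ (8000 : ℤ)⌉₊

theorem D_ge : 2000000 * P.A * P.β ^ (8000 : ℤ) ≤ P.D := Nat.le_ceil _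

theorem D_le : (P.D : ℝ) ≤ 2000001 * P.A * P.β ^ (8000 : ℤ) := by
  have h0 : 0 ≤ 2000000 * P.A * P.β ^ (8000 : ℤ) :=
    mul_nonneg (mul_nonneg (by norm_num) P.A_pos.le) (P.znn _)
  have h1 : (P.D : ℝ) < 2000000 * P.A * P.β ^ (8000 : ℤ) + 1 := Nat.ceil_lt_add_one h0
  have h2 := P.zle (m := 0) (n := 8000) (by norm_num)
  rw [zpow_zero] at h2
  have h3 : 1 ≤ P.A * P.β ^ (8000 : ℤ) := by nlinarith [P.hA]
  linarith

theorem D_le' : (P.D : ℝ) ≤ P.β ^ (8001 : ℤ) := by
  refine P.D_le.trans ?_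
  have h1 := P.zA (k := 1) (by norm_num) (c := 2000001) (by norm_num) (by norm_num) (m := 8000)
    (n := 8001) (by norm_num)
  refine le_trans ?_ h1
  rw [pow_one]
  apply mul_le_mul_of_nonneg_right _ (P.znn _)
  linarith [P.A_pos]

theorem D_ge' : P.β ^ (8000 : ℤ) ≤ P.D := by
  refine le_trans ?_ P.D_ge
  have h2 := P.znn 8000
  nlinarith [P.hA]

section
variable {T : Finset (Fin d)}

theorem M_ge (hT : T.card = P.D) : (P.D : ℝ) ^ 2 / 4 ≤ ((IT T).card : ℝ) := by
  have h1 := card_IT T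
  rw [hT] at h1
  have h2 : 2 ≤ P.D := by
    have a1 := P.D_ge'
    have a2 := P.zc (c := 2) (by norm_num) (m := 0) (n := 8000) (by norm_num)
    rw [zpow_zero] at a2
    have : (2 : ℝ) ≤ P.D := by linarith
    exact_mod_cast this
  have h3 : (2 : ℝ) * ((IT T).card : ℝ) = P.D * ((P.D : ℝ) - 1) := by
    have h4 : ((2 * (IT T).card : ℕ) : ℝ) = ((P.D * (P.D - 1) : ℕ) : ℝ) := by rw [h1]
    push_cast [Nat.cast_sub (by omega : 1 ≤ P.D)] at h4
    exact h4
  have h5 : (2 : ℝ) ≤ P.D := by exact_mod_cast h2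
  nlinarith

theorem M_ge' (hT : T.card = P.D) : P.β ^ (15999 : ℤ) ≤ ((IT T).card : ℝ) := by
  refine le_trans ?_ (P.M_ge hT)
  have h1 := P.D_ge'
  have h2 : P.β ^ (16000 : ℤ) ≤ (P.D : ℝ) ^ 2 := by
    have h3 := pow_le_pow_left₀ (P.znn 8000) h1 2
    have h4 : (P.β ^ (8000 : ℤ)) ^ 2 = P.β ^ (16000 : ℤ) := by
      rw [← zpow_natCast, ← zpow_mul]; norm_num
    rwa [h4] at h3
  have h5 := P.zc (c := 4) (by norm_num) (m := 15999) (n := 16000) (by norm_num)
  linarith

theorem CT_ge : P.β ^ (2166 : ℤ) ≤ P.CT := by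
  have h1 : P.β ^ (2167 : ℤ) < (P.CT : ℝ) + 1 := Nat.lt_floor_add_one _
  have h2 := P.zc (c := 2) (by norm_num) (m := 2166) (n := 2167) (by norm_num)
  have h3 := P.zle (m := 0) (n := 2166) (by norm_num)
  rw [zpow_zero] at h3
  linarith

theorem Pr_StT (x : Vx d) (hT : T.card = P.D) :
    Pr (fun ω : List (Edge d) => ¬ P.StT x T (ω.take (P.mm P.J)).toFinset) ≤
      2 * Real.exp (-P.β ^ (8005 : ℤ)) := by
  have hM := P.M_ge' hT
  have hMpos : (0 : ℝ) < (IT T).card := lt_of_lt_of_le (P.zpos _) hM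
  have hτ0 : (0 : ℝ) ≤ (P.mm P.J : ℝ) / (Fintype.card (Edge d) : ℝ) := by positivity
  have hτ := P.tau_le le_rfl
  have hsub : Pr (fun ω : List (Edge d) => ¬ P.StT x T (ω.take (P.mm P.J)).toFinset) ≤
    Pr (fun ω : List (Edge d) =>
      ((IT T).card * P.β ^ (-3997 : ℤ) < ((touT (ω.take (P.mm P.J)).toFinset x T).card : ℝ)) ∨
      (8 * P.Hn < (hvP (ω.take (P.mm P.J)).toFinset x T P.CT).card)) := by
    apply Pr_mono
    intro ω _ _ hω
    by_contra hcon
    push Not at hcon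
    exact hω ⟨hcon.1, hcon.2⟩
  refine hsub.trans ((Pr_or_le _ _).trans ?_)
  have h1 : Pr (fun ω : List (Edge d) =>
      ((IT T).card * P.β ^ (-3997 : ℤ) < ((touT (ω.take (P.mm P.J)).toFinset x T).card : ℝ))) ≤
      Real.exp (-P.β ^ (8005 : ℤ)) := by
    refine (Pr_touT (P.mm_le_card le_rfl) x T (mul_nonneg hMpos.le (P.znn _)) ?_).trans ?_
    · calc Real.exp 2 * ((IT T).card * 2 * ((P.mm P.J : ℝ) / (Fintype.card (Edge d) : ℝ)))
          ≤ 10 * ((IT T).card * 2 * P.β ^ (-3998 : ℤ)) := by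
            apply mul_le_mul exp2_le _ (by positivity) (by norm_num)
            apply mul_le_mul_of_nonneg_left hτ (by positivity)
        _ = (IT T).card * (20 * P.β ^ (-3998 : ℤ)) := by ring
        _ ≤ _ := by
            apply mul_le_mul_of_nonneg_left _ hMpos.le
            exact P.zc (by norm_num) (by norm_num)
    · apply Real.exp_le_exp.mpr
      apply neg_le_neg
      calc P.β ^ (8005 : ℤ) ≤ P.β ^ (15999 : ℤ) * P.β ^ (-3997 : ℤ) := by
            rw [P.zadd]; exact P.zle (by norm_num)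
        _ ≤ _ := mul_le_mul_of_nonneg_right hM (P.znn _)
  have h2 : Pr (fun ω : List (Edge d) =>
      8 * P.Hn < (hvP (ω.take (P.mm P.J)).toFinset x T P.CT).card) ≤
      Real.exp (-P.β ^ (8005 : ℤ)) := by
    refine (Pr_hvP (P.mm_le_card le_rfl) x T P.CT P.Hn).trans ?_
    set τ := (P.mm P.J : ℝ) / (Fintype.card (Edge d) : ℝ) with hτdef
    have hCT := P.CT_ge
    have hCTpos : (0 : ℝ) < P.CT := lt_of_lt_of_le (P.zpos _) hCT
    have hCTpos' : 0 < P.CT := by exact_mod_cast hCTpos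
    have e1 : ((I2 T).card.choose P.Hn : ℝ) ≤ ((P.D : ℝ) * d) ^ P.Hn := by
      have a1 : (I2 T).card ≤ P.D * d := by
        refine (card_le_card (filter_subset _ _)).trans ?_
        rw [card_product, hT, card_univ, Fintype.card_fin]
      have a2 : (I2 T).card.choose P.Hn ≤ (P.D * d) ^ P.Hn :=
        (Nat.choose_le_pow _ _).trans (Nat.pow_le_pow_left a1 _)
      exact_mod_cast a2
    have e2 : ((T.card.choose P.CT : ℕ) : ℝ) ≤ (Real.exp 1 * P.D / P.CT) ^ P.CT := by
      rw [hT]; exact choose_le_exp _ _ hCTpos'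
    have e3 : τ ^ (2 * P.CT * P.Hn) = ((τ ^ 2) ^ P.CT) ^ P.Hn := by
      rw [← pow_mul, ← pow_mul]
      congr 1
      ring
    have e4 : ((I2 T).card.choose P.Hn : ℝ) * ((T.card.choose P.CT : ℕ) : ℝ) ^ P.Hn *
        τ ^ (2 * P.CT * P.Hn) ≤
        (((P.D : ℝ) * d) * (Real.exp 1 * P.D / P.CT * τ ^ 2) ^ P.CT) ^ P.Hn := by
      have hB : 0 ≤ (P.D : ℝ) * d := by positivity
      have hC : 0 ≤ Real.exp 1 * P.D / P.CT := by positivity
      rw [e3]
      generalize (P.D : ℝ) * d = B at e1 hB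
      generalize Real.exp 1 * P.D / P.CT = C at e2 hC
      rw [mul_pow C, mul_pow B, mul_pow (C ^ P.CT), mul_assoc]
      apply mul_le_mul e1 _ (by positivity) (by positivity)
      apply mul_le_mul_of_nonneg_right _ (by positivity)
      exact pow_le_pow_left₀ (by positivity) e2 _
    have e5 : Real.exp 1 * P.D / P.CT * τ ^ 2 ≤ Real.exp (-2) := by
      have a1 : τ ^ 2 ≤ P.β ^ (-7996 : ℤ) := by
        have := pow_le_pow_left₀ hτ0 hτ 2
        have h4 : (P.β ^ (-3998 : ℤ)) ^ 2 = P.β ^ (-7996 : ℤ) := by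
          rw [← zpow_natCast, ← zpow_mul]; norm_num
        rwa [h4] at this
      have a2 : Real.exp 1 ≤ 3 := by
        have := Real.exp_one_lt_d9
        linarith
      have a3 : Real.exp 1 * P.D / P.CT ≤ 3 * P.β ^ (8001 : ℤ) / P.β ^ (2166 : ℤ) := by
        apply div_le_div₀ (mul_nonneg (by norm_num) (P.znn _)) _ (P.zpos _) hCT
        exact mul_le_mul a2 P.D_le' (Nat.cast_nonneg _) (by norm_num)
      have a4 : 3 * P.β ^ (8001 : ℤ) / P.β ^ (2166 : ℤ) = 3 * P.β ^ (5835 : ℤ) := by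
        rw [mul_div_assoc, ← zpow_sub₀ P.β_ne]; norm_num
      rw [a4] at a3
      have a5 : Real.exp 1 * P.D / P.CT * τ ^ 2 ≤ 3 * P.β ^ (5835 : ℤ) * P.β ^ (-7996 : ℤ) :=
        mul_le_mul a3 a1 (by positivity) (mul_nonneg (by norm_num) (P.znn _))
      have a6 : 3 * P.β ^ (5835 : ℤ) * P.β ^ (-7996 : ℤ) ≤ P.β ^ (-1 : ℤ) := by
        rw [mul_assoc, P.zadd]
        exact P.zc (by norm_num) (by norm_num)
      have a7 : P.β ^ (-1 : ℤ) ≤ Real.exp (-2) := by
        rw [zpow_neg_one, Real.exp_neg]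
        apply inv_anti₀ (Real.exp_pos _)
        exact (Real.exp_le_exp.mpr (by norm_num)).trans P.hβ
      linarith
    have e6 : (P.D : ℝ) * d ≤ Real.exp P.CT := by
      have a1 : (P.D : ℝ) ≤ Real.exp (P.β / 2) := by
        refine P.D_le'.trans ?_
        have a2 : P.β ^ (8001 : ℤ) ≤ d := by rw [P.hd]; exact P.zle (by norm_num)
        have a3 := P.d_pow_le 1 (by norm_num)
        rw [pow_one] at a3
        exact a2.trans a3
      have a3 := P.d_pow_le 1 (by norm_num)
      rw [pow_one] at a3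
      calc (P.D : ℝ) * d ≤ Real.exp (P.β / 2) * Real.exp (P.β / 2) :=
            mul_le_mul a1 a3 P.d_pos.le (Real.exp_pos _).le
        _ = Real.exp P.β := by rw [← Real.exp_add]; congr 1; ring
        _ ≤ Real.exp P.CT := by
            apply Real.exp_le_exp.mpr
            refine le_trans ?_ hCT
            have := P.zle (m := 1) (n := 2166) (by norm_num)
            rwa [P.z1] at this
    have e7 : (((P.D : ℝ) * d) * (Real.exp 1 * P.D / P.CT * τ ^ 2) ^ P.CT) ^ P.Hn ≤
        Real.exp (-(P.CT * P.Hn)) := by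
      calc (((P.D : ℝ) * d) * (Real.exp 1 * P.D / P.CT * τ ^ 2) ^ P.CT) ^ P.Hn
          ≤ (Real.exp P.CT * (Real.exp (-2)) ^ P.CT) ^ P.Hn := by
            apply pow_le_pow_left₀ (by positivity)
            apply mul_le_mul e6 _ (by positivity) (Real.exp_pos _).le
            exact pow_le_pow_left₀ (by positivity) e5 _
        _ = Real.exp (-(P.CT * P.Hn)) := by
            rw [← Real.exp_nat_mul, ← Real.exp_add, ← Real.exp_nat_mul]
            congr 1
            ring
    have e8 : P.β ^ (8006 : ℤ) ≤ (P.CT : ℝ) * P.Hn := by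
      have a1 : P.β ^ (5840 : ℤ) ≤ P.Hn := Nat.le_ceil _
      calc P.β ^ (8006 : ℤ) = P.β ^ (2166 : ℤ) * P.β ^ (5840 : ℤ) := by rw [P.zadd]; norm_num
        _ ≤ _ := mul_le_mul hCT a1 (P.znn _) hCTpos.le
    have e9 : Real.exp (-((P.CT : ℝ) * P.Hn)) ≤ Real.exp (-P.β ^ (8006 : ℤ)) :=
      Real.exp_le_exp.mpr (neg_le_neg e8)
    have e10 : 8 * Real.exp (-P.β ^ (8006 : ℤ)) ≤ Real.exp (-P.β ^ (8005 : ℤ)) := by
      have b2 := P.const_le_exp (c := 8) (by norm_num) (a := 1) (by norm_num)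
      calc 8 * Real.exp (-P.β ^ (8006 : ℤ)) ≤
            Real.exp (P.β ^ (1 : ℤ)) * Real.exp (-P.β ^ (8006 : ℤ)) :=
            mul_le_mul_of_nonneg_right b2 (Real.exp_pos _).le
        _ ≤ _ := P.exp_absorb (by norm_num) (by norm_num)
    have e11 := e4.trans (e7.trans e9)
    linarith
  linarith

/-- the exponent of the union bound -/
theorem three_D (hT : T.card = P.D) :
    36000 * P.D * P.A ^ 3 ≤ P.A ^ 2 * ((IT T).card : ℝ) * P.p ^ 2 / 12 := by
  have h1 := P.M_ge hT
  have h2 := P.D_ge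
  have hA := P.A_pos
  have hp2 : P.p ^ 2 * P.β ^ (8000 : ℤ) = 1 := by
    unfold p
    have : (P.β ^ (-4000 : ℤ)) ^ 2 = P.β ^ (-8000 : ℤ) := by
      rw [← zpow_natCast, ← zpow_mul]; norm_num
    rw [this, P.zadd]; norm_num
  have hD : (0 : ℝ) ≤ P.D := Nat.cast_nonneg _
  have hp := P.p_pos
  calc 36000 * P.D * P.A ^ 3 = 36000 * P.D * P.A ^ 3 * (P.p ^ 2 * P.β ^ (8000 : ℤ)) := by
        rw [hp2, mul_one]
    _ = (P.A ^ 2 * P.D * P.p ^ 2) * (36000 * P.A * P.β ^ (8000 : ℤ)) := by ring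
    _ ≤ (P.A ^ 2 * P.D * P.p ^ 2) * (P.D / 48) := by
        apply mul_le_mul_of_nonneg_left _ (by positivity)
        have := mul_nonneg hA.le (P.znn 8000)
        linarith
    _ = P.A ^ 2 * ((P.D : ℝ) ^ 2 / 4) * P.p ^ 2 / 12 := by ring
    _ ≤ _ := by
        apply div_le_div_of_nonneg_right _ (by norm_num)
        apply mul_le_mul_of_nonneg_right _ (by positivity)
        exact mul_le_mul_of_nonneg_left h1 (by positivity)

/-- on the good event the completion rate is large -/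
theorem ok_of_good {x : Vx d} {ω : List (Edge d)} (hω : ω.Nodup)
    (hlen : ω.length = Fintype.card (Edge d)) (hT : T.card = P.D) (hG : P.TGood x T ω)
    (hlive : LvT x T (ω.take (P.mm P.J))) {i : ℕ} (hi : i < P.mm P.J) :
    P.θ (IT T).card i * P.N ≤ XT x T 1 (ω.take i) := by
  have hM := P.M_ge' hT
  have hMpos : (0 : ℝ) < (IT T).card := lt_of_lt_of_le (P.zpos _) hM
  by_cases h : ∃ j ∈ P.lateB, i ∈ Ico (P.mm j) (P.mm (j + 1))
  · obtain ⟨j, hj, hij⟩ := h
    rw [P.θ_eq hj hij]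
    have hjJ : j < P.J := mem_range.mp (mem_filter.mp hj).1
    obtain ⟨hi1, hi2⟩ := mem_Ico.mp hij
    have hw := P.twindow hω hlen hM hG hjJ hi1 hi2.le (LvT_take hi.le hlive) (k := 1) le_rfl
    have hww := P.ww_pos hMpos 2 1 j
    have hal := P.al_late hj
    have hA := P.A_ge_ten
    have hom := P.omf_le hjJ.le
    have h1 : P.β ^ (-262 : ℤ) ≤ 1 := by
      have := P.zle (m := -262) (n := 0) (by norm_num)
      rwa [zpow_zero] at this
    have h2 : P.xx (IT T).card 2 1 j = 2 * P.al j * P.ww (IT T).card 2 1 j := by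
      unfold xx
      have : ((Nat.choose 2 1 : ℕ) : ℝ) = 2 := by norm_num [Nat.choose]
      rw [this, pow_one]
    rw [h2] at hw
    have h3 := (abs_le.mp hw).1
    have h4 : P.rate (IT T).card j * P.N = P.al j * P.ww (IT T).card 2 1 j := by
      unfold rate ww
      rw [div_mul_cancel₀ _ P.N_pos.ne']
      ring
    rw [h4]
    have h5 : (P.omf j + P.β ^ (-584 : ℤ)) * P.ww (IT T).card 2 1 j ≤
        P.al j * P.ww (IT T).card 2 1 j := by
      apply mul_le_mul_of_nonneg_right _ hww.le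
      linarith
    linarith
  · push Not at h
    rw [P.θ_zero h, zero_mul]
    exact XT_nonneg _ _ _ _

theorem θ_le_one (hT : T.card = P.D) (i : ℕ) : P.θ (IT T).card i ≤ 1 := by
  have hN := P.N_pos
  have a1 := P.θ_N (M := (IT T).card) (Nat.cast_nonneg _) i
  have a4 : ((IT T).card : ℝ) ≤ P.N := by
    have b1 := card_IT T
    rw [hT] at b1
    have b2 : (IT T).card ≤ P.D * P.D := by
      have : P.D * (P.D - 1) ≤ P.D * P.D := Nat.mul_le_mul_left _ (Nat.sub_le _ _)
      omega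
    have b3 : ((IT T).card : ℝ) ≤ (P.D : ℝ) * P.D := by exact_mod_cast b2
    have b4 := P.D_le'
    calc ((IT T).card : ℝ) ≤ (P.D : ℝ) * P.D := b3
      _ ≤ P.β ^ (8001 : ℤ) * P.β ^ (8001 : ℤ) := mul_le_mul b4 b4 (Nat.cast_nonneg _) (P.znn _)
      _ ≤ P.β ^ (20000 : ℤ) := by rw [P.zadd]; exact P.zle (by norm_num)
      _ ≤ P.N := P.le_N
  by_contra h
  push Not at h
  nlinarith

theorem Pr_T (x : Vx d) (hT : T.card = P.D) :
    Pr (fun ω => LvC x T (ω.take (P.mm P.J)) ∧ P.GV ω x) ≤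
      2 * Real.exp (-(36000 * P.D * P.A ^ 3)) := by
  have hM := P.M_ge' hT
  have hMpos : (0 : ℝ) < (IT T).card := lt_of_lt_of_le (P.zpos _) hM
  have hA := P.A_pos
  have hD0 : (0 : ℝ) ≤ P.D := Nat.cast_nonneg _
  set ok : List (Edge d) → Prop := fun l => P.θ (IT T).card l.length * P.N ≤ XT x T 1 l with hok
  have hsub : Pr (fun ω => LvC x T (ω.take (P.mm P.J)) ∧ P.GV ω x) ≤
    Pr (fun ω : List (Edge d) =>
      ((¬ P.StT x T (ω.take (P.mm P.J)).toFinset) ∨
        (∃ jk ∈ (range P.J ×ˢ range 2), P.TBad x T jk.1 jk.2 ω)) ∨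
      (LvC x T (ω.take (P.mm P.J)) ∧ ∀ i, 0 ≤ i → i < 0 + P.mm P.J →
        ok ((ω.take (P.mm P.J)).take i))) := by
    apply Pr_mono
    intro ω hω hlen hc
    by_contra hcon
    push Not at hcon
    obtain ⟨⟨h1, h2⟩, h3⟩ := hcon
    have hG : P.TGood x T ω := by
      refine ⟨hc.2, h1, ?_⟩
      intro j hj k hk
      exact h2 (j, k) (mem_product.mpr ⟨mem_range.mpr hj, mem_range.mpr (by omega)⟩)
    obtain ⟨i, _, hi, hno⟩ := h3 hc.1
    apply hno
    have hi' : i < P.mm P.J := by omega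
    rw [hok]
    simp only
    rw [List.take_take, min_eq_left hi'.le, List.length_take, hlen,
      min_eq_left (hi'.le.trans (P.mm_le_card le_rfl))]
    exact P.ok_of_good hω hlen hT hG hc.1.1 hi'
  refine hsub.trans ((Pr_or_le _ _).trans ?_)
  have e0 := Pr_or_le (fun ω : List (Edge d) => ¬ P.StT x T (ω.take (P.mm P.J)).toFinset)
    (fun ω => ∃ jk ∈ (range P.J ×ˢ range 2), P.TBad x T jk.1 jk.2 ω)
  have e1 := P.Pr_StT x hT
  have e2 : Pr (fun ω : List (Edge d) => ∃ jk ∈ (range P.J ×ˢ range 2),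
      P.TBad x T jk.1 jk.2 ω) ≤ P.J * 2 * Real.exp (-P.β ^ (8005 : ℤ)) := by
    refine (Pr_biUnion_le _ _).trans ?_
    have h3 : ∀ jk ∈ (range P.J ×ˢ range 2), Pr (P.TBad x T jk.1 jk.2) ≤
        Real.exp (-P.β ^ (8005 : ℤ)) := by
      intro jk hjk
      obtain ⟨a, b⟩ := mem_product.mp hjk
      exact P.Pr_TBad x hM (mem_range.mp a) (by have := mem_range.mp b; omega)
    refine (sum_le_sum h3).trans ?_
    rw [sum_const, card_product, card_range, card_range, nsmul_eq_mul]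
    push_cast
    exact le_rfl
  have e3 : Pr (fun ω : List (Edge d) => LvC x T (ω.take (P.mm P.J)) ∧
      ∀ i, 0 ≤ i → i < 0 + P.mm P.J → ok ((ω.take (P.mm P.J)).take i)) ≤
      Real.exp (-(36000 * P.D * P.A ^ 3)) := by
    rw [Pr_take (fun l => LvC x T l ∧ ∀ i, 0 ≤ i → i < 0 + P.mm P.J → ok (l.take i))
      (P.mm_le_card le_rfl)]
    have hs := survival (E := Edge d) (live := LvC x T) (ok := ok) (θ := P.θ (IT T).card) ?_
      LvC_mono ?_ (P.mm P.J) [] List.nodup_nil (by simpa using P.mm_le_card le_rfl)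
    · simp only [List.length_nil] at hs
      refine le_trans (le_of_eq ?_) (hs.trans ?_)
      · congr!
      split
      · simp only [zero_add]
        have h1 : ∏ i ∈ range (P.mm P.J), (1 - P.θ (IT T).card i) ≤
            ∏ i ∈ range (P.mm P.J), Real.exp (-(P.θ (IT T).card i)) := by
          apply prod_le_prod
          · intro i _
            linarith [P.θ_le_one hT i]
          · intro i _
            have := Real.add_one_le_exp (-(P.θ (IT T).card i))
            linarith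
        refine h1.trans ?_
        rw [← Real.exp_sum]
        apply Real.exp_le_exp.mpr
        rw [sum_neg_distrib]
        apply neg_le_neg
        exact (P.three_D hT).trans (P.sum_θ hMpos.le)
      · exact (Real.exp_pos _).le
    · exact fun i => P.θ_le_one hT i
    · intro l hl hlv hokl
      have h1 := completions (x := x) (T := T) (l := l)
      have h2 := P.rest_le hl
      have h3 : P.θ (IT T).card l.length * ((rest l).card : ℝ) ≤
          P.θ (IT T).card l.length * P.N :=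
        mul_le_mul_of_nonneg_left h2 (P.θ_nonneg hMpos.le _)
      exact h3.trans (hokl.trans h1)
  have e4 : 36000 * P.D * P.A ^ 3 ≤ P.β ^ (8002 : ℤ) := by
    have a1 := P.D_le'
    have a2 := P.A3_le
    have a3 : 0 ≤ P.A ^ 3 := by positivity
    have a4 : 36000 * P.A ^ 3 ≤ P.β := by linarith
    calc 36000 * P.D * P.A ^ 3 = P.D * (36000 * P.A ^ 3) := by ring
      _ ≤ P.β ^ (8001 : ℤ) * P.β ^ (1 : ℤ) := by
          rw [P.z1]
          exact mul_le_mul a1 a4 (by positivity) (P.znn _)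
      _ = P.β ^ (8002 : ℤ) := by rw [P.zadd]; norm_num
  have e5 : (2 + P.J * 2) * Real.exp (-P.β ^ (8005 : ℤ)) ≤
      Real.exp (-(36000 * P.D * P.A ^ 3)) := by
    have a1 : 2 + (P.J : ℝ) * 2 ≤ Real.exp (P.β ^ (603 : ℤ)) := by
      have b1 := P.J_le_exp
      have b2 := P.const_le_exp (c := 4) (by norm_num) (a := 602) (by norm_num)
      have b3 : (1 : ℝ) ≤ P.J := by exact_mod_cast P.J_pos
      calc 2 + (P.J : ℝ) * 2 ≤ P.J * 4 := by linarith
        _ ≤ Real.exp (P.β ^ (602 : ℤ)) * Real.exp (P.β ^ (602 : ℤ)) :=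
            mul_le_mul b1 b2 (by norm_num) (Real.exp_pos _).le
        _ = Real.exp (2 * P.β ^ (602 : ℤ)) := by rw [← Real.exp_add]; congr 1; ring
        _ ≤ _ := Real.exp_le_exp.mpr (P.zc (by norm_num) (by norm_num))
    calc (2 + P.J * 2) * Real.exp (-P.β ^ (8005 : ℤ)) ≤
        Real.exp (P.β ^ (603 : ℤ)) * Real.exp (-P.β ^ (8005 : ℤ)) :=
          mul_le_mul_of_nonneg_right a1 (Real.exp_pos _).le
      _ ≤ Real.exp (-P.β ^ (8002 : ℤ)) := P.exp_absorb (by norm_num) (by norm_num)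
      _ ≤ _ := Real.exp_le_exp.mpr (neg_le_neg e4)
  linarith

/-- late directions at a vertex -/
noncomputable def late (x : Vx d) (ω : List (Edge d)) : Finset (Fin d) :=
  univ.filter (fun i => ed x i ∈ acc ω ∧ ed x i ∉ ω.take (P.mm P.J))

end

end Par

end Pool.Agent.Q2F
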