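import Mathlib
import Pool.Agent.MP_9431a4_pr.TProb

set_option autoImplicit false

/-!
Degrees and the number of accepted edges.
-/

namespace Pool.Agent.Q2F

open Finset Classical

variable {d : ℕ}

/-- the accepted set contains no full face -/
theorem acc_no_face (l : List (Edge d)) : ∀ e ∈ acc l, ∀ r, r ≠ dir e → ¬ nb e r ⊆ acc l := by
  induction l using List.reverseRecOn with
  | nil => intro e he; simp at he
  | append_singleton l g ih =>
    intro e he r hr hsub
    rw [acc_append] at he hsub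
    unfold accStep at he hsub
    by_cases hc : Closed (acc l) g
    · rw [if_pos hc] at he hsub
      exact ih e he r hr hsub
    · rw [if_neg hc] at he hsub
      by_cases hgS : g ∈ acc l
      · rw [insert_eq_self.mpr hgS] at he hsub
        exact ih e he r hr hsub
      rcases mem_insert.mp he with rfl | heS
      · apply hc
        refine ⟨r, hr, ?_⟩
        intro f hf
        rcases mem_insert.mp (hsub hf) with h | h
        · exact absurd (h ▸ hf) (not_mem_nb hr)
        · exact h
      · by_cases hgn : g ∈ nb e r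
        · obtain ⟨s, hs, hes, hse⟩ := nb_symm hr hgn
          apply hc
          refine ⟨s, hs, ?_⟩
          intro f hf
          by_cases hfe : f = e
          · rw [hfe]; exact heS
          · have h1 : f ∈ (nb e r).erase g := by
              rw [← hse]; exact mem_erase.mpr ⟨hfe, hf⟩
            rcases mem_insert.mp (hsub (mem_of_mem_erase h1)) with h | h
            · exact absurd h (ne_of_mem_erase h1)
            · exact h
        · apply ih e heS r hr
          intro f hf
          rcases mem_insert.mp (hsub hf) with h | h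
          · exact absurd (h ▸ hf) hgn
          · exact h

theorem acc_append_mem {l m : List (Edge d)} {e : Edge d} (he : e ∈ acc (l ++ m)) (hm : e ∉ m) :
    e ∈ acc l := by
  induction m using List.reverseRecOn with
  | nil => simpa using he
  | append_singleton m g ih =>
    rw [← List.append_assoc, acc_append] at he
    have hg : e ≠ g := by
      rintro rfl
      exact hm (by simp)
    have hm' : e ∉ m := fun h => hm (List.mem_append_left _ h)
    apply ih _ hm'
    unfold accStep at he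
    split at he
    · exact he
    · rcases mem_insert.mp he with h | h
      · exact absurd h hg
      · exact h

theorem acc_take_mem {ω : List (Edge d)} (hω : ω.Nodup) {m : ℕ} {e : Edge d} (he : e ∈ acc ω)
    (hem : e ∈ ω.take m) : e ∈ acc (ω.take m) := by
  have h1 : ω.take m ++ ω.drop m = ω := List.take_append_drop m ω
  have hnd := hω
  rw [← h1, List.nodup_append] at hnd
  rw [← h1] at he
  apply acc_append_mem he
  intro h2
  exact hnd.2.2 e hem e h2 rfl

theorem acc_take_sub (ω : List (Edge d)) (m : ℕ) : acc (ω.take m) ⊆ acc ω := by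
  have h1 : ω.take m ++ ω.drop m = ω := List.take_append_drop m ω
  nth_rw 2 [← h1]
  exact acc_subset_append _ _

/-- degree in the final graph -/
noncomputable def adeg (x : Vx d) (S : Finset (Edge d)) : ℕ :=
  (univ.filter (fun i => ed x i ∈ S)).card

theorem sum_adeg (S : Finset (Edge d)) : ∑ x : Vx d, adeg x S = 2 * S.card := by
  unfold adeg
  have h1 : ∑ x : Vx d, (univ.filter (fun i => ed x i ∈ S)).card =
      ((univ : Finset (Vx d × Fin d)).filter (fun r => ed r.1 r.2 ∈ S)).card := by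
    rw [card_filter, ← univ_product_univ, sum_product]
    apply sum_congr rfl
    intro x _
    rw [card_filter]
  rw [h1]
  have h2 : ((univ : Finset (Vx d × Fin d)).filter (fun r => ed r.1 r.2 ∈ S)).card =
      ∑ e ∈ S, ((univ : Finset (Vx d × Fin d)).filter (fun r => ed r.1 r.2 = e)).card := by
    rw [card_eq_sum_card_fiberwise (f := fun r : Vx d × Fin d => ed r.1 r.2) (t := S)]
    · apply sum_congr rfl
      intro e he
      congr 1
      ext r
      simp only [mem_filter, mem_univ, true_and]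
      constructor
      · exact fun h => h.2
      · intro h; exact ⟨h ▸ he, h⟩
    · intro r hr
      simpa using hr
  rw [h2]
  have h3 : ∀ e ∈ S, ((univ : Finset (Vx d × Fin d)).filter (fun r => ed r.1 r.2 = e)).card = 2 := by
    intro e _
    have h4 : (univ : Finset (Vx d × Fin d)).filter (fun r => ed r.1 r.2 = e) =
        {(bs e, dir e), (fl (bs e) (dir e), dir e)} := by
      ext r
      rw [mem_filter, mem_insert, mem_singleton]
      constructor
      · rintro ⟨_, h⟩
        rw [← ed_bs e] at h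
        obtain ⟨h5, h6 | h6⟩ := ed_eq_iff.mp h
        · left; exact Prod.ext h6 h5
        · right
          refine Prod.ext ?_ h5
          rw [h6, h5]
      · rintro (rfl | rfl)
        · exact ⟨mem_univ _, ed_bs e⟩
        · refine ⟨mem_univ _, ?_⟩
          rw [ed_fl, ed_bs]
    rw [h4, card_pair]
    intro h
    exact ne_fl _ _ (congrArg Prod.fst h)
  rw [sum_congr rfl h3, sum_const, smul_eq_mul, mul_comm]

namespace Par

variable (P : Par d)

theorem late_LvC {x : Vx d} {T : Finset (Fin d)} {ω : List (Edge d)} (hT : T ⊆ P.late x ω) :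
    LvC x T (ω.take (P.mm P.J)) := by
  constructor
  · intro t ht
    exact (mem_filter.mp (hT ht)).2.2
  · intro r hr hsub
    obtain ⟨h1, h2, h3⟩ := mem_IT.mp hr
    have a1 := (mem_filter.mp (hT h1)).2.1
    have a2 := (mem_filter.mp (hT h2)).2.1
    apply acc_no_face ω (ed x r.1) a1 r.2 (by rw [dir_ed]; exact h3.ne')
    intro f hf
    rw [mem_nb_ed] at hf
    rcases hf with rfl | rfl | rfl
    · exact a2
    · exact acc_take_sub ω _ (hsub (by rw [mem_VT]; left; rfl))
    · exact acc_take_sub ω _ (hsub (by rw [mem_VT]; right; rfl))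

theorem Pr_late (x : Vx d) :
    Pr (fun ω => P.D ≤ (P.late x ω).card ∧ P.GV ω x) ≤ Real.exp (-P.β ^ (8000 : ℤ)) := by
  have hsub : Pr (fun ω => P.D ≤ (P.late x ω).card ∧ P.GV ω x) ≤
    Pr (fun ω => ∃ T ∈ powersetCard P.D (univ : Finset (Fin d)),
      (LvC x T (ω.take (P.mm P.J)) ∧ P.GV ω x)) := by
    apply Pr_mono
    rintro ω _ _ ⟨h1, h2⟩
    obtain ⟨T, hT1, hT2⟩ := exists_subset_card_eq h1
    exact ⟨T, mem_powersetCard.mpr ⟨subset_univ _, hT2⟩, P.late_LvC hT1, h2⟩
  refine hsub.trans ((Pr_biUnion_le _ _).trans ?_)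
  refine (sum_le_sum (fun T hT => P.Pr_T x (mem_powersetCard.mp hT).2)).trans ?_
  rw [sum_const, card_powersetCard, card_univ, Fintype.card_fin, nsmul_eq_mul]
  have hA := P.A_pos
  have hD0 : (0 : ℝ) ≤ P.D := Nat.cast_nonneg _
  have h1 : ((d.choose P.D : ℕ) : ℝ) ≤ Real.exp (12000 * P.D * P.A ^ 3) := by
    have h2 : ((d.choose P.D : ℕ) : ℝ) ≤ (d : ℝ) ^ P.D := by
      exact_mod_cast Nat.choose_le_pow d P.D
    refine h2.trans (le_of_eq ?_)
    rw [P.d_eq_exp, ← Real.exp_nat_mul]
    congr 1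
    ring
  calc ((d.choose P.D : ℕ) : ℝ) * (2 * Real.exp (-(36000 * P.D * P.A ^ 3)))
      ≤ Real.exp (12000 * P.D * P.A ^ 3) * (2 * Real.exp (-(36000 * P.D * P.A ^ 3))) :=
        mul_le_mul_of_nonneg_right h1 (by positivity)
    _ = 2 * Real.exp (-(24000 * P.D * P.A ^ 3)) := by
        rw [mul_left_comm, ← Real.exp_add]
        congr 2
        ring
    _ ≤ Real.exp (P.β ^ (8000 : ℤ)) * Real.exp (-(24000 * P.D * P.A ^ 3)) := by
        apply mul_le_mul_of_nonneg_right _ (Real.exp_pos _).le
        exact P.const_le_exp (by norm_num) (by norm_num)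
    _ ≤ Real.exp (-P.β ^ (8000 : ℤ)) := by
        rw [← Real.exp_add]
        apply Real.exp_le_exp.mpr
        have h3 := P.D_ge'
        have h4 : (1 : ℝ) ≤ P.A ^ 3 := one_le_pow₀ P.hA
        have h5 : (P.D : ℝ) ≤ P.D * P.A ^ 3 := by nlinarith
        linarith

/-- a vertex where everything works -/
def GoodV (ω : List (Edge d)) (x : Vx d) : Prop :=
  P.GV ω x ∧ (∀ j < P.J, ∀ k ≤ 1, ¬ P.XBad x j k ω) ∧ (P.late x ω).card < P.D

theorem Pr_GoodV (x : Vx d) : Pr (fun ω => ¬ P.GoodV ω x) ≤ Real.exp (-P.β ^ (600 : ℤ)) := by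
  have hsub : Pr (fun ω => ¬ P.GoodV ω x) ≤ Pr (fun ω : List (Edge d) =>
      ((¬ P.GV ω x) ∨ (∃ jk ∈ (range P.J ×ˢ range 2), P.XBad x jk.1 jk.2 ω)) ∨
      (P.D ≤ (P.late x ω).card ∧ P.GV ω x)) := by
    apply Pr_mono
    intro ω _ _ hω
    by_contra hcon
    push Not at hcon
    obtain ⟨⟨h1, h2⟩, h3⟩ := hcon
    apply hω
    refine ⟨h1, ?_, ?_⟩
    · intro j hj k hk
      exact h2 (j, k) (mem_product.mpr ⟨mem_range.mpr hj, mem_range.mpr (by omega)⟩)
    · by_contra h4
      exact h3 (not_lt.mp h4) h1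
  refine hsub.trans ((Pr_or_le _ _).trans ?_)
  have e0 := Pr_or_le (fun ω : List (Edge d) => ¬ P.GV ω x)
    (fun ω => ∃ jk ∈ (range P.J ×ˢ range 2), P.XBad x jk.1 jk.2 ω)
  have e1 := P.Pr_GV x
  have e2 : Pr (fun ω : List (Edge d) => ∃ jk ∈ (range P.J ×ˢ range 2),
      P.XBad x jk.1 jk.2 ω) ≤ P.J * 2 * Real.exp (-P.β ^ (605 : ℤ)) := by
    refine (Pr_biUnion_le _ _).trans ?_
    have h3 : ∀ jk ∈ (range P.J ×ˢ range 2), Pr (P.XBad x jk.1 jk.2) ≤
        Real.exp (-P.β ^ (605 : ℤ)) := by
      intro jk hjk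
      obtain ⟨a, b⟩ := mem_product.mp hjk
      exact P.Pr_XBad x (mem_range.mp a) (by have := mem_range.mp b; omega)
    refine (sum_le_sum h3).trans ?_
    rw [sum_const, card_product, card_range, card_range, nsmul_eq_mul]
    push_cast
    exact le_rfl
  have e3 := P.Pr_late x
  have e4 : (P.J : ℝ) * 2 * Real.exp (-P.β ^ (605 : ℤ)) ≤ Real.exp (-P.β ^ (601 : ℤ)) := by
    have a1 : (P.J : ℝ) * 2 ≤ Real.exp (P.β ^ (603 : ℤ)) := by
      have b1 := P.J_le_exp
      have b2 := P.const_le_exp (c := 2) (by norm_num) (a := 602) (by norm_num)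
      calc (P.J : ℝ) * 2 ≤ Real.exp (P.β ^ (602 : ℤ)) * Real.exp (P.β ^ (602 : ℤ)) :=
            mul_le_mul b1 b2 (by norm_num) (Real.exp_pos _).le
        _ = Real.exp (2 * P.β ^ (602 : ℤ)) := by rw [← Real.exp_add]; congr 1; ring
        _ ≤ _ := Real.exp_le_exp.mpr (P.zc (by norm_num) (by norm_num))
    calc (P.J : ℝ) * 2 * Real.exp (-P.β ^ (605 : ℤ)) ≤
        Real.exp (P.β ^ (603 : ℤ)) * Real.exp (-P.β ^ (605 : ℤ)) :=
          mul_le_mul_of_nonneg_right a1 (Real.exp_pos _).le
      _ ≤ _ := P.exp_absorb (by norm_num) (by norm_num)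
  have e5 : Real.exp (-P.β ^ (8000 : ℤ)) ≤ Real.exp (-P.β ^ (601 : ℤ)) :=
    Real.exp_le_exp.mpr (neg_le_neg (P.zle (by norm_num)))
  have e6 : 3 * Real.exp (-P.β ^ (601 : ℤ)) ≤ Real.exp (-P.β ^ (600 : ℤ)) := by
    have b2 := P.const_le_exp (c := 3) (by norm_num) (a := 1) (by norm_num)
    calc 3 * Real.exp (-P.β ^ (601 : ℤ)) ≤ Real.exp (P.β ^ (1 : ℤ)) * Real.exp (-P.β ^ (601 : ℤ)) :=
          mul_le_mul_of_nonneg_right b2 (Real.exp_pos _).le
      _ ≤ _ := P.exp_absorb (by norm_num) (by norm_num)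
  linarith

/-- number of accepted edges at a vertex after the main phase -/
theorem Xv_one (x : Vx d) (l : List (Edge d)) : Xv x 1 l = (adeg x (acc l) : ℝ) := by
  unfold Xv Xf cnt adeg
  congr 2
  ext i
  simp only [mem_filter, mem_univ, true_and]
  unfold Ty Vs
  constructor
  · rintro ⟨_, h2⟩
    by_contra h
    have : ({ed x i} : Finset (Edge d)) ∩ acc l = ∅ := by
      rw [singleton_inter_of_notMem h]
    rw [this] at h2
    simp at h2
  · intro h
    refine ⟨?_, ?_⟩
    · rw [singleton_subset_iff]; exact mem_union_left _ h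
    · rw [singleton_inter_of_mem h, card_singleton]

theorem adeg_bounds {ω : List (Edge d)} (hω : ω.Nodup) (hlen : ω.length = Fintype.card (Edge d))
    {x : Vx d} (hG : P.GoodV ω x) :
    P.A * P.β ^ (8000 : ℤ) / 2 ≤ (adeg x (acc ω) : ℝ) ∧
      (adeg x (acc ω) : ℝ) ≤ 2000003 * (P.A * P.β ^ (8000 : ℤ)) := by
  obtain ⟨hGV, hX, hL⟩ := hG
  have hw := P.xwindow hω hlen hGV hX le_rfl (k := 1) le_rfl
  have hww : P.ww d 1 1 P.J = P.β ^ (8000 : ℤ) := by
    unfold ww p
    rw [P.hd, pow_one, P.zadd]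
    norm_num
  have hal : P.al P.J = P.A := by unfold al; exact P.J_mul_Δ
  have hxx : P.xx d 1 1 P.J = P.A * P.β ^ (8000 : ℤ) := by
    unfold xx
    rw [hww, hal]
    simp
  rw [hxx, hww, Xv_one] at hw
  have hom := P.omf_le (j := P.J) le_rfl
  have h1 : P.β ^ (-262 : ℤ) ≤ 1 := by
    have := P.zle (m := -262) (n := 0) (by norm_num)
    rwa [zpow_zero] at this
  have h2 := P.znn (-584)
  have h3 : P.omf P.J ≤ 1 := by linarith
  have hz := P.zpos 8000
  have h4 : P.omf P.J * P.β ^ (8000 : ℤ) ≤ P.β ^ (8000 : ℤ) := by nlinarith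
  have hA := P.A_ge_ten
  have h5 : 10 * P.β ^ (8000 : ℤ) ≤ P.A * P.β ^ (8000 : ℤ) :=
    mul_le_mul_of_nonneg_right hA hz.le
  obtain ⟨w1, w2⟩ := abs_le.mp hw
  constructor
  · have h6 : (adeg x (acc (ω.take (P.mm P.J))) : ℝ) ≤ (adeg x (acc ω) : ℝ) := by
      unfold adeg
      have : (univ.filter (fun i => ed x i ∈ acc (ω.take (P.mm P.J)))) ⊆
          (univ.filter (fun i => ed x i ∈ acc ω)) := by
        intro i hi
        rw [mem_filter] at hi ⊢
        exact ⟨hi.1, acc_take_sub ω _ hi.2⟩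
      exact_mod_cast card_le_card this
    linarith
  · have h6 : (adeg x (acc ω) : ℝ) ≤ (adeg x (acc (ω.take (P.mm P.J))) : ℝ) +
        ((P.late x ω).card : ℝ) := by
      unfold adeg
      have : (univ.filter (fun i => ed x i ∈ acc ω)) ⊆
          (univ.filter (fun i => ed x i ∈ acc (ω.take (P.mm P.J)))) ∪ P.late x ω := by
        intro i hi
        have hi2 := (mem_filter.mp hi).2
        rw [mem_union]
        by_cases hit : ed x i ∈ ω.take (P.mm P.J)
        · left
          rw [mem_filter]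
          exact ⟨mem_univ _, acc_take_mem hω hi2 hit⟩
        · right
          unfold late
          rw [mem_filter]
          exact ⟨mem_univ _, hi2, hit⟩
      have h7 := (card_le_card this).trans (card_union_le _ _)
      exact_mod_cast h7
    have h8 : ((P.late x ω).card : ℝ) ≤ P.D := by exact_mod_cast hL.le
    have h9 := P.D_le
    linarith

/-- number of bad vertices -/
noncomputable def nbad (ω : List (Edge d)) : ℝ :=
  ((univ : Finset (Vx d)).filter (fun x => ¬ P.GoodV ω x)).card

theorem Pr_nbad : Pr (fun ω => (2 : ℝ) ^ d / d ≤ P.nbad ω) ≤ Real.exp (-P.β ^ (599 : ℤ)) := by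
  have hd := P.d_pos
  have h1 := Pr_markov (E := Edge d) (F := P.nbad) (K := (2 : ℝ) ^ d / d) (by positivity)
    (fun ω _ _ => by unfold nbad; positivity)
  refine h1.trans ?_
  have h2 : Ex P.nbad (Fintype.card (Edge d)) [] ≤ (2 : ℝ) ^ d * Real.exp (-P.β ^ (600 : ℤ)) := by
    have h3 : P.nbad = fun ω => ∑ x : Vx d, (if ¬ P.GoodV ω x then (1 : ℝ) else 0) := by
      funext ω
      unfold nbad
      rw [card_filter]
      push_cast
      rfl
    rw [h3, Ex_sum]
    have h4 : ∀ x ∈ (univ : Finset (Vx d)), Ex (fun ω => if ¬ P.GoodV ω x then (1 : ℝ) else 0)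
        (Fintype.card (Edge d)) [] ≤ Real.exp (-P.β ^ (600 : ℤ)) := by
      intro x _
      refine le_trans (le_of_eq ?_) (P.Pr_GoodV x)
      unfold Pr
      congr!
    refine (sum_le_sum h4).trans ?_
    rw [sum_const, card_univ, nsmul_eq_mul]
    have : Fintype.card (Vx d) = 2 ^ d := by simp
    rw [this]
    push_cast
    exact le_rfl
  calc Ex P.nbad (Fintype.card (Edge d)) [] / ((2 : ℝ) ^ d / d)
      ≤ ((2 : ℝ) ^ d * Real.exp (-P.β ^ (600 : ℤ))) / ((2 : ℝ) ^ d / d) :=
        div_le_div_of_nonneg_right h2 (by positivity)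
    _ = d * Real.exp (-P.β ^ (600 : ℤ)) := by field_simp
    _ ≤ Real.exp (P.β ^ (1 : ℤ)) * Real.exp (-P.β ^ (600 : ℤ)) := by
        apply mul_le_mul_of_nonneg_right _ (Real.exp_pos _).le
        rw [P.z1]
        have := P.d_pow_le 1 (by norm_num)
        rw [pow_one] at this
        refine this.trans (Real.exp_le_exp.mpr ?_)
        linarith [P.β_pos]
    _ ≤ _ := P.exp_absorb (by norm_num) (by norm_num)

/-- the main estimate -/
theorem main : Pr (fun ω : List (Edge d) => ¬ (P.A * P.β ^ (8000 : ℤ) * 2 ^ d / 8 ≤ ((acc ω).card : ℝ) ∧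
    ((acc ω).card : ℝ) ≤ 2000000 * (P.A * P.β ^ (8000 : ℤ) * 2 ^ d))) ≤
    Real.exp (-P.β ^ (599 : ℤ)) := by
  refine le_trans (Pr_mono ?_) P.Pr_nbad
  intro ω hω hlen hno
  by_contra hcon
  push Not at hcon
  apply hno
  have hd := P.d_pos
  set Y := P.A * P.β ^ (8000 : ℤ) with hY
  have hY1 : 1 ≤ Y := by
    have h2 := P.zle (m := 0) (n := 8000) (by norm_num)
    rw [zpow_zero] at h2
    nlinarith [P.hA]
  have hsum : ∑ x : Vx d, (adeg x (acc ω) : ℝ) = 2 * ((acc ω).card : ℝ) := by
    exact_mod_cast sum_adeg (acc ω)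
  have hcardV : ((univ : Finset (Vx d)).card : ℝ) = 2 ^ d := by
    rw [card_univ]; simp
  have hsplit : ((univ : Finset (Vx d)).filter (fun x => P.GoodV ω x)).card +
      ((univ : Finset (Vx d)).filter (fun x => ¬ P.GoodV ω x)).card =
      (univ : Finset (Vx d)).card := card_filter_add_card_filter_not _
  have hgood : (2 : ℝ) ^ d - (2 : ℝ) ^ d / d ≤
      (((univ : Finset (Vx d)).filter (fun x => P.GoodV ω x)).card : ℝ) := by
    have h1 : ((((univ : Finset (Vx d)).filter (fun x => P.GoodV ω x)).card : ℕ) : ℝ) +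
      ((((univ : Finset (Vx d)).filter (fun x => ¬ P.GoodV ω x)).card : ℕ) : ℝ) =
      (2 : ℝ) ^ d := by
      rw [← hcardV]
      exact_mod_cast hsplit
    unfold nbad at hcon
    linarith
  have h2d : (2 : ℝ) ≤ d := by
    rw [P.hd]
    have := P.zc (c := 2) (by norm_num) (m := 0) (n := 12000) (by norm_num)
    rw [zpow_zero] at this
    linarith
  have hdd : (2 : ℝ) ^ d / d ≤ 2 ^ d / 2 := div_le_div_of_nonneg_left (by positivity) (by norm_num) h2d
  have hpow : (0 : ℝ) < 2 ^ d := by positivity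
  constructor
  · -- lower bound
    have h1 : ∑ x ∈ (univ : Finset (Vx d)).filter (fun x => P.GoodV ω x), Y / 2 ≤
        ∑ x : Vx d, (adeg x (acc ω) : ℝ) := by
      refine (sum_le_sum (fun x hx => (P.adeg_bounds hω hlen (mem_filter.mp hx).2).1)).trans ?_
      exact sum_le_sum_of_subset_of_nonneg (filter_subset _ _) (fun _ _ _ => Nat.cast_nonneg _)
    rw [sum_const, nsmul_eq_mul, hsum] at h1
    have h2 : (2 : ℝ) ^ d / 2 * (Y / 2) ≤
        (((univ : Finset (Vx d)).filter (fun x => P.GoodV ω x)).card : ℝ) * (Y / 2) := by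
      apply mul_le_mul_of_nonneg_right _ (by positivity)
      linarith
    linarith
  · -- upper bound
    have h1 : ∑ x : Vx d, (adeg x (acc ω) : ℝ) ≤
        ∑ x : Vx d, (2000003 * Y + (if ¬ P.GoodV ω x then (d : ℝ) else 0)) := by
      apply sum_le_sum
      intro x _
      by_cases hx : P.GoodV ω x
      · rw [if_neg (not_not.mpr hx), add_zero]
        exact (P.adeg_bounds hω hlen hx).2
      · rw [if_pos hx]
        have h2 : (adeg x (acc ω) : ℝ) ≤ d := by
          unfold adeg
          have : (univ.filter (fun i => ed x i ∈ acc ω)).card ≤ d := by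
            refine (card_le_univ _).trans ?_
            simp
          exact_mod_cast this
        have : 0 ≤ 2000003 * Y := by positivity
        linarith
    rw [hsum, sum_add_distrib, sum_const, nsmul_eq_mul, hcardV, ← sum_filter, sum_const,
      nsmul_eq_mul] at h1
    have h2 : (((univ : Finset (Vx d)).filter (fun x => ¬ P.GoodV ω x)).card : ℝ) * d ≤ 2 ^ d := by
      have h3 : (((univ : Finset (Vx d)).filter (fun x => ¬ P.GoodV ω x)).card : ℝ) ≤ 2 ^ d / d :=
        hcon.le
      calc _ ≤ (2 ^ d / d) * (d : ℝ) := mul_le_mul_of_nonneg_right h3 hd.le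
        _ = 2 ^ d := by field_simp
    have h3 : (2 : ℝ) ^ d ≤ Y * 2 ^ d := by nlinarith
    have h4 : (2 : ℝ) ^ d * (2000003 * Y) = 2000003 * (Y * 2 ^ d) := by ring
    nlinarith

end Par

end Pool.Agent.Q2F
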