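import Mathlib
import Pool.Agent.MP_9431a4_pr.Final

set_option autoImplicit false

/-!
Existence of the parameters for large `d`.
-/

namespace Pool.Agent.Q2F

open Finset Filter

variable {d : ℕ}

theorem two_card_edge (d : ℕ) : 2 * Fintype.card (Edge d) = d * 2 ^ d := by
  have h := sum_adeg (d := d) univ
  rw [card_univ] at h
  rw [← h]
  have h2 : ∀ x : Vx d, adeg x univ = d := by
    intro x
    unfold adeg
    simp
  rw [sum_congr rfl (fun x _ => h2 x), sum_const, card_univ]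
  simp
  ring

theorem sq_le_card_edge {d : ℕ} (hd : 1 ≤ d) : d * d ≤ Fintype.card (Edge d) := by
  have h := two_card_edge d
  obtain ⟨k, rfl⟩ : ∃ k, d = k + 1 := ⟨d - 1, by omega⟩
  have h1 : k + 1 ≤ 2 ^ k := Nat.lt_two_pow_self
  have h2 : (k + 1) * (2 * (k + 1)) ≤ (k + 1) * 2 ^ (k + 1) := by
    apply Nat.mul_le_mul_left
    rw [pow_succ]
    omega
  rw [← h] at h2
  nlinarith

theorem exp_zpow' (x : ℝ) (n : ℤ) (hn : 0 ≤ n) : Real.exp x ^ n = Real.exp (n * x) := by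
  obtain ⟨k, rfl⟩ := Int.eq_ofNat_of_zero_le hn
  rw [Int.cast_natCast, Real.exp_nat_mul]
  exact zpow_natCast _ _

/-- the parameters -/
noncomputable def mkPar (d : ℕ) (x : ℝ) (hx : x = Real.log d / 12000) (hd : 1 ≤ d)
    (h1 : 1000 ≤ x) (h2 : 10 ^ 12 * (1 + x ^ ((1 : ℝ) / 3)) ^ 12 ≤ Real.exp x) : Par d where
  β := Real.exp x
  A := x ^ ((1 : ℝ) / 3)
  J := ⌈x ^ ((1 : ℝ) / 3) * Real.exp x ^ (600 : ℤ)⌉₊
  hβ := Real.exp_le_exp.mpr h1
  hd := by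
    have hd0 : (0 : ℝ) < d := by exact_mod_cast hd
    rw [exp_zpow' _ _ (by norm_num), hx]
    push_cast
    rw [mul_div_cancel₀ _ (by norm_num), Real.exp_log hd0]
  hA := Real.one_le_rpow (by linarith) (by norm_num)
  hA3 := by
    rw [← Real.rpow_natCast, ← Real.rpow_mul (by linarith)]
    norm_num
  hpoly := h2
  hJ1 := Nat.le_ceil _
  hJ2 := (Nat.ceil_lt_add_one (by positivity)).le
  hN := by
    have hd0 : (0 : ℝ) < d := by exact_mod_cast hd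
    have h3 : ((d * d : ℕ) : ℝ) ≤ Fintype.card (Edge d) := by exact_mod_cast sq_le_card_edge hd
    refine le_trans ?_ h3
    have h4 : (d : ℝ) = Real.exp (12000 * x) := by
      rw [hx, mul_div_cancel₀ _ (by norm_num), Real.exp_log hd0]
    push_cast
    rw [h4, exp_zpow' _ _ (by norm_num), ← Real.exp_add]
    apply Real.exp_le_exp.mpr
    push_cast
    linarith

theorem mkPar_main (d : ℕ) (x : ℝ) (hx : x = Real.log d / 12000) (hd : 1 ≤ d)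
    (h1 : 1000 ≤ x) (h2 : 10 ^ 12 * (1 + x ^ ((1 : ℝ) / 3)) ^ 12 ≤ Real.exp x) :
    Pr (fun ω : List (Edge d) => ¬
      ((1 / (8 * (12000 : ℝ) ^ ((1 : ℝ) / 3))) *
        (Real.log d ^ ((1 : ℝ) / 3) * (d : ℝ) ^ ((2 : ℝ) / 3) * 2 ^ d) ≤ ((acc ω).card : ℝ) ∧
      ((acc ω).card : ℝ) ≤ (2000000 / (12000 : ℝ) ^ ((1 : ℝ) / 3)) *
        (Real.log d ^ ((1 : ℝ) / 3) * (d : ℝ) ^ ((2 : ℝ) / 3) * 2 ^ d))) ≤ Real.exp (-x) := by
  have hd0 : (0 : ℝ) < d := by exact_mod_cast hd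
  have hl0 : 0 ≤ Real.log d := Real.log_natCast_nonneg d
  have hmain := (mkPar d x hx hd h1 h2).main
  have hA : (mkPar d x hx hd h1 h2).A = Real.log d ^ ((1 : ℝ) / 3) / (12000 : ℝ) ^ ((1 : ℝ) / 3) := by
    show x ^ ((1 : ℝ) / 3) = _
    rw [hx, Real.div_rpow hl0 (by norm_num)]
  have hβ : (mkPar d x hx hd h1 h2).β = Real.exp x := rfl
  have hβ8 : (mkPar d x hx hd h1 h2).β ^ (8000 : ℤ) = (d : ℝ) ^ ((2 : ℝ) / 3) := by
    rw [hβ, exp_zpow' _ _ (by norm_num), Real.rpow_def_of_pos hd0, hx]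
    congr 1
    push_cast
    ring
  rw [hA, hβ8, hβ] at hmain
  have hc0 : (0 : ℝ) < (12000 : ℝ) ^ ((1 : ℝ) / 3) := by positivity
  have e1 : Real.log d ^ ((1 : ℝ) / 3) / (12000 : ℝ) ^ ((1 : ℝ) / 3) * (d : ℝ) ^ ((2 : ℝ) / 3) * 2 ^ d / 8
      = (1 / (8 * (12000 : ℝ) ^ ((1 : ℝ) / 3))) *
        (Real.log d ^ ((1 : ℝ) / 3) * (d : ℝ) ^ ((2 : ℝ) / 3) * 2 ^ d) := by
    field_simp
  have e2 : 2000000 * (Real.log d ^ ((1 : ℝ) / 3) / (12000 : ℝ) ^ ((1 : ℝ) / 3) *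
      (d : ℝ) ^ ((2 : ℝ) / 3) * 2 ^ d)
      = (2000000 / (12000 : ℝ) ^ ((1 : ℝ) / 3)) *
        (Real.log d ^ ((1 : ℝ) / 3) * (d : ℝ) ^ ((2 : ℝ) / 3) * 2 ^ d) := by
    field_simp
  rw [e1, e2] at hmain
  refine hmain.trans ?_
  apply Real.exp_le_exp.mpr
  apply neg_le_neg
  have h3 : Real.exp x ≤ Real.exp x ^ (599 : ℤ) := by
    have h4 : (1 : ℝ) ≤ Real.exp x := Real.one_le_exp (by linarith)
    calc Real.exp x = Real.exp x ^ (1 : ℤ) := (zpow_one _).symm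
      _ ≤ _ := zpow_le_zpow_right₀ h4 (by norm_num)
  have h4 := Real.add_one_le_exp x
  linarith

theorem eventually_par : ∀ᶠ d : ℕ in atTop, 1 ≤ d ∧ 1000 ≤ Real.log d / 12000 ∧
    10 ^ 12 * (1 + (Real.log d / 12000) ^ ((1 : ℝ) / 3)) ^ 12 ≤ Real.exp (Real.log d / 12000) := by
  have ht : Tendsto (fun d : ℕ => Real.log d / 12000) atTop atTop :=
    (Real.tendsto_log_atTop.comp tendsto_natCast_atTop_atTop).atTop_div_const (by norm_num)
  have h1 : ∀ᶠ d : ℕ in atTop, 1 ≤ d := eventually_ge_atTop 1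
  have h2 : ∀ᶠ d : ℕ in atTop, 1000 ≤ Real.log d / 12000 := ht.eventually_ge_atTop 1000
  have h3 : ∀ᶠ x : ℝ in atTop, 10 ^ 12 * (1 + x ^ ((1 : ℝ) / 3)) ^ 12 ≤ Real.exp x := by
    have h4 := (Real.tendsto_exp_div_pow_atTop 4).eventually_ge_atTop (10 ^ 12 * 2 ^ 12)
    filter_upwards [h4, eventually_ge_atTop (1 : ℝ)] with x hx hx1
    have hx0 : 0 < x := by linarith
    rw [le_div_iff₀ (by positivity)] at hx
    refine le_trans ?_ hx
    have h5 : (1 : ℝ) ≤ x ^ ((1 : ℝ) / 3) := Real.one_le_rpow hx1 (by norm_num)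
    have h6 : (1 + x ^ ((1 : ℝ) / 3)) ^ 12 ≤ (2 * x ^ ((1 : ℝ) / 3)) ^ 12 :=
      pow_le_pow_left₀ (by linarith) (by linarith) 12
    have h7 : (2 * x ^ ((1 : ℝ) / 3)) ^ 12 = 2 ^ 12 * x ^ 4 := by
      rw [mul_pow]
      congr 1
      rw [← Real.rpow_natCast, ← Real.rpow_mul hx0.le, ← Real.rpow_natCast]
      norm_num
    rw [h7] at h6
    calc (10 : ℝ) ^ 12 * (1 + x ^ ((1 : ℝ) / 3)) ^ 12 ≤ 10 ^ 12 * (2 ^ 12 * x ^ 4) :=
          mul_le_mul_of_nonneg_left h6 (by norm_num)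
      _ = _ := by ring
  filter_upwards [h1, h2, ht.eventually h3] with d a b c
  exact ⟨a, b, c⟩

end Pool.Agent.Q2F
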