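import Mathlib
import Pool.Agent.MP_9431a4_pr.Prob

set_option autoImplicit false

/-!
The recursive expectation is the average over all numberings.
-/

namespace Pool.Agent.Q2F

open Finset

variable {E : Type} [Fintype E] [DecidableEq E] {N : ℕ}

/-- the order list of a numbering -/
def ordl (σ : E ≃ Fin N) : List E := List.ofFn (fun i => σ.symm i)

theorem ordl_length (σ : E ≃ Fin N) : (ordl σ).length = N := by
  unfold ordl; exact List.length_ofFn

theorem ordl_nodup (σ : E ≃ Fin N) : (ordl σ).Nodup := by
  unfold ordl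
  exact List.nodup_ofFn_ofInjective σ.symm.injective

theorem ordl_get (σ : E ≃ Fin N) (i : ℕ) (h : i < N) :
    (ordl σ)[i]'(by rw [ordl_length]; exact h) = σ.symm ⟨i, h⟩ := by
  unfold ordl
  rw [List.getElem_ofFn]

theorem ordl_inj {σ τ : E ≃ Fin N} (h : ordl σ = ordl τ) : σ = τ := by
  have h1 : (fun i => σ.symm i) = (fun i => τ.symm i) := List.ofFn_injective h
  have h2 : σ.symm = τ.symm := by
    ext i
    exact congrFun h1 i
  have := congrArg Equiv.symm h2
  simpa using this

theorem exists_ordl (hN : Fintype.card E = N) {l : List E} (hl : l.Nodup) (hlen : l.length = N) :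
    ∃ σ : E ≃ Fin N, ordl σ = l := by
  subst hlen
  have hbij : Function.Bijective (fun i : Fin l.length => l.get i) := by
    rw [Fintype.bijective_iff_injective_and_card]
    refine ⟨List.nodup_iff_injective_get.mp hl, ?_⟩
    rw [Fintype.card_fin, hN]
  refine ⟨(Equiv.ofBijective _ hbij).symm, ?_⟩
  unfold ordl
  rw [Equiv.symm_symm]
  exact List.ofFn_get l

/-- numberings starting with `l` -/
def pre (N : ℕ) (l : List E) : Finset (E ≃ Fin N) :=
  univ.filter (fun σ => (ordl σ).take l.length = l)

theorem mem_pre {l : List E} {σ : E ≃ Fin N} : σ ∈ pre N l ↔ (ordl σ).take l.length = l := by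
  simp [pre]

theorem take_succ_ordl {l : List E} (σ : E ≃ Fin N) (h : l.length < N) :
    (ordl σ).take (l.length + 1) = (ordl σ).take l.length ++ [σ.symm ⟨l.length, h⟩] := by
  rw [← ordl_get σ l.length h]
  exact List.take_succ_eq_append_getElem (by rw [ordl_length]; exact h)

theorem sum_pre (hN : Fintype.card E = N) (F : List E → ℝ) :
    ∀ (n : ℕ) (l : List E), l.Nodup → l.length + n = N →
      ∑ σ ∈ pre N l, F (ordl σ) = (n.factorial : ℝ) * Ex F n l := by
  intro n
  induction n with
  | zero =>
    intro l hl hlen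
    obtain ⟨σ, hσ⟩ := exists_ordl hN hl (by simpa using hlen)
    have h1 : pre N l = {σ} := by
      ext τ
      rw [mem_pre, mem_singleton]
      constructor
      · intro h
        apply ordl_inj
        rw [hσ, ← h, List.take_of_length_le]
        rw [ordl_length]; omega
      · rintro rfl
        rw [hσ, List.take_length]
    rw [h1, sum_singleton, hσ]
    simp
  | succ n ih =>
    intro l hl hlen
    have hlt : l.length < N := by omega
    have hmaps : ∀ σ ∈ pre N l, σ.symm ⟨l.length, hlt⟩ ∈ rest l := by
      intro σ hσ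
      rw [mem_pre] at hσ
      rw [mem_rest]
      intro hmem
      have hnd : ((ordl σ).take (l.length + 1)).Nodup := (ordl_nodup σ).sublist (List.take_sublist _ _)
      rw [take_succ_ordl σ hlt, hσ, List.nodup_append] at hnd
      exact hnd.2.2 _ hmem _ (List.mem_singleton_self _) rfl
    rw [← sum_fiberwise_of_maps_to hmaps]
    have hfib : ∀ g ∈ rest l, ∑ σ ∈ (pre N l).filter (fun σ => σ.symm ⟨l.length, hlt⟩ = g),
        F (ordl σ) = (n.factorial : ℝ) * Ex F n (l ++ [g]) := by
      intro g hg
      have h1 : (pre N l).filter (fun σ => σ.symm ⟨l.length, hlt⟩ = g) = pre N (l ++ [g]) := by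
        ext σ
        rw [mem_filter, mem_pre, mem_pre, List.length_append, List.length_singleton,
          take_succ_ordl σ hlt]
        constructor
        · rintro ⟨h1, h2⟩
          rw [h1, h2]
        · intro h
          have hlen2 : ((ordl σ).take l.length).length = l.length := by
            rw [List.length_take, ordl_length]; omega
          obtain ⟨h1, h2⟩ := List.append_inj h hlen2
          exact ⟨h1, by simpa using h2⟩
      rw [h1]
      exact ih _ (nodup_append hl hg) (by simp; omega)
    rw [sum_congr rfl hfib, ← mul_sum, Ex_succ]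
    unfold av
    have hcard : (rest l).card = n + 1 := by
      rw [card_rest hl, hN]; omega
    rw [hcard, Nat.factorial_succ]
    push_cast
    field_simp

theorem sum_ordl (hN : Fintype.card E = N) (F : List E → ℝ) :
    ∑ σ : E ≃ Fin N, F (ordl σ) = (N.factorial : ℝ) * Ex F N [] := by
  rw [← sum_pre hN F N [] List.nodup_nil (by simp)]
  apply sum_congr _ (fun _ _ => rfl)
  ext σ
  simp [mem_pre]

theorem card_numberings (hN : Fintype.card E = N) : Nat.card (E ≃ Fin N) = N.factorial := by
  obtain ⟨σ, -⟩ : ∃ σ : E ≃ Fin N, True := ⟨Fintype.equivFinOfCardEq hN, trivial⟩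
  rw [Nat.card_eq_fintype_card, Fintype.card_equiv σ, hN]

theorem Pr_eq_ratio (hN : Fintype.card E = N) (A : List E → Prop) :
    Pr A = (Nat.card {σ : E ≃ Fin N // A (ordl σ)} : ℝ) / (Nat.card (E ≃ Fin N) : ℝ) := by
  classical
  have h := sum_ordl hN (fun ω => if A ω then (1 : ℝ) else 0)
  have h1 : (Nat.card {σ : E ≃ Fin N // A (ordl σ)} : ℝ) =
      ∑ σ : E ≃ Fin N, (if A (ordl σ) then (1 : ℝ) else 0) := by
    rw [Nat.card_eq_fintype_card, Fintype.card_subtype, card_filter]
    push_cast
    rfl
  rw [h1, h, card_numberings hN]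
  have h2 : ((N.factorial : ℕ) : ℝ) ≠ 0 := by exact_mod_cast N.factorial_ne_zero
  rw [mul_div_cancel_left₀ _ h2]
  unfold Pr
  rw [hN]

end Pool.Agent.Q2F
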