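import Mathlib
import Pool.Agent.MP_9431a4_pr.Proc
import Pool.Agent.MP_9431a4_pr.Link

set_option autoImplicit false

/-!
The greedy set of a numbering, in the words of the problem.
-/

namespace Pool.Agent.Q2F

open Finset Classical

variable {d N : ℕ}

/-- the defining property of the greedy set, in terms of `nb` -/
def Gr (σ : Edge d ≃ Fin N) (S : Set (Edge d)) : Prop :=
  ∀ e, e ∈ S ↔ ¬ ∃ r, r ≠ dir e ∧ ∀ f ∈ nb e r, f ∈ S ∧ σ f < σ e

theorem mem_take_ordl (σ : Edge d ≃ Fin N) (m : ℕ) (f : Edge d) :
    f ∈ (ordl σ).take m ↔ (σ f : ℕ) < m := by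
  rw [List.mem_take_iff_getElem]
  constructor
  · rintro ⟨i, hi, rfl⟩
    have hi' : i < N := by rw [ordl_length] at hi; omega
    rw [ordl_get σ i hi', Equiv.apply_symm_apply]
    exact lt_of_lt_of_le hi (min_le_left _ _)
  · intro h
    have hN := (σ f).isLt
    refine ⟨(σ f : ℕ), by rw [ordl_length]; omega, ?_⟩
    rw [ordl_get σ _ hN]
    simp

theorem acc_split (σ : Edge d ≃ Fin N) (m : ℕ) (f : Edge d) :
    f ∈ acc ((ordl σ).take m) ↔ f ∈ acc (ordl σ) ∧ (σ f : ℕ) < m := by
  have h0 : (ordl σ).take m ++ (ordl σ).drop m = ordl σ := List.take_append_drop m _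
  constructor
  · intro h
    refine ⟨?_, (mem_take_ordl σ m f).mp (acc_subset _ _ h)⟩
    rw [← h0]
    exact acc_subset_append _ _ h
  · rintro ⟨h1, h2⟩
    have h3 := (mem_take_ordl σ m f).mpr h2
    have key : ∀ (l m : List (Edge d)), f ∉ m → f ∈ acc (l ++ m) → f ∈ acc l := by
      intro l m
      induction m using List.reverseRecOn with
      | nil => intro _ h; simpa using h
      | append_singleton m g ih =>
        intro hm he
        rw [← List.append_assoc, acc_append] at he
        have hg : f ≠ g := by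
          rintro rfl
          exact hm (by simp)
        have hm' : f ∉ m := fun h => hm (List.mem_append_left _ h)
        apply ih hm'
        unfold accStep at he
        split at he
        · exact he
        · rcases mem_insert.mp he with h | h
          · exact absurd h hg
          · exact h
    have hnd := ordl_nodup σ
    rw [← h0, List.nodup_append] at hnd
    rw [← h0] at h1
    exact key _ _ (fun h4 => hnd.2.2 _ h3 _ h4 rfl) h1

theorem mem_acc_ordl (σ : Edge d ≃ Fin N) (e : Edge d) :
    e ∈ acc (ordl σ) ↔ ¬ Closed (acc ((ordl σ).take (σ e))) e := by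
  have hN := (σ e).isLt
  have h1 : (ordl σ).take ((σ e : ℕ) + 1) = (ordl σ).take (σ e) ++ [e] := by
    have h2 : (ordl σ)[(σ e : ℕ)]'(by rw [ordl_length]; exact hN) = e := by
      rw [ordl_get σ _ hN]
      simp
    have h3 := List.take_succ_eq_append_getElem (l := ordl σ) (i := (σ e : ℕ))
      (by rw [ordl_length]; exact hN)
    rw [h2] at h3
    exact h3
  have h3 : e ∈ acc (ordl σ) ↔ e ∈ acc ((ordl σ).take ((σ e : ℕ) + 1)) := by
    rw [acc_split]
    constructor
    · intro h; exact ⟨h, Nat.lt_succ_self _⟩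
    · intro h; exact h.1
  rw [h3, h1, acc_append]
  have h4 : e ∉ acc ((ordl σ).take (σ e)) := by
    rw [acc_split]
    rintro ⟨_, h⟩
    exact lt_irrefl _ h
  unfold accStep
  split
  · rename_i h
    simp [h, h4]
  · rename_i h
    simp [h]

theorem Gr_acc (σ : Edge d ≃ Fin N) : Gr σ (↑(acc (ordl σ)) : Set (Edge d)) := by
  intro e
  rw [mem_coe, mem_acc_ordl, not_iff_not]
  unfold Closed
  apply exists_congr
  intro r
  apply and_congr_right
  intro _
  constructor
  · intro h f hf
    obtain ⟨h1, h2⟩ := (acc_split σ _ f).mp (h hf)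
    exact ⟨by exact_mod_cast h1, by exact_mod_cast h2⟩
  · intro h f hf
    obtain ⟨h1, h2⟩ := h f hf
    exact (acc_split σ _ f).mpr ⟨by exact_mod_cast h1, by exact_mod_cast h2⟩

theorem Gr_unique (σ : Edge d ≃ Fin N) {S T : Set (Edge d)} (hS : Gr σ S) (hT : Gr σ T) :
    S = T := by
  have key : ∀ n : ℕ, ∀ e : Edge d, (σ e : ℕ) = n → (e ∈ S ↔ e ∈ T) := by
    intro n
    induction n using Nat.strong_induction_on with
    | _ n ih =>
      intro e he
      rw [hS e, hT e, not_iff_not]
      apply exists_congr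
      intro r
      apply and_congr_right
      intro _
      apply forall_congr'
      intro f
      apply imp_congr_right
      intro _
      constructor
      · rintro ⟨h1, h2⟩
        exact ⟨(ih (σ f) (by rw [← he]; exact_mod_cast h2) f rfl).mp h1, h2⟩
      · rintro ⟨h1, h2⟩
        exact ⟨(ih (σ f) (by rw [← he]; exact_mod_cast h2) f rfl).mpr h1, h2⟩
  ext e
  exact key _ e rfl

theorem Gr_iff (σ : Edge d ≃ Fin N) (S : Set (Edge d)) :
    Gr σ S ↔ S = (↑(acc (ordl σ)) : Set (Edge d)) := by
  constructor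
  · intro h; exact Gr_unique σ h (Gr_acc σ)
  · rintro rfl; exact Gr_acc σ

/-- membership in a face, in the words of the problem -/
def InF (x : Fin d → Bool) (i j : Fin d) (f : Edge d) : Prop :=
  f.1 = (x, i) ∨ f.1 = (x, j) ∨ f.1 = (Function.update x i true, j) ∨
    f.1 = (Function.update x j true, i)

theorem val_eq_iff {x : Vx d} {i : Fin d} (hx : x i = false) (f : Edge d) :
    f.1 = (x, i) ↔ f = ed x i := by
  have h : (ed x i).1 = (x, i) := by
    unfold ed
    simp only [Prod.mk.injEq, and_true]
    rw [← hx, Function.update_eq_self]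
  rw [← h]
  exact Subtype.coe_inj

theorem upd_eq_fl {x : Vx d} {i : Fin d} (hx : x i = false) :
    Function.update x i true = fl x i := by
  unfold fl
  rw [hx]
  rfl

theorem InF_iff {x : Vx d} {i j : Fin d} (hij : i ≠ j) (hi : x i = false) (hj : x j = false)
    (f : Edge d) :
    InF x i j f ↔ f = ed x i ∨ f = ed x j ∨ f = ed (fl x i) j ∨ f = ed (fl x j) i := by
  have h1 : (fl x i) j = false := by simp [fl_apply, hij.symm, hj]
  have h2 : (fl x j) i = false := by simp [fl_apply, hij, hi]
  unfold InF
  rw [upd_eq_fl hi, upd_eq_fl hj, val_eq_iff hi, val_eq_iff hj, val_eq_iff h1, val_eq_iff h2]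

/-- the faces at `e` -/
theorem face_iff (e : Edge d) (Q : Edge d → Prop) :
    (∃ (x : Fin d → Bool) (i j : Fin d), i ≠ j ∧ x i = false ∧ x j = false ∧ InF x i j e ∧
      ∀ f : Edge d, InF x i j f → f ≠ e → Q f) ↔
    ∃ r, r ≠ dir e ∧ ∀ f ∈ nb e r, Q f := by
  constructor
  · rintro ⟨x, i, j, hij, hi, hj, he, hf⟩
    have hf' : ∀ f : Edge d, (f = ed x i ∨ f = ed x j ∨ f = ed (fl x i) j ∨ f = ed (fl x j) i) →
        f ≠ e → Q f := fun f h => hf f ((InF_iff hij hi hj f).mpr h)
    have hni : ∀ {e : Edge d} {r : Fin d}, r ≠ dir e → ∀ f ∈ nb e r, f ≠ e := by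
      intro e r hr f hfn hfe
      exact not_mem_nb hr (hfe ▸ hfn)
    rw [InF_iff hij hi hj] at he
    rcases he with rfl | rfl | rfl | rfl
    · have hr : j ≠ dir (ed x i) := by rw [dir_ed]; exact hij.symm
      refine ⟨j, hr, fun f hfn => hf' f ?_ (hni hr f hfn)⟩
      rw [mem_nb_ed] at hfn
      tauto
    · have hr : i ≠ dir (ed x j) := by rw [dir_ed]; exact hij
      refine ⟨i, hr, fun f hfn => hf' f ?_ (hni hr f hfn)⟩
      rw [mem_nb_ed] at hfn
      tauto
    · have hr : i ≠ dir (ed (fl x i) j) := by rw [dir_ed]; exact hij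
      refine ⟨i, hr, fun f hfn => hf' f ?_ (hni hr f hfn)⟩
      rw [mem_nb_ed, fl_fl, ed_fl, fl_comm x i j, ed_fl] at hfn
      tauto
    · have hr : j ≠ dir (ed (fl x j) i) := by rw [dir_ed]; exact hij.symm
      refine ⟨j, hr, fun f hfn => hf' f ?_ (hni hr f hfn)⟩
      rw [mem_nb_ed, fl_fl, ed_fl, fl_comm x j i, ed_fl] at hfn
      tauto
  · rintro ⟨r, hr, hQ⟩
    have he := ed_bs e
    set x0 := bs e with hx0
    set p := dir e with hp
    have hx0p : x0 p = false := e.2
    by_cases hx0r : x0 r = false
    · refine ⟨x0, p, r, hr.symm, hx0p, hx0r, ?_, ?_⟩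
      · rw [InF_iff hr.symm hx0p hx0r]
        left; exact he.symm
      · intro f hf hfe
        rw [InF_iff hr.symm hx0p hx0r] at hf
        apply hQ
        rw [← he, mem_nb_ed]
        rcases hf with h | h | h | h
        · exact absurd (h.trans he) hfe
        · left; exact h
        · right; left; exact h
        · right; right; exact h
    · have hx0r' : x0 r = true := by simpa using hx0r
      have h1 : (fl x0 r) p = false := by simp [fl_apply, hr.symm, hx0p]
      have h2 : (fl x0 r) r = false := by simp [fl_apply, hx0r']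
      refine ⟨fl x0 r, p, r, hr.symm, h1, h2, ?_, ?_⟩
      · rw [InF_iff hr.symm h1 h2]
        right; right; right
        rw [fl_fl]; exact he.symm
      · intro f hf hfe
        rw [InF_iff hr.symm h1 h2] at hf
        apply hQ
        rw [← he, mem_nb_ed]
        rw [fl_fl, ed_fl, fl_comm x0 r p, ed_fl] at hf
        rcases hf with h | h | h | h
        · right; right; exact h
        · left; exact h
        · right; left; exact h
        · exact absurd (h.trans he) hfe

end Pool.Agent.Q2F
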